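import Pool.Agent.Lib.K5L.ArcEx

/-!
# K5X.ArcC: the arc through the critical point on an arbitrary analytic curve
-/

set_option autoImplicit false

namespace K5X

open K5N K5C K5L Filter Topology
open scoped ContDiff

noncomputable section

/-- `S, Y, T` are analytic at `r` and `(q, S q, Y q, T q)` is on the curve `pb = 1`, `pM = 0`,
`pNet 1 = 0` through `(r, s, y, t)`. -/
structure Curve (r s y t : ℝ) (S Y T : ℝ → ℝ) : Prop where
  an_s : AnalyticAt ℝ S r
  an_y : AnalyticAt ℝ Y r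
  an_t : AnalyticAt ℝ T r
  s_eq : S r = s
  y_eq : Y r = y
  t_eq : T r = t
  b_eq : ∀ᶠ q in 𝓝 r, pb q (S q) (Y q) (T q) = 1
  marks : ∀ᶠ q in 𝓝 r, pM q (S q) (Y q) (T q) = 0
  networks : ∀ᶠ q in 𝓝 r, pNet 1 q (S q) (Y q) (T q) = 0

/-- A curve exists. -/
theorem exists_curve {r s y t : ℝ} (h : PC r s y t) : ∃ S Y T : ℝ → ℝ, Curve r s y t S Y T := by
  obtain ⟨S, Y, T, hS, hY, hT, eS, eY, eT, hev⟩ := curve h
  exact ⟨S, Y, T, hS.analyticAt, hY.analyticAt, hT.analyticAt, eS, eY, eT,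
    hev.mono fun q hq => hq.1, hev.mono fun q hq => hq.2.1, hev.mono fun q hq => hq.2.2⟩

/-- The curve satisfies the conditions near `r`. -/
theorem Curve.loc {r s y t : ℝ} {S Y T : ℝ → ℝ} (C : Curve r s y t S Y T) (h : PC r s y t) :
    ∀ᶠ q in 𝓝 r, Loc S Y T q := by
  have hS : ContDiffAt ℝ ω S r := C.an_s.contDiffAt
  have hY : ContDiffAt ℝ ω Y r := C.an_y.contDiffAt
  have hT : ContDiffAt ℝ ω T r := C.an_t.contDiffAt
  have eS := C.s_eq
  have eY := C.y_eq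
  have eT := C.t_eq
  have hev : ∀ᶠ q in 𝓝 r, pb q (S q) (Y q) (T q) = 1 ∧ fM (jet q (S q) (Y q) (T q)) = 0 ∧
      fNet (jet q (S q) (Y q) (T q)) = 0 := by
    filter_upwards [C.b_eq, C.marks, C.networks] with q h1 h2 h3
    exact ⟨h1, h2, h3⟩
  have hreg : Reg (jet r (S r) (Y r) (T r)) := by rw [eS, eY, eT]; exact h.reg
  have hdel : Del r (S r) (Y r) (T r) ≠ 0 := by rw [eS, eY, eT]; exact h.del
  have hj := sm_jet hS hY hT
  have cS := hS.continuousAt
  have cY := hY.continuousAt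
  have cT := hT.continuousAt
  have e1 : ∀ᶠ q in 𝓝 r, 0 < (jet q (S q) (Y q) (T q)).x :=
    hj.x.continuousAt.eventually (lt_mem_nhds hreg.x)
  have e2 : ∀ᶠ q in 𝓝 r, 0 < (jet q (S q) (Y q) (T q)).u :=
    hj.u.continuousAt.eventually (lt_mem_nhds hreg.u)
  have e3 : ∀ᶠ q in 𝓝 r, 1 < fD (jet q (S q) (Y q) (T q)) := by
    refine (hj.D hreg).continuousAt.eventually (lt_mem_nhds ?_)
    show 1 < fD (jet r (S r) (Y r) (T r))
    rw [eS, eY, eT]
    exact h.D
  have e4 : ∀ᶠ q in 𝓝 r, 0 < fA (jet q (S q) (Y q) (T q)) := by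
    refine (hj.A hreg).continuousAt.eventually (lt_mem_nhds ?_)
    show 0 < fA (jet r (S r) (Y r) (T r))
    rw [eS, eY, eT]
    exact h.A
  have e5 : ∀ᶠ q in 𝓝 r, 0 < q := lt_mem_nhds h.crit.r_pos
  have e6 : ∀ᶠ q in 𝓝 r, 0 < S q := cS.eventually (lt_mem_nhds (by rw [eS]; exact h.crit.s_pos))
  have e7 : ∀ᶠ q in 𝓝 r, 0 < Y q := cY.eventually (lt_mem_nhds (by rw [eY]; exact h.crit.y_pos))
  have e8 : ∀ᶠ q in 𝓝 r, 0 < T q := cT.eventually (lt_mem_nhds (by rw [eT]; exact h.crit.t_pos))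
  have e9 : ∀ᶠ q in 𝓝 r, 0 < pj q (S q) (Y q) (T q) := by
    have hc : ContinuousAt (fun q => pj q (S q) (Y q) (T q)) r := by
      unfold K5N.pj
      fun_prop
    refine hc.eventually (lt_mem_nhds ?_)
    show 0 < pj r (S r) (Y r) (T r)
    rw [eS, eY, eT]
    exact h.j
  have e10 : ∀ᶠ q in 𝓝 r, Del q (S q) (Y q) (T q) ≠ 0 :=
    (sm_Del hS hY hT hreg).continuousAt.eventually (isOpen_ne.mem_nhds hdel)
  have e11 : ∀ᶠ q in 𝓝 r, 0 < om q (S q) (Y q) (T q) := by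
    refine (sm_om hS hY hT hreg hdel).continuousAt.eventually (lt_mem_nhds ?_)
    show 0 < om r (S r) (Y r) (T r)
    rw [eS, eY, eT]
    exact h.om
  have e12 : ∀ᶠ q in 𝓝 r, 0 < HH dD q (S q) (Y q) (T q) := by
    refine (sm_HD hS hY hT hreg hdel).continuousAt.eventually (lt_mem_nhds ?_)
    show 0 < HH dD r (S r) (Y r) (T r)
    rw [eS, eY, eT]
    exact h.hd
  have e13 : ∀ᶠ q in 𝓝 r, 0 < HH dA q (S q) (Y q) (T q) := by
    refine (sm_HA hS hY hT hreg hdel).continuousAt.eventually (lt_mem_nhds ?_)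
    show 0 < HH dA r (S r) (Y r) (T r)
    rw [eS, eY, eT]
    exact h.ha
  have e14 : ∀ᶠ q in 𝓝 r, ContDiffAt ℝ ω S q := hS.eventually (by simp)
  have e15 : ∀ᶠ q in 𝓝 r, ContDiffAt ℝ ω Y q := hY.eventually (by simp)
  have e16 : ∀ᶠ q in 𝓝 r, ContDiffAt ℝ ω T q := hT.eventually (by simp)
  filter_upwards [e1, e2, e3, e4, e5, e6, e7, e8, e9, e10, e11, e12, e13, e14, e15, e16,
    hev.eventually_nhds] with q a1 a2 a3 a4 a5 a6 a7 a8 a9 a10 a11 a12 a13 a14 a15 a16 a17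
  exact ⟨a14, a15, a16, a17.mono fun w hw => hw.1, a17.mono fun w hw => hw.2.1,
    a17.mono fun w hw => hw.2.2, ⟨a1, a2, zero_lt_one.trans a3⟩, a3, a4, a5, a6, a7, a8, a9, a10,
    a11, a12, a13⟩

/-- The arc through the critical point, with the singular expansion of the networks. -/
theorem Curve.arc {r s y t : ℝ} {S Y T : ℝ → ℝ} (C : Curve r s y t S Y T) (h : PC r s y t) :
    ∃ (W : ℝ → ℝ) (ζ : ℂ → ℂ) (z3 : ℝ), AnalyticAt ℝ W 0 ∧ W 0 = r ∧ deriv W 0 < 0 ∧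
      K5L.Arc (px r s y t) W (fun v => S (W v)) (fun v => Y (W v)) (fun v => T (W v)) ∧
      K5T.T3 ζ ((fD (jet r s y t) : ℝ) : ℂ) ((-(px r s y t * HH dD r s y t) : ℝ) : ℂ) (z3 : ℂ) ∧
      z3 ≠ 0 ∧ ∀ᶠ v : ℝ in 𝓝 (0 : ℝ),
        ζ (v : ℂ) = ((fD (jet (W v) (S (W v)) (Y (W v)) (T (W v))) : ℝ) : ℂ) := by
  have hL := C.loc h
  have eS := C.s_eq
  have eY := C.y_eq
  have eT := C.t_eq
  have hr := hL.self_of_nhds
  have hc : chi r (S r) (Y r) (T r) = 0 := by
    rw [eS, eY, eT]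
    have := h.crit.crit
    unfold chi
    linarith
  obtain ⟨c, hc0, hc'⟩ := hr.chi' hc
  obtain ⟨d, hd, hd'⟩ := hr.hd' hc
  set X : ℝ → ℝ := fun q => px q (S q) (Y q) (T q) with hX
  set Z : ℝ → ℝ := fun q => fD (jet q (S q) (Y q) (T q)) with hZ
  set H : ℝ → ℝ := fun q => HH dD q (S q) (Y q) (T q) with hH
  have aX : AnalyticAt ℝ X r := hr.cX.analyticAt
  have aZ : AnalyticAt ℝ Z r := ((sm_jet hr.sS hr.sY hr.sT).D hr.reg).analyticAt
  have aH : AnalyticAt ℝ H r := (sm_HD hr.sS hr.sY hr.sT hr.reg hr.del).analyticAt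
  have dX : ∀ᶠ q in 𝓝 r, deriv X q = Xp S Y T q := hL.mono fun q hq => hq.X.deriv
  have dX1 : deriv X r = 0 := by
    rw [dX.self_of_nhds]
    exact (hr.slope hc).2.2.2
  have dX2 : deriv (deriv X) r < 0 := by
    have e1 : deriv X =ᶠ[𝓝 r] Xp S Y T := dX
    rw [e1.deriv_eq]
    have hom := ((sm_om hr.sS hr.sY hr.sT hr.reg hr.del).differentiableAt (by simp)).hasDerivAt
    have h1 := (hc'.div hom hr.om.ne').deriv
    have h2 : deriv (Xp S Y T) r = c / K5L.om r (S r) (Y r) (T r) := by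
      show deriv (fun w => chi w (S w) (Y w) (T w) / K5L.om w (S w) (Y w) (T w)) r = _
      have h3 : (fun w => chi w (S w) (Y w) (T w) / K5L.om w (S w) (Y w) (T w)) =
        (fun w => chi w (S w) (Y w) (T w)) / fun w => K5L.om w (S w) (Y w) (T w) := rfl
      rw [h3, h1, hc]
      have := hr.om.ne'
      field_simp
      ring
    rw [h2]
    exact div_neg_of_neg_of_pos hc0 hr.om
  have hzd : ∀ᶠ q in 𝓝 r, deriv Z q = deriv X q * H q := by
    filter_upwards [hL] with q hq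
    rw [hq.D.deriv, hq.X.deriv]
  have hR : 0 < px r s y t := h.crit.x_pos
  have hXr : X r = px r s y t := by
    simp only [hX]
    rw [eS, eY, eT]
  obtain ⟨V, W, ζ, aV, aW, V0, W0, dW, -, -, -, xW, Wlt, hT3, hζ⟩ :=
    zeta_T3 hR aX aZ aH hXr dX1 dX2 hzd
  have hWt : Tendsto W (𝓝 0) (𝓝 r) := by
    have := aW.continuousAt.tendsto
    rwa [W0] at this
  have hLW : ∀ᶠ v in 𝓝 (0 : ℝ), Loc S Y T (W v) := hWt.eventually hL
  -- positivity of chi to the left of `r`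
  have hchi : ∀ᶠ q in 𝓝 r, q < r → 0 < chi q (S q) (Y q) (T q) := by
    have h1 := eventually_nhdsWithin_sign_eq_of_deriv_neg (f := fun w => chi w (S w) (Y w) (T w))
      (x₀ := r) (by rw [hc'.deriv]; exact hc0) hc
    filter_upwards [h1] with q hq hlt
    rw [sign_pos (sub_pos.2 hlt)] at hq
    exact sign_eq_one_iff.1 hq
  have hdH : deriv H r = d := hd.deriv
  have hd0 : d ≠ 0 := by
    intro h0
    rw [h0, zero_mul, eS, eY, eT] at hd'
    exact h.third hd'.symm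
  -- the neighbourhoods
  obtain ⟨δ, hδ, hδL⟩ := Metric.eventually_nhds_iff.1 (hL.and hchi)
  have hmonoZ : StrictMonoOn Z (Set.Icc (r - δ / 2) r) := by
    refine strictMonoOn_of_deriv_pos (convex_Icc _ _) ?_ ?_
    · intro q hq
      have h1 : Loc S Y T q := (hδL (by rw [Real.dist_eq, abs_lt]; constructor <;>
        linarith [hq.1, hq.2])).1
      exact h1.D.continuousAt.continuousWithinAt
    · intro q hq
      rw [interior_Icc] at hq
      have h1 := hδL (y := q) (by rw [Real.dist_eq, abs_lt]; constructor <;>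
        linarith [hq.1, hq.2])
      show 0 < deriv (fun w => fD (jet w (S w) (Y w) (T w))) q
      rw [h1.1.D.deriv]
      exact mul_pos (div_pos (h1.2 hq.2) h1.1.om) h1.1.hd
  have hmonoA : StrictMonoOn (fun q => fA (jet q (S q) (Y q) (T q))) (Set.Icc (r - δ / 2) r) := by
    refine strictMonoOn_of_deriv_pos (convex_Icc _ _) ?_ ?_
    · intro q hq
      have h1 : Loc S Y T q := (hδL (by rw [Real.dist_eq, abs_lt]; constructor <;>
        linarith [hq.1, hq.2])).1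
      exact h1.A'.continuousAt.continuousWithinAt
    · intro q hq
      rw [interior_Icc] at hq
      have h1 := hδL (y := q) (by rw [Real.dist_eq, abs_lt]; constructor <;>
        linarith [hq.1, hq.2])
      rw [h1.1.A'.deriv]
      exact mul_pos (div_pos (h1.2 hq.2) h1.1.om) h1.1.ha
  have hW' : ∀ᶠ v in 𝓝 (0 : ℝ), deriv W v < 0 :=
    aW.deriv.continuousAt.eventually (gt_mem_nhds dW)
  have hWr : ∀ᶠ v in 𝓝 (0 : ℝ), r - δ / 2 < W v := hWt.eventually (lt_mem_nhds (by linarith))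
  have hWa : ∀ᶠ v in 𝓝 (0 : ℝ), AnalyticAt ℝ W v := aW.eventually_analyticAt
  obtain ⟨ε, hε, hεW⟩ := Metric.eventually_nhds_iff.1 ((hW'.and hWr).and hWa)
  have hW2 : ∀ v ∈ Set.Icc (0 : ℝ) (ε / 2), dist v 0 < ε := by
    intro v hv
    rw [Real.dist_eq, sub_zero, abs_lt]
    constructor <;> linarith [hv.1, hv.2]
  have hanti : StrictAntiOn W (Set.Icc 0 (ε / 2)) := by
    refine strictAntiOn_of_deriv_neg (convex_Icc _ _) ?_ ?_
    · intro v hv
      exact (hεW (hW2 v hv)).2.continuousAt.continuousWithinAt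
    · intro v hv
      rw [interior_Icc] at hv
      exact (hεW (hW2 v ⟨hv.1.le, hv.2.le⟩)).1.1
  have hmem : ∀ v ∈ Set.Icc (0 : ℝ) (ε / 2), W v ∈ Set.Icc (r - δ / 2) r := by
    intro v hv
    refine ⟨(hεW (hW2 v hv)).1.2.le, ?_⟩
    rcases hv.1.eq_or_lt with h0 | h0
    · rw [← h0, W0]
    · rw [← W0]
      exact (hanti ⟨le_rfl, by linarith⟩ hv h0).le
  refine ⟨W, ζ, -(2 / 3 * px r s y t * (deriv H r * deriv W 0)), aW, W0, dW, ?_, ?_, ?_, hζ⟩
  · have aS : ContDiffAt ℝ ω (fun v => S (W v)) 0 := by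
      refine ContDiffAt.comp (g := S) (0 : ℝ) ?_ aW.contDiffAt
      rw [W0]
      exact hr.sS
    have aY : ContDiffAt ℝ ω (fun v => Y (W v)) 0 := by
      refine ContDiffAt.comp (g := Y) (0 : ℝ) ?_ aW.contDiffAt
      rw [W0]
      exact hr.sY
    have aT : ContDiffAt ℝ ω (fun v => T (W v)) 0 := by
      refine ContDiffAt.comp (g := T) (0 : ℝ) ?_ aW.contDiffAt
      rw [W0]
      exact hr.sT
    have hst : ∀ᶠ v in 𝓝[>] (0 : ℝ), 0 < chi (W v) (S (W v)) (Y (W v)) (T (W v)) := by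
      have h1 : ∀ᶠ v in 𝓝[>] (0 : ℝ), W v < r → 0 < chi (W v) (S (W v)) (Y (W v)) (T (W v)) :=
        (hWt.eventually hchi).filter_mono nhdsWithin_le_nhds
      filter_upwards [h1, Wlt] with v h2 h3
      exact h2 h3
    have hgood : ∀ᶠ v in 𝓝[≥] (0 : ℝ), Good (W v) (S (W v)) (Y (W v)) (T (W v)) := by
      have h1 : ∀ᶠ v in 𝓝[≥] (0 : ℝ), Loc S Y T (W v) := hLW.filter_mono nhdsWithin_le_nhds
      have h2 : ∀ᶠ v in 𝓝[≥] (0 : ℝ), 0 ≤ chi (W v) (S (W v)) (Y (W v)) (T (W v)) := by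
        rw [eventually_nhdsWithin_iff] at hst ⊢
        filter_upwards [hst] with v hv hv0
        rcases (Set.mem_Ici.1 hv0).eq_or_lt with h0 | h0
        · rw [← h0, W0, hc]
        · exact (hv h0).le
      filter_upwards [h1, h2] with v h3 h4
      exact h3.good h4
    exact ⟨hR, aW.contDiffAt, aS, aY, aT, xW, hLW.mono fun v hv => hv.M.self_of_nhds,
      hLW.mono fun v hv => hv.Net.self_of_nhds, hgood, hLW.mono fun v hv => hv.j, hst,
      hLW.mono fun v hv => hv.Y0, hLW.mono fun v hv => hv.T0, hLW.mono fun v hv => hv.one,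
      hLW.mono fun v hv => hv.A, hLW.mono fun v hv => hv.reg.u,
      ⟨ε / 2, by linarith, anti_comp hmonoZ hanti hmem, anti_comp hmonoA hanti hmem⟩⟩
  · have e1 : Z r = fD (jet r s y t) := by
      simp only [hZ]
      rw [eS, eY, eT]
    have e2 : H r = HH dD r s y t := by
      simp only [hH]
      rw [eS, eY, eT]
    rw [← e1, ← e2]
    exact hT3
  · rw [hdH]
    have h1 : 2 / 3 * px r s y t * (d * deriv W 0) ≠ 0 :=
      mul_ne_zero (by positivity) (mul_ne_zero hd0 dW.ne)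
    exact neg_ne_zero.2 h1

end

end K5X
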