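import Mathlib

/-!
# K5X.Chain: Taylor coefficients along the arc from derivatives along the curve
-/

set_option autoImplicit false

namespace K5X

open Filter Topology

namespace ChainAux

theorem quad2 (R : ℝ) : iteratedDeriv 2 (fun v : ℝ => R * (1 - v ^ 2)) 0 = -2 * R ∧
    iteratedDeriv 3 (fun v : ℝ => R * (1 - v ^ 2)) 0 = 0 ∧
    deriv (fun v : ℝ => R * (1 - v ^ 2)) 0 = 0 := by
  have h1 : deriv (fun v : ℝ => R * (1 - v ^ 2)) = fun v => -2 * R * v := by
    funext v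
    have h : HasDerivAt (fun v : ℝ => R * (1 - v ^ 2)) (R * (0 - (2 : ℕ) * v ^ 1 * 1)) v :=
      (((hasDerivAt_const v (1 : ℝ)).sub ((hasDerivAt_id v).pow 2)).const_mul R)
    rw [h.deriv]
    push_cast
    ring
  have h2 : deriv (fun v : ℝ => -2 * R * v) = fun _ => -2 * R := by
    funext v
    have h : HasDerivAt (fun v : ℝ => -2 * R * v) (-2 * R * 1) v := (hasDerivAt_id v).const_mul _
    rw [h.deriv]
    ring
  refine ⟨?_, ?_, ?_⟩
  · rw [iteratedDeriv_succ, iteratedDeriv_one, h1, h2]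
  · rw [iteratedDeriv_succ, iteratedDeriv_succ, iteratedDeriv_one, h1, h2]
    simp
  · rw [h1]
    simp

end ChainAux

open ChainAux

/-- Taylor coefficients of `b ∘ W` at `0`, where `X (W v) = R (1 - v ^ 2)`. -/
theorem chain {X b W : ℝ → ℝ} {r R : ℝ} (hR : 0 < R) (hX : AnalyticAt ℝ X r)
    (hb : AnalyticAt ℝ b r) (hW : AnalyticAt ℝ W 0) (W0 : W 0 = r) (dW : deriv W 0 < 0)
    (hXW : ∀ᶠ v in 𝓝 (0 : ℝ), X (W v) = R * (1 - v ^ 2))
    (hf : deriv (fun v => b (W v)) 0 = 0) :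
    iteratedDeriv 2 X r < 0 ∧
    iteratedDeriv 2 (fun v => b (W v)) 0 / 2 =
      -(R * iteratedDeriv 2 b r / iteratedDeriv 2 X r) ∧
    iteratedDeriv 3 (fun v => b (W v)) 0 / 6 =
      R / (3 * iteratedDeriv 2 X r) *
        (iteratedDeriv 3 b r - iteratedDeriv 2 b r * iteratedDeriv 3 X r / iteratedDeriv 2 X r) *
        Real.sqrt (-(2 * R / iteratedDeriv 2 X r)) := by
  subst W0
  obtain ⟨q2, q3, q1⟩ := quad2 R
  have hWc (n : ℕ∞) : ContDiffAt ℝ n W 0 := hW.contDiffAt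
  have hXc (n : ℕ∞) : ContDiffAt ℝ n X (W 0) := hX.contDiffAt
  have hbc (n : ℕ∞) : ContDiffAt ℝ n b (W 0) := hb.contDiffAt
  have e : (X ∘ W) =ᶠ[𝓝 0] fun v : ℝ => R * (1 - v ^ 2) := hXW
  have c1 : deriv X (W 0) * deriv W 0 = 0 := by
    have h := (hX.differentiableAt.hasDerivAt.comp (0 : ℝ) hW.differentiableAt.hasDerivAt).deriv
    rw [e.deriv_eq, q1] at h
    exact h.symm
  have hX1 : deriv X (W 0) = 0 := by
    rcases mul_eq_zero.1 c1 with h | h
    · exact h
    · exact absurd h dW.ne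
  have d1 : deriv b (W 0) * deriv W 0 = 0 := by
    have h := (hb.differentiableAt.hasDerivAt.comp (0 : ℝ) hW.differentiableAt.hasDerivAt).deriv
    exact h.symm.trans hf
  have hb1 : deriv b (W 0) = 0 := by
    rcases mul_eq_zero.1 d1 with h | h
    · exact h
    · exact absurd h dW.ne
  have c2 := iteratedDeriv_comp_two (hXc 2) (hWc 2)
  have c3 := iteratedDeriv_comp_three (hXc 3) (hWc 3)
  have d2 := iteratedDeriv_comp_two (hbc 2) (hWc 2)
  have d3 := iteratedDeriv_comp_three (hbc 3) (hWc 3)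
  rw [e.iteratedDeriv_eq, q2, hX1] at c2
  rw [e.iteratedDeriv_eq, q3, hX1] at c3
  rw [hb1] at d2 d3
  have g2 : iteratedDeriv 2 (fun v => b (W v)) 0 = iteratedDeriv 2 b (W 0) * deriv W 0 ^ 2 := by
    show iteratedDeriv 2 (b ∘ W) 0 = _
    linarith
  have g3 : iteratedDeriv 3 (fun v => b (W v)) 0 = iteratedDeriv 3 b (W 0) * deriv W 0 ^ 3 +
      3 * iteratedDeriv 2 b (W 0) * iteratedDeriv 2 W 0 * deriv W 0 := by
    show iteratedDeriv 3 (b ∘ W) 0 = _
    linarith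
  rw [g2, g3]
  generalize iteratedDeriv 2 X (W 0) = X2 at *
  generalize iteratedDeriv 3 X (W 0) = X3 at *
  generalize iteratedDeriv 2 b (W 0) = b2 at *
  generalize iteratedDeriv 3 b (W 0) = b3 at *
  generalize iteratedDeriv 2 W 0 = W2 at *
  generalize deriv W 0 = w at *
  have hw2 : 0 < w ^ 2 := by nlinarith [mul_pos_of_neg_of_neg dW dW]
  have hX2 : X2 < 0 := by
    by_contra h
    push Not at h
    nlinarith [mul_nonneg h hw2.le]
  have hX0 : X2 ≠ 0 := hX2.ne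
  have e1 : w ^ 2 = -(2 * R / X2) := by
    rw [← neg_div, eq_div_iff hX0]
    linarith
  have e2 : Real.sqrt (-(2 * R / X2)) = -w := by
    rw [← e1, ← neg_sq, Real.sqrt_sq (by linarith)]
  have e3 : X3 * w ^ 2 + 3 * X2 * W2 = 0 := by
    have h : w * (X3 * w ^ 2 + 3 * X2 * W2) = 0 := by linarith
    rcases mul_eq_zero.1 h with h | h
    · exact absurd h dW.ne
    · exact h
  have h3 : 3 * X2 ≠ 0 := mul_ne_zero (by norm_num) hX0
  have e4 : W2 = -(X3 * w ^ 2) / (3 * X2) := by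
    rw [eq_div_iff h3]
    linarith
  refine ⟨hX2, ?_, ?_⟩
  · rw [e1]
    field_simp
  · rw [e2, e4]
    have e5 : R = -(X2 * w ^ 2) / 2 := by linarith
    rw [e5]
    field_simp
    ring_nf

end K5X
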