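import Pool.Agent.Lib.K5T.Defs
import Mathlib.Analysis.Calculus.IteratedDeriv.Lemmas
import Mathlib.Analysis.Analytic.IteratedFDeriv

/-!
# K5X.Coef: Taylor coefficients of a real function with a local expansion
-/

set_option autoImplicit false

namespace K5X

open Filter Topology Asymptotics K5T

namespace CoefAux

theorem step {c : ℝ} {q : ℝ → ℝ} {k : ℕ} (hq : ContinuousAt q 0)
    (h : (fun v : ℝ => c + v * q v) =O[𝓝[>] (0 : ℝ)] fun v => v ^ (k + 1)) :
    c = 0 ∧ q =O[𝓝[>] (0 : ℝ)] fun v => v ^ k := by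
  have h1 : Tendsto (fun v : ℝ => c + v * q v) (𝓝[>] (0 : ℝ)) (𝓝 c) := by
    have h2 : ContinuousAt (fun v : ℝ => c + v * q v) 0 := by fun_prop
    have h3 := h2.tendsto
    simp only [zero_mul, add_zero] at h3
    exact h3.mono_left nhdsWithin_le_nhds
  have h4 : Tendsto (fun v : ℝ => v ^ (k + 1)) (𝓝[>] (0 : ℝ)) (𝓝 0) := by
    have h5 : ContinuousAt (fun v : ℝ => v ^ (k + 1)) 0 := by fun_prop
    have h6 := h5.tendsto
    simp only [ne_eq, Nat.add_eq_zero_iff, one_ne_zero, and_false, not_false_eq_true,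
      zero_pow] at h6
    exact h6.mono_left nhdsWithin_le_nhds
  have hc : c = 0 := tendsto_nhds_unique h1 (h.trans_tendsto h4)
  refine ⟨hc, ?_⟩
  subst hc
  have h7 := (isBigO_refl (fun v : ℝ => v⁻¹) (𝓝[>] (0 : ℝ))).mul h
  refine (h7.congr' ?_ ?_)
  · filter_upwards [self_mem_nhdsWithin] with v hv
    have hv0 : v ≠ 0 := (Set.mem_Ioi.1 hv).ne'
    field_simp
    ring
  · filter_upwards [self_mem_nhdsWithin] with v hv
    have hv0 : v ≠ 0 := (Set.mem_Ioi.1 hv).ne'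
    field_simp
    ring

theorem poly_zero {c0 c1 c2 c3 : ℝ}
    (h : (fun v : ℝ => c0 + c1 * v + c2 * v ^ 2 + c3 * v ^ 3) =O[𝓝[>] (0 : ℝ)] fun v => v ^ 4) :
    c0 = 0 ∧ c1 = 0 ∧ c2 = 0 ∧ c3 = 0 := by
  have h0 : (fun v : ℝ => c0 + v * (c1 + v * (c2 + v * c3))) =O[𝓝[>] (0 : ℝ)]
      fun v => v ^ (3 + 1) := by
    refine h.congr_left fun v => ?_
    ring
  obtain ⟨e0, h1⟩ := step (q := fun v => c1 + v * (c2 + v * c3)) (by fun_prop) h0
  obtain ⟨e1, h2⟩ := step (k := 2) (q := fun v => c2 + v * c3) (by fun_prop) h1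
  obtain ⟨e2, h3⟩ := step (k := 1) (q := fun _ => c3) (by fun_prop) h2
  have h4 : (fun v : ℝ => c3 + v * 0) =O[𝓝[>] (0 : ℝ)] fun v => v ^ (0 + 1) := by
    refine h3.congr (fun v => by ring) (fun v => by ring)
  exact ⟨e0, e1, e2, (step (q := fun _ => 0) (by fun_prop) h4).1⟩

theorem taylor3 {f : ℝ → ℝ} (hf : AnalyticAt ℝ f 0) :
    (fun v : ℝ => f v - (f 0 + deriv f 0 * v + iteratedDeriv 2 f 0 / 2 * v ^ 2 +
      iteratedDeriv 3 f 0 / 6 * v ^ 3)) =O[𝓝 (0 : ℝ)] fun v => v ^ 4 := by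
  have h1 := hf.hasFPowerSeriesAt.isBigO_sub_partialSum_pow 4
  refine (h1.congr_left fun v => ?_).trans ?_
  · simp only [zero_add, FormalMultilinearSeries.partialSum, Finset.sum_range_succ,
      Finset.sum_range_zero, FormalMultilinearSeries.ofScalars_apply_eq, smul_eq_mul,
      iteratedDeriv_zero, iteratedDeriv_one, Nat.factorial]
    norm_num
  · refine IsBigO.of_bound 1 (Eventually.of_forall fun v => ?_)
    simp

end CoefAux

open CoefAux

/-- The coefficients of the local expansion are the Taylor coefficients along the real axis. -/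
theorem T3_coef {h : ℂ → ℂ} {a0 a2 a3 : ℝ} (t3 : T3 h a0 a2 a3) {f : ℝ → ℝ}
    (hf : AnalyticAt ℝ f 0) (he : ∀ᶠ v : ℝ in 𝓝[>] (0 : ℝ), h (v : ℂ) = (f v : ℂ)) :
    a0 = f 0 ∧ deriv f 0 = 0 ∧ a2 = iteratedDeriv 2 f 0 / 2 ∧ a3 = iteratedDeriv 3 f 0 / 6 := by
  have h1 : (fun v : ℝ => f v - (a0 + a2 * v ^ 2 + a3 * v ^ 3)) =O[𝓝[>] (0 : ℝ)]
      fun v => v ^ 4 := by
    have h2 : Tendsto (fun v : ℝ => (v : ℂ)) (𝓝[>] (0 : ℝ)) (𝓝 0) := by
      have := (Complex.continuous_ofReal.tendsto 0).mono_left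
        (nhdsWithin_le_nhds (s := Set.Ioi (0 : ℝ)))
      simpa using this
    have h3 := t3.exp.comp_tendsto h2
    rw [← isBigO_norm_norm] at h3 ⊢
    refine h3.congr' ?_ ?_
    · filter_upwards [he] with v hv
      simp only [Function.comp_apply]
      rw [hv, ← Complex.norm_real]
      push_cast
      rfl
    · filter_upwards with v
      simp only [Function.comp_apply]
      rw [← Complex.norm_real]
      push_cast
      rfl
  have h4 := (taylor3 hf).mono (nhdsWithin_le_nhds (s := Set.Ioi (0 : ℝ)))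
  have h5 := h1.sub h4
  have h6 : (fun v : ℝ => (f 0 - a0) + deriv f 0 * v + (iteratedDeriv 2 f 0 / 2 - a2) * v ^ 2 +
      (iteratedDeriv 3 f 0 / 6 - a3) * v ^ 3) =O[𝓝[>] (0 : ℝ)] fun v => v ^ 4 := by
    refine h5.congr_left fun v => ?_
    ring
  obtain ⟨e0, e1, e2, e3⟩ := poly_zero h6
  refine ⟨by linarith, e1, by linarith, by linarith⟩

/-- Local expansions of two functions which agree on the positive real axis near `0`. -/
theorem T3_unique {h k : ℂ → ℂ} {a0 a2 a3 b0 b2 b3 : ℝ} (t3 : T3 h a0 a2 a3)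
    (u3 : T3 k b0 b2 b3) (he : ∀ᶠ v : ℝ in 𝓝[>] (0 : ℝ), h (v : ℂ) = k (v : ℂ)) :
    a0 = b0 ∧ a2 = b2 ∧ a3 = b3 := by
  have h2 : Tendsto (fun v : ℝ => (v : ℂ)) (𝓝[>] (0 : ℝ)) (𝓝 0) := by
    have := (Complex.continuous_ofReal.tendsto 0).mono_left
      (nhdsWithin_le_nhds (s := Set.Ioi (0 : ℝ)))
    simpa using this
  have h3 := (t3.exp.comp_tendsto h2).sub (u3.exp.comp_tendsto h2)
  have h6 : (fun v : ℝ => (b0 - a0) + 0 * v + (b2 - a2) * v ^ 2 +
      (b3 - a3) * v ^ 3) =O[𝓝[>] (0 : ℝ)] fun v => v ^ 4 := by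
    rw [← isBigO_norm_norm] at h3 ⊢
    refine h3.congr' ?_ ?_
    · filter_upwards [he] with v hv
      simp only [Function.comp_apply]
      rw [hv, ← Complex.norm_real]
      push_cast
      congr 1
      ring
    · filter_upwards with v
      simp only [Function.comp_apply]
      rw [← Complex.norm_real]
      push_cast
      rfl
  obtain ⟨e0, -, e2, e3⟩ := poly_zero h6
  exact ⟨by linarith, by linarith, by linarith⟩

end K5X
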