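import Pool.Agent.Lib.K5X.Stat

/-!
# K5X.Cst: closed forms of the coefficients of the singular expansion of the blocks

Along the curve `pb = 1`, `pM = 0`, `pNet 1 = 0`: `HB` is the derivative of `pBx 1` with respect to `px`, and at
the critical point `HBd` is the derivative of `HB` and `chid / om` the second derivative of `px`, in the parameter `r`.
-/

set_option autoImplicit false

namespace K5X

open K5N K5C K5L Filter Topology
open scoped ContDiff

noncomputable section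

/-- `d(cf)/dx` at constant `y, t`. -/
def lg (r s y t : ℝ) : ℝ :=
  Real.log (r / px r s y t) - Real.log ((s - r) / (1 - px r s y t))

/-- The derivative of `cf` with respect to `px` along the curve. -/
def Hf (r s y t : ℝ) : ℝ :=
  lg r s y t + K5L.a2 r s / 2 * Yx r s y t + K5L.a3 r s / 3 * Tx r s y t

/-- The derivative of `pBx 1` with respect to `px` along the curve. -/
def HB (r s y t : ℝ) : ℝ := Hf r s y t / 2 + HH dJ r s y t

/-- The derivatives of `Yx` and `Tx` along the curve at the critical point. -/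
def Yxx (r s y t : ℝ) : ℝ :=
  (gT dM r s y t * dNet (jet r s y t) (del r s y t)
    - gT dNet r s y t * dM (jet r s y t) (del r s y t)) / Del r s y t
def Txx (r s y t : ℝ) : ℝ :=
  (gY dNet r s y t * dM (jet r s y t) (del r s y t)
    - gY dM r s y t * dNet (jet r s y t) (del r s y t)) / Del r s y t

/-- The derivative of `Hf` along the curve at the critical point; `σ = ds/dr`. -/
def Hfd (r s y t : ℝ) : ℝ :=
  1 / r - (sl r s y t - 1) / (s - r)
    + ((sl r s y t * (s + 2 * r) + s * (sl r s y t + 2)) * Yx r s y t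
      + K5L.a2 r s * Yxx r s y t) / 2
    + ((sl r s y t * (s ^ 2 + 6 * r * s + 3 * r ^ 2)
        + s * (2 * s * sl r s y t + 6 * (s + r * sl r s y t) + 6 * r)) * Tx r s y t
      + K5L.a3 r s * Txx r s y t) / 3

/-- The derivative of `HB` along the curve at the critical point. -/
def HBd (r s y t : ℝ) : ℝ :=
  Hfd r s y t / 2 + (dJ (jet r s y t) (del r s y t) + gY dJ r s y t * Yxx r s y t
    + gT dJ r s y t * Txx r s y t)

/-- The derivative of `chi` along the curve at the critical point. -/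
def chid (r s y t : ℝ) : ℝ :=
  2 * pj r s y t * (-2 * y * (1 + sl r s y t)
      - 3 * t * (2 * r + 4 * (s + r * sl r s y t) + 2 * s * sl r s y t))
    - 4 * (s + r * sl r s y t) * (y + 3 * t * (r + s)) ^ 2
    - 4 * r * s * (2 * (y + 3 * t * (r + s)) * (3 * t * (1 + sl r s y t)))

/-- The coefficient of `v ^ 3` in `pBx 1` on the arc `px = R (1 - v ^ 2)`. -/
def aThree (r s y t : ℝ) : ℝ :=
  2 / 3 * px r s y t * HBd r s y t *
    Real.sqrt (2 * px r s y t * om r s y t / -chid r s y t)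

variable {S Y T : ℝ → ℝ} {q : ℝ}

/-- The differential of `cf` on `pb = 1`. -/
theorem hasDerivAt_cf {r s y t : ℝ → ℝ} {r' s' y' t' q : ℝ} (hr : HasDerivAt r r' q)
    (hs : HasDerivAt s s' q) (hy : HasDerivAt y y' q) (ht : HasDerivAt t t' q)
    (hr0 : 0 < r q) (hx0 : 0 < px (r q) (s q) (y q) (t q)) (hx1 : px (r q) (s q) (y q) (t q) < 1)
    (hb : pb (r q) (s q) (y q) (t q) = 1) :
    s q - r q ≠ 0 ∧
    HasDerivAt (fun w => cf (px (r w) (s w) (y w) (t w)) (r w) (s w) (y w) (t w))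
      (lg (r q) (s q) (y q) (t q) * dpx (r q) (s q) (y q) (t q) r' s' y' t'
        + K5L.a2 (r q) (s q) / 2 * y' + K5L.a3 (r q) (s q) / 3 * t') q := by
  have e1 : 1 - px (r q) (s q) (y q) (t q) = (s q - r q) *
      (1 - y q * (r q + s q) - t q * (r q ^ 2 + 4 * r q * s q + s q ^ 2)) := by
    have e0 : pb (r q) (s q) (y q) (t q) - px (r q) (s q) (y q) (t q) = (s q - r q) *
      (1 - y q * (r q + s q) - t q * (r q ^ 2 + 4 * r q * s q + s q ^ 2)) := by
      unfold pb px
      ring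
    rw [hb] at e0
    exact e0
  have e2 : px (r q) (s q) (y q) (t q) = r q * (1 - y q * (r q + 2 * s q)
      - t q * (r q ^ 2 + 6 * r q * s q + 3 * s q ^ 2)) := by
    unfold px
    ring
  have h1 : 1 - px (r q) (s q) (y q) (t q) ≠ 0 := by linarith
  have h2 : s q - r q ≠ 0 := by
    intro h
    rw [h, zero_mul] at e1
    exact h1 e1
  have hx := hasDerivAt_px hr hs hy ht
  refine ⟨h2, ?_⟩
  have g1 : r q / px (r q) (s q) (y q) (t q) ≠ 0 := (div_pos hr0 hx0).ne'
  have g2 : (s q - r q) / (1 - px (r q) (s q) (y q) (t q)) ≠ 0 := div_ne_zero h2 h1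
  have hl1 := (hr.div hx hx0.ne').log g1
  have hl2 := ((hs.sub hr).div (hx.const_sub 1) h1).log g2
  unfold cf lg
  refine ((((((hx.mul hl1).add ((hx.const_sub 1).mul hl2)).add_const 1).sub hs).add
    ((hy.mul (hs.mul (hs.add (hr.const_mul 2)))).div_const 2)).add
    ((ht.mul (hs.mul (((hs.pow 2).add ((hr.const_mul 6).mul hs)).add
      ((hr.pow 2).const_mul 3)))).div_const 3)).congr_deriv ?_
  push_cast
  simp only [Pi.pow_apply, Pi.mul_apply, Pi.add_apply, Pi.div_apply, Pi.sub_apply]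
  generalize Real.log (r q / px (r q) (s q) (y q) (t q)) = l1
  generalize Real.log ((s q - r q) / (1 - px (r q) (s q) (y q) (t q))) = l2
  generalize dpx (r q) (s q) (y q) (t q) r' s' y' t' = x' 
  have h3 : px (r q) (s q) (y q) (t q) ≠ 0 := hx0.ne'
  have h4 : r q ≠ 0 := hr0.ne'
  have e3 : px (r q) (s q) (y q) (t q) * ((r' * px (r q) (s q) (y q) (t q) - r q * x') /
      px (r q) (s q) (y q) (t q) ^ 2 / (r q / px (r q) (s q) (y q) (t q))) =
      (1 - y q * (r q + 2 * s q) - t q * (r q ^ 2 + 6 * r q * s q + 3 * s q ^ 2)) * r' - x' := by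
    have e4 : (1 - y q * (r q + 2 * s q) - t q * (r q ^ 2 + 6 * r q * s q + 3 * s q ^ 2)) =
        px (r q) (s q) (y q) (t q) / r q := by
      rw [e2]
      field_simp
    rw [e4]
    field_simp
  have e5 : (1 - px (r q) (s q) (y q) (t q)) *
      (((s' - r') * (1 - px (r q) (s q) (y q) (t q)) - (s q - r q) * -x') /
      (1 - px (r q) (s q) (y q) (t q)) ^ 2 / ((s q - r q) / (1 - px (r q) (s q) (y q) (t q)))) =
      (1 - y q * (r q + s q) - t q * (r q ^ 2 + 4 * r q * s q + s q ^ 2)) * (s' - r') + x' := by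
    have e6 : (1 - y q * (r q + s q) - t q * (r q ^ 2 + 4 * r q * s q + s q ^ 2)) =
        (1 - px (r q) (s q) (y q) (t q)) / (s q - r q) := by
      rw [e1]
      field_simp
    rw [e6]
    field_simp
    ring
  rw [e3, e5]
  unfold K5L.a2 K5L.a3
  ring

/-- The derivative of `pBx 1` along the curve. -/
theorem loc_B (hL : ∀ᶠ w in 𝓝 q, Loc S Y T w) (hx1 : px q (S q) (Y q) (T q) < 1) :
    HasDerivAt (fun w => pBx 1 w (S w) (Y w) (T w)) (Xp S Y T q * HB q (S q) (Y q) (T q)) q := by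
  have h := hL.self_of_nhds
  have h1 := (hasDerivAt_cf (hasDerivAt_id q) h.dS h.dY h.dT h.q0 h.reg.x hx1
    h.b.self_of_nhds).2
  have h2 := hasJ_J h.jet' h.reg
  have h3 := (h1.div_const 2).add h2
  have h4 : (fun w => pBx 1 w (S w) (Y w) (T w)) =ᶠ[𝓝 q] fun w =>
      cf (px (id w) (S w) (Y w) (T w)) (id w) (S w) (Y w) (T w) / 2 +
        fJ (jet w (S w) (Y w) (T w)) := by
    filter_upwards [hL] with w hw
    exact pBx_eq hw.reg
  refine (h3.congr_of_eventuallyEq h4).congr_deriv ?_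
  show _ / 2 + dJ (jet q (S q) (Y q) (T q)) (cb q (S q)
    (dpx q (S q) (Y q) (T q) 1 (deriv S q) (deriv Y q) (deriv T q)) (deriv Y q) (deriv T q)) = _
  rw [dJ_cb]
  simp only [id]
  rw [h.x', h.y', h.t']
  unfold HB Hf HH gX gY gT
  ring

/-- The derivatives of `Yx` and `Tx` along the curve at the critical point. -/
theorem loc_yxx (h : Loc S Y T q) (hc : chi q (S q) (Y q) (T q) = 0) :
    deriv (fun w => Yx w (S w) (Y w) (T w)) q = Yxx q (S q) (Y q) (T q) ∧
    deriv (fun w => Tx w (S w) (Y w) (T w)) q = Txx q (S q) (Y q) (T q) := by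
  obtain ⟨e1, e2, e3, e4⟩ := h.slope hc
  have dS := h.dS
  rw [e1] at dS
  have hj : HasJ (fun w => jet w (S w) (Y w) (T w)) J0 q := by
    have h1 := h.jet'
    rw [h.x', e4, e2, e3] at h1
    have h2 : cb q (S q) 0 0 0 = J0 := by
      simp [cb, J0]
    rw [h2] at h1
    exact h1
  have M1 := Stat.dM' hj h.reg (hasJ_cb dS 1 0 0)
  have M2 := Stat.dM' hj h.reg (hasJ_cb dS 0 1 0)
  have M3 := Stat.dM' hj h.reg (hasJ_cb dS 0 0 1)
  have N1 := Stat.dNet' hj h.reg (hasJ_cb dS 1 0 0)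
  have N2 := Stat.dNet' hj h.reg (hasJ_cb dS 0 1 0)
  have N3 := Stat.dNet' hj h.reg (hasJ_cb dS 0 0 1)
  have hYx := ((sm_Yx h.sS h.sY h.sT h.reg h.del).differentiableAt (by simp)).hasDerivAt
  have hTx := ((sm_Tx h.sS h.sY h.sT h.reg h.del).differentiableAt (by simp)).hasDerivAt
  set Y' := deriv (fun w => Yx w (S w) (Y w) (T w)) q with hY'
  set T' := deriv (fun w => Tx w (S w) (Y w) (T w)) q with hT'
  have hDel : ∀ᶠ w in 𝓝 q, Del w (S w) (Y w) (T w) ≠ 0 :=
    (sm_Del h.sS h.sY h.sT h.reg).continuousAt.eventually (isOpen_ne.mem_nhds h.del)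
  have HM : ∀ᶠ w in 𝓝 q, HH dM w (S w) (Y w) (T w) = 0 := by
    filter_upwards [hDel] with w hw
    unfold HH Yx Tx
    field_simp
    unfold Del
    ring
  have HN : ∀ᶠ w in 𝓝 q, HH dNet w (S w) (Y w) (T w) = 0 := by
    filter_upwards [hDel] with w hw
    unfold HH Yx Tx
    field_simp
    unfold Del
    ring
  have hHM := (M1.add (M2.mul hYx)).add (M3.mul hTx)
  have hHN := (N1.add (N2.mul hYx)).add (N3.mul hTx)
  have zM := hHM.unique ((hasDerivAt_const q (0 : ℝ)).congr_of_eventuallyEq HM)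
  have zN := hHN.unique ((hasDerivAt_const q (0 : ℝ)).congr_of_eventuallyEq HN)
  have eM : dM (jet q (S q) (Y q) (T q)) (K5L.del q (S q) (Y q) (T q)) =
      dM (jet q (S q) (Y q) (T q)) (gn (cc q (S q) 1 (sl q (S q) (Y q) (T q))) 1 0 0)
      + Yx q (S q) (Y q) (T q) *
        dM (jet q (S q) (Y q) (T q)) (gn (cc q (S q) 1 (sl q (S q) (Y q) (T q))) 0 1 0)
      + Tx q (S q) (Y q) (T q) *
        dM (jet q (S q) (Y q) (T q)) (gn (cc q (S q) 1 (sl q (S q) (Y q) (T q))) 0 0 1) := by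
    unfold K5L.del
    rw [dcb_eq, dM_gn]
    ring
  have eN : dNet (jet q (S q) (Y q) (T q)) (K5L.del q (S q) (Y q) (T q)) =
      dNet (jet q (S q) (Y q) (T q)) (gn (cc q (S q) 1 (sl q (S q) (Y q) (T q))) 1 0 0)
      + Yx q (S q) (Y q) (T q) *
        dNet (jet q (S q) (Y q) (T q)) (gn (cc q (S q) 1 (sl q (S q) (Y q) (T q))) 0 1 0)
      + Tx q (S q) (Y q) (T q) *
        dNet (jet q (S q) (Y q) (T q)) (gn (cc q (S q) 1 (sl q (S q) (Y q) (T q))) 0 0 1) := by
    unfold K5L.del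
    rw [dcb_eq, dNet_gn]
    ring
  unfold Yxx Txx
  rw [eq_div_iff h.del, eq_div_iff h.del, eM, eN]
  unfold Del
  simp only [gY, gT] at zM zN ⊢
  constructor
  · linear_combination dNet (jet q (S q) (Y q) (T q)) (cb q (S q) 0 0 1) * zM
      - dM (jet q (S q) (Y q) (T q)) (cb q (S q) 0 0 1) * zN
  · linear_combination dM (jet q (S q) (Y q) (T q)) (cb q (S q) 0 1 0) * zN
      - dNet (jet q (S q) (Y q) (T q)) (cb q (S q) 0 1 0) * zM

theorem sm_lg (h : Loc S Y T q) (hx1 : px q (S q) (Y q) (T q) < 1) (hsr : S q - q ≠ 0) :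
    ContDiffAt ℝ ω (fun w => lg w (S w) (Y w) (T w)) q := by
  have hX := h.cX
  have hx := h.reg.x
  have h1 : 1 - px q (S q) (Y q) (T q) ≠ 0 := by linarith
  unfold lg
  refine ((contDiffAt_id.div hX (ne_of_gt hx)).log ?_).sub
    (((h.sS.sub contDiffAt_id).div (contDiffAt_const.sub hX) h1).log ?_)
  · exact (div_pos h.q0 hx).ne'
  · exact div_ne_zero hsr h1

theorem sm_HB (h : Loc S Y T q) (hx1 : px q (S q) (Y q) (T q) < 1) (hsr : S q - q ≠ 0) :
    ContDiffAt ℝ ω (fun w => HB w (S w) (Y w) (T w)) q := by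
  have h1 := sm_lg h hx1 hsr
  have h2 := sm_Yx h.sS h.sY h.sT h.reg h.del
  have h3 := sm_Tx h.sS h.sY h.sT h.reg h.del
  have hS := h.sS
  have g1 := sm_dJ (sm_jet h.sS h.sY h.sT) (sm_cb h.sS 1 0 0) h.reg
  have g2 := sm_dJ (sm_jet h.sS h.sY h.sT) (sm_cb h.sS 0 1 0) h.reg
  have g3 := sm_dJ (sm_jet h.sS h.sY h.sT) (sm_cb h.sS 0 0 1) h.reg
  have a2' : ContDiffAt ℝ ω (fun w => K5L.a2 w (S w)) q := by
    unfold K5L.a2
    fun_prop
  have a3' : ContDiffAt ℝ ω (fun w => K5L.a3 w (S w)) q := by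
    unfold K5L.a3
    fun_prop
  unfold HB Hf HH gX gY gT
  exact (((h1.add ((a2'.div_const 2).mul h2)).add ((a3'.div_const 3).mul h3)).div_const 2).add
    ((g1.add (g2.mul h2)).add (g3.mul h3))

/-- The derivative of `HB` along the curve at the critical point. -/
theorem loc_HB' (h : Loc S Y T q) (hc : chi q (S q) (Y q) (T q) = 0)
    (hx1 : px q (S q) (Y q) (T q) < 1) (hsr : S q - q ≠ 0) :
    HasDerivAt (fun w => HB w (S w) (Y w) (T w)) (HBd q (S q) (Y q) (T q)) q := by
  obtain ⟨y1, y2⟩ := loc_yxx h hc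
  obtain ⟨e1, e2, e3, e4⟩ := h.slope hc
  have dS := h.dS
  rw [e1] at dS
  have hj : HasJ (fun w => jet w (S w) (Y w) (T w)) J0 q := by
    have h1 := h.jet'
    rw [h.x', e4, e2, e3] at h1
    have h2 : cb q (S q) 0 0 0 = J0 := by
      simp [cb, J0]
    rw [h2] at h1
    exact h1
  have B1 := stat_J' hj h.reg (hasJ_cb dS 1 0 0)
  have B2 := stat_J' hj h.reg (hasJ_cb dS 0 1 0)
  have B3 := stat_J' hj h.reg (hasJ_cb dS 0 0 1)
  have hYx := ((sm_Yx h.sS h.sY h.sT h.reg h.del).differentiableAt (by simp)).hasDerivAt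
  have hTx := ((sm_Tx h.sS h.sY h.sT h.reg h.del).differentiableAt (by simp)).hasDerivAt
  rw [y1] at hYx
  rw [y2] at hTx
  have hi := hasDerivAt_id' q
  have hx := h.reg.x
  have hX : HasDerivAt (fun w => px w (S w) (Y w) (T w)) 0 q := by
    have := h.X
    rwa [e4] at this
  have h1 : 1 - px q (S q) (Y q) (T q) ≠ 0 := by linarith
  have g1 : q / px q (S q) (Y q) (T q) ≠ 0 := (div_pos h.q0 hx).ne'
  have g2 : (S q - q) / (1 - px q (S q) (Y q) (T q)) ≠ 0 := div_ne_zero hsr h1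
  have hl1 := (hi.div hX (ne_of_gt hx)).log g1
  have hl2 := ((dS.sub hi).div (hX.const_sub 1) h1).log g2
  have hlg : HasDerivAt (fun w => lg w (S w) (Y w) (T w))
      (1 / q - (sl q (S q) (Y q) (T q) - 1) / (S q - q)) q := by
    unfold lg
    refine (hl1.sub hl2).congr_deriv ?_
    have h3 : px q (S q) (Y q) (T q) ≠ 0 := (show 0 < px q (S q) (Y q) (T q) from hx).ne'
    have h4 : q ≠ 0 := h.q0.ne'
    simp only [Pi.div_apply, Pi.sub_apply]
    generalize px q (S q) (Y q) (T q) = x at h1 h3 ⊢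
    field_simp
    ring
  have ha2 : HasDerivAt (fun w => K5L.a2 w (S w)) (sl q (S q) (Y q) (T q) * (S q + 2 * q)
      + S q * (sl q (S q) (Y q) (T q) + 2)) q := by
    unfold K5L.a2
    refine (dS.mul (dS.add (hi.const_mul 2))).congr_deriv ?_
    simp only [Pi.add_apply]
    ring
  have ha3 : HasDerivAt (fun w => K5L.a3 w (S w)) (sl q (S q) (Y q) (T q) *
      (S q ^ 2 + 6 * q * S q + 3 * q ^ 2) + S q * (2 * S q * sl q (S q) (Y q) (T q)
        + 6 * (S q + q * sl q (S q) (Y q) (T q)) + 6 * q)) q := by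
    unfold K5L.a3
    refine (dS.mul (((dS.pow 2).add ((hi.const_mul 6).mul dS)).add
      ((hi.pow 2).const_mul 3))).congr_deriv ?_
    push_cast
    simp only [Pi.add_apply, Pi.mul_apply, Pi.pow_apply]
    ring
  have hsum := (((hlg.add ((ha2.div_const 2).mul hYx)).add ((ha3.div_const 3).mul hTx)).div_const
    2).add ((B1.add (B2.mul hYx)).add (B3.mul hTx))
  have eD : dJ (jet q (S q) (Y q) (T q)) (K5L.del q (S q) (Y q) (T q)) =
      dJ (jet q (S q) (Y q) (T q)) (gn (cc q (S q) 1 (sl q (S q) (Y q) (T q))) 1 0 0)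
      + Yx q (S q) (Y q) (T q) *
        dJ (jet q (S q) (Y q) (T q)) (gn (cc q (S q) 1 (sl q (S q) (Y q) (T q))) 0 1 0)
      + Tx q (S q) (Y q) (T q) *
        dJ (jet q (S q) (Y q) (T q)) (gn (cc q (S q) 1 (sl q (S q) (Y q) (T q))) 0 0 1) := by
    unfold K5L.del
    rw [dcb_eq, dJ_gn]
    ring
  refine hsum.congr_deriv ?_
  unfold HBd Hfd
  rw [eD]
  unfold gY gT
  ring

/-- The derivative of `chi` along the curve at the critical point. -/
theorem loc_chi' (h : Loc S Y T q) (hc : chi q (S q) (Y q) (T q) = 0) :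
    HasDerivAt (fun w => chi w (S w) (Y w) (T w)) (chid q (S q) (Y q) (T q)) q := by
  obtain ⟨e1, e2, e3, -⟩ := h.slope hc
  have dS := h.dS
  have dY := h.dY
  have dT := h.dT
  rw [e1] at dS
  rw [e2] at dY
  rw [e3] at dT
  have hi := hasDerivAt_id' q
  set σ := sl q (S q) (Y q) (T q) with hσ
  have hpj : HasDerivAt (fun w => pj w (S w) (Y w) (T w))
      (-2 * Y q * (1 + σ) - 3 * T q * (2 * q + 4 * (S q + q * σ) + 2 * S q * σ)) q := by
    unfold K5N.pj
    refine ((((dY.const_mul 2).mul (hi.add dS)).const_sub 1).sub ((dT.const_mul 3).mul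
      (((hi.pow 2).add ((hi.const_mul 4).mul dS)).add (dS.pow 2)))).congr_deriv ?_
    simp only [Pi.mul_apply, Pi.add_apply, Pi.pow_apply]
    push_cast
    ring
  unfold chi
  refine ((hpj.pow 2).sub (((hi.const_mul 4).mul dS).mul ((dY.add ((dT.const_mul 3).mul
    (hi.add dS))).pow 2))).congr_deriv ?_
  unfold chid
  rw [← hσ]
  simp only [Pi.mul_apply, Pi.add_apply, Pi.pow_apply]
  push_cast
  ring

end

end K5X
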