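import Pool.Agent.Lib.K5F.HSeg

/-!
# K5X.Der: derivatives and products of real power series with nonnegative coefficients
-/

set_option autoImplicit false

namespace K5X

open Filter Topology Metric K5T K5F

/-- The derivative of a power series inside its disc. -/
theorem hasDerivAt_fr {a : ℕ → ℝ} (ha : ∀ n, 0 ≤ a n) {X : ℝ}
    (hs : Summable (fun n : ℕ => a n * X ^ n)) {x : ℝ} (hx : 0 < x) (hX1 : x < X) :
    HasDerivAt (fr a) (fr (dS a) x) x := by
  have hX0 : 0 < X := hx.trans hX1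
  have hb : ∀ (n : ℕ) (w : ℂ), w ∈ ball (0 : ℂ) X → ‖(a n : ℂ) * w ^ n‖ ≤ a n * X ^ n := by
    intro n w hw
    rw [mem_ball_zero_iff] at hw
    rw [norm_mul, norm_pow, Complex.norm_real, Real.norm_eq_abs, abs_of_nonneg (ha n)]
    exact mul_le_mul_of_nonneg_left (pow_le_pow_left₀ (norm_nonneg _) hw.le n) (ha n)
  have hxb : (x : ℂ) ∈ ball (0 : ℂ) X := by
    rw [mem_ball_zero_iff, Complex.norm_real, Real.norm_eq_abs, abs_of_pos hx]
    exact hX1
  have h1 : HasSum (fun n : ℕ => deriv (fun w : ℂ => (a n : ℂ) * w ^ n) (x : ℂ))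
      (deriv (fn a) (x : ℂ)) :=
    Complex.hasSum_deriv_of_summable_norm (F := fun (n : ℕ) (w : ℂ) => (a n : ℂ) * w ^ n)
      hs (fun n => ((differentiable_id.pow n).const_mul _).differentiableOn) isOpen_ball hb hxb
  have h2 : ∀ n : ℕ, deriv (fun w : ℂ => (a n : ℂ) * w ^ n) (x : ℂ) =
      ((a n * (n * x ^ (n - 1)) : ℝ) : ℂ) := by
    intro n
    have h3 : HasDerivAt (fun w : ℂ => (a n : ℂ) * w ^ n)
        ((a n : ℂ) * ((n : ℂ) * (x : ℂ) ^ (n - 1))) (x : ℂ) :=
      (hasDerivAt_pow n (x : ℂ)).const_mul _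
    rw [h3.deriv]
    push_cast
    rfl
  have h3 : deriv (fn a) (x : ℂ) = (fr (dS a) x : ℂ) := by
    rw [← h1.tsum_eq]
    simp only [h2]
    rw [← Complex.ofReal_tsum]
    congr 1
    have h4 : Summable (fun n : ℕ => a n * (n * x ^ (n - 1))) := by
      have h5 := summable_deriv ha hs hx.le hX1
      refine (h5.mul_right x⁻¹).congr (fun n => ?_)
      rcases n with _ | n
      · simp
      · rw [Nat.add_sub_cancel, pow_succ]
        field_simp
    rw [h4.tsum_eq_zero_add]
    simp only [Nat.cast_zero, zero_mul, mul_zero, zero_add]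
    unfold fr
    refine tsum_congr (fun n => ?_)
    unfold dS
    rw [Nat.add_sub_cancel]
    push_cast
    ring
  have h4 : HasDerivAt (fn a) (fr (dS a) x : ℂ) (x : ℂ) := by
    rw [← h3]
    refine (analyticAt_fn ha hs ?_).differentiableAt.hasDerivAt
    rw [Complex.norm_real, Real.norm_eq_abs, abs_of_pos hx]
    exact hX1
  have h5 := h4.real_of_complex
  simp only [Complex.ofReal_re] at h5
  refine h5.congr_of_eventuallyEq ?_
  filter_upwards with y
  rw [fn_ofReal, Complex.ofReal_re]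

/-- Summability of the derived series inside. -/
theorem summable_dS {a : ℕ → ℝ} (ha : ∀ n, 0 ≤ a n) {X : ℝ}
    (hs : Summable (fun n : ℕ => a n * X ^ n)) {x : ℝ} (hx : 0 < x) (hX1 : x < X) :
    Summable (fun n : ℕ => dS a n * x ^ n) :=
  (HSegAux.dS_sum_iff hx).2 (summable_deriv ha hs hx.le hX1)

/-- The product of two power series. -/
theorem fr_mul {a b : ℕ → ℝ} (ha : ∀ n, 0 ≤ a n) (hb : ∀ n, 0 ≤ b n) {x : ℝ} (hx : 0 ≤ x)
    (sa : Summable (fun n : ℕ => a n * x ^ n)) (sb : Summable (fun n : ℕ => b n * x ^ n)) :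
    fr a x * fr b x = fr (fun n => ∑ k ∈ Finset.range (n + 1), a k * b (n - k)) x := by
  have na : Summable (fun n : ℕ => ‖a n * x ^ n‖) := by
    refine sa.congr fun n => ?_
    rw [Real.norm_of_nonneg (mul_nonneg (ha n) (pow_nonneg hx n))]
  have nb : Summable (fun n : ℕ => ‖b n * x ^ n‖) := by
    refine sb.congr fun n => ?_
    rw [Real.norm_of_nonneg (mul_nonneg (hb n) (pow_nonneg hx n))]
  unfold fr
  rw [tsum_mul_tsum_eq_tsum_sum_range_of_summable_norm na nb]
  refine tsum_congr fun n => ?_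
  rw [Finset.sum_mul]
  refine Finset.sum_congr rfl fun k hk => ?_
  have hkn : k ≤ n := Nat.lt_succ_iff.1 (Finset.mem_range.1 hk)
  have h : x ^ n = x ^ k * x ^ (n - k) := by
    rw [← pow_add]
    congr 1
    omega
  rw [h]
  ring

/-- A function with derivative zero inside an interval has equal values at the ends. -/
theorem ends_eq {f : ℝ → ℝ} {a b : ℝ} (hab : a < b) (hc : ContinuousOn f (Set.Icc a b))
    (hd : ∀ x ∈ Set.Ioo a b, HasDerivAt f 0 x) : f b = f a := by
  obtain ⟨c, hc1, hc2⟩ := exists_hasDerivAt_eq_slope f (fun _ => 0) hab hc hd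
  have h : 0 < b - a := by linarith
  have h2 : f b - f a = 0 := by
    have h3 := hc2.symm
    rw [div_eq_iff h.ne'] at h3
    linarith
  linarith

end K5X
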