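import Pool.Agent.Lib.K5X.Sum
import Pool.Agent.Lib.K5X.Coef
import Pool.Agent.Lib.K5F.Form

/-!
# K5X.Form: the law of the asymptotic numbers, with the values of the constants
-/

set_option autoImplicit false

namespace K5X

open K5 Filter Topology K5F
open scoped ENNReal

/-- The asymptotic law with constants: growth constant `γ`, constants `K`, `K'`. -/
structure LawX (γ K K' : ℝ) : Prop where
  pos : 0 < γ
  K_pos : 0 < K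
  K'_pos : 0 < K'
  root : Tendsto (fun n : ℕ => ((P512.numG n : ℝ) / n.factorial) ^ (1 / (n : ℝ))) atTop (𝓝 γ)
  numG : Tendsto (fun n : ℕ => (P512.numG n : ℝ) /
      (K * (n : ℝ) ^ (-(7 / 2) : ℝ) * γ ^ n * n.factorial)) atTop (𝓝 1)
  numC : Tendsto (fun n : ℕ => (P512.numC n : ℝ) /
      (K' * (n : ℝ) ^ (-(7 / 2) : ℝ) * γ ^ n * n.factorial)) atTop (𝓝 1)
  sum : HasSum (fun n : ℕ => (P512.numG n : ℝ) / (γ ^ n * n.factorial)) (K / K')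

/-- The value of `fr bb` on a real segment, from the derivative of a closed form of `B`. -/
theorem bb_seg {R : ℝ} {b : ℂ → ℂ} (H : Sg R Bc b) {F G : ℝ → ℝ}
    (hF : ∀ᶠ x in 𝓝[<] R, K5T.fr Bc x = F x) (hd : ∀ᶠ x in 𝓝[<] R, HasDerivAt F (G x) x) :
    ∀ᶠ x in 𝓝[<] R, K5T.fr K5T.bb x = G x := by
  obtain ⟨x1, hx1, hx1e⟩ := (mem_nhdsLT_iff_exists_Ioo_subset' H.pos).1 hF
  have h3 : ∀ᶠ x in 𝓝[<] R, x ∈ Set.Ioo x1 R := Ioo_mem_nhdsLT hx1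
  filter_upwards [h3, hd, HSegAux.ev_Ioo H.pos] with x hx hdx hx0
  have h4 : HasDerivAt (K5T.fr Bc) (K5T.fr (dS Bc) x) x := HSegAux.hasDerivAt_fr H hx0.1 hx0.2
  have h5 : K5T.fr Bc =ᶠ[𝓝 x] F := by
    filter_upwards [Ioo_mem_nhds hx.1 hx.2] with w hw using hx1e hw
  have h6 := (h4.congr_of_eventuallyEq h5.symm).unique hdx
  rw [dS_Bc] at h6
  exact h6

/-- From the real segment below `R` to the variable `v = √(1 - x / R)`. -/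
theorem ev_v {R : ℝ} (hR : 0 < R) {p : ℝ → Prop}
    (h : ∀ᶠ x in 𝓝[<] R, p (Real.sqrt (1 - x / R))) : ∀ᶠ v in 𝓝[>] (0 : ℝ), p v := by
  have h1 : Tendsto (fun v : ℝ => R * (1 - v ^ 2)) (𝓝[>] (0 : ℝ)) (𝓝[<] R) := by
    refine tendsto_nhdsWithin_iff.2 ⟨?_, ?_⟩
    · have h2 : ContinuousAt (fun v : ℝ => R * (1 - v ^ 2)) 0 := by fun_prop
      have h3 := h2.tendsto
      simp only [ne_eq, OfNat.ofNat_ne_zero, not_false_eq_true, zero_pow, sub_zero,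
        mul_one] at h3
      exact h3.mono_left nhdsWithin_le_nhds
    · filter_upwards [self_mem_nhdsWithin] with v hv
      have hv0 : 0 < v := hv
      show R * (1 - v ^ 2) < R
      nlinarith [mul_pos hR (pow_pos hv0 2)]
  filter_upwards [h1.eventually h, self_mem_nhdsWithin] with v h2 hv
  have hv0 : 0 < v := hv
  have h3 : 1 - R * (1 - v ^ 2) / R = v ^ 2 := by
    field_simp
    ring
  rwa [h3, Real.sqrt_sq hv0.le] at h2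

/-- The law with the values of the constants: `h` is the local form of `B'`. -/
theorem core {R : ℝ} {ζ b : ℂ → ℂ} {z0 z2 z3 : ℂ} (hD : Sg R Dc ζ)
    (hz : K5T.T3 ζ z0 z2 z3) (hz3 : z3 ≠ 0) (hB : Sg R Bn b)
    (kap : ∑' n : ℕ, (n : ℝ) * bt n * R ^ n < 1) {F G : ℝ → ℝ}
    (hF : ∀ᶠ x in 𝓝[<] R, K5T.fr Bc x = F x) (hd : ∀ᶠ x in 𝓝[<] R, HasDerivAt F (G x) x) :
    ∃ (h : ℂ → ℂ) (a0 a2 a3 K K' : ℝ), K5T.T3 h a0 a2 a3 ∧
      (∀ᶠ x in 𝓝[<] R, h ((Real.sqrt (1 - x / R) : ℝ) : ℂ) = (G x : ℂ)) ∧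
      LawX (Real.exp a0 / R) K K' ∧
      K' = R * (a3 / (1 + a2) ^ (5 / 2 : ℝ)) / Real.Gamma (-(3 / 2)) ∧ 0 < 1 + a2 ∧ a3 ≠ 0 ∧
      K = K' * Real.exp (R - R * a0 + K5T.fr Bc R) := by
  obtain ⟨h, a0, a2, a3, hT, ha3, hs, hval, -, ha2, hloc⟩ := loc_Bn hD hz hz3 hB
  have hR := hD.pos
  have hfin := bE_fin hR hs
  have hk : 0 < 1 + a2 := by
    rw [ha2]
    linarith
  have hB' : Sg R Bc b := by
    rw [← Bn_eq_Bc]
    exact hB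
  have hseg := bb_seg hB' hF hd
  have h1 : Tendsto (fun x : ℝ => (x : ℂ)) (𝓝[<] R) (𝓝[Metric.ball (0 : ℂ) R] (R : ℂ)) := by
    refine tendsto_nhdsWithin_iff.2 ⟨?_, ?_⟩
    · exact (Complex.continuous_ofReal.tendsto R).mono_left nhdsWithin_le_nhds
    · filter_upwards [HSegAux.ev_Ioo hR] with x hx
      rw [mem_ball_zero_iff, Complex.norm_real, Real.norm_eq_abs, abs_of_pos hx.1]
      exact hx.2
  have he : ∀ᶠ x in 𝓝[<] R, h ((Real.sqrt (1 - x / R) : ℝ) : ℂ) = (G x : ℂ) := by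
    filter_upwards [h1.eventually hloc, hseg, HSegAux.ev_Ioo hR] with x h2 h3 hx
    rw [K5T.fn_ofReal, HSegAux.sq_real hR hx.2] at h2
    rw [← h2, ← h3]
    rfl
  obtain ⟨K, K', hK, hK', hKv, hT1, hT2, hsum, hKK⟩ := asymp_val hR hfin hloc hT hk ha3
  have hv : K5T.fr K5T.bb R = a0 := hval.symm
  have hγ0 : 0 < Real.exp a0 / R := by positivity
  have hinv : R * Real.exp (-K5T.fr K5T.bb R) = (Real.exp a0 / R)⁻¹ := by
    rw [hv, Real.exp_neg]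
    field_simp
  have hKK' := hKK
  rw [tsum_val hR hfin hloc hT hk ha3, hv] at hKK'
  rw [hinv] at hT1 hT2 hsum hKK
  obtain ⟨γ, -, -, hγ, -, -⟩ := P512.main
  have hγ' : Tendsto (fun n : ℕ => ((P512.g n : ℝ) / n.factorial) ^ (1 / (n : ℝ))) atTop (𝓝 γ) := by
    simpa only [P512.numG_eq] using hγ
  have hγe := K5T.gamma_eq hR hfin hloc hT hk ha3 hγ'
  rw [hv] at hγe
  refine ⟨h, a0, a2, a3, K, K', hT, he, ⟨hγ0, hK, hK', by rw [← hγe]; exact hγ, ?_, ?_, ?_⟩, hKv,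
    hk, ha3, hKK'⟩
  · simp only [P512.numG_eq]
    exact FormAux.ratio hγ0 hK hT1
  · simp only [P512.numC_eq]
    exact FormAux.ratio hγ0 hK' hT2
  · have h1 : K / K' = ∑' n : ℕ, (P512.g n : ℝ) / n.factorial * (Real.exp a0 / R)⁻¹ ^ n := by
      rw [hKK]
      field_simp
    rw [h1]
    simp only [P512.numG_eq]
    refine (hsum.hasSum).congr_fun ?_
    intro n
    rw [inv_pow]
    have h4 : (n.factorial : ℝ) ≠ 0 := by positivity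
    field_simp

/-- The law with the values of the constants: `β` is the local form of `B'` on the real
segment. -/
theorem form {R : ℝ} {ζ b β : ℂ → ℂ} {z0 z2 z3 : ℂ} {g0 g2 g3 : ℝ} (hD : Sg R Dc ζ)
    (hz : K5T.T3 ζ z0 z2 z3) (hz3 : z3 ≠ 0) (hB : Sg R Bn b)
    (kap : ∑' n : ℕ, (n : ℝ) * bt n * R ^ n < 1) {F G : ℝ → ℝ}
    (hF : ∀ᶠ x in 𝓝[<] R, K5T.fr Bc x = F x) (hd : ∀ᶠ x in 𝓝[<] R, HasDerivAt F (G x) x)
    (hβ : K5T.T3 β g0 g2 g3)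
    (hG : ∀ᶠ x in 𝓝[<] R, (G x : ℂ) = β ((Real.sqrt (1 - x / R) : ℝ) : ℂ)) :
    ∃ K K' : ℝ, LawX (Real.exp g0 / R) K K' ∧
      K' = R * (g3 / (1 + g2) ^ (5 / 2 : ℝ)) / Real.Gamma (-(3 / 2)) ∧ 0 < 1 + g2 ∧ g3 ≠ 0 ∧
      K = K' * Real.exp (R - R * g0 + K5T.fr Bc R) := by
  obtain ⟨h, a0, a2, a3, K, K', hT, he, h1, h2, h3, h4, h5⟩ := core hD hz hz3 hB kap hF hd
  have he' : ∀ᶠ v : ℝ in 𝓝[>] (0 : ℝ), h (v : ℂ) = β (v : ℂ) := by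
    refine ev_v hD.pos (p := fun v => h (v : ℂ) = β (v : ℂ)) ?_
    filter_upwards [he, hG] with x h3 h4
    rw [h3, h4]
  obtain ⟨e0, e2, e3⟩ := T3_unique hT hβ he'
  subst e0 e2 e3
  exact ⟨K, K', h1, h2, h3, h4, h5⟩

/-- The same for a real analytic function `f` with `B' = f (√(1 - x / R))`. -/
theorem form_real {R : ℝ} {ζ b : ℂ → ℂ} {z0 z2 z3 : ℂ} (hD : Sg R Dc ζ)
    (hz : K5T.T3 ζ z0 z2 z3) (hz3 : z3 ≠ 0) (hB : Sg R Bn b)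
    (kap : ∑' n : ℕ, (n : ℝ) * bt n * R ^ n < 1) {F G f : ℝ → ℝ}
    (hF : ∀ᶠ x in 𝓝[<] R, K5T.fr Bc x = F x) (hd : ∀ᶠ x in 𝓝[<] R, HasDerivAt F (G x) x)
    (hf : AnalyticAt ℝ f 0) (hG : ∀ᶠ x in 𝓝[<] R, G x = f (Real.sqrt (1 - x / R))) :
    deriv f 0 = 0 ∧ ∃ K K' : ℝ, LawX (Real.exp (f 0) / R) K K' ∧
      K' = R * (iteratedDeriv 3 f 0 / 6 / (1 + iteratedDeriv 2 f 0 / 2) ^ (5 / 2 : ℝ)) /
        Real.Gamma (-(3 / 2)) ∧ 0 < 1 + iteratedDeriv 2 f 0 / 2 ∧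
      K = K' * Real.exp (R - R * f 0 + K5T.fr Bc R) := by
  obtain ⟨h, a0, a2, a3, K, K', hT, he, h1, h2, h3, h4, h5⟩ := core hD hz hz3 hB kap hF hd
  have he' : ∀ᶠ v : ℝ in 𝓝[>] (0 : ℝ), h (v : ℂ) = (f v : ℂ) := by
    refine ev_v hD.pos (p := fun v => h (v : ℂ) = (f v : ℂ)) ?_
    filter_upwards [he, hG] with x h3 h4
    rw [h3, h4]
  obtain ⟨e0, e1, e2, e3⟩ := T3_coef hT hf he'
  subst e0 e2 e3
  exact ⟨e1, K, K', h1, h2, h3, h5⟩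

end K5X
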