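import Pool.Agent.Lib.K5L.Third

/-!
# K5X.Fun: the derivative of the series of the blocks as a function of the jet, and its differential

`pBx 1 = cf / 2 + fJ (jet)` (`pBx_eq`), `dJ` is the differential of `fJ` (`hasJ_J`), and at a stationary
point of the jet the derivative of `w ↦ dJ (β w) (δ w)` is `dJ (β q) δ'` (`stat_J`).
-/

set_option autoImplicit false

namespace K5X

open K5N K5C K5L Filter Topology
open scoped ContDiff

noncomputable section

/-- The part of `pBx 1` that is a function of the jet. -/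
def fJ (b : J) : ℝ :=
  (fk b - 1 - Real.log (fk b)) / 2 - fY b / 4 + fT b / 3 - b.x * (1 + fD b) * fY b / 2
    - b.x ^ 2 * (1 + fD b) ^ 3 * (2 * fT b + fT b ^ 2) / 4 + b.x ^ 2 * (1 + fD b) ^ 3 * fG b / 2
    + 3 / 2 * (b.x * fD b) + b.x ^ 2 * fD b ^ 3 / (4 * (1 + b.x * fD b))
    - b.x / 2 * Real.log (1 + fD b) + b.x * (1 + fD b) * Real.log ((1 + 1) / (1 + fD b))
    + b.x ^ 7 * fD b ^ 12 / 2 - b.x ^ 5 * fD b ^ 9 / 12

theorem pBx_eq {r s y t : ℝ} (h : Reg (jet r s y t)) :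
    pBx 1 r s y t = cf (px r s y t) r s y t / 2 + fJ (jet r s y t) := by
  have hD := h.D
  have hx := h.x
  have e1 : pBx 1 r s y t = cBx (jet r s y t).x 1 (cf (px r s y t) r s y t) (fk (jet r s y t))
      (fY (jet r s y t)) (fT (jet r s y t)) (fD (jet r s y t)) (fK (jet r s y t))
      (fA (jet r s y t)) := rfl
  rw [e1]
  generalize cf (px r s y t) r s y t = f
  generalize jet r s y t = b at h hD hx ⊢
  have h1 : (1 : ℝ) + b.x * fD b ≠ 0 := by positivity
  have h2 : (1 : ℝ) + fD b ≠ 0 := by positivity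
  unfold cBx cEx fJ
  have e2 : cG (fA b) (fT b) = fG b := rfl
  have e3 : fK b = (fD b / (1 + fD b) - fY b - fS b -
    b.x * (1 + fD b) ^ 2 * (2 * fT b + fT b ^ 2)) / 2 := rfl
  have e4 : fS b = b.x * fD b ^ 2 / (1 + b.x * fD b) := rfl
  rw [e2, e3, e4]
  generalize fG b = G
  generalize fY b = Y
  generalize fT b = T
  generalize Real.log (fk b) = lk
  generalize fk b = k
  generalize Real.log (1 + fD b) = l1
  generalize Real.log ((1 + 1) / (1 + fD b)) = l2
  generalize fD b = D at hD h1 h2 ⊢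
  generalize b.x = x at hx h1 ⊢
  field_simp
  ring

/-- The differential of `x ^ 2 * (1 + D) ^ 3`. -/
def dQ (b d : J) : ℝ := 2 * b.x * d.x * (1 + fD b) ^ 3 + 3 * b.x ^ 2 * (1 + fD b) ^ 2 * dD b d

/-- The differential of `x * D`. -/
def dU (b d : J) : ℝ := d.x * fD b + b.x * dD b d

/-- The differential of `fJ`. -/
def dJ (b d : J) : ℝ :=
  (1 - 1 / fk b) * dk b d / 2 - dY b d / 4 + dT b d / 3
    - (d.x + dU b d) * fY b / 2 - b.x * (1 + fD b) * dY b d / 2
    + dQ b d * (fG b / 2 - (2 * fT b + fT b ^ 2) / 4)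
    + b.x ^ 2 * (1 + fD b) ^ 3 * (dG b d / 2 - (1 + fT b) * dT b d / 2)
    + 3 / 2 * dU b d
    + (2 * b.x * fD b ^ 3 * d.x + 3 * b.x ^ 2 * fD b ^ 2 * dD b d) / (4 * (1 + b.x * fD b))
    - b.x ^ 2 * fD b ^ 3 * dU b d / (4 * (1 + b.x * fD b) ^ 2)
    - d.x / 2 * Real.log (1 + fD b) - b.x * dD b d / (2 * (1 + fD b))
    + (d.x + dU b d) * Real.log ((1 + 1) / (1 + fD b)) - b.x * dD b d
    + (7 / 2 * b.x ^ 6 * fD b ^ 12 * d.x + 6 * b.x ^ 7 * fD b ^ 11 * dD b d)
    - (5 / 12 * b.x ^ 4 * fD b ^ 9 * d.x + 3 / 4 * b.x ^ 5 * fD b ^ 8 * dD b d)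

variable {β δ : ℝ → J} {d : J} {q : ℝ}

theorem hasJ_Q (h : HasJ β d q) (hb : Reg (β q)) :
    HasDerivAt (fun w => (β w).x ^ 2 * (1 + fD (β w)) ^ 3) (dQ (β q) d) q := by
  unfold dQ
  refine ((h.x.pow 2).mul (((h.D hb).const_add 1).pow 3)).congr_deriv ?_
  push_cast
  simp only [Pi.pow_apply]
  ring

theorem hasJ_U (h : HasJ β d q) (hb : Reg (β q)) :
    HasDerivAt (fun w => (β w).x * fD (β w)) (dU (β q) d) q := by
  unfold dU
  exact h.x.mul (h.D hb)

theorem hasJ_J (h : HasJ β d q) (hb : Reg (β q)) :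
    HasDerivAt (fun w => fJ (β w)) (dJ (β q) d) q := by
  have hx := hb.x
  have hk := hb.k
  have hD := hb.D
  have h1 : (1 : ℝ) + (β q).x * fD (β q) ≠ 0 := by positivity
  have h2 : (1 : ℝ) + fD (β q) ≠ 0 := by positivity
  have h3 : (4 : ℝ) * (1 + (β q).x * fD (β q)) ≠ 0 := by positivity
  have hk' := h.k hb
  have hY := h.Y hb
  have hT := h.T hb
  have hDD := h.D hb
  have hG := h.G hb
  have hQ := hasJ_Q h hb
  have hU := hasJ_U h hb
  have hE := hDD.const_add 1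
  have hxE := h.x.mul hE
  have hl1 := hE.log h2
  have hl2 := ((hasDerivAt_const q ((1 : ℝ) + 1)).div hE h2).log
    (show ((1 : ℝ) + 1) / (1 + fD (β q)) ≠ 0 by positivity)
  unfold fJ dJ
  refine ((((((((((((hk'.sub_const 1).sub (hk'.log hk.ne')).div_const 2).sub
    (hY.div_const 4)).add (hT.div_const 3)).sub ((hxE.mul hY).div_const 2)).sub
    ((hQ.mul ((hT.const_mul 2).add (hT.pow 2))).div_const 4)).add
    ((hQ.mul hG).div_const 2)).add (hU.const_mul (3 / 2))).add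
    (((h.x.pow 2).mul (hDD.pow 3)).div ((hU.const_add 1).const_mul 4) h3)).sub
    ((h.x.div_const 2).mul hl1)).add (hxE.mul hl2)).add
    (((h.x.pow 7).mul (hDD.pow 12)).div_const 2) |>.sub
    (((h.x.pow 5).mul (hDD.pow 9)).div_const 12) |>.congr_deriv ?_
  push_cast
  simp only [Pi.pow_apply, Pi.mul_apply, Pi.add_apply, Pi.div_apply]
  generalize Real.log (1 + fD (β q)) = l1
  generalize Real.log ((1 + 1) / (1 + fD (β q))) = l2
  unfold dU
  field_simp
  ring

end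

end K5X
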