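import Pool.Agent.Lib.K5C.Law
import Pool.Agent.Lib.K5X.ArcC
import Pool.Agent.Lib.K5X.Chain
import Pool.Agent.Lib.K5X.Form

/-!
# K5X.LawC: the asymptotic law with the values of the constants, on an arbitrary analytic curve
through the critical point
-/

set_option autoImplicit false

namespace K5X

open K5N K5S K5P K5C Set Filter Topology
open scoped ENNReal

noncomputable section

/-- The coefficient of `v ^ 2` in `b` along the arc `X = x (1 - v ^ 2)`. -/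
def cTwo (x : ℝ) (X b : ℝ → ℝ) (r : ℝ) : ℝ := -(x * iteratedDeriv 2 b r / iteratedDeriv 2 X r)

/-- The coefficient of `v ^ 3` in `b` along the arc `X = x (1 - v ^ 2)`. -/
def cThree (x : ℝ) (X b : ℝ → ℝ) (r : ℝ) : ℝ :=
  x / (3 * iteratedDeriv 2 X r) *
    (iteratedDeriv 3 b r - iteratedDeriv 2 b r * iteratedDeriv 3 X r / iteratedDeriv 2 X r) *
    Real.sqrt (-(2 * x / iteratedDeriv 2 X r))

/-- The asymptotic law with the constants, on an arc. -/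
theorem law_arc (S : Sys2) (hT : ∀ x z : ℝ≥0∞, ser2 S.tc x z = K5.T0 x z)
    (hDg : ∀ x, S.Dg x = K5.D x) {r s y t : ℝ} (hB : K5L.Box r s y t)
    (hH : K5L.HH K5L.dD r s y t ≤ 2500) {ρ σ υ τ : ℝ → ℝ} {ζ : ℂ → ℂ} {z3 : ℝ}
    (A : K5L.Arc (px r s y t) ρ σ υ τ) (e1 : ρ 0 = r) (e2 : σ 0 = s) (e3 : υ 0 = y)
    (e4 : τ 0 = t)
    (hT3 : K5T.T3 ζ ((K5L.fD (K5L.jet r s y t) : ℝ) : ℂ)
      ((-(px r s y t * K5L.HH K5L.dD r s y t) : ℝ) : ℂ) (z3 : ℂ)) (hz3 : z3 ≠ 0)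
    (hζ : ∀ᶠ v : ℝ in 𝓝 (0 : ℝ),
      ζ (v : ℂ) = ((K5L.fD (K5L.jet (ρ v) (σ v) (υ v) (τ v)) : ℝ) : ℂ)) :
    deriv (fun v => pBx 1 (ρ v) (σ v) (υ v) (τ v)) 0 = 0 ∧
    ∃ K K' : ℝ, LawX (Real.exp (pBx 1 r s y t) / px r s y t) K K' ∧
      K' = px r s y t *
        (iteratedDeriv 3 (fun v => pBx 1 (ρ v) (σ v) (υ v) (τ v)) 0 / 6 /
          (1 + iteratedDeriv 2 (fun v => pBx 1 (ρ v) (σ v) (υ v) (τ v)) 0 / 2) ^ (5 / 2 : ℝ)) /
        Real.Gamma (-(3 / 2)) ∧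
      K = K' * Real.exp (px r s y t - px r s y t * pBx 1 r s y t +
        K5T.fr K5F.Bc (px r s y t)) := by
  set R := px r s y t with hRdef
  have hR : 0 < R := A.R_pos
  have hR2 : R ≤ 374 / 10000 := hB.px_le
  have hR1 : R < 1 := by linarith
  have hid := K5L.ident S A
  have hI : ∀ᶠ v in 𝓝[≥] (0 : ℝ), Idt S (R * (1 - v ^ 2)) (ρ v) (σ v) (υ v) (τ v) := by
    filter_upwards [hid, A.good, A.x_eq.filter_mono nhdsWithin_le_nhds,
      A.M.filter_mono nhdsWithin_le_nhds, A.D_one.filter_mono nhdsWithin_le_nhds]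
      with v h1 h2 h3 h4 h5
    exact ⟨h2, h3, zero_lt_one.trans h5, h4, h1.1, h1.2.2⟩
  have hn : pD (ρ 0) (σ 0) (υ 0) (τ 0) / (1 + pD (ρ 0) (σ 0) (υ 0) (τ 0)) -
      υ 0 * pkap (ρ 0) (σ 0) (υ 0) (τ 0) ^ 2 < 1 / 2 := by
    rw [e1, e2, e3, e4]
    exact box_hn hB
  have aρ := A.an_r.analyticAt
  have aσ := A.an_s.analyticAt
  have aυ := A.an_y.analyticAt
  have aτ := A.an_t.analyticAt
  obtain ⟨h0, hreg⟩ := arc_reg hR1 hI
  have hf : K5.D (.ofReal R) ≠ ⊤ := by rw [← hDg]; exact h0.fin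
  have hD : ∀ x, 0 ≤ x → x < R → K5.D (.ofReal x) ≠ ⊤ := by
    intro x _ hxR
    rw [← hDg]
    exact Dg_fin hxR.le h0.fin
  have hYp : ∀ w, 0 < w → w < R → 0 < Yp S.toSys (qp S w (Dr S w)) := fun w hw hwR =>
    h0.Yp_pos hn hw hwR.le
  have hda : K5L.DArc K5.D R ρ σ υ τ := by
    unfold K5L.DArc
    filter_upwards [hid] with v hv
    rw [← hDg]
    exact hv.2.2
  have heD := hda.heD hR A.D_one hζ
  have hSgD : K5F.Sg R K5F.Dc ζ := K5F.Sg_Dc hR hD hT3.an heD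
  obtain ⟨b, hb, hbe⟩ := heB hT hDg K5F.hyp hR hR1 aρ aσ aυ aτ hI hn
  have hSgB : K5F.Sg R K5F.Bn b := K5F.hyp.Sg_Bn hR hD hb hbe
  have hdrR : K5T.fr K5F.Dc R ≤ 11 / 10 := by
    rw [K5F.fr_Dc hR.le hf]
    have h1 : K5F.dr R = pD (ρ 0) (σ 0) (υ 0) (τ 0) := by
      unfold K5F.dr
      rw [← hDg, h0.dg, ENNReal.toReal_ofReal h0.D_pos.le]
    rw [h1, e1, e2, e3, e4]
    exact hB.fD_le
  have kap := K5F.kap_H hSgD hT3 hR2 hdrR hH
  have af : AnalyticAt ℝ (fun v => pBx 1 (ρ v) (σ v) (υ v) (τ v)) 0 :=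
    an_pBx (v := 1) (by norm_num) aρ aσ aυ aτ hreg
  have hkey := form_real hSgD hT3 (by exact_mod_cast hz3) hSgB kap (F := K5F.BF)
    (G := fun x => pBx 1 (PN S x).1 (PN S x).2.1 (PN S x).2.2.1 (PN S x).2.2.2)
    (f := fun v => pBx 1 (ρ v) (σ v) (υ v) (τ v)) ?_ ?_ af ?_
  · obtain ⟨h0', K, K', h1', h2', -, h3'⟩ := hkey
    have f0 : pBx 1 (ρ 0) (σ 0) (υ 0) (τ 0) = pBx 1 r s y t := by rw [e1, e2, e3, e4]
    rw [f0] at h1' h3'
    exact ⟨h0', K, K', h1', h2', h3'⟩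
  · filter_upwards [Ioo_mem_nhdsLT hR] with x hx
    exact K5F.hyp.B_fr hx.1 (hD x hx.1.le hx.2)
  · filter_upwards [Ioo_mem_nhdsLT hR] with x hx
    exact BF_deriv hT hDg K5F.hyp hx.1 hx.2 hR1.le hf hYp
  · filter_upwards [PN_arc hR hR1.le hI hn] with x hx
    show pBx 1 (PN S x).1 (PN S x).2.1 (PN S x).2.2.1 (PN S x).2.2.2 = _
    rw [hx]

/-- The asymptotic law with the exact growth constant and the exact constants, on an analytic curve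
through the critical point. -/
theorem law (S : Sys2) (hT : ∀ x z : ℝ≥0∞, ser2 S.tc x z = K5.T0 x z)
    (hDg : ∀ x, S.Dg x = K5.D x) {r s y t : ℝ} (hB : K5L.Box r s y t) (hP : K5L.PC r s y t)
    (hH : K5L.HH K5L.dD r s y t ≤ 2500) {σ υ τ : ℝ → ℝ} (C : Curve r s y t σ υ τ) :
    ∃ K K' : ℝ, LawX (Real.exp (pBx 1 r s y t) / px r s y t) K K' ∧
      K' = px r s y t *
        (cThree (px r s y t) (fun q => px q (σ q) (υ q) (τ q))
            (fun q => pBx 1 q (σ q) (υ q) (τ q)) r /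
          (1 + cTwo (px r s y t) (fun q => px q (σ q) (υ q) (τ q))
            (fun q => pBx 1 q (σ q) (υ q) (τ q)) r) ^ (5 / 2 : ℝ)) /
        Real.Gamma (-(3 / 2)) ∧
      K = K' * Real.exp (px r s y t - px r s y t * pBx 1 r s y t +
        K5T.fr K5F.Bc (px r s y t)) := by
  obtain ⟨W, ζ, z3, aW, W0, dW, A, hT3, hz3, hζ⟩ := C.arc hP
  have e2 : σ (W 0) = s := by rw [W0, C.s_eq]
  have e3 : υ (W 0) = y := by rw [W0, C.y_eq]
  have e4 : τ (W 0) = t := by rw [W0, C.t_eq]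
  obtain ⟨h0, K, K', h1, h2, h3⟩ := law_arc S hT hDg hB hH A W0 e2 e3 e4 hT3 hz3 hζ
  have hreg : Reg r (σ r) (υ r) (τ r) := by
    rw [C.s_eq, C.y_eq, C.t_eq]
    have hx1 : px r s y t < 1 := by
      have h : px r s y t ≤ 374 / 10000 := hB.px_le
      linarith
    exact reg_of_good hB.crit.toGood hx1 (S.hAS _ _ _ _ hB.crit.toGood).1
      (zero_lt_one.trans hP.D).le
  have aX : AnalyticAt ℝ (fun q => px q (σ q) (υ q) (τ q)) r :=
    an_px analyticAt_id C.an_s C.an_y C.an_t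
  have ab : AnalyticAt ℝ (fun q => pBx 1 q (σ q) (υ q) (τ q)) r :=
    an_pBx (v := 1) (by norm_num) analyticAt_id C.an_s C.an_y C.an_t hreg
  have hXW : ∀ᶠ v in 𝓝 (0 : ℝ), (fun q => px q (σ q) (υ q) (τ q)) (W v) =
      px r s y t * (1 - v ^ 2) := A.x_eq
  obtain ⟨-, c2, c3⟩ := chain A.R_pos aX ab aW W0 dW hXW h0
  refine ⟨K, K', h1, ?_, h3⟩
  rw [h2]
  unfold cThree cTwo
  rw [← c2, ← c3]

end

end K5X
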