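import Pool.Agent.Lib.K5C.Law
import Pool.Agent.Lib.K5X.Form
import Pool.Agent.Lib.K5X.ArcX

/-!
# K5X.LawP: the asymptotic law with closed forms of the constants

`lawP`: the law at the box of the critical point; `K'` in closed form, `K / K'` as a sum; the value of the series
of the blocks at `R`.
-/

set_option autoImplicit false

namespace K5X

open K5N K5C K5S K5P Set Filter Topology
open scoped ENNReal

noncomputable section

/-- The constant of the connected graphs. -/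
def cK (r s y t : ℝ) : ℝ :=
  px r s y t * (aThree r s y t / (1 + -(px r s y t * HB r s y t)) ^ (5 / 2 : ℝ)) /
    Real.Gamma (-(3 / 2))

theorem Bc_summable {R : ℝ} (hR : 0 < R) (hs : Summable (fun n : ℕ => K5T.bb n * R ^ n)) :
    Summable (fun n : ℕ => K5F.Bc n * R ^ n) := by
  rw [← summable_nat_add_iff 1]
  refine Summable.of_nonneg_of_le (fun n => mul_nonneg (K5F.Bc_nonneg _) (pow_nonneg hR.le _))
    (fun n => ?_) (hs.mul_left R)
  have h1 : K5F.Bc (n + 1) ≤ K5T.bb n := by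
    have h2 : K5F.dS K5F.Bc = K5T.bb := K5F.dS_Bc
    have h3 : K5T.bb n = ((n : ℝ) + 1) * K5F.Bc (n + 1) := by
      rw [← h2]
      unfold K5F.dS
      ring
    rw [h3]
    have h4 := K5F.Bc_nonneg (n + 1)
    have h5 : (0 : ℝ) ≤ n := Nat.cast_nonneg n
    nlinarith
  calc K5F.Bc (n + 1) * R ^ (n + 1) ≤ K5T.bb n * R ^ (n + 1) :=
        mul_le_mul_of_nonneg_right h1 (pow_nonneg hR.le _)
    _ = R * (K5T.bb n * R ^ n) := by ring

/-- The asymptotic law with the value of `K'`, from the box of the critical point. -/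
theorem lawP (S : Sys2) (hT : ∀ x z : ℝ≥0∞, ser2 S.tc x z = K5.T0 x z)
    (hDg : ∀ x, S.Dg x = K5.D x) {r s y t : ℝ} (hB : K5L.Box r s y t) (hP : K5L.PC r s y t)
    (hH : K5L.HH K5L.dD r s y t ≤ 2500) :
    ∃ K K' : ℝ, LawX (Real.exp (pBx 1 r s y t) / px r s y t) K K' ∧ K' = cK r s y t ∧
      0 < 1 + -(px r s y t * HB r s y t) ∧ aThree r s y t ≠ 0 ∧
      K = K' * Real.exp (px r s y t - px r s y t * pBx 1 r s y t + pB 1 r s y t) ∧
      K5T.fr K5T.bb (px r s y t) = pBx 1 r s y t ∧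
      K5T.fr K5F.Bc (px r s y t) = pB 1 r s y t ∧
      Summable (fun n : ℕ => K5T.bb n * px r s y t ^ n) := by
  have hR2' : px r s y t ≤ 374 / 10000 := hB.px_le
  obtain ⟨ρ, σ, υ, τ, ζ, β, z3, A, e1, e2, e3, e4, hT3, hz3, hζ, hβ, hβe⟩ :=
    arcX hP (by linarith)
  set R := px r s y t with hRdef
  have hR : 0 < R := A.R_pos
  have hR1 : R < 1 := by linarith
  have hid := K5L.ident S A
  have hI : ∀ᶠ v in 𝓝[≥] (0 : ℝ), Idt S (R * (1 - v ^ 2)) (ρ v) (σ v) (υ v) (τ v) := by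
    filter_upwards [hid, A.good, A.x_eq.filter_mono nhdsWithin_le_nhds,
      A.M.filter_mono nhdsWithin_le_nhds, A.D_one.filter_mono nhdsWithin_le_nhds]
      with v h1 h2 h3 h4 h5
    exact ⟨h2, h3, zero_lt_one.trans h5, h4, h1.1, h1.2.2⟩
  have hn : pD (ρ 0) (σ 0) (υ 0) (τ 0) / (1 + pD (ρ 0) (σ 0) (υ 0) (τ 0)) -
      υ 0 * pkap (ρ 0) (σ 0) (υ 0) (τ 0) ^ 2 < 1 / 2 := by
    rw [e1, e2, e3, e4]
    exact box_hn hB
  have aρ := A.an_r.analyticAt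
  have aσ := A.an_s.analyticAt
  have aυ := A.an_y.analyticAt
  have aτ := A.an_t.analyticAt
  obtain ⟨h0, hreg⟩ := arc_reg hR1 hI
  have hf : K5.D (.ofReal R) ≠ ⊤ := by rw [← hDg]; exact h0.fin
  have hD : ∀ x, 0 ≤ x → x < R → K5.D (.ofReal x) ≠ ⊤ := by
    intro x _ hxR
    rw [← hDg]
    exact Dg_fin hxR.le h0.fin
  have hYp : ∀ w, 0 < w → w < R → 0 < Yp S.toSys (qp S w (Dr S w)) := fun w hw hwR =>
    h0.Yp_pos hn hw hwR.le
  have hda : K5L.DArc K5.D R ρ σ υ τ := by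
    unfold K5L.DArc
    filter_upwards [hid] with v hv
    rw [← hDg]
    exact hv.2.2
  have heD := hda.heD hR A.D_one hζ
  have hSgD : K5F.Sg R K5F.Dc ζ := K5F.Sg_Dc hR hD hT3.an heD
  obtain ⟨b, hb, hbe⟩ := heB hT hDg K5F.hyp hR hR1 aρ aσ aυ aτ hI hn
  have hSgB : K5F.Sg R K5F.Bn b := K5F.hyp.Sg_Bn hR hD hb hbe
  have hSgB' : K5F.Sg R K5F.Bc b := by
    rw [← K5F.Bn_eq_Bc]
    exact hSgB
  have hdrR : K5T.fr K5F.Dc R ≤ 11 / 10 := by
    rw [K5F.fr_Dc hR.le hf]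
    have h1 : K5F.dr R = pD (ρ 0) (σ 0) (υ 0) (τ 0) := by
      unfold K5F.dr
      rw [← hDg, h0.dg, ENNReal.toReal_ofReal h0.D_pos.le]
    rw [h1, e1, e2, e3, e4]
    exact hB.fD_le
  have kap := K5F.kap_H hSgD hT3 hR2' hdrR hH
  have hF : ∀ᶠ x in 𝓝[<] R, K5T.fr K5F.Bc x = K5F.BF x := by
    filter_upwards [Ioo_mem_nhdsLT hR] with x hx
    exact K5F.hyp.B_fr hx.1 (hD x hx.1.le hx.2)
  have hd : ∀ᶠ x in 𝓝[<] R, HasDerivAt K5F.BF
      (pBx 1 (PN S x).1 (PN S x).2.1 (PN S x).2.2.1 (PN S x).2.2.2) x := by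
    filter_upwards [Ioo_mem_nhdsLT hR] with x hx
    exact BF_deriv hT hDg K5F.hyp hx.1 hx.2 hR1.le hf hYp
  have hG : ∀ᶠ x in 𝓝[<] R, ((pBx 1 (PN S x).1 (PN S x).2.1 (PN S x).2.2.1 (PN S x).2.2.2 : ℝ) : ℂ)
      = β ((Real.sqrt (1 - x / R) : ℝ) : ℂ) := by
    have hβe' : ∀ᶠ v : ℝ in 𝓝[≥] (0 : ℝ),
        β (v : ℂ) = ((pBx 1 (ρ v) (σ v) (υ v) (τ v) : ℝ) : ℂ) := hβe.filter_mono nhdsWithin_le_nhds
    filter_upwards [PN_arc hR hR1.le hI hn, (tendsto_sqrt hR).eventually hβe'] with x hx hx2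
    rw [hx, hx2]
  obtain ⟨K, K', hL, hK', hk, ha3, hsum⟩ := form hSgD hT3 (by exact_mod_cast hz3) hSgB kap hF hd
    hβ hG
  obtain ⟨-, -, -, -, -, -, hs, -⟩ := K5F.loc_Bn hSgD hT3 (by exact_mod_cast hz3) hSgB
  have hs' : Summable (fun n : ℕ => K5T.bb n * R ^ n) := hs
  have hexact : K5T.fr K5T.bb R = pBx 1 r s y t := by
    have h1 := exact_B hT hDg K5F.hyp hR hR1 aρ aσ aυ aτ hI hn hSgB' hs'
    rw [e1, e2, e3, e4] at h1
    exact h1
  suffices hval : K5T.fr K5F.Bc R = pB 1 r s y t by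
    rw [hval] at hsum
    exact ⟨K, K', hL, hK', hk, ha3, hsum, hexact, hval, hs'⟩
  -- the value of the series of the blocks
  have hBs := Bc_summable hR hs'
  have h1 : Tendsto (fun x : ℝ => K5T.fr K5F.Bc x) (𝓝[<] R) (𝓝 (K5T.fr K5F.Bc R)) := by
    have h2 := (K5T.continuousOn_fr K5F.Bc_nonneg hBs) R ⟨hR.le, le_rfl⟩
    refine h2.tendsto.mono_left ?_
    refine nhdsWithin_le_iff.2 ?_
    filter_upwards [K5F.HSegAux.ev_Ioo hR] with x hx using ⟨hx.1.le, hx.2.le⟩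
  refine tendsto_nhds_unique h1 ?_
  have hc : Tendsto (fun v => pB 1 (ρ v) (σ v) (υ v) (τ v)) (𝓝[≥] (0 : ℝ))
      (𝓝 (pB 1 (ρ 0) (σ 0) (υ 0) (τ 0))) :=
    (an_pB (v := 1) (by norm_num) aρ aσ aυ aτ hreg).continuousAt.tendsto.mono_left
      nhdsWithin_le_nhds
  rw [e1, e2, e3, e4] at hc
  refine (hc.comp (tendsto_sqrt hR)).congr' ?_
  filter_upwards [PN_arc hR hR1.le hI hn, hF, Ioo_mem_nhdsLT hR] with x hx hx2 hx'
  rw [hx2, BF_point hT hDg K5F.hyp hx'.1 hx'.2 hR1.le hf (hYp x hx'.1 hx'.2), hx]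
  rfl

end

end K5X
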