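import Pool.Agent.Lib.K5.Sys2I
import Pool.Agent.Lib.K5L.BoxNum
import Pool.Agent.Lib.K5L.BoxEx
import Pool.Agent.Lib.K5X.LawP
import Pool.Agent.Lib.K5X.LawC

/-!
# K5X.Inst: the law with the exact constants
-/

set_option autoImplicit false

namespace K5X

open Filter Topology K5N K5C
open scoped ENNReal

/-- The constants of the law are determined. -/
theorem LawX.unique {γ K K' δ L L' : ℝ} (h : LawX γ K K') (k : LawX δ L L') :
    γ = δ ∧ K = L ∧ K' = L' := by
  have e1 : γ = δ := tendsto_nhds_unique h.root k.root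
  subst e1
  have key : ∀ {a : ℕ → ℝ} {A B : ℝ}, 0 < A → 0 < B →
      Tendsto (fun n : ℕ => a n / (A * (n : ℝ) ^ (-(7 / 2) : ℝ) * γ ^ n * n.factorial)) atTop
        (𝓝 1) →
      Tendsto (fun n : ℕ => a n / (B * (n : ℝ) ^ (-(7 / 2) : ℝ) * γ ^ n * n.factorial)) atTop
        (𝓝 1) → A = B := by
    intro a A B hA hB h1 h2
    have h3 := h2.div h1 one_ne_zero
    rw [div_one] at h3
    have h4 : Tendsto (fun _ : ℕ => A / B) atTop (𝓝 1) := by
      refine h3.congr' ?_
      have h5 : ∀ᶠ n : ℕ in atTop,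
          a n / (A * (n : ℝ) ^ (-(7 / 2) : ℝ) * γ ^ n * n.factorial) ≠ 0 :=
        h1.eventually_ne one_ne_zero
      filter_upwards [h5, eventually_ge_atTop 1] with n h6 hn
      have hn0 : (0 : ℝ) < n := by exact_mod_cast hn
      have h7 : (0 : ℝ) < (n : ℝ) ^ (-(7 / 2) : ℝ) := Real.rpow_pos_of_pos hn0 _
      have h8 : (0 : ℝ) < γ ^ n := pow_pos h.pos n
      have h9 : (0 : ℝ) < (n.factorial : ℝ) := by positivity
      have h10 : a n ≠ 0 := by
        intro h0
        exact h6 (by rw [h0, zero_div])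
      have hA0 := hA.ne'
      have hB0 := hB.ne'
      have h70 := h7.ne'
      have h80 := h8.ne'
      have h90 := h9.ne'
      show a n / (B * (n : ℝ) ^ (-(7 / 2) : ℝ) * γ ^ n * n.factorial) /
        (a n / (A * (n : ℝ) ^ (-(7 / 2) : ℝ) * γ ^ n * n.factorial)) = A / B
      generalize (n : ℝ) ^ (-(7 / 2) : ℝ) = p at *
      field_simp
    have h11 : A / B = 1 := tendsto_nhds_unique tendsto_const_nhds h4
    rw [div_eq_one_iff_eq hB.ne'] at h11
    exact h11
  exact ⟨rfl, key h.K_pos k.K_pos h.numG k.numG, key h.K'_pos k.K'_pos h.numC k.numC⟩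

/-- The law at a critical point, constants in closed form. -/
theorem lawI {r s y t : ℝ} (hB : K5L.Box r s y t) :
    ∃ K K' : ℝ, LawX (Real.exp (pBx 1 r s y t) / px r s y t) K K' ∧ K' = cK r s y t ∧
      K = K' * Real.exp (px r s y t - px r s y t * pBx 1 r s y t + pB 1 r s y t) := by
  obtain ⟨γ, -, -, hg, -, -⟩ := P512.main
  have hγ : Tendsto (fun n : ℕ => ((P512.g n : ℝ) / n.factorial) ^ (1 / (n : ℝ))) atTop (𝓝 γ) := by
    simpa only [P512.numG_eq] using hg
  obtain ⟨K, K', h1, h2, -, -, h3, -⟩ := lawP (K5.sys2I γ hγ) (fun x z => (K5.T0_eq_ser2 x z).symm)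
    (fun _ => rfl) hB hB.pc hB.HD_le
  exact ⟨K, K', h1, h2, h3⟩

/-- The law at a critical point, `K'` from derivatives along any analytic curve. -/
theorem lawJ {r s y t : ℝ} (hB : K5L.Box r s y t) {σ υ τ : ℝ → ℝ} (C : Curve r s y t σ υ τ) :
    ∃ K K' : ℝ, LawX (Real.exp (pBx 1 r s y t) / px r s y t) K K' ∧
      K' = px r s y t *
        (cThree (px r s y t) (fun q => px q (σ q) (υ q) (τ q))
            (fun q => pBx 1 q (σ q) (υ q) (τ q)) r /
          (1 + cTwo (px r s y t) (fun q => px q (σ q) (υ q) (τ q))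
            (fun q => pBx 1 q (σ q) (υ q) (τ q)) r) ^ (5 / 2 : ℝ)) /
        Real.Gamma (-(3 / 2)) := by
  obtain ⟨γ, -, -, hg, -, -⟩ := P512.main
  have hγ : Tendsto (fun n : ℕ => ((P512.g n : ℝ) / n.factorial) ^ (1 / (n : ℝ))) atTop (𝓝 γ) := by
    simpa only [P512.numG_eq] using hg
  obtain ⟨K, K', h1, h2, -⟩ := law (K5.sys2I γ hγ) (fun x z => (K5.T0_eq_ser2 x z).symm)
    (fun _ => rfl) hB hB.pc hB.HD_le C
  exact ⟨K, K', h1, h2⟩

end K5X
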