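import Pool.Agent.Lib.K5X.NumG
import Pool.Agent.Lib.K5X.Fun

/-!
# K5X.NumP: bounds of the values of the generating functions of the blocks

Generated file.
-/

set_option autoImplicit false

namespace K5X

open K5N K5C K5L K5S

/-- Bounds of the values of the generating functions of the blocks. -/
structure NP (r s y t : ℝ) : Prop where
  hBx : In (382045009305472158392079/10000000000000000000000000) (11938906540796076933873/312500000000000000000000) (pBx 1 r s y t)
  hB : In (70845418617032929902791/100000000000000000000000000) (35422709308529616331651/50000000000000000000000000) (pB 1 r s y t)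
  hexp : In (103734265108619641/100000000000000000) (10373426510861967/10000000000000000) (Real.exp (((px r s y t) - ((px r s y t) * (pBx 1 r s y t))) + (pB 1 r s y t)))
  hgam : In (1389630689520220289313661533/50000000000000000000000000) (277926137904044124739857653/10000000000000000000000000) ((Real.exp (pBx 1 r s y t)) / (px r s y t))

theorem NB.nP {r s y t : ℝ} (h : NB r s y t) (k : NG r s y t) : NP r s y t := by
  have hreg : Reg (jet r s y t) := ⟨lt_of_lt_of_le (by norm_num) h.hbx.1,
    lt_of_lt_of_le (by norm_num) h.hbu.1, lt_of_lt_of_le (by norm_num) h.hD.1⟩
  have h1 : In (260435383367648740408929/5000000000000000000000000) (52087076673529755932013/1000000000000000000000000) ((px r s y t) * (Real.log (r / px r s y t))) := h.hx.mul' k.Lrx (by norm_num)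
  have h2 : In (12032724915719068375463671/12500000000000000000000000) (48130899662876273501854891/50000000000000000000000000) (1 - (px r s y t)) := (In.const (c := 1) (le_refl _) (le_refl _)).sub' h.hx (by norm_num)
  have h3 : In (47584466852439037271438773/100000000000000000000000000) (47584466852439057486416837/100000000000000000000000000) ((1 - (px r s y t)) * (Real.log ((s - r) / (1 - px r s y t)))) := h2.mul' k.Lsr (by norm_num)
  have h4 : In (52793174519792012079617353/100000000000000000000000000) (52793174519792033079618137/100000000000000000000000000) (((px r s y t) * (Real.log (r / px r s y t))) + ((1 - (px r s y t)) * (Real.log ((s - r) / (1 - px r s y t))))) := h1.add' h3 (by norm_num)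
  have h5 : In (152793174519792012079617353/100000000000000000000000000) (152793174519792033079618137/100000000000000000000000000) ((((px r s y t) * (Real.log (r / px r s y t))) + ((1 - (px r s y t)) * (Real.log ((s - r) / (1 - px r s y t))))) + 1) := h4.add' (In.const (c := 1) (le_refl _) (le_refl _)) (by norm_num)
  have h6 : In (-20076361196015290291872547/100000000000000000000000000) (-20076361196015269291871663/100000000000000000000000000) (((((px r s y t) * (Real.log (r / px r s y t))) + ((1 - (px r s y t)) * (Real.log ((s - r) / (1 - px r s y t))))) + 1) - s) := h5.sub' h.hs (by norm_num)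
  have h7 : In (150590228048589430238873/500000000000000000000000) (75295114024294715119437/250000000000000000000000) (2 * r) := (In.const (c := 2) (le_refl _) (le_refl _)).mul' h.hr (by norm_num)
  have h8 : In (507468953313812971048161/250000000000000000000000) (2029875813255251884192647/1000000000000000000000000) (s + (2 * r)) := h.hs.add' h7 (by norm_num)
  have h9 : In (350903689398182159563632067/100000000000000000000000000) (350903689398182159563632789/100000000000000000000000000) (s * (s + (2 * r))) := h.hs.mul' h8 (by norm_num)
  have h10 : In (72009719770666870580968807/100000000000000000000000000) (72009719770666870580969307/100000000000000000000000000) (y * (s * (s + (2 * r)))) := h.hy.mul' h9 (by norm_num)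
  have h11 : In (36004859885333435290484403/100000000000000000000000000) (18002429942666717645242327/50000000000000000000000000) ((y * (s * (s + (2 * r)))) / 2) := h10.div' (In.const (c := 2) (le_refl _) (le_refl _)) (by norm_num)
  have h12 : In (995531168082384062413241/6250000000000000000000000) (15928498689318165998612991/100000000000000000000000000) ((((((px r s y t) * (Real.log (r / px r s y t))) + ((1 - (px r s y t)) * (Real.log ((s - r) / (1 - px r s y t))))) + 1) - s) + ((y * (s * (s + (2 * r)))) / 2)) := h6.add' h11 (by norm_num)
  have h13 : In (7470969094649694133376943/2500000000000000000000000) (298838763785987765335078067/100000000000000000000000000) (s ^ 2) := h.hs.pow' 2 (by norm_num)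
  have h14 : In (451770684145768290716619/500000000000000000000000) (225885342072884145358311/250000000000000000000000) (6 * r) := (In.const (c := 6) (le_refl _) (le_refl _)).mul' h.hr (by norm_num)
  have h15 : In (78097388418291591342831519/50000000000000000000000000) (156194776836583182685664167/100000000000000000000000000) ((6 * r) * s) := h14.mul' h.hs (by norm_num)
  have h16 : In (227516770311285474010370379/50000000000000000000000000) (227516770311285474010371117/50000000000000000000000000) ((s ^ 2) + ((6 * r) * s)) := h13.add' h15 (by norm_num)
  have h17 : In (2267741678372617075848489/100000000000000000000000000) (56693541959315426896213/2500000000000000000000000) (r ^ 2) := h.hr.pow' 2 (by norm_num)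
  have h18 : In (6803225035117851227545467/100000000000000000000000000) (170080625877946280688639/2500000000000000000000000) (3 * (r ^ 2)) := (In.const (c := 3) (le_refl _) (le_refl _)).mul' h17 (by norm_num)
  have h19 : In (18473470626307551969931449/4000000000000000000000000) (230918382828844399624143897/50000000000000000000000000) (((s ^ 2) + ((6 * r) * s)) + (3 * (r ^ 2))) := h16.add' h18 (by norm_num)
  have h20 : In (798375072557347612621637119/100000000000000000000000000) (399187536278673806310820147/50000000000000000000000000) (s * (((s ^ 2) + ((6 * r) * s)) + (3 * (r ^ 2)))) := h.hs.mul' h19 (by norm_num)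
  have h21 : In (859815945140431790520353/100000000000000000000000000) (214953986285107947630289/25000000000000000000000000) (t * (s * (((s ^ 2) + ((6 * r) * s)) + (3 * (r ^ 2))))) := h.ht.mul' h20 (by norm_num)
  have h22 : In (286605315046810596840117/100000000000000000000000000) (143302657523405298420193/50000000000000000000000000) ((t * (s * (((s ^ 2) + ((6 * r) * s)) + (3 * (r ^ 2))))) / 3) := h21.div' (In.const (c := 3) (le_refl _) (le_refl _)) (by norm_num)
  have h23 : In (16215104004364955595451973/100000000000000000000000000) (16215104004364976595453377/100000000000000000000000000) (((((((px r s y t) * (Real.log (r / px r s y t))) + ((1 - (px r s y t)) * (Real.log ((s - r) / (1 - px r s y t))))) + 1) - s) + ((y * (s * (s + (2 * r)))) / 2)) + ((t * (s * (((s ^ 2) + ((6 * r) * s)) + (3 * (r ^ 2))))) / 3)) := h12.add' h22 (by norm_num)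
  have h24 : In (16215104004364955595451973/100000000000000000000000000) (16215104004364976595453377/100000000000000000000000000) (cf (px r s y t) r s y t) := In.congr h23 (by unfold cf; with_reducible rfl)
  have h25 : In (25364645220539487348662009/50000000000000000000000000) (5072929044107897469735299/10000000000000000000000000) ((fk (jet r s y t)) - 1) := h.hk.sub' (In.const (c := 1) (le_refl _) (le_refl _)) (by norm_num)
  have h26 : In (4848882053528967348662009/50000000000000000000000000) (969776410705795569735299/10000000000000000000000000) (((fk (jet r s y t)) - 1) - (Real.log (fk (jet r s y t)))) := h25.sub' k.Lk (by norm_num)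
  have h27 : In (4848882053528967348662009/100000000000000000000000000) (969776410705795569735299/20000000000000000000000000) ((((fk (jet r s y t)) - 1) - (Real.log (fk (jet r s y t)))) / 2) := h26.div' (In.const (c := 2) (le_refl _) (le_refl _)) (by norm_num)
  have h28 : In (2368020820421572698668841/20000000000000000000000000) (11840104102107863493349021/100000000000000000000000000) ((fY (jet r s y t)) / 4) := h.hY.div' (In.const (c := 4) (le_refl _) (le_refl _)) (by norm_num)
  have h29 : In (-1747805512144724036171753/25000000000000000000000000) (-699122204857888564466771/10000000000000000000000000) (((((fk (jet r s y t)) - 1) - (Real.log (fk (jet r s y t)))) / 2) - ((fY (jet r s y t)) / 4)) := h27.sub' h28 (by norm_num)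
  have h30 : In (122933496911887535060299/100000000000000000000000000) (24586699382377507012097/20000000000000000000000000) ((fT (jet r s y t)) / 3) := h.hT.div' (In.const (c := 3) (le_refl _) (le_refl _)) (by norm_num)
  have h31 : In (-6868288551667008609626713/100000000000000000000000000) (-274731542066679924384289/4000000000000000000000000) ((((((fk (jet r s y t)) - 1) - (Real.log (fk (jet r s y t)))) / 2) - ((fY (jet r s y t)) / 4)) + ((fT (jet r s y t)) / 3)) := h29.add' h30 (by norm_num)
  have h32 : In (977529989990158931284267/12500000000000000000000000) (7820239919921271450341103/100000000000000000000000000) ((jet r s y t).x * (1 + (fD (jet r s y t)))) := h.hbx.mul' h.pD1 (by norm_num)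
  have h33 : In (231481136888318790029997/6250000000000000000000000) (148147927608524025620527/4000000000000000000000000) (((jet r s y t).x * (1 + (fD (jet r s y t)))) * (fY (jet r s y t))) := h32.mul' h.hY (by norm_num)
  have h34 : In (231481136888318790029997/12500000000000000000000000) (462962273776637580064147/25000000000000000000000000) ((((jet r s y t).x * (1 + (fD (jet r s y t)))) * (fY (jet r s y t))) / 2) := h33.div' (In.const (c := 2) (le_refl _) (le_refl _)) (by norm_num)
  have h35 : In (-8720137646773558929883301/100000000000000000000000000) (-8720137646773548429847201/100000000000000000000000000) (((((((fk (jet r s y t)) - 1) - (Real.log (fk (jet r s y t)))) / 2) - ((fY (jet r s y t)) / 4)) + ((fT (jet r s y t)) / 3)) - ((((jet r s y t).x * (1 + (fD (jet r s y t)))) * (fY (jet r s y t))) / 2)) := h31.sub' h34 (by norm_num)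
  have h36 : In (319843573194253288604361/25000000000000000000000000) (1279374292777013154450179/100000000000000000000000000) (((jet r s y t).x ^ 2) * ((1 + (fD (jet r s y t))) ^ 3)) := h.px2.mul' h.pD13 (by norm_num)
  have h37 : In (184400245367831302590449/25000000000000000000000000) (184400245367831302590727/25000000000000000000000000) (2 * (fT (jet r s y t))) := (In.const (c := 2) (le_refl _) (le_refl _)).mul' h.hT (by norm_num)
  have h38 : In (1360138019668655590719/100000000000000000000000000) (340034504917163897681/25000000000000000000000000) ((fT (jet r s y t)) ^ 2) := h.hT.pow' 2 (by norm_num)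
  have h39 : In (147719978068515654387/1562500000000000000000000) (4727039298192500940513/50000000000000000000000000) ((((jet r s y t).x ^ 2) * ((1 + (fD (jet r s y t))) ^ 3)) * ((2 * (fT (jet r s y t))) + ((fT (jet r s y t)) ^ 2))) := h36.mul' h.pTT (by norm_num)
  have h40 : In (147719978068515654387/6250000000000000000000000) (2363519649096250470257/100000000000000000000000000) (((((jet r s y t).x ^ 2) * ((1 + (fD (jet r s y t))) ^ 3)) * ((2 * (fT (jet r s y t))) + ((fT (jet r s y t)) ^ 2))) / 4) := h39.div' (In.const (c := 4) (le_refl _) (le_refl _)) (by norm_num)
  have h41 : In (-4361250583211327590176779/50000000000000000000000000) (-8722501166422644680317393/100000000000000000000000000) ((((((((fk (jet r s y t)) - 1) - (Real.log (fk (jet r s y t)))) / 2) - ((fY (jet r s y t)) / 4)) + ((fT (jet r s y t)) / 3)) - ((((jet r s y t).x * (1 + (fD (jet r s y t)))) * (fY (jet r s y t))) / 2)) - (((((jet r s y t).x ^ 2) * ((1 + (fD (jet r s y t))) ^ 3)) * ((2 * (fT (jet r s y t))) + ((fT (jet r s y t)) ^ 2))) / 4)) := h35.sub' h40 (by norm_num)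
  have h42 : In (-16705308697630252611/6250000000000000000000000) (-267284939162084011607/100000000000000000000000000) ((((jet r s y t).x ^ 2) * ((1 + (fD (jet r s y t))) ^ 3)) * (fG (jet r s y t))) := h36.mulN' h.hG (by norm_num)
  have h43 : In (-16705308697630252611/12500000000000000000000000) (-133642469581042005803/100000000000000000000000000) (((((jet r s y t).x ^ 2) * ((1 + (fD (jet r s y t))) ^ 3)) * (fG (jet r s y t))) / 2) := h42.divN' (In.const (c := 2) (le_refl _) (le_refl _)) (by norm_num)
  have h44 : In (-4361317404446118111187223/50000000000000000000000000) (-2180658702223056430580799/25000000000000000000000000) (((((((((fk (jet r s y t)) - 1) - (Real.log (fk (jet r s y t)))) / 2) - ((fY (jet r s y t)) / 4)) + ((fT (jet r s y t)) / 3)) - ((((jet r s y t).x * (1 + (fD (jet r s y t)))) * (fY (jet r s y t))) / 2)) - (((((jet r s y t).x ^ 2) * ((1 + (fD (jet r s y t))) ^ 3)) * ((2 * (fT (jet r s y t))) + ((fT (jet r s y t)) ^ 2))) / 4)) + (((((jet r s y t).x ^ 2) * ((1 + (fD (jet r s y t))) ^ 3)) * (fG (jet r s y t))) / 2)) := h41.add' h43 (by norm_num)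
  have h45 : In (6123058868510727680975877/100000000000000000000000000) (6123058868510727681075707/100000000000000000000000000) ((3 / 2) * ((jet r s y t).x * (fD (jet r s y t)))) := (In.const (c := (3 / 2)) (le_refl _) (le_refl _)).mul' h.pxD (by norm_num)
  have h46 : In (-2599575940381508541398569/100000000000000000000000000) (-2599575940381498041247489/100000000000000000000000000) ((((((((((fk (jet r s y t)) - 1) - (Real.log (fk (jet r s y t)))) / 2) - ((fY (jet r s y t)) / 4)) + ((fT (jet r s y t)) / 3)) - ((((jet r s y t).x * (1 + (fD (jet r s y t)))) * (fY (jet r s y t))) / 2)) - (((((jet r s y t).x ^ 2) * ((1 + (fD (jet r s y t))) ^ 3)) * ((2 * (fT (jet r s y t))) + ((fT (jet r s y t)) ^ 2))) / 4)) + (((((jet r s y t).x ^ 2) * ((1 + (fD (jet r s y t))) ^ 3)) * (fG (jet r s y t))) / 2)) + ((3 / 2) * ((jet r s y t).x * (fD (jet r s y t))))) := h44.add' h45 (by norm_num)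
  have h47 : In (7278282482258430088731/4000000000000000000000000) (181957062056460752227157/100000000000000000000000000) (((jet r s y t).x ^ 2) * ((fD (jet r s y t)) ^ 3)) := h.px2.mul' h.pP3 (by norm_num)
  have h48 : In (52041019622836909226991959/12500000000000000000000000) (104082039245673818454050471/25000000000000000000000000) (4 * (1 + ((jet r s y t).x * (fD (jet r s y t))))) := (In.const (c := 4) (le_refl _) (le_refl _)).mul' h.pxD1 (by norm_num)
  have h49 : In (8741040403088749904327/20000000000000000000000000) (21852601007721874761899/50000000000000000000000000) ((((jet r s y t).x ^ 2) * ((fD (jet r s y t)) ^ 3)) / (4 * (1 + ((jet r s y t).x * (fD (jet r s y t)))))) := h47.div' h48 (by norm_num)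
  have h50 : In (-1277935369183032395938467/50000000000000000000000000) (-2555870738366054291723691/100000000000000000000000000) (((((((((((fk (jet r s y t)) - 1) - (Real.log (fk (jet r s y t)))) / 2) - ((fY (jet r s y t)) / 4)) + ((fT (jet r s y t)) / 3)) - ((((jet r s y t).x * (1 + (fD (jet r s y t)))) * (fY (jet r s y t))) / 2)) - (((((jet r s y t).x ^ 2) * ((1 + (fD (jet r s y t))) ^ 3)) * ((2 * (fT (jet r s y t))) + ((fT (jet r s y t)) ^ 2))) / 4)) + (((((jet r s y t).x ^ 2) * ((1 + (fD (jet r s y t))) ^ 3)) * (fG (jet r s y t))) / 2)) + ((3 / 2) * ((jet r s y t).x * (fD (jet r s y t))))) + ((((jet r s y t).x ^ 2) * ((fD (jet r s y t)) ^ 3)) / (4 * (1 + ((jet r s y t).x * (fD (jet r s y t))))))) := h46.add' h49 (by norm_num)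
  have h51 : In (1869100337123726498145109/100000000000000000000000000) (467275084280931624536329/25000000000000000000000000) ((jet r s y t).x / 2) := h.hbx.div' (In.const (c := 2) (le_refl _) (le_refl _)) (by norm_num)
  have h52 : In (1379603223367590758645513/100000000000000000000000000) (1379603223367591151156737/100000000000000000000000000) (((jet r s y t).x / 2) * (Real.log (1 + fD (jet r s y t)))) := h51.mul' k.LD (by norm_num)
  have h53 : In (-3935473961733655943033671/100000000000000000000000000) (-983868490433411262592301/25000000000000000000000000) ((((((((((((fk (jet r s y t)) - 1) - (Real.log (fk (jet r s y t)))) / 2) - ((fY (jet r s y t)) / 4)) + ((fT (jet r s y t)) / 3)) - ((((jet r s y t).x * (1 + (fD (jet r s y t)))) * (fY (jet r s y t))) / 2)) - (((((jet r s y t).x ^ 2) * ((1 + (fD (jet r s y t))) ^ 3)) * ((2 * (fT (jet r s y t))) + ((fT (jet r s y t)) ^ 2))) / 4)) + (((((jet r s y t).x ^ 2) * ((1 + (fD (jet r s y t))) ^ 3)) * (fG (jet r s y t))) / 2)) + ((3 / 2) * ((jet r s y t).x * (fD (jet r s y t))))) + ((((jet r s y t).x ^ 2) * ((fD (jet r s y t)) ^ 3)) / (4 * (1 + ((jet r s y t).x * (fD (jet r s y t))))))) - (((jet r s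 y t).x / 2) * (Real.log (1 + fD (jet r s y t))))) := h50.sub' h52 (by norm_num)
  have h54 : In (-171692685105632798029/48828125000000000000000) (-87906654774083582027499/25000000000000000000000000) (((jet r s y t).x * (1 + (fD (jet r s y t)))) * (Real.log ((1 + 1) / (1 + fD (jet r s y t))))) := h32.mulN' k.L2 (by norm_num)
  have h55 : In (-4287100580829991913397063/100000000000000000000000000) (-5358875726037474223099/125000000000000000000000) (((((((((((((fk (jet r s y t)) - 1) - (Real.log (fk (jet r s y t)))) / 2) - ((fY (jet r s y t)) / 4)) + ((fT (jet r s y t)) / 3)) - ((((jet r s y t).x * (1 + (fD (jet r s y t)))) * (fY (jet r s y t))) / 2)) - (((((jet r s y t).x ^ 2) * ((1 + (fD (jet r s y t))) ^ 3)) * ((2 * (fT (jet r s y t))) + ((fT (jet r s y t)) ^ 2))) / 4)) + (((((jet r s y t).x ^ 2) * ((1 + (fD (jet r s y t))) ^ 3)) * (fG (jet r s y t))) / 2)) + ((3 / 2) * ((jet r s y t).x * (fD (jet r s y t))))) + ((((jet r s y t).x ^ 2) * ((fD (jet r s y t)) ^ 3)) / (4 * (1 + ((jet r s y t).x * (fD (jet r s y t))))))) - (((jet r s y t).x / 2) * (Real.log (1 + fD (jet r s y t))))) + (((jet r s y t).x * (1 + (fD (jet r s y t)))) * (Real.log ((1 +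 1) / (1 + fD (jet r s y t)))))) := h53.add' h54 (by norm_num)
  have h56 : In (29323314092311843/100000000000000000000000000) (29323314092311847/100000000000000000000000000) (((jet r s y t).x ^ 7) * ((fD (jet r s y t)) ^ 12)) := h.px7.mul' h.pP12 (by norm_num)
  have h57 : In (14661657046155921/100000000000000000000000000) (3665414261538981/25000000000000000000000000) ((((jet r s y t).x ^ 7) * ((fD (jet r s y t)) ^ 12)) / 2) := h56.div' (In.const (c := 2) (le_refl _) (le_refl _)) (by norm_num)
  have h58 : In (-2143550283084167433620571/50000000000000000000000000) (-1071775141542080583080819/25000000000000000000000000) ((((((((((((((fk (jet r s y t)) - 1) - (Real.log (fk (jet r s y t)))) / 2) - ((fY (jet r s y t)) / 4)) + ((fT (jet r s y t)) / 3)) - ((((jet r s y t).x * (1 + (fD (jet r s y t)))) * (fY (jet r s y t))) / 2)) - (((((jet r s y t).x ^ 2) * ((1 + (fD (jet r s y t))) ^ 3)) * ((2 * (fT (jet r s y t))) + ((fT (jet r s y t)) ^ 2))) / 4)) + (((((jet r s y t).x ^ 2) * ((1 + (fD (jet r s y t))) ^ 3)) * (fG (jet r s y t))) / 2)) + ((3 / 2) * ((jet r s y t).x * (fD (jet r s y t))))) + ((((jet r s y t).x ^ 2) * ((fD (jet r s y t)) ^ 3)) / (4 *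 (1 + ((jet r s y t).x * (fD (jet r s y t))))))) - (((jet r s y t).x / 2) * (Real.log (1 + fD (jet r s y t))))) + (((jet r s y t).x * (1 + (fD (jet r s y t)))) * (Real.log ((1 + 1) / (1 + fD (jet r s y t)))))) + ((((jet r s y t).x ^ 7) * ((fD (jet r s y t)) ^ 12)) / 2)) := h55.add' h57 (by norm_num)
  have h59 : In (16115513056158768639/100000000000000000000000000) (3223102611231753729/20000000000000000000000000) (((jet r s y t).x ^ 5) * ((fD (jet r s y t)) ^ 9)) := h.px5.mul' h.pP9 (by norm_num)
  have h60 : In (1342959421346564053/100000000000000000000000000) (671479710673282027/50000000000000000000000000) ((((jet r s y t).x ^ 5) * ((fD (jet r s y t)) ^ 9)) / 12) := h59.div' (In.const (c := 12) (le_refl _) (le_refl _)) (by norm_num)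
  have h61 : In (-1071775477281939053451299/25000000000000000000000000) (-4287101909127743678887329/100000000000000000000000000) (((((((((((((((fk (jet r s y t)) - 1) - (Real.log (fk (jet r s y t)))) / 2) - ((fY (jet r s y t)) / 4)) + ((fT (jet r s y t)) / 3)) - ((((jet r s y t).x * (1 + (fD (jet r s y t)))) * (fY (jet r s y t))) / 2)) - (((((jet r s y t).x ^ 2) * ((1 + (fD (jet r s y t))) ^ 3)) * ((2 * (fT (jet r s y t))) + ((fT (jet r s y t)) ^ 2))) / 4)) + (((((jet r s y t).x ^ 2) * ((1 + (fD (jet r s y t))) ^ 3)) * (fG (jet r s y t))) / 2)) + ((3 / 2) * ((jet r s y t).x * (fD (jet r s y t))))) + ((((jet r s y t).x ^ 2) * ((fD (jet r s y t)) ^ 3)) / (4 * (1 + ((jet r s y t).x * (fD (jet r s y t))))))) - (((jet r s y t).x / 2) * (Real.log (1 + fD (jet r s y t))))) + (((jet r s y t).x * (1 + (fD (jet r s y t)))) * (Real.log ((1 + 1) / (1 + fD (jet r s y t)))))) + ((((jet r s y t).x ^ 7) * ((fD (jet r s y t)) ^ 12)) / 2)) - ((((jet r s y t).x ^ 5) * ((fD (jet r s y t)) ^ 9)) / 12)) := h58.sub' h60 (by norm_num)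
  have h62 : In (-1071775477281939053451299/25000000000000000000000000) (-4287101909127743678887329/100000000000000000000000000) (fJ (jet r s y t)) := In.congr h61 (by unfold fJ; with_reducible rfl)
  have h63 : In (4053776001091238898862993/50000000000000000000000000) (8107552002182488297726689/100000000000000000000000000) ((cf (px r s y t) r s y t) / 2) := h24.div' (In.const (c := 2) (le_refl _) (le_refl _)) (by norm_num)
  have h64 : In (382045009305472158392079/10000000000000000000000000) (11938906540796076933873/312500000000000000000000) (((cf (px r s y t) r s y t) / 2) + (fJ (jet r s y t))) := h63.add' h62 (by norm_num)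
  have h65 : In (382045009305472158392079/10000000000000000000000000) (11938906540796076933873/312500000000000000000000) (pBx 1 r s y t) := In.congr h64 (pBx_eq hreg).symm
  have h66 : In (75364645220539487348662009/50000000000000000000000000) (15072929044107897469735299/10000000000000000000000000) (pkap r s y t) := h.hk
  have h67 : In (2368020820421572698668841/5000000000000000000000000) (11840104102107863493349021/25000000000000000000000000) (pY r s y t) := h.hY
  have h68 : In (184400245367831302590449/50000000000000000000000000) (184400245367831302590727/50000000000000000000000000) (pT r s y t) := h.hT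
  have h69 : In (109197969862749128744886001/100000000000000000000000000) (27299492465687282186663557/25000000000000000000000000) (pD r s y t) := h.hD
  have h70 : In (27149804340959048518459/12500000000000000000000000) (54299608681918097218151/25000000000000000000000000) (pK r s y t) := h.hK
  have h71 : In (41031526334021019/100000000000000000) (512894079175263/1250000000000000) (Real.log (pkap r s y t)) := k.Lk
  have h72 : In (14762216837332547/20000000000000000) (18452771046665689/25000000000000000) (Real.log (1 + pD r s y t)) := k.LD
  have h73 : In (15628609798481/390625000000000) (4000924108411157/100000000000000000) (Real.log (1 + px r s y t * pD r s y t)) := k.LxD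
  have h74 : In (-179854645226729/4000000000000000) (-1124091532667051/25000000000000000) (Real.log ((1 + 1) / (1 + pD r s y t))) := k.L2
  have h75 : In (-20891848513066075476617/100000000000000000000000000) (-4178369702613214623819/20000000000000000000000000) (cG (pA r s y t) (pT r s y t)) := h.hG
  have h76 : In (3493536070236028047773/2500000000000000000000000) (17467680351180140238869/12500000000000000000000000) ((px r s y t) ^ 2) := h.hx.pow' 2 (by norm_num)
  have h77 : In (48677986285141921357311/25000000000000000000000000) (12169496571285482173437/6250000000000000000000000) (((px r s y t) ^ 2) * (Real.log (r / px r s y t))) := h76.mul' k.Lrx (by norm_num)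
  have h78 : In (13732852866313956421357311/25000000000000000000000000) (3433213216578490419673437/6250000000000000000000000) ((((px r s y t) ^ 2) * (Real.log (r / px r s y t))) + (Real.log s)) := h77.add' k.Ls (by norm_num)
  have h79 : In (92663340094314535129329687/100000000000000000000000000) (18532668018862907025866097/20000000000000000000000000) ((1 - (px r s y t)) ^ 2) := h2.pow' 2 (by norm_num)
  have h80 : In (22902831995862052702861727/50000000000000000000000000) (45805663991724124865025269/100000000000000000000000000) (((1 - (px r s y t)) ^ 2) * (Real.log ((s - r) / (1 - px r s y t)))) := h79.mul' k.Lsr (by norm_num)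
  have h81 : In (365029898941268032816159/4000000000000000000000000) (4562873736765870654525769/50000000000000000000000000) (((((px r s y t) ^ 2) * (Real.log (r / px r s y t))) + (Real.log s)) - (((1 - (px r s y t)) ^ 2) * (Real.log ((s - r) / (1 - px r s y t))))) := h78.sub' h80 (by norm_num)
  have h82 : In (1869100337123726498145109/25000000000000000000000000) (467275084280931624536329/6250000000000000000000000) (2 * (px r s y t)) := (In.const (c := 2) (le_refl _) (le_refl _)).mul' h.hx (by norm_num)
  have h83 : In (16602148822026606812984411/100000000000000000000000000) (8301074411013323650816401/50000000000000000000000000) ((((((px r s y t) ^ 2) * (Real.log (r / px r s y t))) + (Real.log s)) - (((1 - (px r s y t)) ^ 2) * (Real.log ((s - r) / (1 - px r s y t))))) + (2 * (px r s y t))) := h81.add' h82 (by norm_num)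
  have h84 : In (6462210149696750147594003/100000000000000000000000000) (6462210149696750147594723/100000000000000000000000000) ((px r s y t) * s) := h.hx.mul' h.hs (by norm_num)
  have h85 : In (1267492334041232083173711/12500000000000000000000000) (10139938672329897154038799/100000000000000000000000000) (((((((px r s y t) ^ 2) * (Real.log (r / px r s y t))) + (Real.log s)) - (((1 - (px r s y t)) ^ 2) * (Real.log ((s - r) / (1 - px r s y t))))) + (2 * (px r s y t))) - ((px r s y t) * s)) := h83.sub' h84 (by norm_num)
  have h86 : In (-307442758283067897406107/6250000000000000000000000) (-4919084132529045869848501/100000000000000000000000000) ((((((((px r s y t) ^ 2) * (Real.log (r / px r s y t))) + (Real.log s)) - (((1 - (px r s y t)) ^ 2) * (Real.log ((s - r) / (1 - px r s y t))))) + (2 * (px r s y t))) - ((px r s y t) * s)) - r) := h85.sub' h.hr (by norm_num)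
  have h87 : In (13117484083042033726064171/100000000000000000000000000) (13117484083042033726065651/100000000000000000000000000) ((px r s y t) * (s * (s + (2 * r)))) := h.hx.mul' h9 (by norm_num)
  have h88 : In (864347678579036511857449/250000000000000000000000) (1728695357158073023714899/500000000000000000000000) (2 * s) := (In.const (c := 2) (le_refl _) (le_refl _)).mul' h.hs (by norm_num)
  have h89 : In (3607980942364735477668669/1000000000000000000000000) (56374702224448991838573/15625000000000000000000) (r + (2 * s)) := h.hr.add' h88 (by norm_num)
  have h90 : In (10866533458113402260880567/20000000000000000000000000) (27166333645283505652201621/50000000000000000000000000) (r * (r + (2 * s))) := h.hr.mul' h89 (by norm_num)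
  have h91 : In (33725075686804522515233503/50000000000000000000000000) (67450151373609045030468893/100000000000000000000000000) (((px r s y t) * (s * (s + (2 * r)))) + (r * (r + (2 * s)))) := h87.add' h90 (by norm_num)
  have h92 : In (29146522968306018616948007/50000000000000000000000000) (58293045936612037233898901/100000000000000000000000000) ((((px r s y t) * (s * (s + (2 * r)))) + (r * (r + (2 * s)))) - (pw2 r s y t)) := h91.sub' h.hv (by norm_num)
  have h93 : In (239248889612603184965347/2000000000000000000000000) (11962444480630159248268001/100000000000000000000000000) (y * ((((px r s y t) * (s * (s + (2 * r)))) + (r * (r + (2 * s)))) - (pw2 r s y t))) := h.hy.mul' h92 (by norm_num)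
  have h94 : In (239248889612603184965347/4000000000000000000000000) (5981222240315079624134001/100000000000000000000000000) ((y * ((((px r s y t) * (s * (s + (2 * r)))) + (r * (r + (2 * s)))) - (pw2 r s y t))) / 2) := h93.div' (In.const (c := 2) (le_refl _) (le_refl _)) (by norm_num)
  have h95 : In (1062138107785993265635963/100000000000000000000000000) (2124276215572067508571/200000000000000000000000) (((((((((px r s y t) ^ 2) * (Real.log (r / px r s y t))) + (Real.log s)) - (((1 - (px r s y t)) ^ 2) * (Real.log ((s - r) / (1 - px r s y t))))) + (2 * (px r s y t))) - ((px r s y t) * s)) - r) + ((y * ((((px r s y t) * (s * (s + (2 * r)))) + (r * (r + (2 * s)))) - (pw2 r s y t))) / 2)) := h86.add' h94 (by norm_num)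
  have h96 : In (14922431172681180265111153/50000000000000000000000000) (29844862345362360530225731/100000000000000000000000000) ((px r s y t) * (s * (((s ^ 2) + ((6 * r) * s)) + (3 * (r ^ 2))))) := h.hx.mul' h20 (by norm_num)
  have h97 : In (158462518514955799761511527/100000000000000000000000000) (158462518514955799761512687/100000000000000000000000000) ((r ^ 2) + ((6 * r) * s)) := h17.add' h15 (by norm_num)
  have h98 : In (22412907283949082400130829/2500000000000000000000000) (896516291357963296005234201/100000000000000000000000000) (3 * (s ^ 2)) := (In.const (c := 3) (le_refl _) (le_refl _)).mul' h13 (by norm_num)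
  have h99 : In (1054978809872919095766744687/100000000000000000000000000) (131872351234114886970843361/12500000000000000000000000) (((r ^ 2) + ((6 * r) * s)) + (3 * (s ^ 2))) := h97.add' h98 (by norm_num)
  have h100 : In (158869499565192356942877381/100000000000000000000000000) (158869499565192356942878769/100000000000000000000000000) (r * (((r ^ 2) + ((6 * r) * s)) + (3 * (s ^ 2)))) := h.hr.mul' h99 (by norm_num)
  have h101 : In (188714361910554717473099687/100000000000000000000000000) (377428723821109434946209/200000000000000000000000) (((px r s y t) * (s * (((s ^ 2) + ((6 * r) * s)) + (3 * (r ^ 2))))) + (r * (((r ^ 2) + ((6 * r) * s)) + (3 * (s ^ 2))))) := h96.add' h100 (by norm_num)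
  have h102 : In (15982880125812424664118511/50000000000000000000000000) (15982880125812424664120861/50000000000000000000000000) (2 * (pw3 r s y t)) := (In.const (c := 2) (le_refl _) (le_refl _)).mul' h.hw (by norm_num)
  have h103 : In (31349720331785973628971593/20000000000000000000000000) (78374300829464934072433739/50000000000000000000000000) ((((px r s y t) * (s * (((s ^ 2) + ((6 * r) * s)) + (3 * (r ^ 2))))) + (r * (((r ^ 2) + ((6 * r) * s)) + (3 * (s ^ 2))))) - (2 * (pw3 r s y t))) := h101.sub' h102 (by norm_num)
  have h104 : In (42202891760229932124887/25000000000000000000000000) (42202891760229932124929/25000000000000000000000000) (t * ((((px r s y t) * (s * (((s ^ 2) + ((6 * r) * s)) + (3 * (r ^ 2))))) + (r * (((r ^ 2) + ((6 * r) * s)) + (3 * (s ^ 2))))) - (2 * (pw3 r s y t)))) := h.ht.mul' h103 (by norm_num)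
  have h105 : In (28135261173486621416591/50000000000000000000000000) (56270522346973242833239/100000000000000000000000000) ((t * ((((px r s y t) * (s * (((s ^ 2) + ((6 * r) * s)) + (3 * (r ^ 2))))) + (r * (((r ^ 2) + ((6 * r) * s)) + (3 * (s ^ 2))))) - (2 * (pw3 r s y t)))) / 3) := h104.div' (In.const (c := 3) (le_refl _) (le_refl _)) (by norm_num)
  have h106 : In (223681726026593301693829/20000000000000000000000000) (1118408630133006997118739/100000000000000000000000000) ((((((((((px r s y t) ^ 2) * (Real.log (r / px r s y t))) + (Real.log s)) - (((1 - (px r s y t)) ^ 2) * (Real.log ((s - r) / (1 - px r s y t))))) + (2 * (px r s y t))) - ((px r s y t) * s)) - r) + ((y * ((((px r s y t) * (s * (s + (2 * r)))) + (r * (r + (2 * s)))) - (pw2 r s y t))) / 2)) + ((t * ((((px r s y t) * (s * (((s ^ 2) + ((6 * r) * s)) + (3 * (r ^ 2))))) + (r * (((r ^ 2) + ((6 * r) * s)) + (3 * (s ^ 2))))) - (2 * (pw3 r s y t)))) / 3)) := h95.add' h105 (by norm_num)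
  have h107 : In (139801078766620813558643/25000000000000000000000000) (55920431506650349855937/10000000000000000000000000) (((((((((((px r s y t) ^ 2) * (Real.log (r / px r s y t))) + (Real.log s)) - (((1 - (px r s y t)) ^ 2) * (Real.log ((s - r) / (1 - px r s y t))))) + (2 * (px r s y t))) - ((px r s y t) * s)) - r) + ((y * ((((px r s y t) * (s * (s + (2 * r)))) + (r * (r + (2 * s)))) - (pw2 r s y t))) / 2)) + ((t * ((((px r s y t) * (s * (((s ^ 2) + ((6 * r) * s)) + (3 * (r ^ 2))))) + (r * (((r ^ 2) + ((6 * r) * s)) + (3 * (s ^ 2))))) - (2 * (pw3 r s y t)))) / 3)) / 2) := h106.div' (In.const (c := 2) (le_refl _) (le_refl _)) (by norm_num)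
  have h108 : In (139801078766620813558643/25000000000000000000000000) (55920431506650349855937/10000000000000000000000000) (cF (px r s y t) r s y t) := In.congr h107 (by unfold cF; with_reducible rfl)
  have h109 : In (139801078766620813558643/25000000000000000000000000) (55920431506650349855937/10000000000000000000000000) (pF r s y t) := h108
  have h110 : In (3493536070236028047773/5000000000000000000000000) (17467680351180140238869/25000000000000000000000000) (((px r s y t) ^ 2) / 2) := h76.div' (In.const (c := 2) (le_refl _) (le_refl _)) (by norm_num)
  have h111 : In (-8846721419021598436663557/25000000000000000000000000) (-35386885676086372744886001/100000000000000000000000000) ((Real.log (1 + pD r s y t)) - (pD r s y t)) := h72.sub' h69 (by norm_num)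
  have h112 : In (59620983110729334876291/50000000000000000000000) (119241966221458669756443737/100000000000000000000000000) ((pD r s y t) ^ 2) := h69.pow' 2 (by norm_num)
  have h113 : In (59620983110729334876291/100000000000000000000000) (59620983110729334878221869/100000000000000000000000000) (((pD r s y t) ^ 2) / 2) := h112.div' (In.const (c := 2) (le_refl _) (le_refl _)) (by norm_num)
  have h114 : In (-95007868786815728624876097/100000000000000000000000000) (-95007868786815707621177001/100000000000000000000000000) (((Real.log (1 + pD r s y t)) - (pD r s y t)) - (((pD r s y t) ^ 2) / 2)) := h111.sub' h113 (by norm_num)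
  have h115 : In (-8297835414074810254681/12500000000000000000000000) (-16595670828149616840499/25000000000000000000000000) ((((px r s y t) ^ 2) / 2) * (((Real.log (1 + pD r s y t)) - (pD r s y t)) - (((pD r s y t) ^ 2) / 2))) := h110.mulN' h114 (by norm_num)
  have h116 : In (15628609798481/781250000000000) (4000924108411157/200000000000000000) ((Real.log (1 + px r s y t * pD r s y t)) / 2) := h73.div' (In.const (c := 2) (le_refl _) (le_refl _)) (by norm_num)
  have h117 : In (241759921361621189745319/12500000000000000000000000) (483519842723245008159501/25000000000000000000000000) (((((px r s y t) ^ 2) / 2) * (((Real.log (1 + pD r s y t)) - (pD r s y t)) - (((pD r s y t) ^ 2) / 2))) + ((Real.log (1 + px r s y t * pD r s y t)) / 2)) := h115.add' h116 (by norm_num)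
  have h118 : In (-56225925491218935537183/1562500000000000000000000) (-1799229615719005937189633/50000000000000000000000000) (((px r s y t) ^ 2) - (px r s y t)) := h76.sub' h.hx (by norm_num)
  have h119 : In (-157177777082759765133459/4000000000000000000000000) (-1964722213534497064136179/50000000000000000000000000) ((((px r s y t) ^ 2) - (px r s y t)) * (pD r s y t)) := h118.mulP' h69 (by norm_num)
  have h120 : In (2041019622836909226991959/50000000000000000000000000) (4082039245673818454050471/100000000000000000000000000) ((px r s y t) * (pD r s y t)) := h.hx.mul' h69 (by norm_num)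
  have h121 : In (52041019622836909226991959/50000000000000000000000000) (104082039245673818454050471/100000000000000000000000000) (1 + ((px r s y t) * (pD r s y t))) := (In.const (c := 1) (le_refl _) (le_refl _)).add' h120 (by norm_num)
  have h122 : In (-18876669094626342668009/500000000000000000000000) (-1887666909462634266768891/50000000000000000000000000) (((((px r s y t) ^ 2) - (px r s y t)) * (pD r s y t)) / (1 + ((px r s y t) * (pD r s y t)))) := h119.divN' h121 (by norm_num)
  have h123 : In (-18876669094626342668009/1000000000000000000000000) (-1887666909462634266768891/100000000000000000000000000) ((((((px r s y t) ^ 2) - (px r s y t)) * (pD r s y t)) / (1 + ((px r s y t) * (pD r s y t)))) / 2) := h122.divN' (In.const (c := 2) (le_refl _) (le_refl _)) (by norm_num)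
  have h124 : In (11603115357583812790413/25000000000000000000000000) (46412461430345765869113/100000000000000000000000000) ((((((px r s y t) ^ 2) / 2) * (((Real.log (1 + pD r s y t)) - (pD r s y t)) - (((pD r s y t) ^ 2) / 2))) + ((Real.log (1 + px r s y t * pD r s y t)) / 2)) + ((((((px r s y t) ^ 2) - (px r s y t)) * (pD r s y t)) / (1 + ((px r s y t) * (pD r s y t)))) / 2)) := h117.add' h123 (by norm_num)
  have h125 : In (2611907778652823471099/50000000000000000000000000) (5223815557305646942201/100000000000000000000000000) ((px r s y t) ^ 3) := h.hx.pow' 3 (by norm_num)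
  have h126 : In (1741271852435215647399/100000000000000000000000000) (1741271852435215647401/100000000000000000000000000) (((px r s y t) ^ 3) / 3) := h125.div' (In.const (c := 3) (le_refl _) (le_refl _)) (by norm_num)
  have h127 : In (209197969862749128744886001/100000000000000000000000000) (52299492465687282186663557/25000000000000000000000000) (1 + (pD r s y t)) := (In.const (c := 1) (le_refl _) (le_refl _)).add' h69 (by norm_num)
  have h128 : In (915529614590881329710546809/100000000000000000000000000) (183105922918176265946752421/20000000000000000000000000) ((1 + (pD r s y t)) ^ 3) := h127.pow' 3 (by norm_num)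
  have h129 : In (3985464869894907423061/25000000000000000000000000) (15941859479579629692667/100000000000000000000000000) ((((px r s y t) ^ 3) / 3) * ((1 + (pD r s y t)) ^ 3)) := h126.mul' h128 (by norm_num)
  have h130 : In (184400245367831302590449/25000000000000000000000000) (184400245367831302590727/25000000000000000000000000) (2 * (pT r s y t)) := (In.const (c := 2) (le_refl _) (le_refl _)).mul' h68 (by norm_num)
  have h131 : In (1360138019668655590719/100000000000000000000000000) (340034504917163897681/25000000000000000000000000) ((pT r s y t) ^ 2) := h68.pow' 2 (by norm_num)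
  have h132 : In (147792223898198773190503/20000000000000000000000000) (23092534984093558311051/3125000000000000000000000) ((2 * (pT r s y t)) + ((pT r s y t) ^ 2)) := h130.add' h131 (by norm_num)
  have h133 : In (117804143277982760233/100000000000000000000000000) (117804143277982760237/100000000000000000000000000) (((((px r s y t) ^ 3) / 3) * ((1 + (pD r s y t)) ^ 3)) * ((2 * (pT r s y t)) + ((pT r s y t) ^ 2))) := h129.mul' h132 (by norm_num)
  have h134 : In (9258931457411453680283/20000000000000000000000000) (578683216088347288861/1250000000000000000000000) (((((((px r s y t) ^ 2) / 2) * (((Real.log (1 + pD r s y t)) - (pD r s y t)) - (((pD r s y t) ^ 2) / 2))) + ((Real.log (1 + px r s y t * pD r s y t)) / 2)) + ((((((px r s y t) ^ 2) - (px r s y t)) * (pD r s y t)) / (1 + ((px r s y t) * (pD r s y t)))) / 2)) - (((((px r s y t) ^ 3) / 3) * ((1 + (pD r s y t)) ^ 3)) * ((2 * (pT r s y t)) + ((pT r s y t) ^ 2)))) := h124.sub' h133 (by norm_num)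
  have h135 : In (9258931457411453680283/20000000000000000000000000) (578683216088347288861/1250000000000000000000000) (cE (px r s y t) (pD r s y t) (pT r s y t)) := In.congr h134 (by unfold cE; with_reducible rfl)
  have h136 : In (25364645220539487348662009/50000000000000000000000000) (5072929044107897469735299/10000000000000000000000000) ((pkap r s y t) - 1) := h66.sub' (In.const (c := 1) (le_refl _) (le_refl _)) (by norm_num)
  have h137 : In (4848882053528967348662009/50000000000000000000000000) (969776410705795569735299/10000000000000000000000000) (((pkap r s y t) - 1) - (Real.log (pkap r s y t))) := h136.sub' h71 (by norm_num)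
  have h138 : In (181260941618483602140959/50000000000000000000000000) (11328808851155249665787/3125000000000000000000000) ((px r s y t) * (((pkap r s y t) - 1) - (Real.log (pkap r s y t)))) := h.hx.mul' h137 (by norm_num)
  have h139 : In (92172619830345045851649/10000000000000000000000000) (460863099151735743932277/50000000000000000000000000) ((pF r s y t) + ((px r s y t) * (((pkap r s y t) - 1) - (Real.log (pkap r s y t))))) := h109.add' h138 (by norm_num)
  have h140 : In (1770427405506385974718959/100000000000000000000000000) (442606851376596493679969/25000000000000000000000000) ((px r s y t) * (pY r s y t)) := h.hx.mul' h67 (by norm_num)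
  have h141 : In (885213702753192987359479/100000000000000000000000000) (442606851376596493679969/50000000000000000000000000) (((px r s y t) * (pY r s y t)) / 2) := h140.div' (In.const (c := 2) (le_refl _) (le_refl _)) (by norm_num)
  have h142 : In (4564061943782183894569/12500000000000000000000000) (1460499822011140020203/4000000000000000000000000) (((pF r s y t) + ((px r s y t) * (((pkap r s y t) - 1) - (Real.log (pkap r s y t))))) - (((px r s y t) * (pY r s y t)) / 2)) := h139.sub' h141 (by norm_num)
  have h143 : In (27573004862616909859793/100000000000000000000000000) (27573004862616909859839/100000000000000000000000000) ((2 * (px r s y t)) * (pT r s y t)) := h82.mul' h68 (by norm_num)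
  have h144 : In (9191001620872303286597/100000000000000000000000000) (9191001620872303286613/100000000000000000000000000) (((2 * (px r s y t)) * (pT r s y t)) / 3) := h143.div' (In.const (c := 3) (le_refl _) (le_refl _)) (by norm_num)
  have h145 : In (45703497171129774443149/100000000000000000000000000) (5712937146393850473961/12500000000000000000000000) ((((pF r s y t) + ((px r s y t) * (((pkap r s y t) - 1) - (Real.log (pkap r s y t))))) - (((px r s y t) * (pY r s y t)) / 2)) + (((2 * (px r s y t)) * (pT r s y t)) / 3)) := h142.add' h144 (by norm_num)
  have h146 : In (58467252282853089524489/20000000000000000000000000) (292336261414265447624983/100000000000000000000000000) (((px r s y t) ^ 2) * (1 + (pD r s y t))) := h76.mul' h127 (by norm_num)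
  have h147 : In (634949783933181059693/100000000000000000000000000) (634949783933181061819/100000000000000000000000000) ((((px r s y t) ^ 2) * (1 + (pD r s y t))) * (pK r s y t)) := h146.mul' h70 (by norm_num)
  have h148 : In (23169223477531477751421/50000000000000000000000000) (46338446955083984853507/100000000000000000000000000) (((((pF r s y t) + ((px r s y t) * (((pkap r s y t) - 1) - (Real.log (pkap r s y t))))) - (((px r s y t) * (pY r s y t)) / 2)) + (((2 * (px r s y t)) * (pT r s y t)) / 3)) + ((((px r s y t) ^ 2) * (1 + (pD r s y t))) * (pK r s y t))) := h145.add' h147 (by norm_num)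
  have h149 : In (21894833997586196981/50000000000000000000000000) (10947417006679113023/25000000000000000000000000) ((((((pF r s y t) + ((px r s y t) * (((pkap r s y t) - 1) - (Real.log (pkap r s y t))))) - (((px r s y t) * (pY r s y t)) / 2)) + (((2 * (px r s y t)) * (pT r s y t)) / 3)) + ((((px r s y t) ^ 2) * (1 + (pD r s y t))) * (pK r s y t))) - (cE (px r s y t) (pD r s y t) (pT r s y t))) := h148.sub' h135 (by norm_num)
  have h150 : In (21894833997586196981/100000000000000000000000000) (10947417006679113023/50000000000000000000000000) (((((((pF r s y t) + ((px r s y t) * (((pkap r s y t) - 1) - (Real.log (pkap r s y t))))) - (((px r s y t) * (pY r s y t)) / 2)) + (((2 * (px r s y t)) * (pT r s y t)) / 3)) + ((((px r s y t) ^ 2) * (1 + (pD r s y t))) * (pK r s y t))) - (cE (px r s y t) (pD r s y t) (pT r s y t))) / 2) := h149.div' (In.const (c := 2) (le_refl _) (le_refl _)) (by norm_num)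
  have h151 : In (21894833997586196981/100000000000000000000000000) (10947417006679113023/50000000000000000000000000) (cTp (px r s y t) (pF r s y t) (pkap r s y t) (pY r s y t) (pT r s y t) (pD r s y t) (pK r s y t)) := In.congr h150 (by unfold cTp; with_reducible rfl)
  have h152 : In (870635926217607823699/100000000000000000000000000) (870635926217607823701/100000000000000000000000000) (((px r s y t) ^ 3) / 6) := h125.div' (In.const (c := 6) (le_refl _) (le_refl _)) (by norm_num)
  have h153 : In (7970929739789814846117/100000000000000000000000000) (7970929739789814846339/100000000000000000000000000) ((((px r s y t) ^ 3) / 6) * ((1 + (pD r s y t)) ^ 3)) := h152.mul' h128 (by norm_num)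
  have h154 : In (-1665274566319820033/100000000000000000000000000) (-416318641579954961/25000000000000000000000000) (((((px r s y t) ^ 3) / 6) * ((1 + (pD r s y t)) ^ 3)) * (cG (pA r s y t) (pT r s y t))) := h153.mulN' h75 (by norm_num)
  have h155 : In (5057389857816594237/25000000000000000000000000) (10114779723519203101/50000000000000000000000000) ((cTp (px r s y t) (pF r s y t) (pkap r s y t) (pY r s y t) (pT r s y t) (pD r s y t) (pK r s y t)) + (((((px r s y t) ^ 3) / 6) * ((1 + (pD r s y t)) ^ 3)) * (cG (pA r s y t) (pT r s y t)))) := h151.add' h154 (by norm_num)
  have h156 : In (381329928375409/100000000000000000000000000) (38132992837541/10000000000000000000000000) ((px r s y t) ^ 8) := h.hx.pow' 8 (by norm_num)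
  have h157 : In (23833120523463/100000000000000000000000000) (2979140065433/12500000000000000000000000) (((px r s y t) ^ 8) / 16) := h156.div' (In.const (c := 16) (le_refl _) (le_refl _)) (by norm_num)
  have h158 : In (287458246401094224187579799/100000000000000000000000000) (3593228080013677803042963/1250000000000000000000000) ((pD r s y t) ^ 12) := h69.pow' 12 (by norm_num)
  have h159 : In (34255135159703/50000000000000000000000000) (68510270319409/100000000000000000000000000) ((((px r s y t) ^ 8) / 16) * ((pD r s y t) ^ 12)) := h157.mul' h158 (by norm_num)
  have h160 : In (10114813970768348177/50000000000000000000000000) (20229627957308725611/100000000000000000000000000) (((cTp (px r s y t) (pF r s y t) (pkap r s y t) (pY r s y t) (pT r s y t) (pD r s y t) (pK r s y t)) + (((((px r s y t) ^ 3) / 6) * ((1 + (pD r s y t)) ^ 3)) * (cG (pA r s y t) (pT r s y t)))) + ((((px r s y t) ^ 8) / 16) * ((pD r s y t) ^ 12))) := h155.add' h159 (by norm_num)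
  have h161 : In (272882489767485067/100000000000000000000000000) (68220622441871267/25000000000000000000000000) ((px r s y t) ^ 6) := h.hx.pow' 6 (by norm_num)
  have h162 : In (3790034580103959/100000000000000000000000000) (94750864502599/2500000000000000000000000) (((px r s y t) ^ 6) / 72) := h161.div' (In.const (c := 72) (le_refl _) (le_refl _)) (by norm_num)
  have h163 : In (107795622943257470031597/48828125000000000000000) (220765435787791298656884063/100000000000000000000000000) ((pD r s y t) ^ 9) := h69.pow' 9 (by norm_num)
  have h164 : In (8367086357274491/100000000000000000000000000) (4183543178637247/50000000000000000000000000) ((((px r s y t) ^ 6) / 72) * ((pD r s y t) ^ 9)) := h162.mul' h163 (by norm_num)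
  have h165 : In (1011063042758971093/5000000000000000000000000) (252765760886893139/1250000000000000000000000) ((((cTp (px r s y t) (pF r s y t) (pkap r s y t) (pY r s y t) (pT r s y t) (pD r s y t) (pK r s y t)) + (((((px r s y t) ^ 3) / 6) * ((1 + (pD r s y t)) ^ 3)) * (cG (pA r s y t) (pT r s y t)))) + ((((px r s y t) ^ 8) / 16) * ((pD r s y t) ^ 12))) - ((((px r s y t) ^ 6) / 72) * ((pD r s y t) ^ 9))) := h160.sub' h164 (by norm_num)
  have h166 : In (1011063042758971093/5000000000000000000000000) (252765760886893139/1250000000000000000000000) (cT5 (px r s y t) (pF r s y t) (pkap r s y t) (pY r s y t) (pT r s y t) (pD r s y t) (pK r s y t) (pA r s y t)) := In.congr h165 (by unfold cT5; with_reducible rfl)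
  have h167 : In (2041019622836909226991959/100000000000000000000000000) (510254905709227306756309/25000000000000000000000000) (((px r s y t) * (pD r s y t)) / 2) := h120.div' (In.const (c := 2) (le_refl _) (le_refl _)) (by norm_num)
  have h168 : In (-127562462598503377975211/6250000000000000000000000) (-2040999401576038275540839/100000000000000000000000000) ((cT5 (px r s y t) (pF r s y t) (pkap r s y t) (pY r s y t) (pT r s y t) (pD r s y t) (pK r s y t) (pA r s y t)) - (((px r s y t) * (pD r s y t)) / 2)) := h166.sub' h167 (by norm_num)
  have h169 : In (-2533584210655377975211/6250000000000000000000000) (-40537347370459775540839/100000000000000000000000000) (((cT5 (px r s y t) (pF r s y t) (pkap r s y t) (pY r s y t) (pT r s y t) (pD r s y t) (pK r s y t) (pA r s y t)) - (((px r s y t) * (pD r s y t)) / 2)) + ((Real.log (1 + px r s y t * pD r s y t)) / 2)) := h168.add' h116 (by norm_num)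
  have h170 : In (168818952973478463621177001/100000000000000000000000000) (168818952973478463624876097/100000000000000000000000000) ((pD r s y t) + (((pD r s y t) ^ 2) / 2)) := h69.add' h113 (by norm_num)
  have h171 : In (-940630666295417244595001/10000000000000000000000000) (-9185846350541141127243/97656250000000000000000) ((1 + (pD r s y t)) * (Real.log ((1 + 1) / (1 + pD r s y t)))) := h127.mulN' h74 (by norm_num)
  have h172 : In (159412646310524291175226991/100000000000000000000000000) (31882529262104867022115853/20000000000000000000000000) (((pD r s y t) + (((pD r s y t) ^ 2) / 2)) + ((1 + (pD r s y t)) * (Real.log ((1 + 1) / (1 + pD r s y t))))) := h170.add' h171 (by norm_num)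
  have h173 : In (111382765987518977506167/100000000000000000000000000) (111382765987519008204141/100000000000000000000000000) ((((px r s y t) ^ 2) / 2) * (((pD r s y t) + (((pD r s y t) ^ 2) / 2)) + ((1 + (pD r s y t)) * (Real.log ((1 + 1) / (1 + pD r s y t)))))) := h110.mul' h172 (by norm_num)
  have h174 : In (70845418617032929902791/100000000000000000000000000) (35422709308529616331651/50000000000000000000000000) ((((cT5 (px r s y t) (pF r s y t) (pkap r s y t) (pY r s y t) (pT r s y t) (pD r s y t) (pK r s y t) (pA r s y t)) - (((px r s y t) * (pD r s y t)) / 2)) + ((Real.log (1 + px r s y t * pD r s y t)) / 2)) + ((((px r s y t) ^ 2) / 2) * (((pD r s y t) + (((pD r s y t) ^ 2) / 2)) + ((1 + (pD r s y t)) * (Real.log ((1 + 1) / (1 + pD r s y t))))))) := h169.add' h173 (by norm_num)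
  have h175 : In (70845418617032929902791/100000000000000000000000000) (35422709308529616331651/50000000000000000000000000) (pB 1 r s y t) := In.congr h174 (by unfold pB cB; with_reducible rfl)
  have h176 : In (71408045568929523832993/50000000000000000000000000) (35704022784464977189371/25000000000000000000000000) ((px r s y t) * (pBx 1 r s y t)) := h.hx.mul' h65 (by norm_num)
  have h177 : In (1797692291554796543766367/50000000000000000000000000) (1797692291554796974312323/50000000000000000000000000) ((px r s y t) - ((px r s y t) * (pBx 1 r s y t))) := h.hx.sub' h176 (by norm_num)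
  have h178 : In (146649200069065040697421/4000000000000000000000000) (916557500431663295321987/25000000000000000000000000) (((px r s y t) - ((px r s y t) * (pBx 1 r s y t))) + (pB 1 r s y t)) := h177.add' h175 (by norm_num)
  have h179 : In (366623000172662601/10000000000000000000) (366623000172665319/10000000000000000000) (((px r s y t) - ((px r s y t) * (pBx 1 r s y t))) + (pB 1 r s y t)) := h178.wk (by norm_num) (by norm_num)
  have h180 : In (103734265108619641/100000000000000000) (10373426510861967/10000000000000000) (Real.exp (((px r s y t) - ((px r s y t) * (pBx 1 r s y t))) + (pB 1 r s y t))) := In.exp h179 (exp_loR 11 _ _ (by norm_num) (by norm_num [tayR, Nat.factorial])) (exp_hiR 11 _ _ (by norm_num) (by norm_num) (by norm_num [tayR, Nat.factorial]))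
  have h181 : In (191022504652736079/5000000000000000000) (191022504652737231/5000000000000000000) (pBx 1 r s y t) := h65.wk (by norm_num) (by norm_num)
  have h182 : In (10389436761038881/10000000000000000) (20778873522077767/20000000000000000) (Real.exp (pBx 1 r s y t)) := In.exp h181 (exp_loR 11 _ _ (by norm_num) (by norm_num [tayR, Nat.factorial])) (exp_hiR 11 _ _ (by norm_num) (by norm_num) (by norm_num [tayR, Nat.factorial]))
  have h183 : In (1389630689520220289313661533/50000000000000000000000000) (277926137904044124739857653/10000000000000000000000000) ((Real.exp (pBx 1 r s y t)) / (px r s y t)) := h182.div' h.hx (by norm_num)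
  exact ⟨h65, h175, h180, h183⟩

end K5X
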