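import Pool.Agent.Lib.K5X.NumE
import Pool.Agent.Lib.K5X.NumP

/-!
# K5X.Num: the numerical values of the constants of the asymptotic law

`γ = 27.79261379...`, `K' = 6.3658115... * 10 ^ (-6)`, `K = 6.6035278... * 10 ^ (-6)`.
-/

set_option autoImplicit false

namespace K5X

open K5N K5C K5L K5S

variable {r s y t : ℝ}

theorem nB (h : K5L.Box r s y t) : NB r s y t := (nA h).nB

theorem nE (h : K5L.Box r s y t) : NE r s y t :=
  (nB h).nE' (nB h).nG ((nB h).nD (nB h).nG)

theorem nP (h : K5L.Box r s y t) : NP r s y t := (nB h).nP (nB h).nG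

/-- The growth constant. -/
theorem gamma_bd (h : K5L.Box r s y t) :
    2779261379 / 10 ^ 8 ≤ Real.exp (pBx 1 r s y t) / px r s y t ∧
    Real.exp (pBx 1 r s y t) / px r s y t ≤ 2779261380 / 10 ^ 8 :=
  (nP h).hgam.bd (by norm_num)

/-- The constant of the connected graphs. -/
theorem cK_bd (h : K5L.Box r s y t) :
    63658115 / 10 ^ 13 ≤ cK r s y t ∧ cK r s y t ≤ 63658116 / 10 ^ 13 :=
  (nE h).hcK.bd (by norm_num)

/-- The constant of all graphs. -/
theorem cK_exp_bd (h : K5L.Box r s y t) :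
    66035278 / 10 ^ 13 ≤
      cK r s y t * Real.exp (px r s y t - px r s y t * pBx 1 r s y t + pB 1 r s y t) ∧
    cK r s y t * Real.exp (px r s y t - px r s y t * pBx 1 r s y t + pB 1 r s y t) ≤
      66035279 / 10 ^ 13 := by
  have h1 := (nE h).hcK
  have h2 := (nP h).hexp
  exact (h1.mul' h2 (l := 66035278 / 10 ^ 13) (h := 66035279 / 10 ^ 13) (by norm_num))

end K5X
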