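import Pool.Agent.Lib.K5S.Iv

/-!
# K5X.NumI: interval arithmetic (continued)
-/

set_option autoImplicit false

namespace K5S

namespace In

variable {a b c d x y l h : ℝ}

/-- The first factor is nonpositive, the second is nonnegative. -/
theorem mulP' (hx : In a b x) (hy : In c d y) (k : b ≤ 0 ∧ 0 ≤ c ∧ l ≤ a * d ∧ b * c ≤ h) :
    In l h (x * y) := by
  have := hy.mulN' hx (l := l) (h := h) ⟨k.2.1, k.1, by linarith [k.2.2.1], by linarith [k.2.2.2]⟩
  rwa [mul_comm] at this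

/-- Both factors are nonpositive. -/
theorem mulM' (hx : In a b x) (hy : In c d y) (k : b ≤ 0 ∧ d ≤ 0 ∧ l ≤ b * d ∧ a * c ≤ h) :
    In l h (x * y) := by
  have := (hx.neg').mul' (hy.neg') (l := l) (h := h)
    ⟨by linarith [k.1], by linarith [k.2.1], by linarith [k.2.2.1], by linarith [k.2.2.2]⟩
  rwa [neg_mul_neg] at this

theorem sqrt' (hx : In a b x) (k : 0 ≤ l ∧ l ^ 2 ≤ a ∧ 0 ≤ h ∧ b ≤ h ^ 2) :
    In l h (Real.sqrt x) := by
  obtain ⟨k1, k2, k3, k4⟩ := k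
  exact ⟨Real.le_sqrt_of_sq_le (k2.trans hx.1), (Real.sqrt_le_left k3).2 (hx.2.trans k4)⟩

/-- The interval is read off. -/
theorem bd (hx : In a b x) (k : l ≤ a ∧ b ≤ h) : l ≤ x ∧ x ≤ h :=
  ⟨k.1.trans hx.1, hx.2.trans k.2⟩

end In

/-- The value of the Gamma function. -/
theorem Gamma_neg_three_half : Real.Gamma (-(3 / 2)) = 4 / 3 * Real.sqrt Real.pi := by
  have h1 : Real.Gamma (1 / 2) = -(1 / 2) * Real.Gamma (-(1 / 2)) := by
    have := Real.Gamma_add_one (s := -(1 / 2)) (by norm_num)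
    rwa [show (-(1 / 2) + 1 : ℝ) = 1 / 2 by norm_num] at this
  have h2 : Real.Gamma (-(1 / 2)) = -(3 / 2) * Real.Gamma (-(3 / 2)) := by
    have := Real.Gamma_add_one (s := -(3 / 2)) (by norm_num)
    rwa [show (-(3 / 2) + 1 : ℝ) = -(1 / 2) by norm_num] at this
  rw [Real.Gamma_one_half_eq] at h1
  linarith

theorem rpow_five_half {w : ℝ} (hw : 0 < w) : w ^ (5 / 2 : ℝ) = w ^ 2 * Real.sqrt w := by
  rw [Real.sqrt_eq_rpow, show (5 / 2 : ℝ) = (2 : ℕ) + 1 / 2 by norm_num, Real.rpow_add hw,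
    Real.rpow_natCast]

end K5S
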