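import Pool.Agent.Lib.K5L.BoxEx

/-!
# K5X.NumN: localization of the critical point

A zero of the four equations in the box lies at distance at most `2 δ` from every point of the box whose Newton
step has size at most `δ`.
-/

set_option autoImplicit false

namespace K5X

open K5N K5C K5L K5S Set

noncomputable section

theorem nwA_0 {r s y t : ℝ} (h : Bx c0 c1' c2' c3' (1 / 10 ^ 12) r s y t) (i : Fin 4) :
    |(if i = 0 then 1 else 0) - (nwA i 0 * nG 0 r s y t 1 0 0 0 + nwA i 1 * nG 1 r s y t 1 0 0 0 +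
        nwA i 2 * nG 2 r s y t 1 0 0 0 + nwA i 3 * nG 3 r s y t 1 0 0 0)| ≤ 1 / 8 := by
  obtain ⟨⟨a00l, a00h⟩, ⟨a01l, a01h⟩, ⟨a02l, a02h⟩, ⟨a03l, a03h⟩, ⟨a10l, a10h⟩, ⟨a11l, a11h⟩, ⟨a12l, a12h⟩, ⟨a13l, a13h⟩, ⟨a20l, a20h⟩, ⟨a21l, a21h⟩, ⟨a22l, a22h⟩, ⟨a23l, a23h⟩, ⟨a30l, a30h⟩, ⟨a31l, a31h⟩, ⟨a32l, a32h⟩, ⟨a33l, a33h⟩⟩ := nw_m (nwH_of h).nwB
  rw [abs_le]
  fin_cases i <;> simp only [nwA, Fin.isValue, Matrix.cons_val, Matrix.cons_val_zero,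
    Matrix.cons_val_one, Fin.zero_eta, Fin.mk_one, Fin.reduceFinMk, Fin.reduceEq, if_true,
    if_false, zero_ne_one, one_ne_zero] <;>
    constructor <;> linarith only [a00l, a00h, a01l, a01h, a02l, a02h, a03l, a03h]

theorem nwA_1 {r s y t : ℝ} (h : Bx c0 c1' c2' c3' (1 / 10 ^ 12) r s y t) (i : Fin 4) :
    |(if i = 1 then 1 else 0) - (nwA i 0 * nG 0 r s y t 0 1 0 0 + nwA i 1 * nG 1 r s y t 0 1 0 0 +
        nwA i 2 * nG 2 r s y t 0 1 0 0 + nwA i 3 * nG 3 r s y t 0 1 0 0)| ≤ 1 / 8 := by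
  obtain ⟨⟨a00l, a00h⟩, ⟨a01l, a01h⟩, ⟨a02l, a02h⟩, ⟨a03l, a03h⟩, ⟨a10l, a10h⟩, ⟨a11l, a11h⟩, ⟨a12l, a12h⟩, ⟨a13l, a13h⟩, ⟨a20l, a20h⟩, ⟨a21l, a21h⟩, ⟨a22l, a22h⟩, ⟨a23l, a23h⟩, ⟨a30l, a30h⟩, ⟨a31l, a31h⟩, ⟨a32l, a32h⟩, ⟨a33l, a33h⟩⟩ := nw_m (nwH_of h).nwB
  rw [abs_le]
  fin_cases i <;> simp only [nwA, Fin.isValue, Matrix.cons_val, Matrix.cons_val_zero,
    Matrix.cons_val_one, Fin.zero_eta, Fin.mk_one, Fin.reduceFinMk, Fin.reduceEq, if_true,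
    if_false, zero_ne_one, one_ne_zero] <;>
    constructor <;> linarith only [a10l, a10h, a11l, a11h, a12l, a12h, a13l, a13h]

theorem nwA_2 {r s y t : ℝ} (h : Bx c0 c1' c2' c3' (1 / 10 ^ 12) r s y t) (i : Fin 4) :
    |(if i = 2 then 1 else 0) - (nwA i 0 * nG 0 r s y t 0 0 1 0 + nwA i 1 * nG 1 r s y t 0 0 1 0 +
        nwA i 2 * nG 2 r s y t 0 0 1 0 + nwA i 3 * nG 3 r s y t 0 0 1 0)| ≤ 1 / 8 := by
  obtain ⟨⟨a00l, a00h⟩, ⟨a01l, a01h⟩, ⟨a02l, a02h⟩, ⟨a03l, a03h⟩, ⟨a10l, a10h⟩, ⟨a11l, a11h⟩, ⟨a12l, a12h⟩, ⟨a13l, a13h⟩, ⟨a20l, a20h⟩, ⟨a21l, a21h⟩, ⟨a22l, a22h⟩, ⟨a23l, a23h⟩, ⟨a30l, a30h⟩, ⟨a31l, a31h⟩, ⟨a32l, a32h⟩, ⟨a33l, a33h⟩⟩ := nw_m (nwH_of h).nwB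
  rw [abs_le]
  fin_cases i <;> simp only [nwA, Fin.isValue, Matrix.cons_val, Matrix.cons_val_zero,
    Matrix.cons_val_one, Fin.zero_eta, Fin.mk_one, Fin.reduceFinMk, Fin.reduceEq, if_true,
    if_false, zero_ne_one, one_ne_zero] <;>
    constructor <;> linarith only [a20l, a20h, a21l, a21h, a22l, a22h, a23l, a23h]

theorem nwA_3 {r s y t : ℝ} (h : Bx c0 c1' c2' c3' (1 / 10 ^ 12) r s y t) (i : Fin 4) :
    |(if i = 3 then 1 else 0) - (nwA i 0 * nG 0 r s y t 0 0 0 1 + nwA i 1 * nG 1 r s y t 0 0 0 1 +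
        nwA i 2 * nG 2 r s y t 0 0 0 1 + nwA i 3 * nG 3 r s y t 0 0 0 1)| ≤ 1 / 8 := by
  obtain ⟨⟨a00l, a00h⟩, ⟨a01l, a01h⟩, ⟨a02l, a02h⟩, ⟨a03l, a03h⟩, ⟨a10l, a10h⟩, ⟨a11l, a11h⟩, ⟨a12l, a12h⟩, ⟨a13l, a13h⟩, ⟨a20l, a20h⟩, ⟨a21l, a21h⟩, ⟨a22l, a22h⟩, ⟨a23l, a23h⟩, ⟨a30l, a30h⟩, ⟨a31l, a31h⟩, ⟨a32l, a32h⟩, ⟨a33l, a33h⟩⟩ := nw_m (nwH_of h).nwB
  rw [abs_le]
  fin_cases i <;> simp only [nwA, Fin.isValue, Matrix.cons_val, Matrix.cons_val_zero,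
    Matrix.cons_val_one, Fin.zero_eta, Fin.mk_one, Fin.reduceFinMk, Fin.reduceEq, if_true,
    if_false, zero_ne_one, one_ne_zero] <;>
    constructor <;> linarith only [a30l, a30h, a31l, a31h, a32l, a32h, a33l, a33h]

/-- A point of a segment with both ends in the box. -/
theorem seg_mem {p q c ρ u : ℝ} (hp : |p - c| ≤ ρ) (hq : |q - c| ≤ ρ) (hu : u ∈ Icc (0 : ℝ) 1) :
    |p + u * (q - p) - c| ≤ ρ := by
  have h1 := abs_le.1 hp
  have h2 := abs_le.1 hq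
  rw [abs_le]
  constructor
  · nlinarith [hu.1, hu.2, mul_nonneg hu.1 (sub_nonneg.2 h2.1),
      mul_nonneg (sub_nonneg.2 hu.2) (sub_nonneg.2 h1.1)]
  · nlinarith [hu.1, hu.2, mul_nonneg hu.1 (sub_nonneg.2 h2.2),
      mul_nonneg (sub_nonneg.2 hu.2) (sub_nonneg.2 h1.2)]

theorem abs_mul_le8 {a b η : ℝ} (ha : |a| ≤ 1 / 8) (hb : |b| ≤ η) : |a * b| ≤ 1 / 8 * η := by
  rw [abs_mul]
  exact mul_le_mul ha hb (abs_nonneg _) (by norm_num)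

/-- The step of the localization for one row. -/
theorem loc_row {r s y t a b c d δ η : ℝ} (hp : Bx c0 c1' c2' c3' (1 / 10 ^ 12) r s y t)
    (hq : Bx c0 c1' c2' c3' (1 / 10 ^ 12) a b c d) (hz : ∀ j, nE j r s y t = 0) (i : Fin 4)
    (hr : |nwA i 0 * nE 0 a b c d + nwA i 1 * nE 1 a b c d + nwA i 2 * nE 2 a b c d +
      nwA i 3 * nE 3 a b c d| ≤ δ) (h0 : |r - a| ≤ η) (h1 : |s - b| ≤ η) (h2 : |y - c| ≤ η)
    (h3 : |t - d| ≤ η) :
    |(![r - a, s - b, y - c, t - d] : Fin 4 → ℝ) i| ≤ 1 / 2 * η + δ := by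
  set hh : Fin 4 → ℝ := ![r - a, s - b, y - c, t - d] with hhd
  set g : ℝ → ℝ := fun u => u * hh i -
    (nwA i 0 * nE 0 (a + u * (r - a)) (b + u * (s - b)) (c + u * (y - c)) (d + u * (t - d)) +
      nwA i 1 * nE 1 (a + u * (r - a)) (b + u * (s - b)) (c + u * (y - c)) (d + u * (t - d)) +
      nwA i 2 * nE 2 (a + u * (r - a)) (b + u * (s - b)) (c + u * (y - c)) (d + u * (t - d)) +
      nwA i 3 * nE 3 (a + u * (r - a)) (b + u * (s - b)) (c + u * (y - c)) (d + u * (t - d)))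
    with hg
  have hseg : ∀ u ∈ Icc (0 : ℝ) 1, Bx c0 c1' c2' c3' (1 / 10 ^ 12) (a + u * (r - a))
      (b + u * (s - b)) (c + u * (y - c)) (d + u * (t - d)) := fun u hu =>
    ⟨seg_mem hq.1 hp.1 hu, seg_mem hq.2.1 hp.2.1 hu, seg_mem hq.2.2.1 hp.2.2.1 hu,
      seg_mem hq.2.2.2 hp.2.2.2 hu⟩
  have hd : ∀ u ∈ Icc (0 : ℝ) 1, ∀ j, HasDerivAt
      (fun u => nE j (a + u * (r - a)) (b + u * (s - b)) (c + u * (y - c)) (d + u * (t - d)))
      (nG j (a + u * (r - a)) (b + u * (s - b)) (c + u * (y - c)) (d + u * (t - d))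
        (r - a) (s - b) (y - c) (t - d)) u := by
    intro u hu j
    have hi := hasDerivAt_id' u
    have hB := (nwH_of (hseg u hu)).nwB
    have a1 : HasDerivAt (fun w => a + w * (r - a)) (r - a) u := by
      simpa using (hi.mul_const (r - a)).const_add a
    have a2 : HasDerivAt (fun w => b + w * (s - b)) (s - b) u := by
      simpa using (hi.mul_const (s - b)).const_add b
    have a3 : HasDerivAt (fun w => c + w * (y - c)) (y - c) u := by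
      simpa using (hi.mul_const (y - c)).const_add c
    have a4 : HasDerivAt (fun w => d + w * (t - d)) (t - d) u := by
      simpa using (hi.mul_const (t - d)).const_add d
    exact NwGlue.nE_deriv a1 a2 a3 a4 ⟨lt_of_lt_of_le (by norm_num) hB.hx.1,
      lt_of_lt_of_le (by norm_num) hB.hu.1, lt_of_lt_of_le (by norm_num) hB.hD.1⟩ j
  have hgd : ∀ u ∈ Icc (0 : ℝ) 1, HasDerivWithinAt g (hh i -
      (nwA i 0 * nG 0 (a + u * (r - a)) (b + u * (s - b)) (c + u * (y - c)) (d + u * (t - d))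
        (r - a) (s - b) (y - c) (t - d) +
      nwA i 1 * nG 1 (a + u * (r - a)) (b + u * (s - b)) (c + u * (y - c)) (d + u * (t - d))
        (r - a) (s - b) (y - c) (t - d) +
      nwA i 2 * nG 2 (a + u * (r - a)) (b + u * (s - b)) (c + u * (y - c)) (d + u * (t - d))
        (r - a) (s - b) (y - c) (t - d) +
      nwA i 3 * nG 3 (a + u * (r - a)) (b + u * (s - b)) (c + u * (y - c)) (d + u * (t - d))
        (r - a) (s - b) (y - c) (t - d))) (Icc 0 1) u := by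
    intro u hu
    have e1 : HasDerivAt (fun u : ℝ => u * hh i) (hh i) u := by
      simpa using (hasDerivAt_id' u).mul_const (hh i)
    exact (e1.sub (((((hd u hu 0).const_mul (nwA i 0)).add ((hd u hu 1).const_mul (nwA i 1))).add
      ((hd u hu 2).const_mul (nwA i 2))).add ((hd u hu 3).const_mul (nwA i 3)))).hasDerivWithinAt
  have hb : ∀ u ∈ Icc (0 : ℝ) 1, ‖hh i -
      (nwA i 0 * nG 0 (a + u * (r - a)) (b + u * (s - b)) (c + u * (y - c)) (d + u * (t - d))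
        (r - a) (s - b) (y - c) (t - d) +
      nwA i 1 * nG 1 (a + u * (r - a)) (b + u * (s - b)) (c + u * (y - c)) (d + u * (t - d))
        (r - a) (s - b) (y - c) (t - d) +
      nwA i 2 * nG 2 (a + u * (r - a)) (b + u * (s - b)) (c + u * (y - c)) (d + u * (t - d))
        (r - a) (s - b) (y - c) (t - d) +
      nwA i 3 * nG 3 (a + u * (r - a)) (b + u * (s - b)) (c + u * (y - c)) (d + u * (t - d))
        (r - a) (s - b) (y - c) (t - d))‖ ≤ 1 / 2 * η := by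
    intro u hu
    have b0 := abs_mul_le8 (nwA_0 (hseg u hu) i) h0
    have b1 := abs_mul_le8 (nwA_1 (hseg u hu) i) h1
    have b2 := abs_mul_le8 (nwA_2 (hseg u hu) i) h2
    have b3 := abs_mul_le8 (nwA_3 (hseg u hu) i) h3
    rw [Real.norm_eq_abs]
    generalize a + u * (r - a) = r1 at b0 b1 b2 b3 ⊢
    generalize b + u * (s - b) = s1 at b0 b1 b2 b3 ⊢
    generalize c + u * (y - c) = y1 at b0 b1 b2 b3 ⊢
    generalize d + u * (t - d) = t1 at b0 b1 b2 b3 ⊢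
    rw [NwGlue.nG_lin 0, NwGlue.nG_lin 1, NwGlue.nG_lin 2, NwGlue.nG_lin 3]
    have e0 : hh i = (if i = 0 then 1 else 0) * (r - a) + (if i = 1 then 1 else 0) * (s - b) +
        (if i = 2 then 1 else 0) * (y - c) + (if i = 3 then 1 else 0) * (t - d) := by
      fin_cases i <;> simp [hhd]
    rw [e0]
    generalize (if i = 0 then (1 : ℝ) else 0) = i0 at b0 ⊢
    generalize (if i = 1 then (1 : ℝ) else 0) = i1 at b1 ⊢
    generalize (if i = 2 then (1 : ℝ) else 0) = i2 at b2 ⊢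
    generalize (if i = 3 then (1 : ℝ) else 0) = i3 at b3 ⊢
    generalize nG 0 r1 s1 y1 t1 1 0 0 0 = g00 at b0 ⊢
    generalize nG 1 r1 s1 y1 t1 1 0 0 0 = g10 at b0 ⊢
    generalize nG 2 r1 s1 y1 t1 1 0 0 0 = g20 at b0 ⊢
    generalize nG 3 r1 s1 y1 t1 1 0 0 0 = g30 at b0 ⊢
    generalize nG 0 r1 s1 y1 t1 0 1 0 0 = g01 at b1 ⊢
    generalize nG 1 r1 s1 y1 t1 0 1 0 0 = g11 at b1 ⊢
    generalize nG 2 r1 s1 y1 t1 0 1 0 0 = g21 at b1 ⊢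
    generalize nG 3 r1 s1 y1 t1 0 1 0 0 = g31 at b1 ⊢
    generalize nG 0 r1 s1 y1 t1 0 0 1 0 = g02 at b2 ⊢
    generalize nG 1 r1 s1 y1 t1 0 0 1 0 = g12 at b2 ⊢
    generalize nG 2 r1 s1 y1 t1 0 0 1 0 = g22 at b2 ⊢
    generalize nG 3 r1 s1 y1 t1 0 0 1 0 = g32 at b2 ⊢
    generalize nG 0 r1 s1 y1 t1 0 0 0 1 = g03 at b3 ⊢
    generalize nG 1 r1 s1 y1 t1 0 0 0 1 = g13 at b3 ⊢
    generalize nG 2 r1 s1 y1 t1 0 0 0 1 = g23 at b3 ⊢
    generalize nG 3 r1 s1 y1 t1 0 0 0 1 = g33 at b3 ⊢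
    rw [abs_le] at b0 b1 b2 b3 ⊢
    constructor
    · linarith [b0.1, b1.1, b2.1, b3.1]
    · linarith [b0.2, b1.2, b2.2, b3.2]
  have hm := (convex_Icc (0 : ℝ) 1).norm_image_sub_le_of_norm_hasDerivWithin_le (f := g) hgd hb
    (left_mem_Icc.2 zero_le_one) (right_mem_Icc.2 zero_le_one)
  have e1 : g 1 = hh i := by
    simp only [hg, one_mul, add_sub_cancel, hz]
    ring
  have e2 : g 0 = -(nwA i 0 * nE 0 a b c d + nwA i 1 * nE 1 a b c d + nwA i 2 * nE 2 a b c d +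
      nwA i 3 * nE 3 a b c d) := by
    simp only [hg, zero_mul, add_zero, zero_sub]
  rw [e1, e2, sub_zero, norm_one, mul_one, Real.norm_eq_abs] at hm
  rw [abs_le] at hm hr ⊢
  constructor
  · linarith [hm.1, hr.2]
  · linarith [hm.2, hr.1]

/-- **Localization.** -/
theorem loc_of {r s y t a b c d δ : ℝ} (hp : Bx c0 c1' c2' c3' (1 / 10 ^ 12) r s y t)
    (hq : Bx c0 c1' c2' c3' (1 / 10 ^ 12) a b c d) (hz : ∀ j, nE j r s y t = 0)
    (hr : ∀ i, |nwA i 0 * nE 0 a b c d + nwA i 1 * nE 1 a b c d + nwA i 2 * nE 2 a b c d +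
      nwA i 3 * nE 3 a b c d| ≤ δ) :
    |r - a| ≤ 2 * δ ∧ |s - b| ≤ 2 * δ ∧ |y - c| ≤ 2 * δ ∧ |t - d| ≤ 2 * δ := by
  set η := max (max |r - a| |s - b|) (max |y - c| |t - d|) with hη
  have h0 : |r - a| ≤ η := (le_max_left _ _).trans (le_max_left _ _)
  have h1 : |s - b| ≤ η := (le_max_right _ _).trans (le_max_left _ _)
  have h2 : |y - c| ≤ η := (le_max_left _ _).trans (le_max_right _ _)
  have h3 : |t - d| ≤ η := (le_max_right _ _).trans (le_max_right _ _)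
  have k0 : |r - a| ≤ 1 / 2 * η + δ := loc_row hp hq hz 0 (hr 0) h0 h1 h2 h3
  have k1 : |s - b| ≤ 1 / 2 * η + δ := loc_row hp hq hz 1 (hr 1) h0 h1 h2 h3
  have k2 : |y - c| ≤ 1 / 2 * η + δ := loc_row hp hq hz 2 (hr 2) h0 h1 h2 h3
  have k3 : |t - d| ≤ 1 / 2 * η + δ := loc_row hp hq hz 3 (hr 3) h0 h1 h2 h3
  have hle : η ≤ 1 / 2 * η + δ := max_le (max_le k0 k1) (max_le k2 k3)
  have hf : η ≤ 2 * δ := by linarith
  exact ⟨h0.trans hf, h1.trans hf, h2.trans hf, h3.trans hf⟩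

end

end K5X
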