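import Pool.Agent.Lib.K5X.NumG
import Pool.Agent.Lib.K5X.Fun

/-!
# K5X.NumT: the differentials at the critical point in one direction

Generated file.
-/

set_option autoImplicit false

namespace K5X

open K5N K5C K5L K5S

theorem num_t {r s y t : ℝ} (h : NB r s y t) (k : NG r s y t) :
    In (975319393989049783858151251/100000000000000000000000000) (487659696994524894532398807/50000000000000000000000000) (dM (jet r s y t) (cb r s 0 0 1)) ∧
    In (9008685494942799256568953751/100000000000000000000000000) (450434274747139962848162309/5000000000000000000000000) (dNet (jet r s y t) (cb r s 0 0 1)) ∧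
    In (-1101494424953238057562493/1000000000000000000000000) (-110149442495323618693026689/100000000000000000000000000) (dJ (jet r s y t) (cb r s 0 0 1)) := by
  have h1 : In (26032462806097197114277173/100000000000000000000000000) (13016231403048598557138681/50000000000000000000000000) (r * s) := h.hr.mul' h.hs (by norm_num)
  have h2 : In (1879285585206662453953771/1000000000000000000000000) (1879285585206662453953773/1000000000000000000000000) (r + s) := h.hr.add' h.hs (by norm_num)
  have h3 : In (88292857769138694159870139/25000000000000000000000000) (353171431076554776639481309/100000000000000000000000000) ((r + s) ^ 2) := h2.pow' 2 (by norm_num)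
  have h4 : In (379203893882651973753757729/100000000000000000000000000) (379203893882651973753758671/100000000000000000000000000) (((r + s) ^ 2) + (r * s)) := h3.add' h1 (by norm_num)
  have h5 : In (98716112634273659595952473/100000000000000000000000000) (24679028158568414898988359/25000000000000000000000000) ((r * s) * (((r + s) ^ 2) + (r * s))) := h1.mul' h4 (by norm_num)
  have h6 : In (26032462806097197114277173/50000000000000000000000000) (13016231403048598557138681/25000000000000000000000000) (2 * (r * s)) := (In.const (c := 2) (le_refl _) (le_refl _)).mul' h1 (by norm_num)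
  have h7 : In (48922432098927045291733007/50000000000000000000000000) (97844864197854090583466829/100000000000000000000000000) ((2 * (r * s)) * (r + s)) := h6.mul' h2 (by norm_num)
  have h8 : In (202618178344374585434017451/50000000000000000000000000) (405236356688749170868036033/100000000000000000000000000) (((r + s) ^ 2) + (2 * (r * s))) := h3.add' h6 (by norm_num)
  have h9 : In (396502962882438237777051591/100000000000000000000000000) (396502962882438237777056001/100000000000000000000000000) (((2 * (r * s)) * (r + s)) * (((r + s) ^ 2) + (2 * (r * s)))) := h7.mul' h8 (by norm_num)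
  have h10 : In (1247300597286616810371620721/100000000000000000000000000) (77956287330413550648226627/6250000000000000000000000) ((r + s) ^ 4) := h2.pow' 4 (by norm_num)
  have h11 : In (3741901791859850431114862163/100000000000000000000000000) (233868861991240651944679881/6250000000000000000000000) (3 * ((r + s) ^ 4)) := (In.const (c := 3) (le_refl _) (le_refl _)).mul' h10 (by norm_num)
  have h12 : In (264878573307416082479610417/6250000000000000000000000) (1059514293229664329918443927/25000000000000000000000000) (12 * ((r + s) ^ 2)) := (In.const (c := 12) (le_refl _) (le_refl _)).mul' h3 (by norm_num)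
  have h13 : In (68954416077573990040760219/6250000000000000000000000) (1103270657241183840652173867/100000000000000000000000000) ((12 * ((r + s) ^ 2)) * (r * s)) := h12.mul' h1 (by norm_num)
  have h14 : In (4845172449101034271767025667/100000000000000000000000000) (4845172449101034271767051963/100000000000000000000000000) ((3 * ((r + s) ^ 4)) + ((12 * ((r + s) ^ 2)) * (r * s))) := h11.add' h13 (by norm_num)
  have h15 : In (1355378239501667908321103/20000000000000000000000000) (3388445598754169770802807/50000000000000000000000000) ((r * s) ^ 2) := h1.pow' 2 (by norm_num)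
  have h16 : In (1355378239501667908321103/5000000000000000000000000) (3388445598754169770802807/12500000000000000000000000) (4 * ((r * s) ^ 2)) := (In.const (c := 4) (le_refl _) (le_refl _)).mul' h15 (by norm_num)
  have h17 : In (4872280013891067629933447727/100000000000000000000000000) (4872280013891067629933474419/100000000000000000000000000) (((3 * ((r + s) ^ 4)) + ((12 * ((r + s) ^ 2)) * (r * s))) + (4 * ((r * s) ^ 2))) := h14.add' h16 (by norm_num)
  have h18 : In (1268374482425099529691736063/100000000000000000000000000) (1268374482425099529691752221/100000000000000000000000000) ((r * s) * (((3 * ((r + s) ^ 4)) + ((12 * ((r + s) ^ 2)) * (r * s))) + (4 * ((r * s) ^ 2)))) := h1.mul' h17 (by norm_num)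
  have h19 : In (0) (0) ((cb r s 0 0 1).x) := In.congr (In.const (c := 0) (le_refl _) (le_refl _)) (by first | rfl | (simp only [cb, e1, e2, e3]; ring))
  have h20 : In (0) (0) ((cb r s 0 0 1).y) := In.congr (In.const (c := 0) (le_refl _) (le_refl _)) (by first | rfl | (simp only [cb, e1, e2, e3]; ring))
  have h21 : In (1) (1) ((cb r s 0 0 1).t) := In.congr (In.const (c := 1) (le_refl _) (le_refl _)) (by first | rfl | (simp only [cb, e1, e2, e3]; ring))
  have h22 : In (98716112634273659595952473/100000000000000000000000000) (24679028158568414898988359/25000000000000000000000000) ((cb r s 0 0 1).u) := In.congr h5 (by first | rfl | (simp only [cb, e1, e2, e3]; ring))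
  have h23 : In (396502962882438237777051591/100000000000000000000000000) (396502962882438237777056001/100000000000000000000000000) ((cb r s 0 0 1).v) := In.congr h9 (by first | rfl | (simp only [cb, e1, e2, e3]; ring))
  have h24 : In (1268374482425099529691736063/100000000000000000000000000) (1268374482425099529691752221/100000000000000000000000000) ((cb r s 0 0 1).w) := In.congr h18 (by first | rfl | (simp only [cb, e1, e2, e3]; ring))
  have h25 : In (0) (0) ((fk (jet r s y t)) * (cb r s 0 0 1).x) := h.hk.mul' h19 (by norm_num)
  have h26 : In (98716112634273659595952473/100000000000000000000000000) (24679028158568414898988359/25000000000000000000000000) ((cb r s 0 0 1).u - ((fk (jet r s y t)) * (cb r s 0 0 1).x)) := h22.sub' h25 (by norm_num)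
  have h27 : In (2640738719949711092188145901/100000000000000000000000000) (2640738719949711092188464121/100000000000000000000000000) (((cb r s 0 0 1).u - ((fk (jet r s y t)) * (cb r s 0 0 1).x)) / (jet r s y t).x) := h26.div' h.hbx (by norm_num)
  have h28 : In (2640738719949711092188145901/100000000000000000000000000) (2640738719949711092188464121/100000000000000000000000000) (dk (jet r s y t) (cb r s 0 0 1)) := In.congr h27 (by unfold dk; with_reducible rfl)
  have h29 : In (10701458849071604124998837/3125000000000000000000000) (85611670792572833000040063/25000000000000000000000000) ((cb r s 0 0 1).t * ((fk (jet r s y t)) ^ 3)) := h21.mul' h.pk3 (by norm_num)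
  have h30 : In (1615436105212323349191/500000000000000000000000) (646174442084929339677/200000000000000000000000) (3 * (jet r s y t).t) := (In.const (c := 3) (le_refl _) (le_refl _)).mul' h.hbt (by norm_num)
  have h31 : In (146806432773527464132119/20000000000000000000000000) (734032163867637320661559/100000000000000000000000000) ((3 * (jet r s y t).t) * ((fk (jet r s y t)) ^ 2)) := h30.mul' h.pk2 (by norm_num)
  have h32 : In (9691935784068705758829069/50000000000000000000000000) (19383871568137411517685931/100000000000000000000000000) (((3 * (jet r s y t).t) * ((fk (jet r s y t)) ^ 2)) * (dk (jet r s y t) (cb r s 0 0 1))) := h31.mul' h28 (by norm_num)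
  have h33 : In (180915277369214371758810461/50000000000000000000000000) (361830554738428743517846183/100000000000000000000000000) (((cb r s 0 0 1).t * ((fk (jet r s y t)) ^ 3)) + (((3 * (jet r s y t).t) * ((fk (jet r s y t)) ^ 2)) * (dk (jet r s y t) (cb r s 0 0 1)))) := h29.add' h32 (by norm_num)
  have h34 : In (180915277369214371758810461/50000000000000000000000000) (361830554738428743517846183/100000000000000000000000000) (dT (jet r s y t) (cb r s 0 0 1)) := In.congr h33 (by unfold dT; with_reducible rfl)
  have h35 : In (0) (0) ((cb r s 0 0 1).y * ((fk (jet r s y t)) ^ 2)) := h20.mul' h.pk2 (by norm_num)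
  have h36 : In (205212204790913531001689/500000000000000000000000) (20521220479091353100169/50000000000000000000000) (2 * (jet r s y t).y) := (In.const (c := 2) (le_refl _) (le_refl _)).mul' h.hby (by norm_num)
  have h37 : In (61862980035967567727661991/100000000000000000000000000) (7732872504495945965959273/12500000000000000000000000) ((2 * (jet r s y t).y) * (fk (jet r s y t))) := h36.mul' h.hk (by norm_num)
  have h38 : In (1633639667124555270626640911/100000000000000000000000000) (1633639667124555270627159757/100000000000000000000000000) (((2 * (jet r s y t).y) * (fk (jet r s y t))) * (dk (jet r s y t) (cb r s 0 0 1))) := h37.mul' h28 (by norm_num)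
  have h39 : In (1633639667124555270626640911/100000000000000000000000000) (1633639667124555270627159757/100000000000000000000000000) (((cb r s 0 0 1).y * ((fk (jet r s y t)) ^ 2)) + (((2 * (jet r s y t).y) * (fk (jet r s y t))) * (dk (jet r s y t) (cb r s 0 0 1)))) := h35.add' h38 (by norm_num)
  have h40 : In (180915277369214371758810461/25000000000000000000000000) (361830554738428743517846183/50000000000000000000000000) (2 * (dT (jet r s y t) (cb r s 0 0 1))) := (In.const (c := 2) (le_refl _) (le_refl _)).mul' h34 (by norm_num)
  have h41 : In (471460155320282551532376551/20000000000000000000000000) (2357300776601412757662852123/100000000000000000000000000) ((((cb r s 0 0 1).y * ((fk (jet r s y t)) ^ 2)) + (((2 * (jet r s y t).y) * (fk (jet r s y t))) * (dk (jet r s y t) (cb r s 0 0 1)))) + (2 * (dT (jet r s y t) (cb r s 0 0 1)))) := h39.add' h40 (by norm_num)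
  have h42 : In (471460155320282551532376551/20000000000000000000000000) (2357300776601412757662852123/100000000000000000000000000) (dY (jet r s y t) (cb r s 0 0 1)) := In.congr h41 (by unfold dY; with_reducible rfl)
  have h43 : In (174522380242578494434672299/100000000000000000000000000) (174522380242578494434741333/100000000000000000000000000) ((cb r s 0 0 1).v / ((fk (jet r s y t)) ^ 2)) := h23.div' h.pk2 (by norm_num)
  have h44 : In (1144638179624625974571249/6250000000000000000000000) (572319089812312987285687/3125000000000000000000000) (2 * (jet r s y t).v) := (In.const (c := 2) (le_refl _) (le_refl _)).mul' h.hbv (by norm_num)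
  have h45 : In (1069609476397629727974481/20000000000000000000000000) (2674023690994074319938037/50000000000000000000000000) ((2 * (jet r s y t).v) / ((fk (jet r s y t)) ^ 3)) := h44.div' h.pk3 (by norm_num)
  have h46 : In (7061397898870893616330083/5000000000000000000000000) (8826747373588617020419723/6250000000000000000000000) (((2 * (jet r s y t).v) / ((fk (jet r s y t)) ^ 3)) * (dk (jet r s y t) (cb r s 0 0 1))) := h45.mul' h28 (by norm_num)
  have h47 : In (33294422265160622107956731/100000000000000000000000000) (33294422265160622108139673/100000000000000000000000000) (((cb r s 0 0 1).v / ((fk (jet r s y t)) ^ 2)) - (((2 * (jet r s y t).v) / ((fk (jet r s y t)) ^ 3)) * (dk (jet r s y t) (cb r s 0 0 1)))) := h43.sub' h46 (by norm_num)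
  have h48 : In (33294422265160622107956731/100000000000000000000000000) (33294422265160622108139673/100000000000000000000000000) ((((cb r s 0 0 1).v / ((fk (jet r s y t)) ^ 2)) - (((2 * (jet r s y t).v) / ((fk (jet r s y t)) ^ 3)) * (dk (jet r s y t) (cb r s 0 0 1)))) - (cb r s 0 0 1).x) := h47.sub' h19 (by norm_num)
  have h49 : In (186138534651650093195323759/781250000000000000000000) (11912866217705605964568905873/50000000000000000000000000) (((((cb r s 0 0 1).v / ((fk (jet r s y t)) ^ 2)) - (((2 * (jet r s y t).v) / ((fk (jet r s y t)) ^ 3)) * (dk (jet r s y t) (cb r s 0 0 1)))) - (cb r s 0 0 1).x) / ((jet r s y t).x ^ 2)) := h48.div' h.px2 (by norm_num)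
  have h50 : In (209197969862749128744886001/50000000000000000000000000) (52299492465687282186663557/12500000000000000000000000) (2 * ((fD (jet r s y t)) + 1)) := (In.const (c := 2) (le_refl _) (le_refl _)).mul' h.pDp (by norm_num)
  have h51 : In (0) (0) ((2 * ((fD (jet r s y t)) + 1)) * (cb r s 0 0 1).x) := h50.mul' h19 (by norm_num)
  have h52 : In (0) (0) (((2 * ((fD (jet r s y t)) + 1)) * (cb r s 0 0 1).x) / (jet r s y t).x) := h51.div' h.hbx (by norm_num)
  have h53 : In (186138534651650093195323759/781250000000000000000000) (11912866217705605964568905873/50000000000000000000000000) ((((((cb r s 0 0 1).v / ((fk (jet r s y t)) ^ 2)) - (((2 * (jet r s y t).v) / ((fk (jet r s y t)) ^ 3)) * (dk (jet r s y t) (cb r s 0 0 1)))) - (cb r s 0 0 1).x) / ((jet r s y t).x ^ 2)) - (((2 * ((fD (jet r s y t)) + 1)) * (cb r s 0 0 1).x) / (jet r s y t).x)) := h49.sub' h52 (by norm_num)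
  have h54 : In (186138534651650093195323759/781250000000000000000000) (11912866217705605964568905873/50000000000000000000000000) (dD (jet r s y t) (cb r s 0 0 1)) := In.congr h53 (by unfold dD; with_reducible rfl)
  have h55 : In (370385973863956019470931753/100000000000000000000000000) (370385973863956019471150051/100000000000000000000000000) ((cb r s 0 0 1).w / ((fk (jet r s y t)) ^ 3)) := h24.div' h.pk3 (by norm_num)
  have h56 : In (47948640377437273992355533/100000000000000000000000000) (47948640377437273992362583/100000000000000000000000000) (3 * (jet r s y t).w) := (In.const (c := 3) (le_refl _) (le_refl _)).mul' h.hbw (by norm_num)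
  have h57 : In (9289357523349074404135727/100000000000000000000000000) (2322339380837268601036059/25000000000000000000000000) ((3 * (jet r s y t).w) / ((fk (jet r s y t)) ^ 4)) := h56.div' h.pk4 (by norm_num)
  have h58 : In (1962461287629124256883127/800000000000000000000000) (245307660953640532110645137/100000000000000000000000000) (((3 * (jet r s y t).w) / ((fk (jet r s y t)) ^ 4)) * (dk (jet r s y t) (cb r s 0 0 1))) := h57.mul' h28 (by norm_num)
  have h59 : In (15634789113789435920035827/12500000000000000000000000) (15634789113789435920094897/12500000000000000000000000) (((cb r s 0 0 1).w / ((fk (jet r s y t)) ^ 3)) - (((3 * (jet r s y t).w) / ((fk (jet r s y t)) ^ 4)) * (dk (jet r s y t) (cb r s 0 0 1)))) := h55.sub' h58 (by norm_num)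
  have h60 : In (10480608210708084143319/2500000000000000000000000) (52403041053540420716607/12500000000000000000000000) (3 * ((jet r s y t).x ^ 2)) := (In.const (c := 3) (le_refl _) (le_refl _)).mul' h.px2 (by norm_num)
  have h61 : In (2497081669887046658096183/2500000000000000000000000) (24970816698870466581110473/25000000000000000000000000) ((3 * ((jet r s y t).x ^ 2)) * (dD (jet r s y t) (cb r s 0 0 1))) := h60.mul' h54 (by norm_num)
  have h62 : In (6298761528708405258961181/25000000000000000000000000) (1574690382177101314806991/6250000000000000000000000) ((((cb r s 0 0 1).w / ((fk (jet r s y t)) ^ 3)) - (((3 * (jet r s y t).w) / ((fk (jet r s y t)) ^ 4)) * (dk (jet r s y t) (cb r s 0 0 1)))) - ((3 * ((jet r s y t).x ^ 2)) * (dD (jet r s y t) (cb r s 0 0 1)))) := h59.sub' h61 (by norm_num)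
  have h63 : In (5607301011371179494435327/25000000000000000000000000) (1401825252842794873608987/6250000000000000000000000) (6 * (jet r s y t).x) := (In.const (c := 6) (le_refl _) (le_refl _)).mul' h.hbx (by norm_num)
  have h64 : In (46921439519527628701644817/100000000000000000000000000) (46921439519527628702046613/100000000000000000000000000) ((6 * (jet r s y t).x) * (1 + (fD (jet r s y t)))) := h63.mul' h.pD1 (by norm_num)
  have h65 : In (0) (0) (((6 * (jet r s y t).x) * (1 + (fD (jet r s y t)))) * (cb r s 0 0 1).x) := h64.mul' h19 (by norm_num)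
  have h66 : In (6298761528708405258961181/25000000000000000000000000) (1574690382177101314806991/6250000000000000000000000) (((((cb r s 0 0 1).w / ((fk (jet r s y t)) ^ 3)) - (((3 * (jet r s y t).w) / ((fk (jet r s y t)) ^ 4)) * (dk (jet r s y t) (cb r s 0 0 1)))) - ((3 * ((jet r s y t).x ^ 2)) * (dD (jet r s y t) (cb r s 0 0 1)))) - (((6 * (jet r s y t).x) * (1 + (fD (jet r s y t)))) * (cb r s 0 0 1).x)) := h62.sub' h65 (by norm_num)
  have h67 : In (6298761528708405258961181/25000000000000000000000000) (1574690382177101314806991/6250000000000000000000000) ((((((cb r s 0 0 1).w / ((fk (jet r s y t)) ^ 3)) - (((3 * (jet r s y t).w) / ((fk (jet r s y t)) ^ 4)) * (dk (jet r s y t) (cb r s 0 0 1)))) - ((3 * ((jet r s y t).x ^ 2)) * (dD (jet r s y t) (cb r s 0 0 1)))) - (((6 * (jet r s y t).x) * (1 + (fD (jet r s y t)))) * (cb r s 0 0 1).x)) - (cb r s 0 0 1).x) := h66.sub' h19 (by norm_num)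
  have h68 : In (241155586739635835138384171679/50000000000000000000000000) (241155586739635835148736770497/50000000000000000000000000) (((((((cb r s 0 0 1).w / ((fk (jet r s y t)) ^ 3)) - (((3 * (jet r s y t).w) / ((fk (jet r s y t)) ^ 4)) * (dk (jet r s y t) (cb r s 0 0 1)))) - ((3 * ((jet r s y t).x ^ 2)) * (dD (jet r s y t) (cb r s 0 0 1)))) - (((6 * (jet r s y t).x) * (1 + (fD (jet r s y t)))) * (cb r s 0 0 1).x)) - (cb r s 0 0 1).x) / ((jet r s y t).x ^ 3)) := h67.div' h.px3 (by norm_num)
  have h69 : In (373659598753235470248939531/12500000000000000000000000) (747319197506470940662082211/25000000000000000000000000) (3 * (fN (jet r s y t))) := (In.const (c := 3) (le_refl _) (le_refl _)).mul' h.hN (by norm_num)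
  have h70 : In (0) (0) ((3 * (fN (jet r s y t))) * (cb r s 0 0 1).x) := h69.mul' h19 (by norm_num)
  have h71 : In (0) (0) (((3 * (fN (jet r s y t))) * (cb r s 0 0 1).x) / (jet r s y t).x) := h70.div' h.hbx (by norm_num)
  have h72 : In (241155586739635835138384171679/50000000000000000000000000) (241155586739635835148736770497/50000000000000000000000000) ((((((((cb r s 0 0 1).w / ((fk (jet r s y t)) ^ 3)) - (((3 * (jet r s y t).w) / ((fk (jet r s y t)) ^ 4)) * (dk (jet r s y t) (cb r s 0 0 1)))) - ((3 * ((jet r s y t).x ^ 2)) * (dD (jet r s y t) (cb r s 0 0 1)))) - (((6 * (jet r s y t).x) * (1 + (fD (jet r s y t)))) * (cb r s 0 0 1).x)) - (cb r s 0 0 1).x) / ((jet r s y t).x ^ 3)) - (((3 * (fN (jet r s y t))) * (cb r s 0 0 1).x) / (jet r s y t).x)) := h68.sub' h71 (by norm_num)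
  have h73 : In (241155586739635835138384171679/50000000000000000000000000) (241155586739635835148736770497/50000000000000000000000000) (dN (jet r s y t) (cb r s 0 0 1)) := In.congr h72 (by unfold dN; with_reducible rfl)
  have h74 : In (26340555553454157325038087361/50000000000000000000000000) (26340555553454157326836787971/50000000000000000000000000) ((dN (jet r s y t) (cb r s 0 0 1)) / ((1 + (fD (jet r s y t))) ^ 3)) := h73.div' h.pD13 (by norm_num)
  have h75 : In (712217089745416095127668684887/100000000000000000000000000) (89027136218177011911029448891/12500000000000000000000000) ((3 * (fN (jet r s y t))) * (dD (jet r s y t) (cb r s 0 0 1))) := h69.mul' h54 (by norm_num)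
  have h76 : In (37186262253050187032026897949/100000000000000000000000000) (2324141390815636690104229231/6250000000000000000000000) (((3 * (fN (jet r s y t))) * (dD (jet r s y t) (cb r s 0 0 1))) / ((1 + (fD (jet r s y t))) ^ 4)) := h75.div' h.pD14 (by norm_num)
  have h77 : In (7747424426929063804204253513/50000000000000000000000000) (15494848853858127621646677993/100000000000000000000000000) (((dN (jet r s y t) (cb r s 0 0 1)) / ((1 + (fD (jet r s y t))) ^ 3)) - (((3 * (fN (jet r s y t))) * (dD (jet r s y t) (cb r s 0 0 1))) / ((1 + (fD (jet r s y t))) ^ 4))) := h74.sub' h76 (by norm_num)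
  have h78 : In (15133018299119698864890660843/100000000000000000000000000) (15133018299119698878129057071/100000000000000000000000000) ((((dN (jet r s y t) (cb r s 0 0 1)) / ((1 + (fD (jet r s y t))) ^ 3)) - (((3 * (fN (jet r s y t))) * (dD (jet r s y t) (cb r s 0 0 1))) / ((1 + (fD (jet r s y t))) ^ 4))) - (dT (jet r s y t) (cb r s 0 0 1))) := h77.sub' h34 (by norm_num)
  have h79 : In (15133018299119698864890660843/100000000000000000000000000) (15133018299119698878129057071/100000000000000000000000000) (dA (jet r s y t) (cb r s 0 0 1)) := In.congr h78 (by unfold dA; with_reducible rfl)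
  have h80 : In (0) (0) ((cb r s 0 0 1).x * ((fD (jet r s y t)) ^ 2)) := h19.mul' h.pP2 (by norm_num)
  have h81 : In (1869100337123726498145109/25000000000000000000000000) (467275084280931624536329/6250000000000000000000000) (2 * (jet r s y t).x) := (In.const (c := 2) (le_refl _) (le_refl _)).mul' h.hbx (by norm_num)
  have h82 : In (2041019622836909226991959/25000000000000000000000000) (8164078491347636908100941/100000000000000000000000000) ((2 * (jet r s y t).x) * (fD (jet r s y t))) := h81.mul' h.hD (by norm_num)
  have h83 : In (1945151497165444260037186173/100000000000000000000000000) (972575748582722130040016409/50000000000000000000000000) (((2 * (jet r s y t).x) * (fD (jet r s y t))) * (dD (jet r s y t) (cb r s 0 0 1))) := h82.mul' h54 (by norm_num)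
  have h84 : In (1945151497165444260037186173/100000000000000000000000000) (972575748582722130040016409/50000000000000000000000000) (((cb r s 0 0 1).x * ((fD (jet r s y t)) ^ 2)) + (((2 * (jet r s y t).x) * (fD (jet r s y t))) * (dD (jet r s y t) (cb r s 0 0 1)))) := h80.add' h83 (by norm_num)
  have h85 : In (1868863745621024329151183571/100000000000000000000000000) (2336079682026280411491931/125000000000000000000000) ((((cb r s 0 0 1).x * ((fD (jet r s y t)) ^ 2)) + (((2 * (jet r s y t).x) * (fD (jet r s y t))) * (dD (jet r s y t) (cb r s 0 0 1)))) / (1 + ((jet r s y t).x * (fD (jet r s y t))))) := h84.div' h.pxD1 (by norm_num)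
  have h86 : In (0) (0) ((cb r s 0 0 1).x * (fD (jet r s y t))) := h19.mul' h.hD (by norm_num)
  have h87 : In (890653690544936027801015647/100000000000000000000000000) (890653690544936027806212093/100000000000000000000000000) ((jet r s y t).x * (dD (jet r s y t) (cb r s 0 0 1))) := h.hbx.mul' h54 (by norm_num)
  have h88 : In (890653690544936027801015647/100000000000000000000000000) (890653690544936027806212093/100000000000000000000000000) (((cb r s 0 0 1).x * (fD (jet r s y t))) + ((jet r s y t).x * (dD (jet r s y t) (cb r s 0 0 1)))) := h86.add' h87 (by norm_num)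
  have h89 : In (190719378861049827211897/500000000000000000000000) (19071937886104982721932951/50000000000000000000000000) ((fS (jet r s y t)) * (((cb r s 0 0 1).x * (fD (jet r s y t))) + ((jet r s y t).x * (dD (jet r s y t) (cb r s 0 0 1))))) := h.hS.mul' h88 (by norm_num)
  have h90 : In (36647894342438548910734431/100000000000000000000000000) (36647894342438548912186067/100000000000000000000000000) (((fS (jet r s y t)) * (((cb r s 0 0 1).x * (fD (jet r s y t))) + ((jet r s y t).x * (dD (jet r s y t) (cb r s 0 0 1))))) / (1 + ((jet r s y t).x * (fD (jet r s y t))))) := h89.div' h.pxD1 (by norm_num)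
  have h91 : In (894636646132121963007323/48828125000000000000000) (1832215851278585780282810369/100000000000000000000000000) (((((cb r s 0 0 1).x * ((fD (jet r s y t)) ^ 2)) + (((2 * (jet r s y t).x) * (fD (jet r s y t))) * (dD (jet r s y t) (cb r s 0 0 1)))) / (1 + ((jet r s y t).x * (fD (jet r s y t))))) - (((fS (jet r s y t)) * (((cb r s 0 0 1).x * (fD (jet r s y t))) + ((jet r s y t).x * (dD (jet r s y t) (cb r s 0 0 1))))) / (1 + ((jet r s y t).x * (fD (jet r s y t)))))) := h85.sub' h90 (by norm_num)
  have h92 : In (894636646132121963007323/48828125000000000000000) (1832215851278585780282810369/100000000000000000000000000) (dS (jet r s y t) (cb r s 0 0 1)) := In.congr h91 (by unfold dS; with_reducible rfl)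
  have h93 : In (0) (0) ((cb r s 0 0 1).x * ((1 + (fD (jet r s y t))) ^ 2)) := h19.mul' h.pD12 (by norm_num)
  have h94 : In (977529989990158931284267/6250000000000000000000000) (3128095967968508580136441/20000000000000000000000000) ((2 * (jet r s y t).x) * (1 + (fD (jet r s y t)))) := h81.mul' h.pD1 (by norm_num)
  have h95 : In (3726458878255316315639217469/100000000000000000000000000) (3726458878255316315692457003/100000000000000000000000000) (((2 * (jet r s y t).x) * (1 + (fD (jet r s y t)))) * (dD (jet r s y t) (cb r s 0 0 1))) := h94.mul' h54 (by norm_num)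
  have h96 : In (3726458878255316315639217469/100000000000000000000000000) (3726458878255316315692457003/100000000000000000000000000) (((cb r s 0 0 1).x * ((1 + (fD (jet r s y t))) ^ 2)) + (((2 * (jet r s y t).x) * (1 + (fD (jet r s y t)))) * (dD (jet r s y t) (cb r s 0 0 1)))) := h93.add' h95 (by norm_num)
  have h97 : In (3726458878255316315639217469/100000000000000000000000000) (3726458878255316315692457003/100000000000000000000000000) (dP (jet r s y t) (cb r s 0 0 1)) := In.congr h96 (by unfold dP; with_reducible rfl)
  have h98 : In (1361041406128732634385701419/25000000000000000000000000) (340260351532183158604124933/6250000000000000000000000) ((dD (jet r s y t) (cb r s 0 0 1)) / ((1 + (fD (jet r s y t))) ^ 2)) := h54.div' h.pD12 (by norm_num)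
  have h99 : In (3086864847913517779879953553/100000000000000000000000000) (3086864847913517780004116173/100000000000000000000000000) (((dD (jet r s y t) (cb r s 0 0 1)) / ((1 + (fD (jet r s y t))) ^ 2)) - (dY (jet r s y t) (cb r s 0 0 1))) := h98.sub' h42 (by norm_num)
  have h100 : In (78415562289683249974821449/6250000000000000000000000) (1254648996634931999765118669/100000000000000000000000000) ((((dD (jet r s y t) (cb r s 0 0 1)) / ((1 + (fD (jet r s y t))) ^ 2)) - (dY (jet r s y t) (cb r s 0 0 1))) - (dS (jet r s y t) (cb r s 0 0 1))) := h99.sub' h92 (by norm_num)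
  have h101 : In (184400245367831302590449/25000000000000000000000000) (184400245367831302590727/25000000000000000000000000) (2 * (fT (jet r s y t))) := (In.const (c := 2) (le_refl _) (le_refl _)).mul' h.hT (by norm_num)
  have h102 : In (1360138019668655590719/100000000000000000000000000) (340034504917163897681/25000000000000000000000000) ((fT (jet r s y t)) ^ 2) := h.hT.pow' 2 (by norm_num)
  have h103 : In (5507416448825403526502727/20000000000000000000000000) (688427056103175440823717/2500000000000000000000000) ((dP (jet r s y t) (cb r s 0 0 1)) * ((2 * (fT (jet r s y t))) + ((fT (jet r s y t)) ^ 2))) := h97.mul' h.pTT (by norm_num)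
  have h104 : In (153388989298850622745524313/12500000000000000000000000) (613555957195402491066302517/50000000000000000000000000) (((((dD (jet r s y t) (cb r s 0 0 1)) / ((1 + (fD (jet r s y t))) ^ 2)) - (dY (jet r s y t) (cb r s 0 0 1))) - (dS (jet r s y t) (cb r s 0 0 1))) - ((dP (jet r s y t) (cb r s 0 0 1)) * ((2 * (fT (jet r s y t))) + ((fT (jet r s y t)) ^ 2)))) := h100.sub' h103 (by norm_num)
  have h105 : In (50184400245367831302590449/25000000000000000000000000) (50184400245367831302590727/25000000000000000000000000) (2 + (2 * (fT (jet r s y t)))) := (In.const (c := 2) (le_refl _) (le_refl _)).add' h101 (by norm_num)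
  have h106 : In (363164987599935639027343971/50000000000000000000000000) (14526599503997425561102883/2000000000000000000000000) ((2 + (2 * (fT (jet r s y t)))) * (dT (jet r s y t) (cb r s 0 0 1))) := h105.mul' h34 (by norm_num)
  have h107 : In (3713312778202445399610563/3125000000000000000000000) (118826008902478252789634559/100000000000000000000000000) (((jet r s y t).x * ((1 + (fD (jet r s y t))) ^ 2)) * ((2 + (2 * (fT (jet r s y t)))) * (dT (jet r s y t) (cb r s 0 0 1)))) := h.pxD12.mul' h106 (by norm_num)
  have h108 : In (221657181097665345834911989/20000000000000000000000000) (554142952744163364672533509/50000000000000000000000000) ((((((dD (jet r s y t) (cb r s 0 0 1)) / ((1 + (fD (jet r s y t))) ^ 2)) - (dY (jet r s y t) (cb r s 0 0 1))) - (dS (jet r s y t) (cb r s 0 0 1))) - ((dP (jet r s y t) (cb r s 0 0 1)) * ((2 * (fT (jet r s y t))) + ((fT (jet r s y t)) ^ 2)))) - (((jet r s y t).x * ((1 + (fD (jet r s y t))) ^ 2)) * ((2 + (2 * (fT (jet r s y t)))) * (dT (jet r s y t) (cb r s 0 0 1))))) := h104.sub' h107 (by norm_num)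
  have h109 : In (138535738186040841146819993/25000000000000000000000000) (554142952744163364672533509/100000000000000000000000000) (((((((dD (jet r s y t) (cb r s 0 0 1)) / ((1 + (fD (jet r s y t))) ^ 2)) - (dY (jet r s y t) (cb r s 0 0 1))) - (dS (jet r s y t) (cb r s 0 0 1))) - ((dP (jet r s y t) (cb r s 0 0 1)) * ((2 * (fT (jet r s y t))) + ((fT (jet r s y t)) ^ 2)))) - (((jet r s y t).x * ((1 + (fD (jet r s y t))) ^ 2)) * ((2 + (2 * (fT (jet r s y t)))) * (dT (jet r s y t) (cb r s 0 0 1))))) / 2) := h108.div' (In.const (c := 2) (le_refl _) (le_refl _)) (by norm_num)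
  have h110 : In (138535738186040841146819993/25000000000000000000000000) (554142952744163364672533509/100000000000000000000000000) (dK (jet r s y t) (cb r s 0 0 1)) := In.congr h109 (by unfold dK; with_reducible rfl)
  have h111 : In (4417988276685232480269031/50000000000000000000000000) (8835976553370464987212711/100000000000000000000000000) ((Real.exp (fA (jet r s y t))) - 1) := h.hE.sub' (In.const (c := 1) (le_refl _) (le_refl _)) (by norm_num)
  have h112 : In (668574974363739263687998717/50000000000000000000000000) (167143743590934816572802317/12500000000000000000000000) (((Real.exp (fA (jet r s y t))) - 1) * (dA (jet r s y t) (cb r s 0 0 1))) := h111.mul' h79 (by norm_num)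
  have h113 : In (975319393989049783858151251/100000000000000000000000000) (487659696994524894532398807/50000000000000000000000000) ((((Real.exp (fA (jet r s y t))) - 1) * (dA (jet r s y t) (cb r s 0 0 1))) - (dT (jet r s y t) (cb r s 0 0 1))) := h112.sub' h34 (by norm_num)
  have h114 : In (975319393989049783858151251/100000000000000000000000000) (487659696994524894532398807/50000000000000000000000000) (dM (jet r s y t) (cb r s 0 0 1)) := In.congr h113 (by unfold dM; with_reducible rfl)
  have h115 : In (0) (0) ((fM (jet r s y t)) * (dA (jet r s y t) (cb r s 0 0 1))) := h.hM.mul' h79 (by norm_num)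
  have h116 : In (30636830118110954169932813/100000000000000000000000000) (15318415059055477133233453/50000000000000000000000000) ((fA (jet r s y t)) * (dT (jet r s y t) (cb r s 0 0 1))) := h.hA.mul' h34 (by norm_num)
  have h117 : In (-15318415059055477133233453/50000000000000000000000000) (-30636830118110954169932813/100000000000000000000000000) (((fM (jet r s y t)) * (dA (jet r s y t) (cb r s 0 0 1))) - ((fA (jet r s y t)) * (dT (jet r s y t) (cb r s 0 0 1)))) := h115.sub' h116 (by norm_num)
  have h118 : In (-15318415059055477133233453/50000000000000000000000000) (-30636830118110954169932813/100000000000000000000000000) (dG (jet r s y t) (cb r s 0 0 1)) := In.congr h117 (by unfold dG; with_reducible rfl)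
  have h119 : In (-155705228749360411501637/20000000000000000000000000) (-389263071873400984822487/50000000000000000000000000) ((dP (jet r s y t) (cb r s 0 0 1)) * (fG (jet r s y t))) := h97.mulN' h.hG (by norm_num)
  have h120 : In (553364426600416562529771787/100000000000000000000000000) (110672885320083312540577707/20000000000000000000000000) ((dK (jet r s y t) (cb r s 0 0 1)) + ((dP (jet r s y t) (cb r s 0 0 1)) * (fG (jet r s y t)))) := h110.add' h119 (by norm_num)
  have h121 : In (-2506059485811932440167819/50000000000000000000000000) (-313257435726491554028599/6250000000000000000000000) (((jet r s y t).x * ((1 + (fD (jet r s y t))) ^ 2)) * (dG (jet r s y t) (cb r s 0 0 1))) := h.pxD12.mulN' h118 (by norm_num)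
  have h122 : In (548352307628792697649436149/100000000000000000000000000) (548352307628792697838430951/100000000000000000000000000) (((dK (jet r s y t) (cb r s 0 0 1)) + ((dP (jet r s y t) (cb r s 0 0 1)) * (fG (jet r s y t)))) + (((jet r s y t).x * ((1 + (fD (jet r s y t))) ^ 2)) * (dG (jet r s y t) (cb r s 0 0 1)))) := h120.add' h121 (by norm_num)
  have h123 : In (32849258532673313871/50000000000000000000000000) (65698517065346627751/100000000000000000000000000) (9 * ((jet r s y t).x ^ 5)) := (In.const (c := 9) (le_refl _) (le_refl _)).mul' h.px5 (by norm_num)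
  have h124 : In (172948091713556405809/100000000000000000000000000) (34589618342711281173/20000000000000000000000000) ((9 * ((jet r s y t).x ^ 5)) * ((fD (jet r s y t)) ^ 11)) := h123.mul' h.pP11 (by norm_num)
  have h125 : In (0) (0) (((9 * ((jet r s y t).x ^ 5)) * ((fD (jet r s y t)) ^ 11)) * (cb r s 0 0 1).x) := h124.mul' h19 (by norm_num)
  have h126 : In (900512216232700721/20000000000000000000000000) (2251280540581751811/50000000000000000000000000) ((33 / 2) * ((jet r s y t).x ^ 6)) := (In.const (c := (33 / 2)) (le_refl _) (le_refl _)).mul' h.px6 (by norm_num)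
  have h127 : In (5427192932651235281/50000000000000000000000000) (5427192932651235303/50000000000000000000000000) (((33 / 2) * ((jet r s y t).x ^ 6)) * ((fD (jet r s y t)) ^ 10)) := h126.mul' h.pP10 (by norm_num)
  have h128 : In (646534233443515167261/25000000000000000000000000) (2586136933774060679543/100000000000000000000000000) ((((33 / 2) * ((jet r s y t).x ^ 6)) * ((fD (jet r s y t)) ^ 10)) * (dD (jet r s y t) (cb r s 0 0 1))) := h127.mul' h54 (by norm_num)
  have h129 : In (646534233443515167261/25000000000000000000000000) (2586136933774060679543/100000000000000000000000000) ((((9 * ((jet r s y t).x ^ 5)) * ((fD (jet r s y t)) ^ 11)) * (cb r s 0 0 1).x) + ((((33 / 2) * ((jet r s y t).x ^ 6)) * ((fD (jet r s y t)) ^ 10)) * (dD (jet r s y t) (cb r s 0 0 1)))) := h125.add' h128 (by norm_num)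
  have h130 : In (548354893765726471710105193/100000000000000000000000000) (274177446882863235949555247/50000000000000000000000000) ((((dK (jet r s y t) (cb r s 0 0 1)) + ((dP (jet r s y t) (cb r s 0 0 1)) * (fG (jet r s y t)))) + (((jet r s y t).x * ((1 + (fD (jet r s y t))) ^ 2)) * (dG (jet r s y t) (cb r s 0 0 1)))) + ((((9 * ((jet r s y t).x ^ 5)) * ((fD (jet r s y t)) ^ 11)) * (cb r s 0 0 1).x) + ((((33 / 2) * ((jet r s y t).x ^ 6)) * ((fD (jet r s y t)) ^ 10)) * (dD (jet r s y t) (cb r s 0 0 1))))) := h122.add' h129 (by norm_num)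
  have h131 : In (2640245783491051054483/25000000000000000000000000) (10560983133964204219307/100000000000000000000000000) (((jet r s y t).x ^ 3) * ((fD (jet r s y t)) ^ 8)) := h.px3.mul' h.pP8 (by norm_num)
  have h132 : In (0) (0) ((((jet r s y t).x ^ 3) * ((fD (jet r s y t)) ^ 8)) * (cb r s 0 0 1).x) := h131.mul' h19 (by norm_num)
  have h133 : In (3905534167692860767/1000000000000000000000000) (195276708384643038351/50000000000000000000000000) (2 * ((jet r s y t).x ^ 4)) := (In.const (c := 2) (le_refl _) (le_refl _)).mul' h.px4 (by norm_num)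
  have h134 : In (144614682202323707083/20000000000000000000000000) (361536705505809267751/50000000000000000000000000) ((2 * ((jet r s y t).x ^ 4)) * ((fD (jet r s y t)) ^ 7)) := h133.mul' h.pP7 (by norm_num)
  have h135 : In (172277536219229423132361/100000000000000000000000000) (43069384054807355788519/25000000000000000000000000) (((2 * ((jet r s y t).x ^ 4)) * ((fD (jet r s y t)) ^ 7)) * (dD (jet r s y t) (cb r s 0 0 1))) := h134.mul' h54 (by norm_num)
  have h136 : In (172277536219229423132361/100000000000000000000000000) (43069384054807355788519/25000000000000000000000000) (((((jet r s y t).x ^ 3) * ((fD (jet r s y t)) ^ 8)) * (cb r s 0 0 1).x) + (((2 * ((jet r s y t).x ^ 4)) * ((fD (jet r s y t)) ^ 7)) * (dD (jet r s y t) (cb r s 0 0 1)))) := h132.add' h135 (by norm_num)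
  have h137 : In (548182616229507242286951117/100000000000000000000000000) (548182616229507242475978133/100000000000000000000000000) (((((dK (jet r s y t) (cb r s 0 0 1)) + ((dP (jet r s y t) (cb r s 0 0 1)) * (fG (jet r s y t)))) + (((jet r s y t).x * ((1 + (fD (jet r s y t))) ^ 2)) * (dG (jet r s y t) (cb r s 0 0 1)))) + ((((9 * ((jet r s y t).x ^ 5)) * ((fD (jet r s y t)) ^ 11)) * (cb r s 0 0 1).x) + ((((33 / 2) * ((jet r s y t).x ^ 6)) * ((fD (jet r s y t)) ^ 10)) * (dD (jet r s y t) (cb r s 0 0 1))))) - (((((jet r s y t).x ^ 3) * ((fD (jet r s y t)) ^ 8)) * (cb r s 0 0 1).x) + (((2 * ((jet r s y t).x ^ 4)) * ((fD (jet r s y t)) ^ 7)) * (dD (jet r s y t) (cb r s 0 0 1))))) := h130.sub' h136 (by norm_num)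
  have h138 : In (548182616229507242286951117/100000000000000000000000000) (548182616229507242475978133/100000000000000000000000000) (dT0 (jet r s y t) (cb r s 0 0 1)) := In.congr h137 (by unfold dT0; with_reducible rfl)
  have h139 : In (11389083962450892279327742253/100000000000000000000000000) (11389083962450892279489194801/100000000000000000000000000) ((dD (jet r s y t) (cb r s 0 0 1)) / (1 + (fD (jet r s y t)))) := h54.div' h.pD1 (by norm_num)
  have h140 : In (2389217027793076624761232971/25000000000000000000000000) (9556868111172306499250197297/100000000000000000000000000) (((dD (jet r s y t) (cb r s 0 0 1)) / (1 + (fD (jet r s y t)))) - (dS (jet r s y t) (cb r s 0 0 1))) := h139.sub' h92 (by norm_num)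
  have h141 : In (9008685494942799256568953751/100000000000000000000000000) (450434274747139962848162309/5000000000000000000000000) ((((dD (jet r s y t) (cb r s 0 0 1)) / (1 + (fD (jet r s y t)))) - (dS (jet r s y t) (cb r s 0 0 1))) - (dT0 (jet r s y t) (cb r s 0 0 1))) := h140.sub' h138 (by norm_num)
  have h142 : In (9008685494942799256568953751/100000000000000000000000000) (450434274747139962848162309/5000000000000000000000000) (dNet (jet r s y t) (cb r s 0 0 1)) := In.congr h141 (by unfold dNet; with_reducible rfl)
  have h143 : In (0) (0) ((2 * (jet r s y t).x) * (cb r s 0 0 1).x) := h81.mul' h19 (by norm_num)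
  have h144 : In (0) (0) (((2 * (jet r s y t).x) * (cb r s 0 0 1).x) * ((1 + (fD (jet r s y t))) ^ 3)) := h143.mul' h.pD13 (by norm_num)
  have h145 : In (14333473219952403305903/781250000000000000000000) (91734228607695381159351/5000000000000000000000000) ((3 * ((jet r s y t).x ^ 2)) * ((1 + (fD (jet r s y t))) ^ 2)) := h60.mul' h.pD12 (by norm_num)
  have h146 : In (109281759298789747127590867/25000000000000000000000000) (437127037195158988520355297/100000000000000000000000000) (((3 * ((jet r s y t).x ^ 2)) * ((1 + (fD (jet r s y t))) ^ 2)) * (dD (jet r s y t) (cb r s 0 0 1))) := h145.mul' h54 (by norm_num)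
  have h147 : In (109281759298789747127590867/25000000000000000000000000) (437127037195158988520355297/100000000000000000000000000) ((((2 * (jet r s y t).x) * (cb r s 0 0 1).x) * ((1 + (fD (jet r s y t))) ^ 3)) + (((3 * ((jet r s y t).x ^ 2)) * ((1 + (fD (jet r s y t))) ^ 2)) * (dD (jet r s y t) (cb r s 0 0 1)))) := h144.add' h146 (by norm_num)
  have h148 : In (109281759298789747127590867/25000000000000000000000000) (437127037195158988520355297/100000000000000000000000000) (dQ (jet r s y t) (cb r s 0 0 1)) := In.congr h147 (by unfold dQ; with_reducible rfl)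
  have h149 : In (890653690544936027801015647/100000000000000000000000000) (890653690544936027806212093/100000000000000000000000000) (dU (jet r s y t) (cb r s 0 0 1)) := In.congr h88 (by unfold dU; with_reducible rfl)
  have h150 : In (8293013231483583759371777/12500000000000000000000000) (66344105851868670074986969/100000000000000000000000000) (1 / (fk (jet r s y t))) := (In.const (c := 1) (le_refl _) (le_refl _)).div' h.hk (by norm_num)
  have h151 : In (33655894148131329925013031/100000000000000000000000000) (4206986768516416240628223/12500000000000000000000000) (1 - (1 / (fk (jet r s y t)))) := (In.const (c := 1) (le_refl _) (le_refl _)).sub' h150 (by norm_num)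
  have h152 : In (888764228314993004199357111/100000000000000000000000000) (177752845662998600839960197/20000000000000000000000000) ((1 - (1 / (fk (jet r s y t)))) * (dk (jet r s y t) (cb r s 0 0 1))) := h151.mul' h28 (by norm_num)
  have h153 : In (88876422831499300419935711/20000000000000000000000000) (444382114157496502099900493/100000000000000000000000000) (((1 - (1 / (fk (jet r s y t)))) * (dk (jet r s y t) (cb r s 0 0 1))) / 2) := h152.div' (In.const (c := 2) (le_refl _) (le_refl _)) (by norm_num)
  have h154 : In (18416412317198537169233459/3125000000000000000000000) (589325194150353189415713031/100000000000000000000000000) ((dY (jet r s y t) (cb r s 0 0 1)) / 4) := h42.div' (In.const (c := 4) (le_refl _) (le_refl _)) (by norm_num)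
  have h155 : In (-36235769998214171829008619/25000000000000000000000000) (-28988615998571337463114039/20000000000000000000000000) ((((1 - (1 / (fk (jet r s y t)))) * (dk (jet r s y t) (cb r s 0 0 1))) / 2) - ((dY (jet r s y t) (cb r s 0 0 1)) / 4)) := h153.sub' h154 (by norm_num)
  have h156 : In (120610184912809581172540307/100000000000000000000000000) (24122036982561916234523079/20000000000000000000000000) ((dT (jet r s y t) (cb r s 0 0 1)) / 3) := h34.div' (In.const (c := 3) (le_refl _) (le_refl _)) (by norm_num)
  have h157 : In (-24332895080047106143494169/100000000000000000000000000) (-60832237700117765357387/250000000000000000000000) (((((1 - (1 / (fk (jet r s y t)))) * (dk (jet r s y t) (cb r s 0 0 1))) / 2) - ((dY (jet r s y t) (cb r s 0 0 1)) / 4)) + ((dT (jet r s y t) (cb r s 0 0 1)) / 3)) := h155.add' h156 (by norm_num)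
  have h158 : In (890653690544936027801015647/100000000000000000000000000) (890653690544936027806212093/100000000000000000000000000) ((cb r s 0 0 1).x + (dU (jet r s y t) (cb r s 0 0 1))) := h19.add' h149 (by norm_num)
  have h159 : In (421817296599144187860659069/100000000000000000000000000) (52727162074893023482911463/12500000000000000000000000) (((cb r s 0 0 1).x + (dU (jet r s y t) (cb r s 0 0 1))) * (fY (jet r s y t))) := h158.mul' h.hY (by norm_num)
  have h160 : In (105454324149786046965164767/50000000000000000000000000) (52727162074893023482911463/25000000000000000000000000) ((((cb r s 0 0 1).x + (dU (jet r s y t) (cb r s 0 0 1))) * (fY (jet r s y t))) / 2) := h159.div' (In.const (c := 2) (le_refl _) (le_refl _)) (by norm_num)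
  have h161 : In (-235241543379619200075140021/100000000000000000000000000) (-117620771689809600036642167/50000000000000000000000000) ((((((1 - (1 / (fk (jet r s y t)))) * (dk (jet r s y t) (cb r s 0 0 1))) / 2) - ((dY (jet r s y t) (cb r s 0 0 1)) / 4)) + ((dT (jet r s y t) (cb r s 0 0 1)) / 3)) - ((((cb r s 0 0 1).x + (dU (jet r s y t) (cb r s 0 0 1))) * (fY (jet r s y t))) / 2)) := h157.sub' h160 (by norm_num)
  have h162 : In (977529989990158931284267/12500000000000000000000000) (7820239919921271450341103/100000000000000000000000000) ((jet r s y t).x * (1 + (fD (jet r s y t)))) := h.hbx.mul' h.pD1 (by norm_num)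
  have h163 : In (11521661022774864440284537/6250000000000000000000000) (184346576364397831046207013/100000000000000000000000000) (((jet r s y t).x * (1 + (fD (jet r s y t)))) * (dY (jet r s y t) (cb r s 0 0 1))) := h162.mul' h42 (by norm_num)
  have h164 : In (11521661022774864440284537/12500000000000000000000000) (92173288182198915523103507/100000000000000000000000000) ((((jet r s y t).x * (1 + (fD (jet r s y t)))) * (dY (jet r s y t) (cb r s 0 0 1))) / 2) := h163.div' (In.const (c := 2) (le_refl _) (le_refl _)) (by norm_num)
  have h165 : In (-40926853945227264449780441/12500000000000000000000000) (-32741483156181811559556063/10000000000000000000000000) (((((((1 - (1 / (fk (jet r s y t)))) * (dk (jet r s y t) (cb r s 0 0 1))) / 2) - ((dY (jet r s y t) (cb r s 0 0 1)) / 4)) + ((dT (jet r s y t) (cb r s 0 0 1)) / 3)) - ((((cb r s 0 0 1).x + (dU (jet r s y t) (cb r s 0 0 1))) * (fY (jet r s y t))) / 2)) - ((((jet r s y t).x * (1 + (fD (jet r s y t)))) * (dY (jet r s y t) (cb r s 0 0 1))) / 2)) := h161.sub' h164 (by norm_num)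
  have h166 : In (-10445924256533037738309/100000000000000000000000000) (-10445924256533036559547/100000000000000000000000000) ((fG (jet r s y t)) / 2) := h.hG.divN' (In.const (c := 2) (le_refl _) (le_refl _)) (by norm_num)
  have h167 : In (2886566873011694788877/1562500000000000000000000) (23092534984093558311051/12500000000000000000000000) (((2 * (fT (jet r s y t))) + ((fT (jet r s y t)) ^ 2)) / 4) := h.pTT.div' (In.const (c := 4) (le_refl _) (le_refl _)) (by norm_num)
  have h168 : In (-195186204129281504226717/100000000000000000000000000) (-7807448165171260121907/4000000000000000000000000) (((fG (jet r s y t)) / 2) - (((2 * (fT (jet r s y t))) + ((fT (jet r s y t)) ^ 2)) / 4)) := h166.sub' h167 (by norm_num)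
  have h169 : In (-42660583556201165526263/5000000000000000000000000) (-170642334224804661070369/20000000000000000000000000) ((dQ (jet r s y t) (cb r s 0 0 1)) * (((fG (jet r s y t)) / 2) - (((2 * (fT (jet r s y t))) + ((fT (jet r s y t)) ^ 2)) / 4))) := h148.mulN' h168 (by norm_num)
  have h170 : In (-82067010808235534727192197/25000000000000000000000000) (-13130721729317685556036499/4000000000000000000000000) ((((((((1 - (1 / (fk (jet r s y t)))) * (dk (jet r s y t) (cb r s 0 0 1))) / 2) - ((dY (jet r s y t) (cb r s 0 0 1)) / 4)) + ((dT (jet r s y t) (cb r s 0 0 1)) / 3)) - ((((cb r s 0 0 1).x + (dU (jet r s y t) (cb r s 0 0 1))) * (fY (jet r s y t))) / 2)) - ((((jet r s y t).x * (1 + (fD (jet r s y t)))) * (dY (jet r s y t) (cb r s 0 0 1))) / 2)) + ((dQ (jet r s y t) (cb r s 0 0 1)) * (((fG (jet r s y t)) / 2) - (((2 * (fT (jet r s y t))) + ((fT (jet r s y t)) ^ 2)) / 4)))) := h165.add' h169 (by norm_num)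
  have h171 : In (319843573194253288604361/25000000000000000000000000) (1279374292777013154450179/100000000000000000000000000) (((jet r s y t).x ^ 2) * ((1 + (fD (jet r s y t))) ^ 3)) := h.px2.mul' h.pD13 (by norm_num)
  have h172 : In (-15318415059055477133233453/100000000000000000000000000) (-7659207529527738542483203/50000000000000000000000000) ((dG (jet r s y t) (cb r s 0 0 1)) / 2) := h118.divN' (In.const (c := 2) (le_refl _) (le_refl _)) (by norm_num)
  have h173 : In (50184400245367831302590449/50000000000000000000000000) (50184400245367831302590727/50000000000000000000000000) (1 + (fT (jet r s y t))) := (In.const (c := 1) (le_refl _) (le_refl _)).add' h.hT (by norm_num)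
  have h174 : In (363164987599935639027343971/100000000000000000000000000) (14526599503997425561102883/4000000000000000000000000) ((1 + (fT (jet r s y t))) * (dT (jet r s y t) (cb r s 0 0 1))) := h173.mul' h34 (by norm_num)
  have h175 : In (36316498759993563902734397/20000000000000000000000000) (90791246899983909756893019/50000000000000000000000000) (((1 + (fT (jet r s y t))) * (dT (jet r s y t) (cb r s 0 0 1))) / 2) := h174.div' (In.const (c := 2) (le_refl _) (le_refl _)) (by norm_num)
  have h176 : In (-196900908859023296647019491/100000000000000000000000000) (-196900908859023296598638391/100000000000000000000000000) (((dG (jet r s y t) (cb r s 0 0 1)) / 2) - (((1 + (fT (jet r s y t))) * (dT (jet r s y t) (cb r s 0 0 1))) / 2)) := h172.sub' h175 (by norm_num)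
  have h177 : In (-503819922037328108531887/20000000000000000000000000) (-2519099610186640541976003/100000000000000000000000000) ((((jet r s y t).x ^ 2) * ((1 + (fD (jet r s y t))) ^ 3)) * (((dG (jet r s y t) (cb r s 0 0 1)) / 2) - (((1 + (fT (jet r s y t))) * (dT (jet r s y t) (cb r s 0 0 1))) / 2))) := h171.mulN' h176 (by norm_num)
  have h178 : In (-330787142843128779451428223/100000000000000000000000000) (-165393571421564389721444239/50000000000000000000000000) (((((((((1 - (1 / (fk (jet r s y t)))) * (dk (jet r s y t) (cb r s 0 0 1))) / 2) - ((dY (jet r s y t) (cb r s 0 0 1)) / 4)) + ((dT (jet r s y t) (cb r s 0 0 1)) / 3)) - ((((cb r s 0 0 1).x + (dU (jet r s y t) (cb r s 0 0 1))) * (fY (jet r s y t))) / 2)) - ((((jet r s y t).x * (1 + (fD (jet r s y t)))) * (dY (jet r s y t) (cb r s 0 0 1))) / 2)) + ((dQ (jet r s y t) (cb r s 0 0 1)) * (((fG (jet r s y t)) / 2) - (((2 * (fT (jet r s y t))) + ((fT (jet r s y t)) ^ 2)) / 4)))) + ((((jet r s y t).x ^ 2) * ((1 + (fD (jet r s y t))) ^ 3)) * (((dG (jet r s y t) (cb r s 0 0 1)) / 2) - (((1 + (fT (jet r s y t))) * (dT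 (jet r s y t) (cb r s 0 0 1))) / 2)))) := h170.add' h177 (by norm_num)
  have h179 : In (133598053581740404170152347/10000000000000000000000000) (66799026790870202085465907/5000000000000000000000000) ((3 / 2) * (dU (jet r s y t) (cb r s 0 0 1))) := (In.const (c := (3 / 2)) (le_refl _) (le_refl _)).mul' h149 (by norm_num)
  have h180 : In (1005193392974275262250095247/100000000000000000000000000) (502596696487137631133214831/50000000000000000000000000) ((((((((((1 - (1 / (fk (jet r s y t)))) * (dk (jet r s y t) (cb r s 0 0 1))) / 2) - ((dY (jet r s y t) (cb r s 0 0 1)) / 4)) + ((dT (jet r s y t) (cb r s 0 0 1)) / 3)) - ((((cb r s 0 0 1).x + (dU (jet r s y t) (cb r s 0 0 1))) * (fY (jet r s y t))) / 2)) - ((((jet r s y t).x * (1 + (fD (jet r s y t)))) * (dY (jet r s y t) (cb r s 0 0 1))) / 2)) + ((dQ (jet r s y t) (cb r s 0 0 1)) * (((fG (jet r s y t)) / 2) - (((2 * (fT (jet r s y t))) + ((fT (jet r s y t)) ^ 2)) / 4)))) + ((((jet r s y t).x ^ 2) * ((1 + (fD (jet r s y t))) ^ 3)) * (((dG (jet r s y t) (cb r s 0 0 1)) / 2) - (((1 + (fT (jet r s y t))) * (dT (jet r s y t)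 (cb r s 0 0 1))) / 2)))) + ((3 / 2) * (dU (jet r s y t) (cb r s 0 0 1)))) := h178.add' h179 (by norm_num)
  have h181 : In (6084379823091326105061/62500000000000000000000) (1216875964618265221071449/12500000000000000000000000) ((2 * (jet r s y t).x) * ((fD (jet r s y t)) ^ 3)) := h81.mul' h.pP3 (by norm_num)
  have h182 : In (0) (0) (((2 * (jet r s y t).x) * ((fD (jet r s y t)) ^ 3)) * (cb r s 0 0 1).x) := h181.mul' h19 (by norm_num)
  have h183 : In (499891332096638303153673/100000000000000000000000000) (249945666048319151584989/50000000000000000000000000) ((3 * ((jet r s y t).x ^ 2)) * ((fD (jet r s y t)) ^ 2)) := h60.mul' h.pP2 (by norm_num)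
  have h184 : In (59551385626578965264371941/50000000000000000000000000) (59551385626578965266655187/50000000000000000000000000) (((3 * ((jet r s y t).x ^ 2)) * ((fD (jet r s y t)) ^ 2)) * (dD (jet r s y t) (cb r s 0 0 1))) := h183.mul' h54 (by norm_num)
  have h185 : In (59551385626578965264371941/50000000000000000000000000) (59551385626578965266655187/50000000000000000000000000) ((((2 * (jet r s y t).x) * ((fD (jet r s y t)) ^ 3)) * (cb r s 0 0 1).x) + (((3 * ((jet r s y t).x ^ 2)) * ((fD (jet r s y t)) ^ 2)) * (dD (jet r s y t) (cb r s 0 0 1)))) := h182.add' h184 (by norm_num)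
  have h186 : In (52041019622836909226991959/12500000000000000000000000) (104082039245673818454050471/25000000000000000000000000) (4 * (1 + ((jet r s y t).x * (fD (jet r s y t))))) := (In.const (c := 4) (le_refl _) (le_refl _)).mul' h.pxD1 (by norm_num)
  have h187 : In (28607906829157474081784399/100000000000000000000000000) (14303953414578737041449771/50000000000000000000000000) (((((2 * (jet r s y t).x) * ((fD (jet r s y t)) ^ 3)) * (cb r s 0 0 1).x) + (((3 * ((jet r s y t).x ^ 2)) * ((fD (jet r s y t)) ^ 2)) * (dD (jet r s y t) (cb r s 0 0 1)))) / (4 * (1 + ((jet r s y t).x * (fD (jet r s y t)))))) := h185.div' h186 (by norm_num)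
  have h188 : In (516900649901716368165939823/50000000000000000000000000) (258450324950858184087332301/25000000000000000000000000) (((((((((((1 - (1 / (fk (jet r s y t)))) * (dk (jet r s y t) (cb r s 0 0 1))) / 2) - ((dY (jet r s y t) (cb r s 0 0 1)) / 4)) + ((dT (jet r s y t) (cb r s 0 0 1)) / 3)) - ((((cb r s 0 0 1).x + (dU (jet r s y t) (cb r s 0 0 1))) * (fY (jet r s y t))) / 2)) - ((((jet r s y t).x * (1 + (fD (jet r s y t)))) * (dY (jet r s y t) (cb r s 0 0 1))) / 2)) + ((dQ (jet r s y t) (cb r s 0 0 1)) * (((fG (jet r s y t)) / 2) - (((2 * (fT (jet r s y t))) + ((fT (jet r s y t)) ^ 2)) / 4)))) + ((((jet r s y t).x ^ 2) * ((1 + (fD (jet r s y t))) ^ 3)) * (((dG (jet r s y t) (cb r s 0 0 1)) / 2) - (((1 + (fT (jet r s y t))) * (dT (jet r s y t) (cb r s 0 0 1))) / 2)))) + ((3 / 2) * (dU (jet r s y t) (cb r s 0 0 1)))) + (((((2 * (jet r s y t).x) * ((fD (jet r s y t)) ^ 3)) * (cb r s 0 0 1).x) + (((3 * ((jet r s y t).x ^ 2)) * ((fD (jet r s y t)) ^ 2)) * (dD (jet r s y t) (cb r s 0 0 1)))) / (4 * (1 + ((jet r s y t).x * (fD (jet r s y t))))))) := h180.add' h187 (by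 norm_num)
  have h189 : In (7278282482258430088731/4000000000000000000000000) (181957062056460752227157/100000000000000000000000000) (((jet r s y t).x ^ 2) * ((fD (jet r s y t)) ^ 3)) := h.px2.mul' h.pP3 (by norm_num)
  have h190 : In (1620607288413007159307729/100000000000000000000000000) (1620607288413007159396293/100000000000000000000000000) ((((jet r s y t).x ^ 2) * ((fD (jet r s y t)) ^ 3)) * (dU (jet r s y t) (cb r s 0 0 1))) := h189.mul' h149 (by norm_num)
  have h191 : In (108330708935379849675685727/25000000000000000000000000) (27082677233844962418956067/6250000000000000000000000) (4 * ((1 + ((jet r s y t).x * (fD (jet r s y t)))) ^ 2)) := (In.const (c := 4) (le_refl _) (le_refl _)).mul' h.pxD2 (by norm_num)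
  have h192 : In (186997678721427066452571/50000000000000000000000000) (373995357442854132926059/100000000000000000000000000) (((((jet r s y t).x ^ 2) * ((fD (jet r s y t)) ^ 3)) * (dU (jet r s y t) (cb r s 0 0 1))) / (4 * ((1 + ((jet r s y t).x * (fD (jet r s y t)))) ^ 2))) := h190.div' h191 (by norm_num)
  have h193 : In (1033427304445989882198953587/100000000000000000000000000) (516713652222994941108212031/50000000000000000000000000) ((((((((((((1 - (1 / (fk (jet r s y t)))) * (dk (jet r s y t) (cb r s 0 0 1))) / 2) - ((dY (jet r s y t) (cb r s 0 0 1)) / 4)) + ((dT (jet r s y t) (cb r s 0 0 1)) / 3)) - ((((cb r s 0 0 1).x + (dU (jet r s y t) (cb r s 0 0 1))) * (fY (jet r s y t))) / 2)) - ((((jet r s y t).x * (1 + (fD (jet r s y t)))) * (dY (jet r s y t) (cb r s 0 0 1))) / 2)) + ((dQ (jet r s y t) (cb r s 0 0 1)) * (((fG (jet r s y t)) / 2) - (((2 * (fT (jet r s y t))) + ((fT (jet r s y t)) ^ 2)) / 4)))) + ((((jet r s y t).x ^ 2) * ((1 + (fD (jet r s y t))) ^ 3)) * (((dG (jet r s y t) (cb r s 0 0 1)) / 2) - (((1 + (fT (jet r s y t))) * (dT (jet r s y t) (cb r s 0 0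 1))) / 2)))) + ((3 / 2) * (dU (jet r s y t) (cb r s 0 0 1)))) + (((((2 * (jet r s y t).x) * ((fD (jet r s y t)) ^ 3)) * (cb r s 0 0 1).x) + (((3 * ((jet r s y t).x ^ 2)) * ((fD (jet r s y t)) ^ 2)) * (dD (jet r s y t) (cb r s 0 0 1)))) / (4 * (1 + ((jet r s y t).x * (fD (jet r s y t))))))) - (((((jet r s y t).x ^ 2) * ((fD (jet r s y t)) ^ 3)) * (dU (jet r s y t) (cb r s 0 0 1))) / (4 * ((1 + ((jet r s y t).x * (fD (jet r s y t)))) ^ 2)))) := h188.sub' h192 (by norm_num)
  have h194 : In (0) (0) ((cb r s 0 0 1).x / 2) := h19.div' (In.const (c := 2) (le_refl _) (le_refl _)) (by norm_num)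
  have h195 : In (0) (0) (((cb r s 0 0 1).x / 2) * (Real.log (1 + fD (jet r s y t)))) := h194.mul' k.LD (by norm_num)
  have h196 : In (1033427304445989882198953587/100000000000000000000000000) (516713652222994941108212031/50000000000000000000000000) (((((((((((((1 - (1 / (fk (jet r s y t)))) * (dk (jet r s y t) (cb r s 0 0 1))) / 2) - ((dY (jet r s y t) (cb r s 0 0 1)) / 4)) + ((dT (jet r s y t) (cb r s 0 0 1)) / 3)) - ((((cb r s 0 0 1).x + (dU (jet r s y t) (cb r s 0 0 1))) * (fY (jet r s y t))) / 2)) - ((((jet r s y t).x * (1 + (fD (jet r s y t)))) * (dY (jet r s y t) (cb r s 0 0 1))) / 2)) + ((dQ (jet r s y t) (cb r s 0 0 1)) * (((fG (jet r s y t)) / 2) - (((2 * (fT (jet r s y t))) + ((fT (jet r s y t)) ^ 2)) / 4)))) + ((((jet r s y t).x ^ 2) * ((1 + (fD (jet r s y t))) ^ 3)) * (((dG (jet r s y t) (cb r s 0 0 1)) / 2) - (((1 + (fT (jet r s y t))) * (dT (jet r s y t) (cb r s 0 0 1))) / 2)))) + ((3 / 2) * (dU (jet r s y t) (cb r s 0 0 1)))) + (((((2 * (jet r s y t).x) * ((fD (jet r s y t)) ^ 3)) * (cb r s 0 0 1).x) + (((3 * ((jet r s y t).x ^ 2)) * ((fD (jet r s y t))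 ^ 2)) * (dD (jet r s y t) (cb r s 0 0 1)))) / (4 * (1 + ((jet r s y t).x * (fD (jet r s y t))))))) - (((((jet r s y t).x ^ 2) * ((fD (jet r s y t)) ^ 3)) * (dU (jet r s y t) (cb r s 0 0 1))) / (4 * ((1 + ((jet r s y t).x * (fD (jet r s y t)))) ^ 2)))) - (((cb r s 0 0 1).x / 2) * (Real.log (1 + fD (jet r s y t))))) := h193.sub' h195 (by norm_num)
  have h197 : In (209197969862749128744886001/50000000000000000000000000) (52299492465687282186663557/12500000000000000000000000) (2 * (1 + (fD (jet r s y t)))) := (In.const (c := 2) (le_refl _) (le_refl _)).mul' h.pD1 (by norm_num)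
  have h198 : In (212873406737473895809968521/100000000000000000000000000) (13304587921092118488313113/6250000000000000000000000) (((jet r s y t).x * (dD (jet r s y t) (cb r s 0 0 1))) / (2 * (1 + (fD (jet r s y t))))) := h87.div' h197 (by norm_num)
  have h199 : In (820553897708515986385943779/100000000000000000000000000) (820553897708515986406455541/100000000000000000000000000) ((((((((((((((1 - (1 / (fk (jet r s y t)))) * (dk (jet r s y t) (cb r s 0 0 1))) / 2) - ((dY (jet r s y t) (cb r s 0 0 1)) / 4)) + ((dT (jet r s y t) (cb r s 0 0 1)) / 3)) - ((((cb r s 0 0 1).x + (dU (jet r s y t) (cb r s 0 0 1))) * (fY (jet r s y t))) / 2)) - ((((jet r s y t).x * (1 + (fD (jet r s y t)))) * (dY (jet r s y t) (cb r s 0 0 1))) / 2)) + ((dQ (jet r s y t) (cb r s 0 0 1)) * (((fG (jet r s y t)) / 2) - (((2 * (fT (jet r s y t))) + ((fT (jet r s y t)) ^ 2)) / 4)))) + ((((jet r s y t).x ^ 2) * ((1 + (fD (jet r s y t))) ^ 3)) * (((dG (jet r s y t) (cb r s 0 0 1)) / 2) - (((1 + (fT (jet r s y t))) * (dT (jet r s y t) (cb r s 0 0 1))) / 2)))) + ((3 / 2) * (dU (jet r s y t) (cb r s 0 0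 1)))) + (((((2 * (jet r s y t).x) * ((fD (jet r s y t)) ^ 3)) * (cb r s 0 0 1).x) + (((3 * ((jet r s y t).x ^ 2)) * ((fD (jet r s y t)) ^ 2)) * (dD (jet r s y t) (cb r s 0 0 1)))) / (4 * (1 + ((jet r s y t).x * (fD (jet r s y t))))))) - (((((jet r s y t).x ^ 2) * ((fD (jet r s y t)) ^ 3)) * (dU (jet r s y t) (cb r s 0 0 1))) / (4 * ((1 + ((jet r s y t).x * (fD (jet r s y t)))) ^ 2)))) - (((cb r s 0 0 1).x / 2) * (Real.log (1 + fD (jet r s y t))))) - (((jet r s y t).x * (dD (jet r s y t) (cb r s 0 0 1))) / (2 * (1 + (fD (jet r s y t)))))) := h196.sub' h198 (by norm_num)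
  have h200 : In (-20023525441604543304044901/50000000000000000000000000) (-8009410176641779914116227/20000000000000000000000000) (((cb r s 0 0 1).x + (dU (jet r s y t) (cb r s 0 0 1))) * (Real.log ((1 + 1) / (1 + fD (jet r s y t))))) := h158.mulN' k.L2 (by norm_num)
  have h201 : In (780506846825306899777853977/100000000000000000000000000) (390253423412653543417937203/50000000000000000000000000) (((((((((((((((1 - (1 / (fk (jet r s y t)))) * (dk (jet r s y t) (cb r s 0 0 1))) / 2) - ((dY (jet r s y t) (cb r s 0 0 1)) / 4)) + ((dT (jet r s y t) (cb r s 0 0 1)) / 3)) - ((((cb r s 0 0 1).x + (dU (jet r s y t) (cb r s 0 0 1))) * (fY (jet r s y t))) / 2)) - ((((jet r s y t).x * (1 + (fD (jet r s y t)))) * (dY (jet r s y t) (cb r s 0 0 1))) / 2)) + ((dQ (jet r s y t) (cb r s 0 0 1)) * (((fG (jet r s y t)) / 2) - (((2 * (fT (jet r s y t))) + ((fT (jet r s y t)) ^ 2)) / 4)))) + ((((jet r s y t).x ^ 2) * ((1 + (fD (jet r s y t))) ^ 3)) * (((dG (jet r s y t) (cb r s 0 0 1)) / 2) - (((1 + (fT (jet r s y t))) * (dT (jet r s y t) (cb r s 0 0 1))) / 2)))) + ((3 / 2) * (dU (jet r s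 y t) (cb r s 0 0 1)))) + (((((2 * (jet r s y t).x) * ((fD (jet r s y t)) ^ 3)) * (cb r s 0 0 1).x) + (((3 * ((jet r s y t).x ^ 2)) * ((fD (jet r s y t)) ^ 2)) * (dD (jet r s y t) (cb r s 0 0 1)))) / (4 * (1 + ((jet r s y t).x * (fD (jet r s y t))))))) - (((((jet r s y t).x ^ 2) * ((fD (jet r s y t)) ^ 3)) * (dU (jet r s y t) (cb r s 0 0 1))) / (4 * ((1 + ((jet r s y t).x * (fD (jet r s y t)))) ^ 2)))) - (((cb r s 0 0 1).x / 2) * (Real.log (1 + fD (jet r s y t))))) - (((jet r s y t).x * (dD (jet r s y t) (cb r s 0 0 1))) / (2 * (1 + (fD (jet r s y t)))))) + (((cb r s 0 0 1).x + (dU (jet r s y t) (cb r s 0 0 1))) * (Real.log ((1 + 1) / (1 + fD (jet r s y t)))))) := h199.add' h200 (by norm_num)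
  have h202 : In (-27536710929907282007089529/25000000000000000000000000) (-110146843719628940965141241/100000000000000000000000000) ((((((((((((((((1 - (1 / (fk (jet r s y t)))) * (dk (jet r s y t) (cb r s 0 0 1))) / 2) - ((dY (jet r s y t) (cb r s 0 0 1)) / 4)) + ((dT (jet r s y t) (cb r s 0 0 1)) / 3)) - ((((cb r s 0 0 1).x + (dU (jet r s y t) (cb r s 0 0 1))) * (fY (jet r s y t))) / 2)) - ((((jet r s y t).x * (1 + (fD (jet r s y t)))) * (dY (jet r s y t) (cb r s 0 0 1))) / 2)) + ((dQ (jet r s y t) (cb r s 0 0 1)) * (((fG (jet r s y t)) / 2) - (((2 * (fT (jet r s y t))) + ((fT (jet r s y t)) ^ 2)) / 4)))) + ((((jet r s y t).x ^ 2) * ((1 + (fD (jet r s y t))) ^ 3)) * (((dG (jet r s y t) (cb r s 0 0 1)) / 2) - (((1 + (fT (jet r s y t))) * (dT (jet r s y t) (cb r s 0 0 1))) / 2)))) + ((3 / 2) * (dU (jet r s y t) (cb r s 0 0 1)))) + (((((2 * (jet r s y t).x) * ((fD (jet r s y t)) ^ 3)) * (cb r s 0 0 1).x) + (((3 * ((jet r s y t).x ^ 2)) * ((fD (jet r s y t)) ^ 2)) * (dD (jet r s y t) (cb r s 0 0 1)))) / (4 * (1 + ((jet r s y t).x * (fD (jet r s y t))))))) - (((((jet r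 s y t).x ^ 2) * ((fD (jet r s y t)) ^ 3)) * (dU (jet r s y t) (cb r s 0 0 1))) / (4 * ((1 + ((jet r s y t).x * (fD (jet r s y t)))) ^ 2)))) - (((cb r s 0 0 1).x / 2) * (Real.log (1 + fD (jet r s y t))))) - (((jet r s y t).x * (dD (jet r s y t) (cb r s 0 0 1))) / (2 * (1 + (fD (jet r s y t)))))) + (((cb r s 0 0 1).x + (dU (jet r s y t) (cb r s 0 0 1))) * (Real.log ((1 + 1) / (1 + fD (jet r s y t)))))) - ((jet r s y t).x * (dD (jet r s y t) (cb r s 0 0 1)))) := h201.sub' h87 (by norm_num)
  have h203 : In (477544357093098867/50000000000000000000000000) (477544357093098869/50000000000000000000000000) ((7 / 2) * ((jet r s y t).x ^ 6)) := (In.const (c := (7 / 2)) (le_refl _) (le_refl _)).mul' h.px6 (by norm_num)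
  have h204 : In (85796289667950089/3125000000000000000000000) (2745481269374402861/100000000000000000000000000) (((7 / 2) * ((jet r s y t).x ^ 6)) * ((fD (jet r s y t)) ^ 12)) := h203.mul' h.pP12 (by norm_num)
  have h205 : In (0) (0) ((((7 / 2) * ((jet r s y t).x ^ 6)) * ((fD (jet r s y t)) ^ 12)) * (cb r s 0 0 1).x) := h204.mul' h19 (by norm_num)
  have h206 : In (30602685217174089/50000000000000000000000000) (7650671304293523/12500000000000000000000000) (6 * ((jet r s y t).x ^ 7)) := (In.const (c := 6) (le_refl _) (le_refl _)).mul' h.px7 (by norm_num)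
  have h207 : In (80560052890639729/50000000000000000000000000) (6444804231251179/4000000000000000000000000) ((6 * ((jet r s y t).x ^ 7)) * ((fD (jet r s y t)) ^ 11)) := h206.mul' h.pP11 (by norm_num)
  have h208 : In (38388045303099155077/100000000000000000000000000) (38388045303099159129/100000000000000000000000000) (((6 * ((jet r s y t).x ^ 7)) * ((fD (jet r s y t)) ^ 11)) * (dD (jet r s y t) (cb r s 0 0 1))) := h207.mul' h54 (by norm_num)
  have h209 : In (38388045303099155077/100000000000000000000000000) (38388045303099159129/100000000000000000000000000) (((((7 / 2) * ((jet r s y t).x ^ 6)) * ((fD (jet r s y t)) ^ 12)) * (cb r s 0 0 1).x) + (((6 * ((jet r s y t).x ^ 7)) * ((fD (jet r s y t)) ^ 11)) * (dD (jet r s y t) (cb r s 0 0 1)))) := h205.add' h208 (by norm_num)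
  have h210 : In (-110146805331583824929203039/100000000000000000000000000) (-3442087666611988683311941/3125000000000000000000000) (((((((((((((((((1 - (1 / (fk (jet r s y t)))) * (dk (jet r s y t) (cb r s 0 0 1))) / 2) - ((dY (jet r s y t) (cb r s 0 0 1)) / 4)) + ((dT (jet r s y t) (cb r s 0 0 1)) / 3)) - ((((cb r s 0 0 1).x + (dU (jet r s y t) (cb r s 0 0 1))) * (fY (jet r s y t))) / 2)) - ((((jet r s y t).x * (1 + (fD (jet r s y t)))) * (dY (jet r s y t) (cb r s 0 0 1))) / 2)) + ((dQ (jet r s y t) (cb r s 0 0 1)) * (((fG (jet r s y t)) / 2) - (((2 * (fT (jet r s y t))) + ((fT (jet r s y t)) ^ 2)) / 4)))) + ((((jet r s y t).x ^ 2) * ((1 + (fD (jet r s y t))) ^ 3)) * (((dG (jet r s y t) (cb r s 0 0 1)) / 2) - (((1 + (fT (jet r s y t))) * (dT (jet r s y t) (cb r s 0 0 1))) / 2)))) + ((3 / 2) * (dU (jet r s y t) (cb r s 0 0 1)))) + (((((2 * (jet r s y t).x) * ((fD (jet r s y t)) ^ 3)) * (cb r s 0 0 1).x) + (((3 * ((jet r s y t).x ^ 2)) * ((fD (jet r s y t)) ^ 2)) * (dD (jet r s y t) (cb r s 0 0 1)))) / (4 * (1 + ((jet r s y t).x * (fD (jet r s y t))))))) - (((((jet r s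 y t).x ^ 2) * ((fD (jet r s y t)) ^ 3)) * (dU (jet r s y t) (cb r s 0 0 1))) / (4 * ((1 + ((jet r s y t).x * (fD (jet r s y t)))) ^ 2)))) - (((cb r s 0 0 1).x / 2) * (Real.log (1 + fD (jet r s y t))))) - (((jet r s y t).x * (dD (jet r s y t) (cb r s 0 0 1))) / (2 * (1 + (fD (jet r s y t)))))) + (((cb r s 0 0 1).x + (dU (jet r s y t) (cb r s 0 0 1))) * (Real.log ((1 + 1) / (1 + fD (jet r s y t)))))) - ((jet r s y t).x * (dD (jet r s y t) (cb r s 0 0 1)))) + (((((7 / 2) * ((jet r s y t).x ^ 6)) * ((fD (jet r s y t)) ^ 12)) * (cb r s 0 0 1).x) + (((6 * ((jet r s y t).x ^ 7)) * ((fD (jet r s y t)) ^ 11)) * (dD (jet r s y t) (cb r s 0 0 1))))) := h202.add' h209 (by norm_num)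
  have h211 : In (16273059032053586529/20000000000000000000000000) (81365295160267932647/100000000000000000000000000) ((5 / 12) * ((jet r s y t).x ^ 4)) := (In.const (c := (5 / 12)) (le_refl _) (le_refl _)).mul' h.px4 (by norm_num)
  have h212 : In (89813224220294082021/50000000000000000000000000) (179626448440588164073/100000000000000000000000000) (((5 / 12) * ((jet r s y t).x ^ 4)) * ((fD (jet r s y t)) ^ 9)) := h211.mul' h.pP9 (by norm_num)
  have h213 : In (0) (0) ((((5 / 12) * ((jet r s y t).x ^ 4)) * ((fD (jet r s y t)) ^ 9)) * (cb r s 0 0 1).x) := h212.mul' h19 (by norm_num)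
  have h214 : In (2737438211056109489/50000000000000000000000000) (273743821105610949/5000000000000000000000000) ((3 / 4) * ((jet r s y t).x ^ 5)) := (In.const (c := (3 / 4)) (le_refl _) (le_refl _)).mul' h.px5 (by norm_num)
  have h215 : In (442742106187899333/4000000000000000000000000) (2767138163674370833/25000000000000000000000000) (((3 / 4) * ((jet r s y t).x ^ 5)) * ((fD (jet r s y t)) ^ 8)) := h214.mul' h.pP8 (by norm_num)
  have h216 : In (2637163739980827044577/100000000000000000000000000) (2637163739980827046261/100000000000000000000000000) ((((3 / 4) * ((jet r s y t).x ^ 5)) * ((fD (jet r s y t)) ^ 8)) * (dD (jet r s y t) (cb r s 0 0 1))) := h215.mul' h54 (by norm_num)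
  have h217 : In (2637163739980827044577/100000000000000000000000000) (2637163739980827046261/100000000000000000000000000) (((((5 / 12) * ((jet r s y t).x ^ 4)) * ((fD (jet r s y t)) ^ 9)) * (cb r s 0 0 1).x) + ((((3 / 4) * ((jet r s y t).x ^ 5)) * ((fD (jet r s y t)) ^ 8)) * (dD (jet r s y t) (cb r s 0 0 1)))) := h213.add' h216 (by norm_num)
  have h218 : In (-1101494424953238057562493/1000000000000000000000000) (-110149442495323618693026689/100000000000000000000000000) ((((((((((((((((((1 - (1 / (fk (jet r s y t)))) * (dk (jet r s y t) (cb r s 0 0 1))) / 2) - ((dY (jet r s y t) (cb r s 0 0 1)) / 4)) + ((dT (jet r s y t) (cb r s 0 0 1)) / 3)) - ((((cb r s 0 0 1).x + (dU (jet r s y t) (cb r s 0 0 1))) * (fY (jet r s y t))) / 2)) - ((((jet r s y t).x * (1 + (fD (jet r s y t)))) * (dY (jet r s y t) (cb r s 0 0 1))) / 2)) + ((dQ (jet r s y t) (cb r s 0 0 1)) * (((fG (jet r s y t)) / 2) - (((2 * (fT (jet r s y t))) + ((fT (jet r s y t)) ^ 2)) / 4)))) + ((((jet r s y t).x ^ 2) * ((1 + (fD (jet r s y t))) ^ 3)) * (((dG (jet r s y t) (cb r s 0 0 1)) / 2) - (((1 + (fT (jet r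 s y t))) * (dT (jet r s y t) (cb r s 0 0 1))) / 2)))) + ((3 / 2) * (dU (jet r s y t) (cb r s 0 0 1)))) + (((((2 * (jet r s y t).x) * ((fD (jet r s y t)) ^ 3)) * (cb r s 0 0 1).x) + (((3 * ((jet r s y t).x ^ 2)) * ((fD (jet r s y t)) ^ 2)) * (dD (jet r s y t) (cb r s 0 0 1)))) / (4 * (1 + ((jet r s y t).x * (fD (jet r s y t))))))) - (((((jet r s y t).x ^ 2) * ((fD (jet r s y t)) ^ 3)) * (dU (jet r s y t) (cb r s 0 0 1))) / (4 * ((1 + ((jet r s y t).x * (fD (jet r s y t)))) ^ 2)))) - (((cb r s 0 0 1).x / 2) * (Real.log (1 + fD (jet r s y t))))) - (((jet r s y t).x * (dD (jet r s y t) (cb r s 0 0 1))) / (2 * (1 + (fD (jet r s y t)))))) + (((cb r s 0 0 1).x + (dU (jet r s y t) (cb r s 0 0 1))) * (Real.log ((1 + 1) / (1 + fD (jet r s y t)))))) - ((jet r s y t).x * (dD (jet r s y t) (cb r s 0 0 1)))) + (((((7 / 2) * ((jet r s y t).x ^ 6)) * ((fD (jet r s y t)) ^ 12)) * (cb r s 0 0 1).x) + (((6 * ((jet r s y t).x ^ 7)) * ((fD (jet r s y t)) ^ 11)) * (dD (jet r s y t) (cb r s 0 0 1))))) - (((((5 / 12) * ((jet r s y t).x ^ 4)) * ((fD (jet r s y t)) ^ 9)) * (cb r s 0 0 1).x) +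 ((((3 / 4) * ((jet r s y t).x ^ 5)) * ((fD (jet r s y t)) ^ 8)) * (dD (jet r s y t) (cb r s 0 0 1))))) := h210.sub' h217 (by norm_num)
  have h219 : In (-1101494424953238057562493/1000000000000000000000000) (-110149442495323618693026689/100000000000000000000000000) (dJ (jet r s y t) (cb r s 0 0 1)) := In.congr h218 (by unfold dJ; with_reducible rfl)
  exact ⟨h114, h142, h219⟩

end K5X
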