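import Pool.Agent.Lib.K5X.NumG
import Pool.Agent.Lib.K5X.Fun

/-!
# K5X.NumX: the differentials at the critical point in one direction

Generated file.
-/

set_option autoImplicit false

namespace K5X

open K5N K5C K5L K5S

theorem num_x {r s y t : ℝ} (h : NB r s y t) (k : NG r s y t) :
    In (40998043001955515706025949/12500000000000000000000000) (327984344015644127324440013/100000000000000000000000000) (dM (jet r s y t) (cb r s 1 0 0)) ∧
    In (449869799305160131315680677/25000000000000000000000000) (224934899652580065684383511/12500000000000000000000000) (dNet (jet r s y t) (cb r s 1 0 0)) ∧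
    In (64654273995381380682229833/100000000000000000000000000) (64654273995381475231367119/100000000000000000000000000) (dJ (jet r s y t) (cb r s 1 0 0)) := by
  have h1 : In (150590228048589430238873/500000000000000000000000) (75295114024294715119437/250000000000000000000000) (2 * r) := (In.const (c := 2) (le_refl _) (le_refl _)).mul' h.hr (by norm_num)
  have h2 : In (507468953313812971048161/250000000000000000000000) (2029875813255251884192647/1000000000000000000000000) (s + (2 * r)) := h.hs.add' h1 (by norm_num)
  have h3 : In (350903689398182159563632067/100000000000000000000000000) (350903689398182159563632789/100000000000000000000000000) (s * (s + (2 * r))) := h.hs.mul' h2 (by norm_num)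
  have h4 : In (7470969094649694133376943/2500000000000000000000000) (298838763785987765335078067/100000000000000000000000000) (s ^ 2) := h.hs.pow' 2 (by norm_num)
  have h5 : In (451770684145768290716619/500000000000000000000000) (225885342072884145358311/250000000000000000000000) (6 * r) := (In.const (c := 6) (le_refl _) (le_refl _)).mul' h.hr (by norm_num)
  have h6 : In (78097388418291591342831519/50000000000000000000000000) (156194776836583182685664167/100000000000000000000000000) ((6 * r) * s) := h5.mul' h.hs (by norm_num)
  have h7 : In (227516770311285474010370379/50000000000000000000000000) (227516770311285474010371117/50000000000000000000000000) ((s ^ 2) + ((6 * r) * s)) := h4.add' h6 (by norm_num)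
  have h8 : In (2267741678372617075848489/100000000000000000000000000) (56693541959315426896213/2500000000000000000000000) (r ^ 2) := h.hr.pow' 2 (by norm_num)
  have h9 : In (6803225035117851227545467/100000000000000000000000000) (170080625877946280688639/2500000000000000000000000) (3 * (r ^ 2)) := (In.const (c := 3) (le_refl _) (le_refl _)).mul' h8 (by norm_num)
  have h10 : In (18473470626307551969931449/4000000000000000000000000) (230918382828844399624143897/50000000000000000000000000) (((s ^ 2) + ((6 * r) * s)) + (3 * (r ^ 2))) := h7.add' h9 (by norm_num)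
  have h11 : In (798375072557347612621637119/100000000000000000000000000) (399187536278673806310820147/50000000000000000000000000) (s * (((s ^ 2) + ((6 * r) * s)) + (3 * (r ^ 2)))) := h.hs.mul' h10 (by norm_num)
  have h12 : In (1) (1) ((cb r s 1 0 0).x) := In.congr (In.const (c := 1) (le_refl _) (le_refl _)) (by first | rfl | (simp only [cb, a1, a2, a3]; ring))
  have h13 : In (0) (0) ((cb r s 1 0 0).y) := In.congr (In.const (c := 0) (le_refl _) (le_refl _)) (by first | rfl | (simp only [cb, a1, a2, a3]; ring))
  have h14 : In (0) (0) ((cb r s 1 0 0).t) := In.congr (In.const (c := 0) (le_refl _) (le_refl _)) (by first | rfl | (simp only [cb, a1, a2, a3]; ring))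
  have h15 : In (864347678579036511857449/500000000000000000000000) (1728695357158073023714899/1000000000000000000000000) ((cb r s 1 0 0).u) := In.congr h.hs (by first | rfl | (simp only [cb, a1, a2, a3]; ring))
  have h16 : In (350903689398182159563632067/100000000000000000000000000) (350903689398182159563632789/100000000000000000000000000) ((cb r s 1 0 0).v) := In.congr h3 (by first | rfl | (simp only [cb, a1, a2, a3]; ring))
  have h17 : In (798375072557347612621637119/100000000000000000000000000) (399187536278673806310820147/50000000000000000000000000) ((cb r s 1 0 0).w) := In.congr h11 (by first | rfl | (simp only [cb, a1, a2, a3]; ring))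
  have h18 : In (75364645220539487348662009/50000000000000000000000000) (15072929044107897469735299/10000000000000000000000000) ((fk (jet r s y t)) * (cb r s 1 0 0).x) := h.hk.mul' h12 (by norm_num)
  have h19 : In (2214024527472832767413681/10000000000000000000000000) (11070122637364163837082941/50000000000000000000000000) ((cb r s 1 0 0).u - ((fk (jet r s y t)) * (cb r s 1 0 0).x)) := h15.sub' h18 (by norm_num)
  have h20 : In (296135055392464165219205929/50000000000000000000000000) (592270110784928330439255153/100000000000000000000000000) (((cb r s 1 0 0).u - ((fk (jet r s y t)) * (cb r s 1 0 0).x)) / (jet r s y t).x) := h19.div' h.hbx (by norm_num)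
  have h21 : In (296135055392464165219205929/50000000000000000000000000) (592270110784928330439255153/100000000000000000000000000) (dk (jet r s y t) (cb r s 1 0 0)) := In.congr h20 (by unfold dk; with_reducible rfl)
  have h22 : In (0) (0) ((cb r s 1 0 0).t * ((fk (jet r s y t)) ^ 3)) := h14.mul' h.pk3 (by norm_num)
  have h23 : In (1615436105212323349191/500000000000000000000000) (646174442084929339677/200000000000000000000000) (3 * (jet r s y t).t) := (In.const (c := 3) (le_refl _) (le_refl _)).mul' h.hbt (by norm_num)
  have h24 : In (146806432773527464132119/20000000000000000000000000) (734032163867637320661559/100000000000000000000000000) ((3 * (jet r s y t).t) * ((fk (jet r s y t)) ^ 2)) := h23.mul' h.pk2 (by norm_num)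
  have h25 : In (4347453110135862222204751/100000000000000000000000000) (1086863277533965555554163/25000000000000000000000000) (((3 * (jet r s y t).t) * ((fk (jet r s y t)) ^ 2)) * (dk (jet r s y t) (cb r s 1 0 0))) := h24.mul' h21 (by norm_num)
  have h26 : In (4347453110135862222204751/100000000000000000000000000) (1086863277533965555554163/25000000000000000000000000) (((cb r s 1 0 0).t * ((fk (jet r s y t)) ^ 3)) + (((3 * (jet r s y t).t) * ((fk (jet r s y t)) ^ 2)) * (dk (jet r s y t) (cb r s 1 0 0)))) := h22.add' h25 (by norm_num)
  have h27 : In (4347453110135862222204751/100000000000000000000000000) (1086863277533965555554163/25000000000000000000000000) (dT (jet r s y t) (cb r s 1 0 0)) := In.congr h26 (by unfold dT; with_reducible rfl)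
  have h28 : In (0) (0) ((cb r s 1 0 0).y * ((fk (jet r s y t)) ^ 2)) := h13.mul' h.pk2 (by norm_num)
  have h29 : In (205212204790913531001689/500000000000000000000000) (20521220479091353100169/50000000000000000000000) (2 * (jet r s y t).y) := (In.const (c := 2) (le_refl _) (le_refl _)).mul' h.hby (by norm_num)
  have h30 : In (61862980035967567727661991/100000000000000000000000000) (7732872504495945965959273/12500000000000000000000000) ((2 * (jet r s y t).y) * (fk (jet r s y t))) := h29.mul' h.hk (by norm_num)
  have h31 : In (366395940393883209300716443/100000000000000000000000000) (366395940393883209301310347/100000000000000000000000000) (((2 * (jet r s y t).y) * (fk (jet r s y t))) * (dk (jet r s y t) (cb r s 1 0 0))) := h30.mul' h21 (by norm_num)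
  have h32 : In (366395940393883209300716443/100000000000000000000000000) (366395940393883209301310347/100000000000000000000000000) (((cb r s 1 0 0).y * ((fk (jet r s y t)) ^ 2)) + (((2 * (jet r s y t).y) * (fk (jet r s y t))) * (dk (jet r s y t) (cb r s 1 0 0)))) := h28.add' h31 (by norm_num)
  have h33 : In (4347453110135862222204751/50000000000000000000000000) (1086863277533965555554163/12500000000000000000000000) (2 * (dT (jet r s y t) (cb r s 1 0 0))) := (In.const (c := 2) (le_refl _) (le_refl _)).mul' h27 (by norm_num)
  have h34 : In (75018169322830986749025189/20000000000000000000000000) (375090846614154933745743651/100000000000000000000000000) ((((cb r s 1 0 0).y * ((fk (jet r s y t)) ^ 2)) + (((2 * (jet r s y t).y) * (fk (jet r s y t))) * (dk (jet r s y t) (cb r s 1 0 0)))) + (2 * (dT (jet r s y t) (cb r s 1 0 0)))) := h32.add' h33 (by norm_num)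
  have h35 : In (75018169322830986749025189/20000000000000000000000000) (375090846614154933745743651/100000000000000000000000000) (dY (jet r s y t) (cb r s 1 0 0)) := In.congr h34 (by unfold dY; with_reducible rfl)
  have h36 : In (77225837941381055986500803/50000000000000000000000000) (1544516758827621119730613/1000000000000000000000000) ((cb r s 1 0 0).v / ((fk (jet r s y t)) ^ 2)) := h16.div' h.pk2 (by norm_num)
  have h37 : In (1144638179624625974571249/6250000000000000000000000) (572319089812312987285687/3125000000000000000000000) (2 * (jet r s y t).v) := (In.const (c := 2) (le_refl _) (le_refl _)).mul' h.hbv (by norm_num)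
  have h38 : In (1069609476397629727974481/20000000000000000000000000) (2674023690994074319938037/50000000000000000000000000) ((2 * (jet r s y t).v) / ((fk (jet r s y t)) ^ 3)) := h37.div' h.pk3 (by norm_num)
  have h39 : In (15837443077065833581415283/50000000000000000000000000) (31674886154131667162897397/100000000000000000000000000) (((2 * (jet r s y t).v) / ((fk (jet r s y t)) ^ 3)) * (dk (jet r s y t) (cb r s 1 0 0))) := h38.mul' h21 (by norm_num)
  have h40 : In (122776789728630444810104209/100000000000000000000000000) (61388394864315222405115367/50000000000000000000000000) (((cb r s 1 0 0).v / ((fk (jet r s y t)) ^ 2)) - (((2 * (jet r s y t).v) / ((fk (jet r s y t)) ^ 3)) * (dk (jet r s y t) (cb r s 1 0 0)))) := h36.sub' h39 (by norm_num)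
  have h41 : In (22776789728630444810104209/100000000000000000000000000) (11388394864315222405115367/50000000000000000000000000) ((((cb r s 1 0 0).v / ((fk (jet r s y t)) ^ 2)) - (((2 * (jet r s y t).v) / ((fk (jet r s y t)) ^ 3)) * (dk (jet r s y t) (cb r s 1 0 0)))) - (cb r s 1 0 0).x) := h40.sub' h12 (by norm_num)
  have h42 : In (16299237556671065029123357291/100000000000000000000000000) (8149618778335532514608815971/50000000000000000000000000) (((((cb r s 1 0 0).v / ((fk (jet r s y t)) ^ 2)) - (((2 * (jet r s y t).v) / ((fk (jet r s y t)) ^ 3)) * (dk (jet r s y t) (cb r s 1 0 0)))) - (cb r s 1 0 0).x) / ((jet r s y t).x ^ 2)) := h41.div' h.px2 (by norm_num)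
  have h43 : In (209197969862749128744886001/50000000000000000000000000) (52299492465687282186663557/12500000000000000000000000) (2 * ((fD (jet r s y t)) + 1)) := (In.const (c := 2) (le_refl _) (le_refl _)).mul' h.pDp (by norm_num)
  have h44 : In (209197969862749128744886001/50000000000000000000000000) (52299492465687282186663557/12500000000000000000000000) ((2 * ((fD (jet r s y t)) + 1)) * (cb r s 1 0 0).x) := h43.mul' h12 (by norm_num)
  have h45 : In (11192441930895714791519014323/100000000000000000000000000) (11192441930895714791614856977/100000000000000000000000000) (((2 * ((fD (jet r s y t)) + 1)) * (cb r s 1 0 0).x) / (jet r s y t).x) := h44.div' h.hbx (by norm_num)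
  have h46 : In (2553397812887675118754250157/50000000000000000000000000) (5106795625775350237698617619/100000000000000000000000000) ((((((cb r s 1 0 0).v / ((fk (jet r s y t)) ^ 2)) - (((2 * (jet r s y t).v) / ((fk (jet r s y t)) ^ 3)) * (dk (jet r s y t) (cb r s 1 0 0)))) - (cb r s 1 0 0).x) / ((jet r s y t).x ^ 2)) - (((2 * ((fD (jet r s y t)) + 1)) * (cb r s 1 0 0).x) / (jet r s y t).x)) := h42.sub' h45 (by norm_num)
  have h47 : In (2553397812887675118754250157/50000000000000000000000000) (5106795625775350237698617619/100000000000000000000000000) (dD (jet r s y t) (cb r s 1 0 0)) := In.congr h46 (by unfold dD; with_reducible rfl)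
  have h48 : In (116569251768797677263853839/50000000000000000000000000) (233138503537595354527843043/100000000000000000000000000) ((cb r s 1 0 0).w / ((fk (jet r s y t)) ^ 3)) := h17.div' h.pk3 (by norm_num)
  have h49 : In (47948640377437273992355533/100000000000000000000000000) (47948640377437273992362583/100000000000000000000000000) (3 * (jet r s y t).w) := (In.const (c := 3) (le_refl _) (le_refl _)).mul' h.hbw (by norm_num)
  have h50 : In (9289357523349074404135727/100000000000000000000000000) (2322339380837268601036059/25000000000000000000000000) ((3 * (jet r s y t).w) / ((fk (jet r s y t)) ^ 4)) := h49.div' h.pk4 (by norm_num)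
  have h51 : In (55018088094747637573835409/100000000000000000000000000) (55018088094747637573964143/100000000000000000000000000) (((3 * (jet r s y t).w) / ((fk (jet r s y t)) ^ 4)) * (dk (jet r s y t) (cb r s 1 0 0))) := h50.mul' h21 (by norm_num)
  have h52 : In (35624083088569543390748707/20000000000000000000000000) (89060207721423858477003817/50000000000000000000000000) (((cb r s 1 0 0).w / ((fk (jet r s y t)) ^ 3)) - (((3 * (jet r s y t).w) / ((fk (jet r s y t)) ^ 4)) * (dk (jet r s y t) (cb r s 1 0 0)))) := h48.sub' h51 (by norm_num)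
  have h53 : In (10480608210708084143319/2500000000000000000000000) (52403041053540420716607/12500000000000000000000000) (3 * ((jet r s y t).x ^ 2)) := (In.const (c := 3) (le_refl _) (le_refl _)).mul' h.px2 (by norm_num)
  have h54 : In (21408929666363705728255757/100000000000000000000000000) (21408929666363705729057679/100000000000000000000000000) ((3 * ((jet r s y t).x ^ 2)) * (dD (jet r s y t) (cb r s 1 0 0))) := h53.mul' h47 (by norm_num)
  have h55 : In (4897233930515125350771433/3125000000000000000000000) (156711485776484011225751877/100000000000000000000000000) ((((cb r s 1 0 0).w / ((fk (jet r s y t)) ^ 3)) - (((3 * (jet r s y t).w) / ((fk (jet r s y t)) ^ 4)) * (dk (jet r s y t) (cb r s 1 0 0)))) - ((3 * ((jet r s y t).x ^ 2)) * (dD (jet r s y t) (cb r s 1 0 0)))) := h52.sub' h54 (by norm_num)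
  have h56 : In (5607301011371179494435327/25000000000000000000000000) (1401825252842794873608987/6250000000000000000000000) (6 * (jet r s y t).x) := (In.const (c := 6) (le_refl _) (le_refl _)).mul' h.hbx (by norm_num)
  have h57 : In (46921439519527628701644817/100000000000000000000000000) (46921439519527628702046613/100000000000000000000000000) ((6 * (jet r s y t).x) * (1 + (fD (jet r s y t)))) := h56.mul' h.pD1 (by norm_num)
  have h58 : In (46921439519527628701644817/100000000000000000000000000) (46921439519527628702046613/100000000000000000000000000) (((6 * (jet r s y t).x) * (1 + (fD (jet r s y t)))) * (cb r s 1 0 0).x) := h57.mul' h12 (by norm_num)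
  have h59 : In (109790046256956382522639243/100000000000000000000000000) (5489502312847819126205353/5000000000000000000000000) (((((cb r s 1 0 0).w / ((fk (jet r s y t)) ^ 3)) - (((3 * (jet r s y t).w) / ((fk (jet r s y t)) ^ 4)) * (dk (jet r s y t) (cb r s 1 0 0)))) - ((3 * ((jet r s y t).x ^ 2)) * (dD (jet r s y t) (cb r s 1 0 0)))) - (((6 * (jet r s y t).x) * (1 + (fD (jet r s y t)))) * (cb r s 1 0 0).x)) := h55.sub' h58 (by norm_num)
  have h60 : In (9790046256956382522639243/100000000000000000000000000) (489502312847819126205353/5000000000000000000000000) ((((((cb r s 1 0 0).w / ((fk (jet r s y t)) ^ 3)) - (((3 * (jet r s y t).w) / ((fk (jet r s y t)) ^ 4)) * (dk (jet r s y t) (cb r s 1 0 0)))) - ((3 * ((jet r s y t).x ^ 2)) * (dD (jet r s y t) (cb r s 1 0 0)))) - (((6 * (jet r s y t).x) * (1 + (fD (jet r s y t)))) * (cb r s 1 0 0).x)) - (cb r s 1 0 0).x) := h59.sub' h12 (by norm_num)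
  have h61 : In (37482358056324323306575411091/20000000000000000000000000) (187411790281621616561083245693/100000000000000000000000000) (((((((cb r s 1 0 0).w / ((fk (jet r s y t)) ^ 3)) - (((3 * (jet r s y t).w) / ((fk (jet r s y t)) ^ 4)) * (dk (jet r s y t) (cb r s 1 0 0)))) - ((3 * ((jet r s y t).x ^ 2)) * (dD (jet r s y t) (cb r s 1 0 0)))) - (((6 * (jet r s y t).x) * (1 + (fD (jet r s y t)))) * (cb r s 1 0 0).x)) - (cb r s 1 0 0).x) / ((jet r s y t).x ^ 3)) := h60.div' h.px3 (by norm_num)
  have h62 : In (373659598753235470248939531/12500000000000000000000000) (747319197506470940662082211/25000000000000000000000000) (3 * (fN (jet r s y t))) := (In.const (c := 3) (le_refl _) (le_refl _)).mul' h.hN (by norm_num)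
  have h63 : In (373659598753235470248939531/12500000000000000000000000) (747319197506470940662082211/25000000000000000000000000) ((3 * (fN (jet r s y t))) * (cb r s 1 0 0).x) := h62.mul' h12 (by norm_num)
  have h64 : In (79965658628737552458939149623/100000000000000000000000000) (9995707328592194059564786617/12500000000000000000000000) (((3 * (fN (jet r s y t))) * (cb r s 1 0 0).x) / (jet r s y t).x) := h63.div' h.hbx (by norm_num)
  have h65 : In (107446131652884064056358762519/100000000000000000000000000) (10744613165288406410214409607/10000000000000000000000000) ((((((((cb r s 1 0 0).w / ((fk (jet r s y t)) ^ 3)) - (((3 * (jet r s y t).w) / ((fk (jet r s y t)) ^ 4)) * (dk (jet r s y t) (cb r s 1 0 0)))) - ((3 * ((jet r s y t).x ^ 2)) * (dD (jet r s y t) (cb r s 1 0 0)))) - (((6 * (jet r s y t).x) * (1 + (fD (jet r s y t)))) * (cb r s 1 0 0).x)) - (cb r s 1 0 0).x) / ((jet r s y t).x ^ 3)) - (((3 * (fN (jet r s y t))) * (cb r s 1 0 0).x) / (jet r s y t).x)) := h61.sub' h64 (by norm_num)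
  have h66 : In (107446131652884064056358762519/100000000000000000000000000) (10744613165288406410214409607/10000000000000000000000000) (dN (jet r s y t) (cb r s 1 0 0)) := In.congr h65 (by unfold dN; with_reducible rfl)
  have h67 : In (11735953697237641162002037789/100000000000000000000000000) (11735953697237641167300596041/100000000000000000000000000) ((dN (jet r s y t) (cb r s 1 0 0)) / ((1 + (fD (jet r s y t))) ^ 3)) := h66.div' h.pD13 (by norm_num)
  have h68 : In (152656256355359633016220328597/100000000000000000000000000) (19082032044419954131930692249/12500000000000000000000000) ((3 * (fN (jet r s y t))) * (dD (jet r s y t) (cb r s 1 0 0))) := h62.mul' h47 (by norm_num)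
  have h69 : In (7970484933783911051708422907/100000000000000000000000000) (7970484933783911054025927863/100000000000000000000000000) (((3 * (fN (jet r s y t))) * (dD (jet r s y t) (cb r s 1 0 0))) / ((1 + (fD (jet r s y t))) ^ 4)) := h68.div' h.pD14 (by norm_num)
  have h70 : In (1882734381726865053988054963/50000000000000000000000000) (1882734381726865057796086567/50000000000000000000000000) (((dN (jet r s y t) (cb r s 1 0 0)) / ((1 + (fD (jet r s y t))) ^ 3)) - (((3 * (fN (jet r s y t))) * (dD (jet r s y t) (cb r s 1 0 0))) / ((1 + (fD (jet r s y t))) ^ 4))) := h67.sub' h69 (by norm_num)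
  have h71 : In (1880560655171797122876946637/50000000000000000000000000) (3761121310343594253369968383/100000000000000000000000000) ((((dN (jet r s y t) (cb r s 1 0 0)) / ((1 + (fD (jet r s y t))) ^ 3)) - (((3 * (fN (jet r s y t))) * (dD (jet r s y t) (cb r s 1 0 0))) / ((1 + (fD (jet r s y t))) ^ 4))) - (dT (jet r s y t) (cb r s 1 0 0))) := h70.sub' h27 (by norm_num)
  have h72 : In (1880560655171797122876946637/50000000000000000000000000) (3761121310343594253369968383/100000000000000000000000000) (dA (jet r s y t) (cb r s 1 0 0)) := In.congr h71 (by unfold dA; with_reducible rfl)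
  have h73 : In (59620983110729334876291/50000000000000000000000) (119241966221458669756443737/100000000000000000000000000) ((cb r s 1 0 0).x * ((fD (jet r s y t)) ^ 2)) := h12.mul' h.pP2 (by norm_num)
  have h74 : In (1869100337123726498145109/25000000000000000000000000) (467275084280931624536329/6250000000000000000000000) (2 * (jet r s y t).x) := (In.const (c := 2) (le_refl _) (le_refl _)).mul' h.hbx (by norm_num)
  have h75 : In (2041019622836909226991959/25000000000000000000000000) (8164078491347636908100941/100000000000000000000000000) ((2 * (jet r s y t).x) * (fD (jet r s y t))) := h74.mul' h.hD (by norm_num)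
  have h76 : In (416922803281007327130031017/100000000000000000000000000) (26057675205062957947021859/6250000000000000000000000) (((2 * (jet r s y t).x) * (fD (jet r s y t))) * (dD (jet r s y t) (cb r s 1 0 0))) := h75.mul' h47 (by norm_num)
  have h77 : In (536164769502465996882613017/100000000000000000000000000) (536164769502465996908793481/100000000000000000000000000) (((cb r s 1 0 0).x * ((fD (jet r s y t)) ^ 2)) + (((2 * (jet r s y t).x) * (fD (jet r s y t))) * (dD (jet r s y t) (cb r s 1 0 0)))) := h73.add' h76 (by norm_num)
  have h78 : In (128784171935013212475090613/25000000000000000000000000) (257568343870026424962922763/50000000000000000000000000) ((((cb r s 1 0 0).x * ((fD (jet r s y t)) ^ 2)) + (((2 * (jet r s y t).x) * (fD (jet r s y t))) * (dD (jet r s y t) (cb r s 1 0 0)))) / (1 + ((jet r s y t).x * (fD (jet r s y t))))) := h77.div' h.pxD1 (by norm_num)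
  have h79 : In (109197969862749128744886001/100000000000000000000000000) (27299492465687282186663557/25000000000000000000000000) ((cb r s 1 0 0).x * (fD (jet r s y t))) := h12.mul' h.hD (by norm_num)
  have h80 : In (47725567128793394773700563/25000000000000000000000000) (190902268515173579101930361/100000000000000000000000000) ((jet r s y t).x * (dD (jet r s y t) (cb r s 1 0 0))) := h.hbx.mul' h47 (by norm_num)
  have h81 : In (300100238377922707839688253/100000000000000000000000000) (300100238377922707848584589/100000000000000000000000000) (((cb r s 1 0 0).x * (fD (jet r s y t))) + ((jet r s y t).x * (dD (jet r s y t) (cb r s 1 0 0)))) := h79.add' h80 (by norm_num)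
  have h82 : In (12852342423792548152137689/100000000000000000000000000) (12852342423792548152944573/100000000000000000000000000) ((fS (jet r s y t)) * (((cb r s 1 0 0).x * (fD (jet r s y t))) + ((jet r s y t).x * (dD (jet r s y t) (cb r s 1 0 0))))) := h.hS.mul' h81 (by norm_num)
  have h83 : In (1234828075712088548024321/10000000000000000000000000) (2469656151424177096205269/20000000000000000000000000) (((fS (jet r s y t)) * (((cb r s 1 0 0).x * (fD (jet r s y t))) + ((jet r s y t).x * (dD (jet r s y t) (cb r s 1 0 0))))) / (1 + ((jet r s y t).x * (fD (jet r s y t))))) := h82.div' h.pxD1 (by norm_num)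
  have h84 : In (502788406982931964419336107/100000000000000000000000000) (125697101745732991111400579/25000000000000000000000000) (((((cb r s 1 0 0).x * ((fD (jet r s y t)) ^ 2)) + (((2 * (jet r s y t).x) * (fD (jet r s y t))) * (dD (jet r s y t) (cb r s 1 0 0)))) / (1 + ((jet r s y t).x * (fD (jet r s y t))))) - (((fS (jet r s y t)) * (((cb r s 1 0 0).x * (fD (jet r s y t))) + ((jet r s y t).x * (dD (jet r s y t) (cb r s 1 0 0))))) / (1 + ((jet r s y t).x * (fD (jet r s y t)))))) := h78.sub' h83 (by norm_num)
  have h85 : In (502788406982931964419336107/100000000000000000000000000) (125697101745732991111400579/25000000000000000000000000) (dS (jet r s y t) (cb r s 1 0 0)) := In.congr h84 (by unfold dS; with_reducible rfl)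
  have h86 : In (218818952973478463621177001/50000000000000000000000000) (437637905946956927249752193/100000000000000000000000000) ((cb r s 1 0 0).x * ((1 + (fD (jet r s y t))) ^ 2)) := h12.mul' h.pD12 (by norm_num)
  have h87 : In (977529989990158931284267/6250000000000000000000000) (3128095967968508580136441/20000000000000000000000000) ((2 * (jet r s y t).x) * (1 + (fD (jet r s y t)))) := h74.mul' h.pD1 (by norm_num)
  have h88 : In (798727340311354485319635521/100000000000000000000000000) (159745468062270897071242093/20000000000000000000000000) (((2 * (jet r s y t).x) * (1 + (fD (jet r s y t)))) * (dD (jet r s y t) (cb r s 1 0 0))) := h87.mul' h47 (by norm_num)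
  have h89 : In (1236365246258311412561989523/100000000000000000000000000) (618182623129155706302981329/50000000000000000000000000) (((cb r s 1 0 0).x * ((1 + (fD (jet r s y t))) ^ 2)) + (((2 * (jet r s y t).x) * (1 + (fD (jet r s y t)))) * (dD (jet r s y t) (cb r s 1 0 0)))) := h86.add' h88 (by norm_num)
  have h90 : In (1236365246258311412561989523/100000000000000000000000000) (618182623129155706302981329/50000000000000000000000000) (dP (jet r s y t) (cb r s 1 0 0)) := In.congr h89 (by unfold dP; with_reducible rfl)
  have h91 : In (1166899748943207337314813127/100000000000000000000000000) (1166899748943207337377981051/100000000000000000000000000) ((dD (jet r s y t) (cb r s 1 0 0)) / ((1 + (fD (jet r s y t))) ^ 2)) := h47.div' h.pD12 (by norm_num)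
  have h92 : In (197952225582263100892267369/25000000000000000000000000) (395904451164526201816427553/50000000000000000000000000) (((dD (jet r s y t) (cb r s 1 0 0)) / ((1 + (fD (jet r s y t))) ^ 2)) - (dY (jet r s y t) (cb r s 1 0 0))) := h91.sub' h35 (by norm_num)
  have h93 : In (7225512383653010978086679/2500000000000000000000000) (289020495346120439213518999/100000000000000000000000000) ((((dD (jet r s y t) (cb r s 1 0 0)) / ((1 + (fD (jet r s y t))) ^ 2)) - (dY (jet r s y t) (cb r s 1 0 0))) - (dS (jet r s y t) (cb r s 1 0 0))) := h92.sub' h85 (by norm_num)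
  have h94 : In (184400245367831302590449/25000000000000000000000000) (184400245367831302590727/25000000000000000000000000) (2 * (fT (jet r s y t))) := (In.const (c := 2) (le_refl _) (le_refl _)).mul' h.hT (by norm_num)
  have h95 : In (1360138019668655590719/100000000000000000000000000) (340034504917163897681/25000000000000000000000000) ((fT (jet r s y t)) ^ 2) := h.hT.pow' 2 (by norm_num)
  have h96 : In (9136258464748001164669799/100000000000000000000000000) (1827251692949600233001711/20000000000000000000000000) ((dP (jet r s y t) (cb r s 1 0 0)) * ((2 * (fT (jet r s y t))) + ((fT (jet r s y t)) ^ 2))) := h90.mul' h.pTT (by norm_num)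
  have h97 : In (55976847376274487591691721/20000000000000000000000000) (699710592203431095122123/250000000000000000000000) (((((dD (jet r s y t) (cb r s 1 0 0)) / ((1 + (fD (jet r s y t))) ^ 2)) - (dY (jet r s y t) (cb r s 1 0 0))) - (dS (jet r s y t) (cb r s 1 0 0))) - ((dP (jet r s y t) (cb r s 1 0 0)) * ((2 * (fT (jet r s y t))) + ((fT (jet r s y t)) ^ 2)))) := h93.sub' h96 (by norm_num)
  have h98 : In (50184400245367831302590449/25000000000000000000000000) (50184400245367831302590727/25000000000000000000000000) (2 + (2 * (fT (jet r s y t)))) := (In.const (c := 2) (le_refl _) (le_refl _)).add' h94 (by norm_num)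
  have h99 : In (436348653854054610855501/5000000000000000000000000) (218174326927027305428349/2500000000000000000000000) ((2 + (2 * (fT (jet r s y t)))) * (dT (jet r s y t) (cb r s 1 0 0))) := h98.mul' h27 (by norm_num)
  have h100 : In (356928467761352854487669/25000000000000000000000000) (1427713871045411417978887/100000000000000000000000000) (((jet r s y t).x * ((1 + (fD (jet r s y t))) ^ 2)) * ((2 + (2 * (fT (jet r s y t)))) * (dT (jet r s y t) (cb r s 1 0 0)))) := h.pxD12.mul' h99 (by norm_num)
  have h101 : In (139228261505163513270239859/50000000000000000000000000) (69614130752581756657724631/25000000000000000000000000) ((((((dD (jet r s y t) (cb r s 1 0 0)) / ((1 + (fD (jet r s y t))) ^ 2)) - (dY (jet r s y t) (cb r s 1 0 0))) - (dS (jet r s y t) (cb r s 1 0 0))) - ((dP (jet r s y t) (cb r s 1 0 0)) * ((2 * (fT (jet r s y t))) + ((fT (jet r s y t)) ^ 2)))) - (((jet r s y t).x * ((1 + (fD (jet r s y t))) ^ 2)) * ((2 + (2 * (fT (jet r s y t)))) * (dT (jet r s y t) (cb r s 1 0 0))))) := h97.sub' h100 (by norm_num)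
  have h102 : In (139228261505163513270239859/100000000000000000000000000) (69614130752581756657724631/50000000000000000000000000) (((((((dD (jet r s y t) (cb r s 1 0 0)) / ((1 + (fD (jet r s y t))) ^ 2)) - (dY (jet r s y t) (cb r s 1 0 0))) - (dS (jet r s y t) (cb r s 1 0 0))) - ((dP (jet r s y t) (cb r s 1 0 0)) * ((2 * (fT (jet r s y t))) + ((fT (jet r s y t)) ^ 2)))) - (((jet r s y t).x * ((1 + (fD (jet r s y t))) ^ 2)) * ((2 + (2 * (fT (jet r s y t)))) * (dT (jet r s y t) (cb r s 1 0 0))))) / 2) := h101.div' (In.const (c := 2) (le_refl _) (le_refl _)) (by norm_num)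
  have h103 : In (139228261505163513270239859/100000000000000000000000000) (69614130752581756657724631/50000000000000000000000000) (dK (jet r s y t) (cb r s 1 0 0)) := In.congr h102 (by unfold dK; with_reducible rfl)
  have h104 : In (4417988276685232480269031/50000000000000000000000000) (8835976553370464987212711/100000000000000000000000000) ((Real.exp (fA (jet r s y t))) - 1) := h.hE.sub' (In.const (c := 1) (le_refl _) (le_refl _)) (by norm_num)
  have h105 : In (83082949281444996967606061/25000000000000000000000000) (83082949281444997386661191/25000000000000000000000000) (((Real.exp (fA (jet r s y t))) - 1) * (dA (jet r s y t) (cb r s 1 0 0))) := h104.mul' h72 (by norm_num)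
  have h106 : In (40998043001955515706025949/12500000000000000000000000) (327984344015644127324440013/100000000000000000000000000) ((((Real.exp (fA (jet r s y t))) - 1) * (dA (jet r s y t) (cb r s 1 0 0))) - (dT (jet r s y t) (cb r s 1 0 0))) := h105.sub' h27 (by norm_num)
  have h107 : In (40998043001955515706025949/12500000000000000000000000) (327984344015644127324440013/100000000000000000000000000) (dM (jet r s y t) (cb r s 1 0 0)) := In.congr h106 (by unfold dM; with_reducible rfl)
  have h108 : In (0) (0) ((fM (jet r s y t)) * (dA (jet r s y t) (cb r s 1 0 0))) := h.hM.mul' h72 (by norm_num)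
  have h109 : In (92026627268923989124253/25000000000000000000000000) (73621301815139191531533/20000000000000000000000000) ((fA (jet r s y t)) * (dT (jet r s y t) (cb r s 1 0 0))) := h.hA.mul' h27 (by norm_num)
  have h110 : In (-73621301815139191531533/20000000000000000000000000) (-92026627268923989124253/25000000000000000000000000) (((fM (jet r s y t)) * (dA (jet r s y t) (cb r s 1 0 0))) - ((fA (jet r s y t)) * (dT (jet r s y t) (cb r s 1 0 0)))) := h108.sub' h109 (by norm_num)
  have h111 : In (-73621301815139191531533/20000000000000000000000000) (-92026627268923989124253/25000000000000000000000000) (dG (jet r s y t) (cb r s 1 0 0)) := In.congr h110 (by unfold dG; with_reducible rfl)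
  have h112 : In (-258299554316482755222621/100000000000000000000000000) (-5165991086329654521317/2000000000000000000000000) ((dP (jet r s y t) (cb r s 1 0 0)) * (fG (jet r s y t))) := h90.mulN' h.hG (by norm_num)
  have h113 : In (69484980975423515257508619/50000000000000000000000000) (34742490487711757647345853/25000000000000000000000000) ((dK (jet r s y t) (cb r s 1 0 0)) + ((dP (jet r s y t) (cb r s 1 0 0)) * (fG (jet r s y t)))) := h103.add' h112 (by norm_num)
  have h114 : In (-481771413192218108423/800000000000000000000000) (-60221426649027263361969/100000000000000000000000000) (((jet r s y t).x * ((1 + (fD (jet r s y t))) ^ 2)) * (dG (jet r s y t) (cb r s 1 0 0))) := h.pxD12.mulN' h111 (by norm_num)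
  have h115 : In (138909740524198003251464363/100000000000000000000000000) (138909740524198003326021443/100000000000000000000000000) (((dK (jet r s y t) (cb r s 1 0 0)) + ((dP (jet r s y t) (cb r s 1 0 0)) * (fG (jet r s y t)))) + (((jet r s y t).x * ((1 + (fD (jet r s y t))) ^ 2)) * (dG (jet r s y t) (cb r s 1 0 0)))) := h113.add' h114 (by norm_num)
  have h116 : In (32849258532673313871/50000000000000000000000000) (65698517065346627751/100000000000000000000000000) (9 * ((jet r s y t).x ^ 5)) := (In.const (c := 9) (le_refl _) (le_refl _)).mul' h.px5 (by norm_num)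
  have h117 : In (172948091713556405809/100000000000000000000000000) (34589618342711281173/20000000000000000000000000) ((9 * ((jet r s y t).x ^ 5)) * ((fD (jet r s y t)) ^ 11)) := h116.mul' h.pP11 (by norm_num)
  have h118 : In (172948091713556405809/100000000000000000000000000) (34589618342711281173/20000000000000000000000000) (((9 * ((jet r s y t).x ^ 5)) * ((fD (jet r s y t)) ^ 11)) * (cb r s 1 0 0).x) := h117.mul' h12 (by norm_num)
  have h119 : In (900512216232700721/20000000000000000000000000) (2251280540581751811/50000000000000000000000000) ((33 / 2) * ((jet r s y t).x ^ 6)) := (In.const (c := (33 / 2)) (le_refl _) (le_refl _)).mul' h.px6 (by norm_num)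
  have h120 : In (5427192932651235281/50000000000000000000000000) (5427192932651235303/50000000000000000000000000) (((33 / 2) * ((jet r s y t).x ^ 6)) * ((fD (jet r s y t)) ^ 10)) := h119.mul' h.pP10 (by norm_num)
  have h121 : In (554311302574044466263/100000000000000000000000000) (138577825643511117133/25000000000000000000000000) ((((33 / 2) * ((jet r s y t).x ^ 6)) * ((fD (jet r s y t)) ^ 10)) * (dD (jet r s y t) (cb r s 1 0 0))) := h120.mul' h47 (by norm_num)
  have h122 : In (90907424285950109009/12500000000000000000000000) (727259394287600874397/100000000000000000000000000) ((((9 * ((jet r s y t).x ^ 5)) * ((fD (jet r s y t)) ^ 11)) * (cb r s 1 0 0).x) + ((((33 / 2) * ((jet r s y t).x ^ 6)) * ((fD (jet r s y t)) ^ 10)) * (dD (jet r s y t) (cb r s 1 0 0)))) := h118.add' h121 (by norm_num)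
  have h123 : In (27782093556718458170467287/20000000000000000000000000) (868190423647451818293099/625000000000000000000000) ((((dK (jet r s y t) (cb r s 1 0 0)) + ((dP (jet r s y t) (cb r s 1 0 0)) * (fG (jet r s y t)))) + (((jet r s y t).x * ((1 + (fD (jet r s y t))) ^ 2)) * (dG (jet r s y t) (cb r s 1 0 0)))) + ((((9 * ((jet r s y t).x ^ 5)) * ((fD (jet r s y t)) ^ 11)) * (cb r s 1 0 0).x) + ((((33 / 2) * ((jet r s y t).x ^ 6)) * ((fD (jet r s y t)) ^ 10)) * (dD (jet r s y t) (cb r s 1 0 0))))) := h115.add' h122 (by norm_num)
  have h124 : In (2640245783491051054483/25000000000000000000000000) (10560983133964204219307/100000000000000000000000000) (((jet r s y t).x ^ 3) * ((fD (jet r s y t)) ^ 8)) := h.px3.mul' h.pP8 (by norm_num)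
  have h125 : In (2640245783491051054483/25000000000000000000000000) (10560983133964204219307/100000000000000000000000000) ((((jet r s y t).x ^ 3) * ((fD (jet r s y t)) ^ 8)) * (cb r s 1 0 0).x) := h124.mul' h12 (by norm_num)
  have h126 : In (3905534167692860767/1000000000000000000000000) (195276708384643038351/50000000000000000000000000) (2 * ((jet r s y t).x ^ 4)) := (In.const (c := 2) (le_refl _) (le_refl _)).mul' h.px4 (by norm_num)
  have h127 : In (144614682202323707083/20000000000000000000000000) (361536705505809267751/50000000000000000000000000) ((2 * ((jet r s y t).x ^ 4)) * ((fD (jet r s y t)) ^ 7)) := h126.mul' h.pP7 (by norm_num)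
  have h128 : In (36925881324685955017901/100000000000000000000000000) (923147033117148875593/2500000000000000000000000) (((2 * ((jet r s y t).x ^ 4)) * ((fD (jet r s y t)) ^ 7)) * (dD (jet r s y t) (cb r s 1 0 0))) := h127.mul' h47 (by norm_num)
  have h129 : In (47486864458650159235833/100000000000000000000000000) (47486864458650159243027/100000000000000000000000000) (((((jet r s y t).x ^ 3) * ((fD (jet r s y t)) ^ 8)) * (cb r s 1 0 0).x) + (((2 * ((jet r s y t).x ^ 4)) * ((fD (jet r s y t)) ^ 7)) * (dD (jet r s y t) (cb r s 1 0 0)))) := h125.add' h128 (by norm_num)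
  have h130 : In (4339468153722926271659169/3125000000000000000000000) (138862980919133640767660007/100000000000000000000000000) (((((dK (jet r s y t) (cb r s 1 0 0)) + ((dP (jet r s y t) (cb r s 1 0 0)) * (fG (jet r s y t)))) + (((jet r s y t).x * ((1 + (fD (jet r s y t))) ^ 2)) * (dG (jet r s y t) (cb r s 1 0 0)))) + ((((9 * ((jet r s y t).x ^ 5)) * ((fD (jet r s y t)) ^ 11)) * (cb r s 1 0 0).x) + ((((33 / 2) * ((jet r s y t).x ^ 6)) * ((fD (jet r s y t)) ^ 10)) * (dD (jet r s y t) (cb r s 1 0 0))))) - (((((jet r s y t).x ^ 3) * ((fD (jet r s y t)) ^ 8)) * (cb r s 1 0 0).x) + (((2 * ((jet r s y t).x ^ 4)) * ((fD (jet r s y t)) ^ 7)) * (dD (jet r s y t) (cb r s 1 0 0))))) := h123.sub' h129 (by norm_num)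
  have h131 : In (4339468153722926271659169/3125000000000000000000000) (138862980919133640767660007/100000000000000000000000000) (dT0 (jet r s y t) (cb r s 1 0 0)) := In.congr h130 (by unfold dT0; with_reducible rfl)
  have h132 : In (2441130585122706130475985031/100000000000000000000000000) (2441130585122706130587497603/100000000000000000000000000) ((dD (jet r s y t) (cb r s 1 0 0)) / (1 + (fD (jet r s y t)))) := h47.div' h.pD1 (by norm_num)
  have h133 : In (387668435627954833206076543/20000000000000000000000000) (242292772267471770771020187/12500000000000000000000000) (((dD (jet r s y t) (cb r s 1 0 0)) / (1 + (fD (jet r s y t)))) - (dS (jet r s y t) (cb r s 1 0 0))) := h132.sub' h85 (by norm_num)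
  have h134 : In (449869799305160131315680677/25000000000000000000000000) (224934899652580065684383511/12500000000000000000000000) ((((dD (jet r s y t) (cb r s 1 0 0)) / (1 + (fD (jet r s y t)))) - (dS (jet r s y t) (cb r s 1 0 0))) - (dT0 (jet r s y t) (cb r s 1 0 0))) := h133.sub' h131 (by norm_num)
  have h135 : In (449869799305160131315680677/25000000000000000000000000) (224934899652580065684383511/12500000000000000000000000) (dNet (jet r s y t) (cb r s 1 0 0)) := In.congr h134 (by unfold dNet; with_reducible rfl)
  have h136 : In (1869100337123726498145109/25000000000000000000000000) (467275084280931624536329/6250000000000000000000000) ((2 * (jet r s y t).x) * (cb r s 1 0 0).x) := h74.mul' h12 (by norm_num)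
  have h137 : In (68448668451142867346018487/100000000000000000000000000) (68448668451142867347761737/100000000000000000000000000) (((2 * (jet r s y t).x) * (cb r s 1 0 0).x) * ((1 + (fD (jet r s y t))) ^ 3)) := h136.mul' h.pD13 (by norm_num)
  have h138 : In (14333473219952403305903/781250000000000000000000) (91734228607695381159351/5000000000000000000000000) ((3 * ((jet r s y t).x ^ 2)) * ((1 + (fD (jet r s y t))) ^ 2)) := h53.mul' h.pD12 (by norm_num)
  have h139 : In (46846795738765476976788993/50000000000000000000000000) (23423397869382738489667853/25000000000000000000000000) (((3 * ((jet r s y t).x ^ 2)) * ((1 + (fD (jet r s y t))) ^ 2)) * (dD (jet r s y t) (cb r s 1 0 0))) := h138.mul' h47 (by norm_num)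
  have h140 : In (162142259928673821299596473/100000000000000000000000000) (162142259928673821306433149/100000000000000000000000000) ((((2 * (jet r s y t).x) * (cb r s 1 0 0).x) * ((1 + (fD (jet r s y t))) ^ 3)) + (((3 * ((jet r s y t).x ^ 2)) * ((1 + (fD (jet r s y t))) ^ 2)) * (dD (jet r s y t) (cb r s 1 0 0)))) := h137.add' h139 (by norm_num)
  have h141 : In (162142259928673821299596473/100000000000000000000000000) (162142259928673821306433149/100000000000000000000000000) (dQ (jet r s y t) (cb r s 1 0 0)) := In.congr h140 (by unfold dQ; with_reducible rfl)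
  have h142 : In (300100238377922707839688253/100000000000000000000000000) (300100238377922707848584589/100000000000000000000000000) (dU (jet r s y t) (cb r s 1 0 0)) := In.congr h81 (by unfold dU; with_reducible rfl)
  have h143 : In (8293013231483583759371777/12500000000000000000000000) (66344105851868670074986969/100000000000000000000000000) (1 / (fk (jet r s y t))) := (In.const (c := 1) (le_refl _) (le_refl _)).div' h.hk (by norm_num)
  have h144 : In (33655894148131329925013031/100000000000000000000000000) (4206986768516416240628223/12500000000000000000000000) (1 - (1 / (fk (jet r s y t)))) := (In.const (c := 1) (le_refl _) (le_refl _)).sub' h143 (by norm_num)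
  have h145 : In (199333801556795638722384001/100000000000000000000000000) (24916725194599454840342919/12500000000000000000000000) ((1 - (1 / (fk (jet r s y t)))) * (dk (jet r s y t) (cb r s 1 0 0))) := h144.mul' h21 (by norm_num)
  have h146 : In (12458362597299727420149/12500000000000000000000) (24916725194599454840342919/25000000000000000000000000) (((1 - (1 / (fk (jet r s y t)))) * (dk (jet r s y t) (cb r s 1 0 0))) / 2) := h145.div' (In.const (c := 2) (le_refl _) (le_refl _)) (by norm_num)
  have h147 : In (46886355826769366718140743/50000000000000000000000000) (93772711653538733436435913/100000000000000000000000000) ((dY (jet r s y t) (cb r s 1 0 0)) / 4) := h35.div' (In.const (c := 4) (le_refl _) (le_refl _)) (by norm_num)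
  have h148 : In (5894189124859085924756087/100000000000000000000000000) (589418912485908592509019/10000000000000000000000000) ((((1 - (1 / (fk (jet r s y t)))) * (dk (jet r s y t) (cb r s 1 0 0))) / 2) - ((dY (jet r s y t) (cb r s 1 0 0)) / 4)) := h146.sub' h147 (by norm_num)
  have h149 : In (5796604146847816296273/400000000000000000000000) (724575518355977037036109/50000000000000000000000000) ((dT (jet r s y t) (cb r s 1 0 0)) / 3) := h27.div' (In.const (c := 3) (le_refl _) (le_refl _)) (by norm_num)
  have h150 : In (7343340161571039998824337/100000000000000000000000000) (917917520196379999895301/12500000000000000000000000) (((((1 - (1 / (fk (jet r s y t)))) * (dk (jet r s y t) (cb r s 1 0 0))) / 2) - ((dY (jet r s y t) (cb r s 1 0 0)) / 4)) + ((dT (jet r s y t) (cb r s 1 0 0)) / 3)) := h148.add' h149 (by norm_num)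
  have h151 : In (400100238377922707839688253/100000000000000000000000000) (400100238377922707848584589/100000000000000000000000000) ((cb r s 1 0 0).x + (dU (jet r s y t) (cb r s 1 0 0))) := h12.add' h142 (by norm_num)
  have h152 : In (189489138946911067549237293/100000000000000000000000000) (189489138946911067553527711/100000000000000000000000000) (((cb r s 1 0 0).x + (dU (jet r s y t) (cb r s 1 0 0))) * (fY (jet r s y t))) := h151.mul' h.hY (by norm_num)
  have h153 : In (47372284736727766887309323/50000000000000000000000000) (5921535592090970861047741/6250000000000000000000000) ((((cb r s 1 0 0).x + (dU (jet r s y t) (cb r s 1 0 0))) * (fY (jet r s y t))) / 2) := h152.div' (In.const (c := 2) (le_refl _) (le_refl _)) (by norm_num)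
  have h154 : In (-87401229311884493777939519/100000000000000000000000000) (-43700614655942246887728119/50000000000000000000000000) ((((((1 - (1 / (fk (jet r s y t)))) * (dk (jet r s y t) (cb r s 1 0 0))) / 2) - ((dY (jet r s y t) (cb r s 1 0 0)) / 4)) + ((dT (jet r s y t) (cb r s 1 0 0)) / 3)) - ((((cb r s 1 0 0).x + (dU (jet r s y t) (cb r s 1 0 0))) * (fY (jet r s y t))) / 2)) := h150.sub' h153 (by norm_num)
  have h155 : In (977529989990158931284267/12500000000000000000000000) (7820239919921271450341103/100000000000000000000000000) ((jet r s y t).x * (1 + (fD (jet r s y t)))) := h.hbx.mul' h.pD1 (by norm_num)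
  have h156 : In (293330041228908089156921/1000000000000000000000000) (5866600824578161783198319/20000000000000000000000000) (((jet r s y t).x * (1 + (fD (jet r s y t)))) * (dY (jet r s y t) (cb r s 1 0 0))) := h155.mul' h35 (by norm_num)
  have h157 : In (293330041228908089156921/2000000000000000000000000) (7333251030722702228997899/50000000000000000000000000) ((((jet r s y t).x * (1 + (fD (jet r s y t)))) * (dY (jet r s y t) (cb r s 1 0 0))) / 2) := h156.div' (In.const (c := 2) (le_refl _) (le_refl _)) (by norm_num)
  have h158 : In (-102067731373329898235935317/100000000000000000000000000) (-6379233210833118639581393/6250000000000000000000000) (((((((1 - (1 / (fk (jet r s y t)))) * (dk (jet r s y t) (cb r s 1 0 0))) / 2) - ((dY (jet r s y t) (cb r s 1 0 0)) / 4)) + ((dT (jet r s y t) (cb r s 1 0 0)) / 3)) - ((((cb r s 1 0 0).x + (dU (jet r s y t) (cb r s 1 0 0))) * (fY (jet r s y t))) / 2)) - ((((jet r s y t).x * (1 + (fD (jet r s y t)))) * (dY (jet r s y t) (cb r s 1 0 0))) / 2)) := h154.sub' h157 (by norm_num)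
  have h159 : In (-10445924256533037738309/100000000000000000000000000) (-10445924256533036559547/100000000000000000000000000) ((fG (jet r s y t)) / 2) := h.hG.divN' (In.const (c := 2) (le_refl _) (le_refl _)) (by norm_num)
  have h160 : In (2886566873011694788877/1562500000000000000000000) (23092534984093558311051/12500000000000000000000000) (((2 * (fT (jet r s y t))) + ((fT (jet r s y t)) ^ 2)) / 4) := h.pTT.div' (In.const (c := 4) (le_refl _) (le_refl _)) (by norm_num)
  have h161 : In (-195186204129281504226717/100000000000000000000000000) (-7807448165171260121907/4000000000000000000000000) (((fG (jet r s y t)) / 2) - (((2 * (fT (jet r s y t))) + ((fT (jet r s y t)) ^ 2)) / 4)) := h159.sub' h160 (by norm_num)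
  have h162 : In (-316479322444211491972753/100000000000000000000000000) (-316479322444211490047683/100000000000000000000000000) ((dQ (jet r s y t) (cb r s 1 0 0)) * (((fG (jet r s y t)) / 2) - (((2 * (fT (jet r s y t))) + ((fT (jet r s y t)) ^ 2)) / 4))) := h141.mulN' h161 (by norm_num)
  have h163 : In (-10238421069577410972790807/10000000000000000000000000) (-102384210695774109723349971/100000000000000000000000000) ((((((((1 - (1 / (fk (jet r s y t)))) * (dk (jet r s y t) (cb r s 1 0 0))) / 2) - ((dY (jet r s y t) (cb r s 1 0 0)) / 4)) + ((dT (jet r s y t) (cb r s 1 0 0)) / 3)) - ((((cb r s 1 0 0).x + (dU (jet r s y t) (cb r s 1 0 0))) * (fY (jet r s y t))) / 2)) - ((((jet r s y t).x * (1 + (fD (jet r s y t)))) * (dY (jet r s y t) (cb r s 1 0 0))) / 2)) + ((dQ (jet r s y t) (cb r s 1 0 0)) * (((fG (jet r s y t)) / 2) - (((2 * (fT (jet r s y t))) + ((fT (jet r s y t)) ^ 2)) / 4)))) := h158.add' h162 (by norm_num)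
  have h164 : In (319843573194253288604361/25000000000000000000000000) (1279374292777013154450179/100000000000000000000000000) (((jet r s y t).x ^ 2) * ((1 + (fD (jet r s y t))) ^ 3)) := h.px2.mul' h.pD13 (by norm_num)
  have h165 : In (-184053254537847978828833/100000000000000000000000000) (-92026627268923989124253/50000000000000000000000000) ((dG (jet r s y t) (cb r s 1 0 0)) / 2) := h111.divN' (In.const (c := 2) (le_refl _) (le_refl _)) (by norm_num)
  have h166 : In (50184400245367831302590449/50000000000000000000000000) (50184400245367831302590727/50000000000000000000000000) (1 + (fT (jet r s y t))) := (In.const (c := 1) (le_refl _) (le_refl _)).add' h.hT (by norm_num)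
  have h167 : In (436348653854054610855501/10000000000000000000000000) (218174326927027305428349/5000000000000000000000000) ((1 + (fT (jet r s y t))) * (dT (jet r s y t) (cb r s 1 0 0))) := h166.mul' h27 (by norm_num)
  have h168 : In (436348653854054610855501/20000000000000000000000000) (218174326927027305428349/10000000000000000000000000) (((1 + (fT (jet r s y t))) * (dT (jet r s y t) (cb r s 1 0 0))) / 2) := h167.div' (In.const (c := 2) (le_refl _) (le_refl _)) (by norm_num)
  have h169 : In (-2365796523808121033112323/100000000000000000000000000) (-2365796523808121032526011/100000000000000000000000000) (((dG (jet r s y t) (cb r s 1 0 0)) / 2) - (((1 + (fT (jet r s y t))) * (dT (jet r s y t) (cb r s 1 0 0))) / 2)) := h165.sub' h168 (by norm_num)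
  have h170 : In (-30267392545013310103399/100000000000000000000000000) (-15133696272506655047561/50000000000000000000000000) ((((jet r s y t).x ^ 2) * ((1 + (fD (jet r s y t))) ^ 3)) * (((dG (jet r s y t) (cb r s 1 0 0)) / 2) - (((1 + (fT (jet r s y t))) * (dT (jet r s y t) (cb r s 1 0 0))) / 2))) := h164.mulN' h169 (by norm_num)
  have h171 : In (-102414478088319123038011469/100000000000000000000000000) (-102414478088319123033445093/100000000000000000000000000) (((((((((1 - (1 / (fk (jet r s y t)))) * (dk (jet r s y t) (cb r s 1 0 0))) / 2) - ((dY (jet r s y t) (cb r s 1 0 0)) / 4)) + ((dT (jet r s y t) (cb r s 1 0 0)) / 3)) - ((((cb r s 1 0 0).x + (dU (jet r s y t) (cb r s 1 0 0))) * (fY (jet r s y t))) / 2)) - ((((jet r s y t).x * (1 + (fD (jet r s y t)))) * (dY (jet r s y t) (cb r s 1 0 0))) / 2)) + ((dQ (jet r s y t) (cb r s 1 0 0)) * (((fG (jet r s y t)) / 2) - (((2 * (fT (jet r s y t))) + ((fT (jet r s y t)) ^ 2)) / 4)))) + ((((jet r s y t).x ^ 2) * ((1 + (fD (jet r s y t))) ^ 3)) * (((dG (jet r s y t) (cb r s 1 0 0)) / 2) - (((1 + (fT (jet r s y t))) * (dT (jet r s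 y t) (cb r s 1 0 0))) / 2)))) := h163.add' h170 (by norm_num)
  have h172 : In (450150357566884061759532379/100000000000000000000000000) (112537589391721015443219221/25000000000000000000000000) ((3 / 2) * (dU (jet r s y t) (cb r s 1 0 0))) := (In.const (c := (3 / 2)) (le_refl _) (le_refl _)).mul' h142 (by norm_num)
  have h173 : In (34773587947856493872152091/10000000000000000000000000) (347735879478564938739431791/100000000000000000000000000) ((((((((((1 - (1 / (fk (jet r s y t)))) * (dk (jet r s y t) (cb r s 1 0 0))) / 2) - ((dY (jet r s y t) (cb r s 1 0 0)) / 4)) + ((dT (jet r s y t) (cb r s 1 0 0)) / 3)) - ((((cb r s 1 0 0).x + (dU (jet r s y t) (cb r s 1 0 0))) * (fY (jet r s y t))) / 2)) - ((((jet r s y t).x * (1 + (fD (jet r s y t)))) * (dY (jet r s y t) (cb r s 1 0 0))) / 2)) + ((dQ (jet r s y t) (cb r s 1 0 0)) * (((fG (jet r s y t)) / 2) - (((2 * (fT (jet r s y t))) + ((fT (jet r s y t)) ^ 2)) / 4)))) + ((((jet r s y t).x ^ 2) * ((1 + (fD (jet r s y t))) ^ 3)) * (((dG (jet r s y t) (cb r s 1 0 0)) / 2) - (((1 + (fT (jet r s y t))) * (dT (jet r s y t) (cb r s 1 0 0)))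 / 2)))) + ((3 / 2) * (dU (jet r s y t) (cb r s 1 0 0)))) := h171.add' h172 (by norm_num)
  have h174 : In (6084379823091326105061/62500000000000000000000) (1216875964618265221071449/12500000000000000000000000) ((2 * (jet r s y t).x) * ((fD (jet r s y t)) ^ 3)) := h74.mul' h.pP3 (by norm_num)
  have h175 : In (6084379823091326105061/62500000000000000000000) (1216875964618265221071449/12500000000000000000000000) (((2 * (jet r s y t).x) * ((fD (jet r s y t)) ^ 3)) * (cb r s 1 0 0).x) := h174.mul' h12 (by norm_num)
  have h176 : In (499891332096638303153673/100000000000000000000000000) (249945666048319151584989/50000000000000000000000000) ((3 * ((jet r s y t).x ^ 2)) * ((fD (jet r s y t)) ^ 2)) := h53.mul' h.pP2 (by norm_num)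
  have h177 : In (255284286811412542682217/1000000000000000000000000) (3191053585142656783750593/12500000000000000000000000) (((3 * ((jet r s y t).x ^ 2)) * ((fD (jet r s y t)) ^ 2)) * (dD (jet r s y t) (cb r s 1 0 0))) := h176.mul' h47 (by norm_num)
  have h178 : In (352634363980873760363193/1000000000000000000000000) (2203964774880461002411021/6250000000000000000000000) ((((2 * (jet r s y t).x) * ((fD (jet r s y t)) ^ 3)) * (cb r s 1 0 0).x) + (((3 * ((jet r s y t).x ^ 2)) * ((fD (jet r s y t)) ^ 2)) * (dD (jet r s y t) (cb r s 1 0 0)))) := h175.add' h177 (by norm_num)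
  have h179 : In (52041019622836909226991959/12500000000000000000000000) (104082039245673818454050471/25000000000000000000000000) (4 * (1 + ((jet r s y t).x * (fD (jet r s y t))))) := (In.const (c := 4) (le_refl _) (le_refl _)).mul' h.pxD1 (by norm_num)
  have h180 : In (211752651163785594587783/2500000000000000000000000) (4235053023275711892029433/50000000000000000000000000) (((((2 * (jet r s y t).x) * ((fD (jet r s y t)) ^ 3)) * (cb r s 1 0 0).x) + (((3 * ((jet r s y t).x ^ 2)) * ((fD (jet r s y t)) ^ 2)) * (dD (jet r s y t) (cb r s 1 0 0)))) / (4 * (1 + ((jet r s y t).x * (fD (jet r s y t)))))) := h178.div' h179 (by norm_num)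
  have h181 : In (35620598552511636250503223/10000000000000000000000000) (356205985525116362523490657/100000000000000000000000000) (((((((((((1 - (1 / (fk (jet r s y t)))) * (dk (jet r s y t) (cb r s 1 0 0))) / 2) - ((dY (jet r s y t) (cb r s 1 0 0)) / 4)) + ((dT (jet r s y t) (cb r s 1 0 0)) / 3)) - ((((cb r s 1 0 0).x + (dU (jet r s y t) (cb r s 1 0 0))) * (fY (jet r s y t))) / 2)) - ((((jet r s y t).x * (1 + (fD (jet r s y t)))) * (dY (jet r s y t) (cb r s 1 0 0))) / 2)) + ((dQ (jet r s y t) (cb r s 1 0 0)) * (((fG (jet r s y t)) / 2) - (((2 * (fT (jet r s y t))) + ((fT (jet r s y t)) ^ 2)) / 4)))) + ((((jet r s y t).x ^ 2) * ((1 + (fD (jet r s y t))) ^ 3)) * (((dG (jet r s y t) (cb r s 1 0 0)) / 2) - (((1 + (fT (jet r s y t))) * (dT (jet r s y t) (cb r s 1 0 0))) / 2)))) + ((3 / 2) * (dU (jet r s y t) (cb r s 1 0 0)))) + (((((2 * (jet r s y t).x) * ((fD (jet r s y t)) ^ 3)) * (cb r s 1 0 0).x) + (((3 * ((jet r s y t).x ^ 2)) * ((fD (jet r s y t)) ^ 2)) * (dD (jet r s y t) (cb r s 1 0 0)))) / (4 * (1 + ((jet r s y t).x * (fD (jet r s y t))))))) := h173.add' h180 (by norm_num)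
  have h182 : In (7278282482258430088731/4000000000000000000000000) (181957062056460752227157/100000000000000000000000000) (((jet r s y t).x ^ 2) * ((fD (jet r s y t)) ^ 3)) := h.px2.mul' h.pP3 (by norm_num)
  have h183 : In (546053576976903467812951/100000000000000000000000000) (109210715395380693571159/20000000000000000000000000) ((((jet r s y t).x ^ 2) * ((fD (jet r s y t)) ^ 3)) * (dU (jet r s y t) (cb r s 1 0 0))) := h182.mul' h142 (by norm_num)
  have h184 : In (108330708935379849675685727/25000000000000000000000000) (27082677233844962418956067/6250000000000000000000000) (4 * ((1 + ((jet r s y t).x * (fD (jet r s y t)))) ^ 2)) := (In.const (c := 4) (le_refl _) (le_refl _)).mul' h.pxD2 (by norm_num)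
  have h185 : In (31503854166978916992891/25000000000000000000000000) (126015416667915667981613/100000000000000000000000000) (((((jet r s y t).x ^ 2) * ((fD (jet r s y t)) ^ 3)) * (dU (jet r s y t) (cb r s 1 0 0))) / (4 * ((1 + ((jet r s y t).x * (fD (jet r s y t)))) ^ 2))) := h183.div' h184 (by norm_num)
  have h186 : In (356079970108448446837050617/100000000000000000000000000) (356079970108448446855519093/100000000000000000000000000) ((((((((((((1 - (1 / (fk (jet r s y t)))) * (dk (jet r s y t) (cb r s 1 0 0))) / 2) - ((dY (jet r s y t) (cb r s 1 0 0)) / 4)) + ((dT (jet r s y t) (cb r s 1 0 0)) / 3)) - ((((cb r s 1 0 0).x + (dU (jet r s y t) (cb r s 1 0 0))) * (fY (jet r s y t))) / 2)) - ((((jet r s y t).x * (1 + (fD (jet r s y t)))) * (dY (jet r s y t) (cb r s 1 0 0))) / 2)) + ((dQ (jet r s y t) (cb r s 1 0 0)) * (((fG (jet r s y t)) / 2) - (((2 * (fT (jet r s y t))) + ((fT (jet r s y t)) ^ 2)) / 4)))) + ((((jet r s y t).x ^ 2) * ((1 + (fD (jet r s y t))) ^ 3)) * (((dG (jet r s y t) (cb r s 1 0 0)) / 2) - (((1 + (fT (jet r s y t))) * (dT (jet r s y t) (cb r s 1 0 0))) /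 2)))) + ((3 / 2) * (dU (jet r s y t) (cb r s 1 0 0)))) + (((((2 * (jet r s y t).x) * ((fD (jet r s y t)) ^ 3)) * (cb r s 1 0 0).x) + (((3 * ((jet r s y t).x ^ 2)) * ((fD (jet r s y t)) ^ 2)) * (dD (jet r s y t) (cb r s 1 0 0)))) / (4 * (1 + ((jet r s y t).x * (fD (jet r s y t))))))) - (((((jet r s y t).x ^ 2) * ((fD (jet r s y t)) ^ 3)) * (dU (jet r s y t) (cb r s 1 0 0))) / (4 * ((1 + ((jet r s y t).x * (fD (jet r s y t)))) ^ 2)))) := h181.sub' h185 (by norm_num)
  have h187 : In (1/2) (1/2) ((cb r s 1 0 0).x / 2) := h12.div' (In.const (c := 2) (le_refl _) (le_refl _)) (by norm_num)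
  have h188 : In (14762216837332547/40000000000000000) (18452771046665689/50000000000000000) (((cb r s 1 0 0).x / 2) * (Real.log (1 + fD (jet r s y t)))) := h187.mul' k.LD (by norm_num)
  have h189 : In (319174428015117068837050617/100000000000000000000000000) (319174428015117079355519093/100000000000000000000000000) (((((((((((((1 - (1 / (fk (jet r s y t)))) * (dk (jet r s y t) (cb r s 1 0 0))) / 2) - ((dY (jet r s y t) (cb r s 1 0 0)) / 4)) + ((dT (jet r s y t) (cb r s 1 0 0)) / 3)) - ((((cb r s 1 0 0).x + (dU (jet r s y t) (cb r s 1 0 0))) * (fY (jet r s y t))) / 2)) - ((((jet r s y t).x * (1 + (fD (jet r s y t)))) * (dY (jet r s y t) (cb r s 1 0 0))) / 2)) + ((dQ (jet r s y t) (cb r s 1 0 0)) * (((fG (jet r s y t)) / 2) - (((2 * (fT (jet r s y t))) + ((fT (jet r s y t)) ^ 2)) / 4)))) + ((((jet r s y t).x ^ 2) * ((1 + (fD (jet r s y t))) ^ 3)) * (((dG (jet r s y t) (cb r s 1 0 0)) / 2) - (((1 + (fT (jet r s y t))) * (dT (jet r s y t) (cb r s 1 0 0))) / 2)))) + ((3 / 2) * (dU (jet r s y t) (cb r s 1 0 0)))) + (((((2 * (jet r s y t).x) * ((fD (jet r s y t)) ^ 3)) * (cb r s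 1 0 0).x) + (((3 * ((jet r s y t).x ^ 2)) * ((fD (jet r s y t)) ^ 2)) * (dD (jet r s y t) (cb r s 1 0 0)))) / (4 * (1 + ((jet r s y t).x * (fD (jet r s y t))))))) - (((((jet r s y t).x ^ 2) * ((fD (jet r s y t)) ^ 3)) * (dU (jet r s y t) (cb r s 1 0 0))) / (4 * ((1 + ((jet r s y t).x * (fD (jet r s y t)))) ^ 2)))) - (((cb r s 1 0 0).x / 2) * (Real.log (1 + fD (jet r s y t))))) := h186.sub' h188 (by norm_num)
  have h190 : In (209197969862749128744886001/50000000000000000000000000) (52299492465687282186663557/12500000000000000000000000) (2 * (1 + (fD (jet r s y t)))) := (In.const (c := 2) (le_refl _) (le_refl _)).mul' h.pD1 (by norm_num)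
  have h191 : In (45627179996158897536367829/100000000000000000000000000) (9125435999231779507691433/20000000000000000000000000) (((jet r s y t).x * (dD (jet r s y t) (cb r s 1 0 0))) / (2 * (1 + (fD (jet r s y t))))) := h80.div' h190 (by norm_num)
  have h192 : In (68386812004739542824648363/25000000000000000000000000) (8548351500592443181848477/3125000000000000000000000) ((((((((((((((1 - (1 / (fk (jet r s y t)))) * (dk (jet r s y t) (cb r s 1 0 0))) / 2) - ((dY (jet r s y t) (cb r s 1 0 0)) / 4)) + ((dT (jet r s y t) (cb r s 1 0 0)) / 3)) - ((((cb r s 1 0 0).x + (dU (jet r s y t) (cb r s 1 0 0))) * (fY (jet r s y t))) / 2)) - ((((jet r s y t).x * (1 + (fD (jet r s y t)))) * (dY (jet r s y t) (cb r s 1 0 0))) / 2)) + ((dQ (jet r s y t) (cb r s 1 0 0)) * (((fG (jet r s y t)) / 2) - (((2 * (fT (jet r s y t))) + ((fT (jet r s y t)) ^ 2)) / 4)))) + ((((jet r s y t).x ^ 2) * ((1 + (fD (jet r s y t))) ^ 3)) * (((dG (jet r s y t) (cb r s 1 0 0)) / 2) - (((1 + (fT (jet r s y t))) * (dT (jet r s y t) (cb r s 1 0 0))) / 2)))) + ((3 / 2) * (dU (jet r s y t) (cb r s 1 0 0)))) + (((((2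 * (jet r s y t).x) * ((fD (jet r s y t)) ^ 3)) * (cb r s 1 0 0).x) + (((3 * ((jet r s y t).x ^ 2)) * ((fD (jet r s y t)) ^ 2)) * (dD (jet r s y t) (cb r s 1 0 0)))) / (4 * (1 + ((jet r s y t).x * (fD (jet r s y t))))))) - (((((jet r s y t).x ^ 2) * ((fD (jet r s y t)) ^ 3)) * (dU (jet r s y t) (cb r s 1 0 0))) / (4 * ((1 + ((jet r s y t).x * (fD (jet r s y t)))) ^ 2)))) - (((cb r s 1 0 0).x / 2) * (Real.log (1 + fD (jet r s y t))))) - (((jet r s y t).x * (dD (jet r s y t) (cb r s 1 0 0))) / (2 * (1 + (fD (jet r s y t)))))) := h189.sub' h191 (by norm_num)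
  have h193 : In (-4497492901786936962795871/25000000000000000000000000) (-17989971607147663829733411/100000000000000000000000000) (((cb r s 1 0 0).x + (dU (jet r s y t) (cb r s 1 0 0))) * (Real.log ((1 + 1) / (1 + fD (jet r s y t))))) := h151.mulN' k.L2 (by norm_num)
  have h194 : In (15972329775738151465463123/6250000000000000000000000) (255557276411810517989417853/100000000000000000000000000) (((((((((((((((1 - (1 / (fk (jet r s y t)))) * (dk (jet r s y t) (cb r s 1 0 0))) / 2) - ((dY (jet r s y t) (cb r s 1 0 0)) / 4)) + ((dT (jet r s y t) (cb r s 1 0 0)) / 3)) - ((((cb r s 1 0 0).x + (dU (jet r s y t) (cb r s 1 0 0))) * (fY (jet r s y t))) / 2)) - ((((jet r s y t).x * (1 + (fD (jet r s y t)))) * (dY (jet r s y t) (cb r s 1 0 0))) / 2)) + ((dQ (jet r s y t) (cb r s 1 0 0)) * (((fG (jet r s y t)) / 2) - (((2 * (fT (jet r s y t))) + ((fT (jet r s y t)) ^ 2)) / 4)))) + ((((jet r s y t).x ^ 2) * ((1 + (fD (jet r s y t))) ^ 3)) * (((dG (jet r s y t) (cb r s 1 0 0)) / 2) - (((1 + (fT (jet r s y t))) * (dT (jet r s y t) (cb r s 1 0 0))) / 2)))) + ((3 / 2) * (dU (jet r s y t) (cb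 r s 1 0 0)))) + (((((2 * (jet r s y t).x) * ((fD (jet r s y t)) ^ 3)) * (cb r s 1 0 0).x) + (((3 * ((jet r s y t).x ^ 2)) * ((fD (jet r s y t)) ^ 2)) * (dD (jet r s y t) (cb r s 1 0 0)))) / (4 * (1 + ((jet r s y t).x * (fD (jet r s y t))))))) - (((((jet r s y t).x ^ 2) * ((fD (jet r s y t)) ^ 3)) * (dU (jet r s y t) (cb r s 1 0 0))) / (4 * ((1 + ((jet r s y t).x * (fD (jet r s y t)))) ^ 2)))) - (((cb r s 1 0 0).x / 2) * (Real.log (1 + fD (jet r s y t))))) - (((jet r s y t).x * (dD (jet r s y t) (cb r s 1 0 0))) / (2 * (1 + (fD (jet r s y t)))))) + (((cb r s 1 0 0).x + (dU (jet r s y t) (cb r s 1 0 0))) * (Real.log ((1 + 1) / (1 + fD (jet r s y t)))))) := h192.add' h193 (by norm_num)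
  have h195 : In (64655007896636844345479607/100000000000000000000000000) (64655007896636938894615601/100000000000000000000000000) ((((((((((((((((1 - (1 / (fk (jet r s y t)))) * (dk (jet r s y t) (cb r s 1 0 0))) / 2) - ((dY (jet r s y t) (cb r s 1 0 0)) / 4)) + ((dT (jet r s y t) (cb r s 1 0 0)) / 3)) - ((((cb r s 1 0 0).x + (dU (jet r s y t) (cb r s 1 0 0))) * (fY (jet r s y t))) / 2)) - ((((jet r s y t).x * (1 + (fD (jet r s y t)))) * (dY (jet r s y t) (cb r s 1 0 0))) / 2)) + ((dQ (jet r s y t) (cb r s 1 0 0)) * (((fG (jet r s y t)) / 2) - (((2 * (fT (jet r s y t))) + ((fT (jet r s y t)) ^ 2)) / 4)))) + ((((jet r s y t).x ^ 2) * ((1 + (fD (jet r s y t))) ^ 3)) * (((dG (jet r s y t) (cb r s 1 0 0)) / 2) - (((1 + (fT (jet r s y t))) * (dT (jet r s y t) (cb r s 1 0 0))) / 2)))) + ((3 / 2) * (dU (jet r s y t) (cb r s 1 0 0)))) + (((((2 * (jet r s y t).x) * ((fD (jet r s y t)) ^ 3)) * (cb r s 1 0 0).x) + (((3 * ((jet r s y t).x ^ 2)) * ((fD (jet r s y t)) ^ 2)) * (dD (jet r s y t) (cb r s 1 0 0)))) / (4 * (1 + ((jet r s y t).x * (fD (jet r s y t))))))) - (((((jet r s y t).x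 ^ 2) * ((fD (jet r s y t)) ^ 3)) * (dU (jet r s y t) (cb r s 1 0 0))) / (4 * ((1 + ((jet r s y t).x * (fD (jet r s y t)))) ^ 2)))) - (((cb r s 1 0 0).x / 2) * (Real.log (1 + fD (jet r s y t))))) - (((jet r s y t).x * (dD (jet r s y t) (cb r s 1 0 0))) / (2 * (1 + (fD (jet r s y t)))))) + (((cb r s 1 0 0).x + (dU (jet r s y t) (cb r s 1 0 0))) * (Real.log ((1 + 1) / (1 + fD (jet r s y t)))))) - ((jet r s y t).x * (dD (jet r s y t) (cb r s 1 0 0)))) := h194.sub' h80 (by norm_num)
  have h196 : In (477544357093098867/50000000000000000000000000) (477544357093098869/50000000000000000000000000) ((7 / 2) * ((jet r s y t).x ^ 6)) := (In.const (c := (7 / 2)) (le_refl _) (le_refl _)).mul' h.px6 (by norm_num)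
  have h197 : In (85796289667950089/3125000000000000000000000) (2745481269374402861/100000000000000000000000000) (((7 / 2) * ((jet r s y t).x ^ 6)) * ((fD (jet r s y t)) ^ 12)) := h196.mul' h.pP12 (by norm_num)
  have h198 : In (85796289667950089/3125000000000000000000000) (2745481269374402861/100000000000000000000000000) ((((7 / 2) * ((jet r s y t).x ^ 6)) * ((fD (jet r s y t)) ^ 12)) * (cb r s 1 0 0).x) := h197.mul' h12 (by norm_num)
  have h199 : In (30602685217174089/50000000000000000000000000) (7650671304293523/12500000000000000000000000) (6 * ((jet r s y t).x ^ 7)) := (In.const (c := 6) (le_refl _) (le_refl _)).mul' h.px7 (by norm_num)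
  have h200 : In (80560052890639729/50000000000000000000000000) (6444804231251179/4000000000000000000000000) ((6 * ((jet r s y t).x ^ 7)) * ((fD (jet r s y t)) ^ 11)) := h199.mul' h.pP11 (by norm_num)
  have h201 : In (8228074514282996553/100000000000000000000000000) (4114037257141498711/50000000000000000000000000) (((6 * ((jet r s y t).x ^ 7)) * ((fD (jet r s y t)) ^ 11)) * (dD (jet r s y t) (cb r s 1 0 0))) := h200.mul' h47 (by norm_num)
  have h202 : In (10973555783657399401/100000000000000000000000000) (10973555783657400283/100000000000000000000000000) (((((7 / 2) * ((jet r s y t).x ^ 6)) * ((fD (jet r s y t)) ^ 12)) * (cb r s 1 0 0).x) + (((6 * ((jet r s y t).x ^ 7)) * ((fD (jet r s y t)) ^ 11)) * (dD (jet r s y t) (cb r s 1 0 0)))) := h198.add' h201 (by norm_num)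
  have h203 : In (2020469339693519625089969/3125000000000000000000000) (16163754717548180638003971/25000000000000000000000000) (((((((((((((((((1 - (1 / (fk (jet r s y t)))) * (dk (jet r s y t) (cb r s 1 0 0))) / 2) - ((dY (jet r s y t) (cb r s 1 0 0)) / 4)) + ((dT (jet r s y t) (cb r s 1 0 0)) / 3)) - ((((cb r s 1 0 0).x + (dU (jet r s y t) (cb r s 1 0 0))) * (fY (jet r s y t))) / 2)) - ((((jet r s y t).x * (1 + (fD (jet r s y t)))) * (dY (jet r s y t) (cb r s 1 0 0))) / 2)) + ((dQ (jet r s y t) (cb r s 1 0 0)) * (((fG (jet r s y t)) / 2) - (((2 * (fT (jet r s y t))) + ((fT (jet r s y t)) ^ 2)) / 4)))) + ((((jet r s y t).x ^ 2) * ((1 + (fD (jet r s y t))) ^ 3)) * (((dG (jet r s y t) (cb r s 1 0 0)) / 2) - (((1 + (fT (jet r s y t))) * (dT (jet r s y t) (cb r s 1 0 0))) / 2)))) + ((3 / 2) * (dU (jet r s y t) (cb r s 1 0 0)))) + (((((2 * (jet r s y t).x) * ((fD (jet r s y t)) ^ 3)) * (cb r s 1 0 0).x) + (((3 * ((jet r s y t).x ^ 2)) * ((fD (jet r s y t)) ^ 2)) * (dD (jet r s y t) (cb r s 1 0 0)))) / (4 * (1 + ((jet r s y t).x * (fD (jet r s y t))))))) - (((((jet r s y t).x ^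 2) * ((fD (jet r s y t)) ^ 3)) * (dU (jet r s y t) (cb r s 1 0 0))) / (4 * ((1 + ((jet r s y t).x * (fD (jet r s y t)))) ^ 2)))) - (((cb r s 1 0 0).x / 2) * (Real.log (1 + fD (jet r s y t))))) - (((jet r s y t).x * (dD (jet r s y t) (cb r s 1 0 0))) / (2 * (1 + (fD (jet r s y t)))))) + (((cb r s 1 0 0).x + (dU (jet r s y t) (cb r s 1 0 0))) * (Real.log ((1 + 1) / (1 + fD (jet r s y t)))))) - ((jet r s y t).x * (dD (jet r s y t) (cb r s 1 0 0)))) + (((((7 / 2) * ((jet r s y t).x ^ 6)) * ((fD (jet r s y t)) ^ 12)) * (cb r s 1 0 0).x) + (((6 * ((jet r s y t).x ^ 7)) * ((fD (jet r s y t)) ^ 11)) * (dD (jet r s y t) (cb r s 1 0 0))))) := h195.add' h202 (by norm_num)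
  have h204 : In (16273059032053586529/20000000000000000000000000) (81365295160267932647/100000000000000000000000000) ((5 / 12) * ((jet r s y t).x ^ 4)) := (In.const (c := (5 / 12)) (le_refl _) (le_refl _)).mul' h.px4 (by norm_num)
  have h205 : In (89813224220294082021/50000000000000000000000000) (179626448440588164073/100000000000000000000000000) (((5 / 12) * ((jet r s y t).x ^ 4)) * ((fD (jet r s y t)) ^ 9)) := h204.mul' h.pP9 (by norm_num)
  have h206 : In (89813224220294082021/50000000000000000000000000) (179626448440588164073/100000000000000000000000000) ((((5 / 12) * ((jet r s y t).x ^ 4)) * ((fD (jet r s y t)) ^ 9)) * (cb r s 1 0 0).x) := h205.mul' h12 (by norm_num)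
  have h207 : In (2737438211056109489/50000000000000000000000000) (273743821105610949/5000000000000000000000000) ((3 / 4) * ((jet r s y t).x ^ 5)) := (In.const (c := (3 / 4)) (le_refl _) (le_refl _)).mul' h.px5 (by norm_num)
  have h208 : In (442742106187899333/4000000000000000000000000) (2767138163674370833/25000000000000000000000000) (((3 / 4) * ((jet r s y t).x ^ 5)) * ((fD (jet r s y t)) ^ 8)) := h207.mul' h.pP8 (by norm_num)
  have h209 : In (565248362806732484723/100000000000000000000000000) (282624181403366242551/50000000000000000000000000) ((((3 / 4) * ((jet r s y t).x ^ 5)) * ((fD (jet r s y t)) ^ 8)) * (dD (jet r s y t) (cb r s 1 0 0))) := h208.mul' h47 (by norm_num)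
  have h210 : In (148974962249464129753/20000000000000000000000000) (29794992449892825967/4000000000000000000000000) (((((5 / 12) * ((jet r s y t).x ^ 4)) * ((fD (jet r s y t)) ^ 9)) * (cb r s 1 0 0).x) + ((((3 / 4) * ((jet r s y t).x ^ 5)) * ((fD (jet r s y t)) ^ 8)) * (dD (jet r s y t) (cb r s 1 0 0)))) := h206.add' h209 (by norm_num)
  have h211 : In (64654273995381380682229833/100000000000000000000000000) (64654273995381475231367119/100000000000000000000000000) ((((((((((((((((((1 - (1 / (fk (jet r s y t)))) * (dk (jet r s y t) (cb r s 1 0 0))) / 2) - ((dY (jet r s y t) (cb r s 1 0 0)) / 4)) + ((dT (jet r s y t) (cb r s 1 0 0)) / 3)) - ((((cb r s 1 0 0).x + (dU (jet r s y t) (cb r s 1 0 0))) * (fY (jet r s y t))) / 2)) - ((((jet r s y t).x * (1 + (fD (jet r s y t)))) * (dY (jet r s y t) (cb r s 1 0 0))) / 2)) + ((dQ (jet r s y t) (cb r s 1 0 0)) * (((fG (jet r s y t)) / 2) - (((2 * (fT (jet r s y t))) + ((fT (jet r s y t)) ^ 2)) / 4)))) + ((((jet r s y t).x ^ 2) * ((1 + (fD (jet r s y t))) ^ 3)) * (((dG (jet r s y t) (cb r s 1 0 0)) / 2) - (((1 + (fT (jet r s y t))) * (dT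 (jet r s y t) (cb r s 1 0 0))) / 2)))) + ((3 / 2) * (dU (jet r s y t) (cb r s 1 0 0)))) + (((((2 * (jet r s y t).x) * ((fD (jet r s y t)) ^ 3)) * (cb r s 1 0 0).x) + (((3 * ((jet r s y t).x ^ 2)) * ((fD (jet r s y t)) ^ 2)) * (dD (jet r s y t) (cb r s 1 0 0)))) / (4 * (1 + ((jet r s y t).x * (fD (jet r s y t))))))) - (((((jet r s y t).x ^ 2) * ((fD (jet r s y t)) ^ 3)) * (dU (jet r s y t) (cb r s 1 0 0))) / (4 * ((1 + ((jet r s y t).x * (fD (jet r s y t)))) ^ 2)))) - (((cb r s 1 0 0).x / 2) * (Real.log (1 + fD (jet r s y t))))) - (((jet r s y t).x * (dD (jet r s y t) (cb r s 1 0 0))) / (2 * (1 + (fD (jet r s y t)))))) + (((cb r s 1 0 0).x + (dU (jet r s y t) (cb r s 1 0 0))) * (Real.log ((1 + 1) / (1 + fD (jet r s y t)))))) - ((jet r s y t).x * (dD (jet r s y t) (cb r s 1 0 0)))) + (((((7 / 2) * ((jet r s y t).x ^ 6)) * ((fD (jet r s y t)) ^ 12)) * (cb r s 1 0 0).x) + (((6 * ((jet r s y t).x ^ 7)) * ((fD (jet r s y t)) ^ 11)) * (dD (jet r s y t) (cb r s 1 0 0))))) - (((((5 / 12) * ((jet r s y t).x ^ 4)) * ((fD (jet r s y t)) ^ 9)) * (cb r s 1 0 0).x) + ((((3 / 4) * ((jet r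 s y t).x ^ 5)) * ((fD (jet r s y t)) ^ 8)) * (dD (jet r s y t) (cb r s 1 0 0))))) := h203.sub' h210 (by norm_num)
  have h212 : In (64654273995381380682229833/100000000000000000000000000) (64654273995381475231367119/100000000000000000000000000) (dJ (jet r s y t) (cb r s 1 0 0)) := In.congr h211 (by unfold dJ; with_reducible rfl)
  exact ⟨h107, h135, h212⟩

end K5X
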