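import Pool.Agent.Lib.K5X.NumG
import Pool.Agent.Lib.K5X.Fun

/-!
# K5X.NumY: the differentials at the critical point in one direction

Generated file.
-/

set_option autoImplicit false

namespace K5X

open K5N K5C K5L K5S

theorem num_y {r s y t : ℝ} (h : NB r s y t) (k : NG r s y t) :
    In (32677937363061470232574763/6250000000000000000000000) (16338968681530735182215499/3125000000000000000000000) (dM (jet r s y t) (cb r s 0 1 0)) ∧
    In (236128193283377092852360941/6250000000000000000000000) (755610218506806697160527523/20000000000000000000000000) (dNet (jet r s y t) (cb r s 0 1 0)) ∧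
    In (-39108834883587157040734301/50000000000000000000000000) (-39108834883587117916336169/50000000000000000000000000) (dJ (jet r s y t) (cb r s 0 1 0)) := by
  have h1 : In (26032462806097197114277173/100000000000000000000000000) (13016231403048598557138681/50000000000000000000000000) (r * s) := h.hr.mul' h.hs (by norm_num)
  have h2 : In (1879285585206662453953771/1000000000000000000000000) (1879285585206662453953773/1000000000000000000000000) (r + s) := h.hr.add' h.hs (by norm_num)
  have h3 : In (48922432098927045291733007/100000000000000000000000000) (9784486419785409058346683/20000000000000000000000000) ((r * s) * (r + s)) := h1.mul' h2 (by norm_num)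
  have h4 : In (88292857769138694159870139/25000000000000000000000000) (353171431076554776639481309/100000000000000000000000000) ((r + s) ^ 2) := h2.pow' 2 (by norm_num)
  have h5 : In (88292857769138694159870139/12500000000000000000000000) (353171431076554776639481309/50000000000000000000000000) (2 * ((r + s) ^ 2)) := (In.const (c := 2) (le_refl _) (le_refl _)).mul' h4 (by norm_num)
  have h6 : In (146475064991841350078647657/20000000000000000000000000) (36618766247960337519661999/5000000000000000000000000) ((2 * ((r + s) ^ 2)) + (r * s)) := h5.add' h1 (by norm_num)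
  have h7 : In (23831916758879872456287429/12500000000000000000000000) (190655334071038979650301259/100000000000000000000000000) ((r * s) * ((2 * ((r + s) ^ 2)) + (r * s))) := h1.mul' h6 (by norm_num)
  have h8 : In (78097388418291591342831519/100000000000000000000000000) (39048694209145795671416043/50000000000000000000000000) (3 * (r * s)) := (In.const (c := 3) (le_refl _) (le_refl _)).mul' h1 (by norm_num)
  have h9 : In (146767296296781135875199021/100000000000000000000000000) (36691824074195283968800061/25000000000000000000000000) ((3 * (r * s)) * (r + s)) := h8.mul' h2 (by norm_num)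
  have h10 : In (26032462806097197114277173/50000000000000000000000000) (13016231403048598557138681/25000000000000000000000000) (2 * (r * s)) := (In.const (c := 2) (le_refl _) (le_refl _)).mul' h1 (by norm_num)
  have h11 : In (202618178344374585434017451/50000000000000000000000000) (405236356688749170868036033/100000000000000000000000000) (((r + s) ^ 2) + (2 * (r * s))) := h4.add' h10 (by norm_num)
  have h12 : In (594754444323657356665577387/100000000000000000000000000) (148688611080914339166396001/25000000000000000000000000) (((3 * (r * s)) * (r + s)) * (((r + s) ^ 2) + (2 * (r * s)))) := h9.mul' h11 (by norm_num)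
  have h13 : In (0) (0) ((cb r s 0 1 0).x) := In.congr (In.const (c := 0) (le_refl _) (le_refl _)) (by first | rfl | (simp only [cb, c1, c2, c3]; ring))
  have h14 : In (1) (1) ((cb r s 0 1 0).y) := In.congr (In.const (c := 1) (le_refl _) (le_refl _)) (by first | rfl | (simp only [cb, c1, c2, c3]; ring))
  have h15 : In (0) (0) ((cb r s 0 1 0).t) := In.congr (In.const (c := 0) (le_refl _) (le_refl _)) (by first | rfl | (simp only [cb, c1, c2, c3]; ring))
  have h16 : In (48922432098927045291733007/100000000000000000000000000) (9784486419785409058346683/20000000000000000000000000) ((cb r s 0 1 0).u) := In.congr h3 (by first | rfl | (simp only [cb, c1, c2, c3]; ring))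
  have h17 : In (23831916758879872456287429/12500000000000000000000000) (190655334071038979650301259/100000000000000000000000000) ((cb r s 0 1 0).v) := In.congr h7 (by first | rfl | (simp only [cb, c1, c2, c3]; ring))
  have h18 : In (594754444323657356665577387/100000000000000000000000000) (148688611080914339166396001/25000000000000000000000000) ((cb r s 0 1 0).w) := In.congr h12 (by first | rfl | (simp only [cb, c1, c2, c3]; ring))
  have h19 : In (0) (0) ((fk (jet r s y t)) * (cb r s 0 1 0).x) := h.hk.mul' h13 (by norm_num)
  have h20 : In (48922432098927045291733007/100000000000000000000000000) (9784486419785409058346683/20000000000000000000000000) ((cb r s 0 1 0).u - ((fk (jet r s y t)) * (cb r s 0 1 0).x)) := h16.sub' h19 (by norm_num)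
  have h21 : In (1308716047160195558300270707/100000000000000000000000000) (1308716047160195558300426561/100000000000000000000000000) (((cb r s 0 1 0).u - ((fk (jet r s y t)) * (cb r s 0 1 0).x)) / (jet r s y t).x) := h20.div' h.hbx (by norm_num)
  have h22 : In (1308716047160195558300270707/100000000000000000000000000) (1308716047160195558300426561/100000000000000000000000000) (dk (jet r s y t) (cb r s 0 1 0)) := In.congr h21 (by unfold dk; with_reducible rfl)
  have h23 : In (0) (0) ((cb r s 0 1 0).t * ((fk (jet r s y t)) ^ 3)) := h15.mul' h.pk3 (by norm_num)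
  have h24 : In (1615436105212323349191/500000000000000000000000) (646174442084929339677/200000000000000000000000) (3 * (jet r s y t).t) := (In.const (c := 3) (le_refl _) (le_refl _)).mul' h.hbt (by norm_num)
  have h25 : In (146806432773527464132119/20000000000000000000000000) (734032163867637320661559/100000000000000000000000000) ((3 * (jet r s y t).t) * ((fk (jet r s y t)) ^ 2)) := h24.mul' h.pk2 (by norm_num)
  have h26 : In (2401599179963248094564343/25000000000000000000000000) (9606396719852992378271133/100000000000000000000000000) (((3 * (jet r s y t).t) * ((fk (jet r s y t)) ^ 2)) * (dk (jet r s y t) (cb r s 0 1 0))) := h25.mul' h22 (by norm_num)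
  have h27 : In (2401599179963248094564343/25000000000000000000000000) (9606396719852992378271133/100000000000000000000000000) (((cb r s 0 1 0).t * ((fk (jet r s y t)) ^ 3)) + (((3 * (jet r s y t).t) * ((fk (jet r s y t)) ^ 2)) * (dk (jet r s y t) (cb r s 0 1 0)))) := h23.add' h26 (by norm_num)
  have h28 : In (2401599179963248094564343/25000000000000000000000000) (9606396719852992378271133/100000000000000000000000000) (dT (jet r s y t) (cb r s 0 1 0)) := In.congr h27 (by unfold dT; with_reducible rfl)
  have h29 : In (227193189968711415746618901/100000000000000000000000000) (227193189968711415746706241/100000000000000000000000000) ((cb r s 0 1 0).y * ((fk (jet r s y t)) ^ 2)) := h14.mul' h.pk2 (by norm_num)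
  have h30 : In (205212204790913531001689/500000000000000000000000) (20521220479091353100169/50000000000000000000000) (2 * (jet r s y t).y) := (In.const (c := 2) (le_refl _) (le_refl _)).mul' h.hby (by norm_num)
  have h31 : In (61862980035967567727661991/100000000000000000000000000) (7732872504495945965959273/12500000000000000000000000) ((2 * (jet r s y t).y) * (fk (jet r s y t))) := h30.mul' h.hk (by norm_num)
  have h32 : In (809610746982215676817308987/100000000000000000000000000) (50600671686388479801097811/6250000000000000000000000) (((2 * (jet r s y t).y) * (fk (jet r s y t))) * (dk (jet r s y t) (cb r s 0 1 0))) := h31.mul' h22 (by norm_num)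
  have h33 : In (64800246059432943285245493/6250000000000000000000000) (1036803936950927092564271217/100000000000000000000000000) (((cb r s 0 1 0).y * ((fk (jet r s y t)) ^ 2)) + (((2 * (jet r s y t).y) * (fk (jet r s y t))) * (dk (jet r s y t) (cb r s 0 1 0)))) := h29.add' h32 (by norm_num)
  have h34 : In (2401599179963248094564343/12500000000000000000000000) (9606396719852992378271133/50000000000000000000000000) (2 * (dT (jet r s y t) (cb r s 0 1 0))) := (In.const (c := 2) (le_refl _) (le_refl _)).mul' h28 (by norm_num)
  have h35 : In (132002091298829134665055329/12500000000000000000000000) (1056016730390633077320813483/100000000000000000000000000) ((((cb r s 0 1 0).y * ((fk (jet r s y t)) ^ 2)) + (((2 * (jet r s y t).y) * (fk (jet r s y t))) * (dk (jet r s y t) (cb r s 0 1 0)))) + (2 * (dT (jet r s y t) (cb r s 0 1 0)))) := h33.add' h34 (by norm_num)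
  have h36 : In (132002091298829134665055329/12500000000000000000000000) (1056016730390633077320813483/100000000000000000000000000) (dY (jet r s y t) (cb r s 0 1 0)) := In.congr h35 (by unfold dY; with_reducible rfl)
  have h37 : In (16783543036417213444512621/20000000000000000000000000) (83917715182086067222596171/100000000000000000000000000) ((cb r s 0 1 0).v / ((fk (jet r s y t)) ^ 2)) := h17.div' h.pk2 (by norm_num)
  have h38 : In (1144638179624625974571249/6250000000000000000000000) (572319089812312987285687/3125000000000000000000000) (2 * (jet r s y t).v) := (In.const (c := 2) (le_refl _) (le_refl _)).mul' h.hbv (by norm_num)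
  have h39 : In (1069609476397629727974481/20000000000000000000000000) (2674023690994074319938037/50000000000000000000000000) ((2 * (jet r s y t).v) / ((fk (jet r s y t)) ^ 3)) := h38.div' h.pk3 (by norm_num)
  have h40 : In (6999075429780962324996133/10000000000000000000000000) (69990754297809623250017683/100000000000000000000000000) (((2 * (jet r s y t).v) / ((fk (jet r s y t)) ^ 3)) * (dk (jet r s y t) (cb r s 0 1 0))) := h39.mul' h22 (by norm_num)
  have h41 : In (6963480442138221986272711/50000000000000000000000000) (13926960884276443972634841/100000000000000000000000000) (((cb r s 0 1 0).v / ((fk (jet r s y t)) ^ 2)) - (((2 * (jet r s y t).v) / ((fk (jet r s y t)) ^ 3)) * (dk (jet r s y t) (cb r s 0 1 0)))) := h37.sub' h40 (by norm_num)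
  have h42 : In (6963480442138221986272711/50000000000000000000000000) (13926960884276443972634841/100000000000000000000000000) ((((cb r s 0 1 0).v / ((fk (jet r s y t)) ^ 2)) - (((2 * (jet r s y t).v) / ((fk (jet r s y t)) ^ 3)) * (dk (jet r s y t) (cb r s 0 1 0)))) - (cb r s 0 1 0).x) := h41.sub' h13 (by norm_num)
  have h43 : In (9966235215753418252164998899/100000000000000000000000000) (9966235215753418252231270003/100000000000000000000000000) (((((cb r s 0 1 0).v / ((fk (jet r s y t)) ^ 2)) - (((2 * (jet r s y t).v) / ((fk (jet r s y t)) ^ 3)) * (dk (jet r s y t) (cb r s 0 1 0)))) - (cb r s 0 1 0).x) / ((jet r s y t).x ^ 2)) := h42.div' h.px2 (by norm_num)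
  have h44 : In (209197969862749128744886001/50000000000000000000000000) (52299492465687282186663557/12500000000000000000000000) (2 * ((fD (jet r s y t)) + 1)) := (In.const (c := 2) (le_refl _) (le_refl _)).mul' h.pDp (by norm_num)
  have h45 : In (0) (0) ((2 * ((fD (jet r s y t)) + 1)) * (cb r s 0 1 0).x) := h44.mul' h13 (by norm_num)
  have h46 : In (0) (0) (((2 * ((fD (jet r s y t)) + 1)) * (cb r s 0 1 0).x) / (jet r s y t).x) := h45.div' h.hbx (by norm_num)
  have h47 : In (9966235215753418252164998899/100000000000000000000000000) (9966235215753418252231270003/100000000000000000000000000) ((((((cb r s 0 1 0).v / ((fk (jet r s y t)) ^ 2)) - (((2 * (jet r s y t).v) / ((fk (jet r s y t)) ^ 3)) * (dk (jet r s y t) (cb r s 0 1 0)))) - (cb r s 0 1 0).x) / ((jet r s y t).x ^ 2)) - (((2 * ((fD (jet r s y t)) + 1)) * (cb r s 0 1 0).x) / (jet r s y t).x)) := h43.sub' h46 (by norm_num)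
  have h48 : In (9966235215753418252164998899/100000000000000000000000000) (9966235215753418252231270003/100000000000000000000000000) (dD (jet r s y t) (cb r s 0 1 0)) := In.congr h47 (by unfold dD; with_reducible rfl)
  have h49 : In (173677969025005515916201693/100000000000000000000000000) (5427436532031422372384493/3125000000000000000000000) ((cb r s 0 1 0).w / ((fk (jet r s y t)) ^ 3)) := h18.div' h.pk3 (by norm_num)
  have h50 : In (47948640377437273992355533/100000000000000000000000000) (47948640377437273992362583/100000000000000000000000000) (3 * (jet r s y t).w) := (In.const (c := 3) (le_refl _) (le_refl _)).mul' h.hbw (by norm_num)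
  have h51 : In (9289357523349074404135727/100000000000000000000000000) (2322339380837268601036059/25000000000000000000000000) ((3 * (jet r s y t).w) / ((fk (jet r s y t)) ^ 4)) := h50.div' h.pk4 (by norm_num)
  have h52 : In (6078565629307612334996557/5000000000000000000000000) (121571312586152246700056977/100000000000000000000000000) (((3 * (jet r s y t).w) / ((fk (jet r s y t)) ^ 4)) * (dk (jet r s y t) (cb r s 0 1 0))) := h51.mul' h22 (by norm_num)
  have h53 : In (13026664109713317304036179/25000000000000000000000000) (13026664109713317304093159/25000000000000000000000000) (((cb r s 0 1 0).w / ((fk (jet r s y t)) ^ 3)) - (((3 * (jet r s y t).w) / ((fk (jet r s y t)) ^ 4)) * (dk (jet r s y t) (cb r s 0 1 0)))) := h49.sub' h52 (by norm_num)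
  have h54 : In (10480608210708084143319/2500000000000000000000000) (52403041053540420716607/12500000000000000000000000) (3 * ((jet r s y t).x ^ 2)) := (In.const (c := 3) (le_refl _) (le_refl _)).mul' h.px2 (by norm_num)
  have h55 : In (20890441326414665958813349/50000000000000000000000000) (41780882652829331917914091/100000000000000000000000000) ((3 * ((jet r s y t).x ^ 2)) * (dD (jet r s y t) (cb r s 0 1 0))) := h54.mul' h48 (by norm_num)
  have h56 : In (16521238057638299677169/160000000000000000000000) (5162886893011968649372969/50000000000000000000000000) ((((cb r s 0 1 0).w / ((fk (jet r s y t)) ^ 3)) - (((3 * (jet r s y t).w) / ((fk (jet r s y t)) ^ 4)) * (dk (jet r s y t) (cb r s 0 1 0)))) - ((3 * ((jet r s y t).x ^ 2)) * (dD (jet r s y t) (cb r s 0 1 0)))) := h53.sub' h55 (by norm_num)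
  have h57 : In (5607301011371179494435327/25000000000000000000000000) (1401825252842794873608987/6250000000000000000000000) (6 * (jet r s y t).x) := (In.const (c := 6) (le_refl _) (le_refl _)).mul' h.hbx (by norm_num)
  have h58 : In (46921439519527628701644817/100000000000000000000000000) (46921439519527628702046613/100000000000000000000000000) ((6 * (jet r s y t).x) * (1 + (fD (jet r s y t)))) := h57.mul' h.pD1 (by norm_num)
  have h59 : In (0) (0) (((6 * (jet r s y t).x) * (1 + (fD (jet r s y t)))) * (cb r s 0 1 0).x) := h58.mul' h13 (by norm_num)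
  have h60 : In (16521238057638299677169/160000000000000000000000) (5162886893011968649372969/50000000000000000000000000) (((((cb r s 0 1 0).w / ((fk (jet r s y t)) ^ 3)) - (((3 * (jet r s y t).w) / ((fk (jet r s y t)) ^ 4)) * (dk (jet r s y t) (cb r s 0 1 0)))) - ((3 * ((jet r s y t).x ^ 2)) * (dD (jet r s y t) (cb r s 0 1 0)))) - (((6 * (jet r s y t).x) * (1 + (fD (jet r s y t)))) * (cb r s 0 1 0).x)) := h56.sub' h59 (by norm_num)
  have h61 : In (16521238057638299677169/160000000000000000000000) (5162886893011968649372969/50000000000000000000000000) ((((((cb r s 0 1 0).w / ((fk (jet r s y t)) ^ 3)) - (((3 * (jet r s y t).w) / ((fk (jet r s y t)) ^ 4)) * (dk (jet r s y t) (cb r s 0 1 0)))) - ((3 * ((jet r s y t).x ^ 2)) * (dD (jet r s y t) (cb r s 0 1 0)))) - (((6 * (jet r s y t).x) * (1 + (fD (jet r s y t)))) * (cb r s 0 1 0).x)) - (cb r s 0 1 0).x) := h60.sub' h13 (by norm_num)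
  have h62 : In (197667273523527532941452132997/100000000000000000000000000) (98833636761763766475715168933/50000000000000000000000000) (((((((cb r s 0 1 0).w / ((fk (jet r s y t)) ^ 3)) - (((3 * (jet r s y t).w) / ((fk (jet r s y t)) ^ 4)) * (dk (jet r s y t) (cb r s 0 1 0)))) - ((3 * ((jet r s y t).x ^ 2)) * (dD (jet r s y t) (cb r s 0 1 0)))) - (((6 * (jet r s y t).x) * (1 + (fD (jet r s y t)))) * (cb r s 0 1 0).x)) - (cb r s 0 1 0).x) / ((jet r s y t).x ^ 3)) := h61.div' h.px3 (by norm_num)
  have h63 : In (373659598753235470248939531/12500000000000000000000000) (747319197506470940662082211/25000000000000000000000000) (3 * (fN (jet r s y t))) := (In.const (c := 3) (le_refl _) (le_refl _)).mul' h.hN (by norm_num)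
  have h64 : In (0) (0) ((3 * (fN (jet r s y t))) * (cb r s 0 1 0).x) := h63.mul' h13 (by norm_num)
  have h65 : In (0) (0) (((3 * (fN (jet r s y t))) * (cb r s 0 1 0).x) / (jet r s y t).x) := h64.div' h.hbx (by norm_num)
  have h66 : In (197667273523527532941452132997/100000000000000000000000000) (98833636761763766475715168933/50000000000000000000000000) ((((((((cb r s 0 1 0).w / ((fk (jet r s y t)) ^ 3)) - (((3 * (jet r s y t).w) / ((fk (jet r s y t)) ^ 4)) * (dk (jet r s y t) (cb r s 0 1 0)))) - ((3 * ((jet r s y t).x ^ 2)) * (dD (jet r s y t) (cb r s 0 1 0)))) - (((6 * (jet r s y t).x) * (1 + (fD (jet r s y t)))) * (cb r s 0 1 0).x)) - (cb r s 0 1 0).x) / ((jet r s y t).x ^ 3)) - (((3 * (fN (jet r s y t))) * (cb r s 0 1 0).x) / (jet r s y t).x)) := h62.sub' h65 (by norm_num)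
  have h67 : In (197667273523527532941452132997/100000000000000000000000000) (98833636761763766475715168933/50000000000000000000000000) (dN (jet r s y t) (cb r s 0 1 0)) := In.congr h66 (by unfold dN; with_reducible rfl)
  have h68 : In (21590483843808617086328646427/100000000000000000000000000) (2159048384380861708796600467/10000000000000000000000000) ((dN (jet r s y t) (cb r s 0 1 0)) / ((1 + (fD (jet r s y t))) ^ 3)) := h67.div' h.pD13 (by norm_num)
  have h69 : In (297918356143902992046352275199/100000000000000000000000000) (148959178071951496056896395087/50000000000000000000000000) ((3 * (fN (jet r s y t))) * (dD (jet r s y t) (cb r s 0 1 0))) := h63.mul' h48 (by norm_num)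
  have h70 : In (15554906335545543988750360013/100000000000000000000000000) (1555490633554554399279746841/10000000000000000000000000) (((3 * (fN (jet r s y t))) * (dD (jet r s y t) (cb r s 0 1 0))) / ((1 + (fD (jet r s y t))) ^ 4)) := h69.div' h.pD14 (by norm_num)
  have h71 : In (6035577508263073093531178017/100000000000000000000000000) (6035577508263073099215644657/100000000000000000000000000) (((dN (jet r s y t) (cb r s 0 1 0)) / ((1 + (fD (jet r s y t))) ^ 3)) - (((3 * (fN (jet r s y t))) * (dD (jet r s y t) (cb r s 0 1 0))) / ((1 + (fD (jet r s y t))) ^ 4))) := h68.sub' h70 (by norm_num)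
  have h72 : In (1506492777885805025288226721/25000000000000000000000000) (1205194222308644021367477457/20000000000000000000000000) ((((dN (jet r s y t) (cb r s 0 1 0)) / ((1 + (fD (jet r s y t))) ^ 3)) - (((3 * (fN (jet r s y t))) * (dD (jet r s y t) (cb r s 0 1 0))) / ((1 + (fD (jet r s y t))) ^ 4))) - (dT (jet r s y t) (cb r s 0 1 0))) := h71.sub' h28 (by norm_num)
  have h73 : In (1506492777885805025288226721/25000000000000000000000000) (1205194222308644021367477457/20000000000000000000000000) (dA (jet r s y t) (cb r s 0 1 0)) := In.congr h72 (by unfold dA; with_reducible rfl)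
  have h74 : In (0) (0) ((cb r s 0 1 0).x * ((fD (jet r s y t)) ^ 2)) := h13.mul' h.pP2 (by norm_num)
  have h75 : In (1869100337123726498145109/25000000000000000000000000) (467275084280931624536329/6250000000000000000000000) (2 * (jet r s y t).x) := (In.const (c := 2) (le_refl _) (le_refl _)).mul' h.hbx (by norm_num)
  have h76 : In (2041019622836909226991959/25000000000000000000000000) (8164078491347636908100941/100000000000000000000000000) ((2 * (jet r s y t).x) * (fD (jet r s y t))) := h75.mul' h.hD (by norm_num)
  have h77 : In (813651265646438575067117589/100000000000000000000000000) (203412816411609643771448393/25000000000000000000000000) (((2 * (jet r s y t).x) * (fD (jet r s y t))) * (dD (jet r s y t) (cb r s 0 1 0))) := h76.mul' h48 (by norm_num)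
  have h78 : In (813651265646438575067117589/100000000000000000000000000) (203412816411609643771448393/25000000000000000000000000) (((cb r s 0 1 0).x * ((fD (jet r s y t)) ^ 2)) + (((2 * (jet r s y t).x) * (fD (jet r s y t))) * (dD (jet r s y t) (cb r s 0 1 0)))) := h74.add' h77 (by norm_num)
  have h79 : In (390870159512299371327895439/50000000000000000000000000) (195435079756149685668558567/25000000000000000000000000) ((((cb r s 0 1 0).x * ((fD (jet r s y t)) ^ 2)) + (((2 * (jet r s y t).x) * (fD (jet r s y t))) * (dD (jet r s y t) (cb r s 0 1 0)))) / (1 + ((jet r s y t).x * (fD (jet r s y t))))) := h78.div' h.pxD1 (by norm_num)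
  have h80 : In (0) (0) ((cb r s 0 1 0).x * (fD (jet r s y t))) := h13.mul' h.hD (by norm_num)
  have h81 : In (186278936016190691469591857/50000000000000000000000000) (186278936016190691470851161/50000000000000000000000000) ((jet r s y t).x * (dD (jet r s y t) (cb r s 0 1 0))) := h.hbx.mul' h48 (by norm_num)
  have h82 : In (186278936016190691469591857/50000000000000000000000000) (186278936016190691470851161/50000000000000000000000000) (((cb r s 0 1 0).x * (fD (jet r s y t))) + ((jet r s y t).x * (dD (jet r s y t) (cb r s 0 1 0)))) := h80.add' h81 (by norm_num)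
  have h83 : In (3191094662183983241080643/20000000000000000000000000) (3988868327729979051509947/25000000000000000000000000) ((fS (jet r s y t)) * (((cb r s 0 1 0).x * (fD (jet r s y t))) + ((jet r s y t).x * (dD (jet r s y t) (cb r s 0 1 0))))) := h.hS.mul' h82 (by norm_num)
  have h84 : In (7664854295013780309590171/50000000000000000000000000) (1916213573753445077475219/12500000000000000000000000) (((fS (jet r s y t)) * (((cb r s 0 1 0).x * (fD (jet r s y t))) + ((jet r s y t).x * (dD (jet r s y t) (cb r s 0 1 0))))) / (1 + ((jet r s y t).x * (fD (jet r s y t))))) := h83.div' h.pxD1 (by norm_num)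
  have h85 : In (383205305217285591017994563/50000000000000000000000000) (383205305217285591027526963/50000000000000000000000000) (((((cb r s 0 1 0).x * ((fD (jet r s y t)) ^ 2)) + (((2 * (jet r s y t).x) * (fD (jet r s y t))) * (dD (jet r s y t) (cb r s 0 1 0)))) / (1 + ((jet r s y t).x * (fD (jet r s y t))))) - (((fS (jet r s y t)) * (((cb r s 0 1 0).x * (fD (jet r s y t))) + ((jet r s y t).x * (dD (jet r s y t) (cb r s 0 1 0))))) / (1 + ((jet r s y t).x * (fD (jet r s y t)))))) := h79.sub' h84 (by norm_num)
  have h86 : In (383205305217285591017994563/50000000000000000000000000) (383205305217285591027526963/50000000000000000000000000) (dS (jet r s y t) (cb r s 0 1 0)) := In.congr h85 (by unfold dS; with_reducible rfl)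
  have h87 : In (0) (0) ((cb r s 0 1 0).x * ((1 + (fD (jet r s y t))) ^ 2)) := h13.mul' h.pD12 (by norm_num)
  have h88 : In (977529989990158931284267/6250000000000000000000000) (3128095967968508580136441/20000000000000000000000000) ((2 * (jet r s y t).x) * (1 + (fD (jet r s y t)))) := h75.mul' h.pD1 (by norm_num)
  have h89 : In (1558767009711201340945485017/100000000000000000000000000) (311753401942240268193839643/20000000000000000000000000) (((2 * (jet r s y t).x) * (1 + (fD (jet r s y t)))) * (dD (jet r s y t) (cb r s 0 1 0))) := h88.mul' h48 (by norm_num)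
  have h90 : In (1558767009711201340945485017/100000000000000000000000000) (311753401942240268193839643/20000000000000000000000000) (((cb r s 0 1 0).x * ((1 + (fD (jet r s y t))) ^ 2)) + (((2 * (jet r s y t).x) * (1 + (fD (jet r s y t)))) * (dD (jet r s y t) (cb r s 0 1 0)))) := h87.add' h89 (by norm_num)
  have h91 : In (1558767009711201340945485017/100000000000000000000000000) (311753401942240268193839643/20000000000000000000000000) (dP (jet r s y t) (cb r s 0 1 0)) := In.congr h90 (by unfold dP; with_reducible rfl)
  have h92 : In (569319697878350424373055601/25000000000000000000000000) (1138639395756700848772931153/50000000000000000000000000) ((dD (jet r s y t) (cb r s 0 1 0)) / ((1 + (fD (jet r s y t))) ^ 2)) := h48.div' h.pD12 (by norm_num)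
  have h93 : In (1221262061122768620171408921/100000000000000000000000000) (610631030561384310112709837/50000000000000000000000000) (((dD (jet r s y t) (cb r s 0 1 0)) / ((1 + (fD (jet r s y t))) ^ 2)) - (dY (jet r s y t) (cb r s 0 1 0))) := h92.sub' h36 (by norm_num)
  have h94 : In (90970290137639487623270999/20000000000000000000000000) (113712862672049359547357637/25000000000000000000000000) ((((dD (jet r s y t) (cb r s 0 1 0)) / ((1 + (fD (jet r s y t))) ^ 2)) - (dY (jet r s y t) (cb r s 0 1 0))) - (dS (jet r s y t) (cb r s 0 1 0))) := h93.sub' h86 (by norm_num)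
  have h95 : In (184400245367831302590449/25000000000000000000000000) (184400245367831302590727/25000000000000000000000000) (2 * (fT (jet r s y t))) := (In.const (c := 2) (le_refl _) (le_refl _)).mul' h.hT (by norm_num)
  have h96 : In (1360138019668655590719/100000000000000000000000000) (340034504917163897681/25000000000000000000000000) ((fT (jet r s y t)) ^ 2) := h.hT.pow' 2 (by norm_num)
  have h97 : In (11518682145218182499567203/100000000000000000000000000) (11518682145218182499759847/100000000000000000000000000) ((dP (jet r s y t) (cb r s 0 1 0)) * ((2 * (fT (jet r s y t))) + ((fT (jet r s y t)) ^ 2))) := h91.mul' h.pTT (by norm_num)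
  have h98 : In (110833192135744813904148787/25000000000000000000000000) (88666553708595851137972669/20000000000000000000000000) (((((dD (jet r s y t) (cb r s 0 1 0)) / ((1 + (fD (jet r s y t))) ^ 2)) - (dY (jet r s y t) (cb r s 0 1 0))) - (dS (jet r s y t) (cb r s 0 1 0))) - ((dP (jet r s y t) (cb r s 0 1 0)) * ((2 * (fT (jet r s y t))) + ((fT (jet r s y t)) ^ 2)))) := h94.sub' h97 (by norm_num)
  have h99 : In (50184400245367831302590449/25000000000000000000000000) (50184400245367831302590727/25000000000000000000000000) (2 + (2 * (fT (jet r s y t)))) := (In.const (c := 2) (le_refl _) (le_refl _)).add' h95 (by norm_num)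
  have h100 : In (19283650316195649619602661/100000000000000000000000000) (2410456289524456202453799/12500000000000000000000000) ((2 + (2 * (fT (jet r s y t)))) * (dT (jet r s y t) (cb r s 0 1 0))) := h99.mul' h28 (by norm_num)
  have h101 : In (1577381687650984835238613/50000000000000000000000000) (788690843825492417633861/25000000000000000000000000) (((jet r s y t).x * ((1 + (fD (jet r s y t))) ^ 2)) * ((2 + (2 * (fT (jet r s y t)))) * (dT (jet r s y t) (cb r s 0 1 0)))) := h.pxD12.mul' h100 (by norm_num)
  have h102 : In (55022250645959660743257463/12500000000000000000000000) (440178005167677286019386119/100000000000000000000000000) ((((((dD (jet r s y t) (cb r s 0 1 0)) / ((1 + (fD (jet r s y t))) ^ 2)) - (dY (jet r s y t) (cb r s 0 1 0))) - (dS (jet r s y t) (cb r s 0 1 0))) - ((dP (jet r s y t) (cb r s 0 1 0)) * ((2 * (fT (jet r s y t))) + ((fT (jet r s y t)) ^ 2)))) - (((jet r s y t).x * ((1 + (fD (jet r s y t))) ^ 2)) * ((2 + (2 * (fT (jet r s y t)))) * (dT (jet r s y t) (cb r s 0 1 0))))) := h98.sub' h101 (by norm_num)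
  have h103 : In (55022250645959660743257463/25000000000000000000000000) (11004450129191932150484653/5000000000000000000000000) (((((((dD (jet r s y t) (cb r s 0 1 0)) / ((1 + (fD (jet r s y t))) ^ 2)) - (dY (jet r s y t) (cb r s 0 1 0))) - (dS (jet r s y t) (cb r s 0 1 0))) - ((dP (jet r s y t) (cb r s 0 1 0)) * ((2 * (fT (jet r s y t))) + ((fT (jet r s y t)) ^ 2)))) - (((jet r s y t).x * ((1 + (fD (jet r s y t))) ^ 2)) * ((2 + (2 * (fT (jet r s y t)))) * (dT (jet r s y t) (cb r s 0 1 0))))) / 2) := h102.div' (In.const (c := 2) (le_refl _) (le_refl _)) (by norm_num)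
  have h104 : In (55022250645959660743257463/25000000000000000000000000) (11004450129191932150484653/5000000000000000000000000) (dK (jet r s y t) (cb r s 0 1 0)) := In.congr h103 (by unfold dK; with_reducible rfl)
  have h105 : In (4417988276685232480269031/50000000000000000000000000) (8835976553370464987212711/100000000000000000000000000) ((Real.exp (fA (jet r s y t))) - 1) := h.hE.sub' (In.const (c := 1) (le_refl _) (le_refl _)) (by norm_num)
  have h106 : In (532453394528836516099467341/100000000000000000000000000) (26622669726441825910457667/5000000000000000000000000) (((Real.exp (fA (jet r s y t))) - 1) * (dA (jet r s y t) (cb r s 0 1 0))) := h105.mul' h73 (by norm_num)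
  have h107 : In (32677937363061470232574763/6250000000000000000000000) (16338968681530735182215499/3125000000000000000000000) ((((Real.exp (fA (jet r s y t))) - 1) * (dA (jet r s y t) (cb r s 0 1 0))) - (dT (jet r s y t) (cb r s 0 1 0))) := h106.sub' h28 (by norm_num)
  have h108 : In (32677937363061470232574763/6250000000000000000000000) (16338968681530735182215499/3125000000000000000000000) (dM (jet r s y t) (cb r s 0 1 0)) := In.congr h107 (by unfold dM; with_reducible rfl)
  have h109 : In (0) (0) ((fM (jet r s y t)) * (dA (jet r s y t) (cb r s 0 1 0))) := h.hM.mul' h73 (by norm_num)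
  have h110 : In (50836907721570462805317/6250000000000000000000000) (406695261772563703724329/50000000000000000000000000) ((fA (jet r s y t)) * (dT (jet r s y t) (cb r s 0 1 0))) := h.hA.mul' h28 (by norm_num)
  have h111 : In (-406695261772563703724329/50000000000000000000000000) (-50836907721570462805317/6250000000000000000000000) (((fM (jet r s y t)) * (dA (jet r s y t) (cb r s 0 1 0))) - ((fA (jet r s y t)) * (dT (jet r s y t) (cb r s 0 1 0)))) := h109.sub' h110 (by norm_num)
  have h112 : In (-406695261772563703724329/50000000000000000000000000) (-50836907721570462805317/6250000000000000000000000) (dG (jet r s y t) (cb r s 0 1 0)) := In.congr h111 (by unfold dG; with_reducible rfl)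
  have h113 : In (-13026209693620565827149/4000000000000000000000000) (-65131048468102821785099/20000000000000000000000000) ((dP (jet r s y t) (cb r s 0 1 0)) * (fG (jet r s y t))) := h91.mulN' h.hG (by norm_num)
  have h114 : In (219763347341498128827351127/100000000000000000000000000) (43952669468299625780153513/20000000000000000000000000) ((dK (jet r s y t) (cb r s 0 1 0)) + ((dP (jet r s y t) (cb r s 0 1 0)) * (fG (jet r s y t)))) := h104.add' h113 (by norm_num)
  have h115 : In (-66534462910860934749219/50000000000000000000000000) (-16633615727715233634597/12500000000000000000000000) (((jet r s y t).x * ((1 + (fD (jet r s y t))) ^ 2)) * (dG (jet r s y t) (cb r s 0 1 0))) := h.pxD12.mulN' h112 (by norm_num)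
  have h116 : In (219630278415676406957852689/100000000000000000000000000) (219630278415676407031690789/100000000000000000000000000) (((dK (jet r s y t) (cb r s 0 1 0)) + ((dP (jet r s y t) (cb r s 0 1 0)) * (fG (jet r s y t)))) + (((jet r s y t).x * ((1 + (fD (jet r s y t))) ^ 2)) * (dG (jet r s y t) (cb r s 0 1 0)))) := h114.add' h115 (by norm_num)
  have h117 : In (32849258532673313871/50000000000000000000000000) (65698517065346627751/100000000000000000000000000) (9 * ((jet r s y t).x ^ 5)) := (In.const (c := 9) (le_refl _) (le_refl _)).mul' h.px5 (by norm_num)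
  have h118 : In (172948091713556405809/100000000000000000000000000) (34589618342711281173/20000000000000000000000000) ((9 * ((jet r s y t).x ^ 5)) * ((fD (jet r s y t)) ^ 11)) := h117.mul' h.pP11 (by norm_num)
  have h119 : In (0) (0) (((9 * ((jet r s y t).x ^ 5)) * ((fD (jet r s y t)) ^ 11)) * (cb r s 0 1 0).x) := h118.mul' h13 (by norm_num)
  have h120 : In (900512216232700721/20000000000000000000000000) (2251280540581751811/50000000000000000000000000) ((33 / 2) * ((jet r s y t).x ^ 6)) := (In.const (c := (33 / 2)) (le_refl _) (le_refl _)).mul' h.px6 (by norm_num)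
  have h121 : In (5427192932651235281/50000000000000000000000000) (5427192932651235303/50000000000000000000000000) (((33 / 2) * ((jet r s y t).x ^ 6)) * ((fD (jet r s y t)) ^ 10)) := h120.mul' h.pP10 (by norm_num)
  have h122 : In (270443406640384052921/25000000000000000000000000) (1081773626561536216077/100000000000000000000000000) ((((33 / 2) * ((jet r s y t).x ^ 6)) * ((fD (jet r s y t)) ^ 10)) * (dD (jet r s y t) (cb r s 0 1 0))) := h121.mul' h48 (by norm_num)
  have h123 : In (270443406640384052921/25000000000000000000000000) (1081773626561536216077/100000000000000000000000000) ((((9 * ((jet r s y t).x ^ 5)) * ((fD (jet r s y t)) ^ 11)) * (cb r s 0 1 0).x) + ((((33 / 2) * ((jet r s y t).x ^ 6)) * ((fD (jet r s y t)) ^ 10)) * (dD (jet r s y t) (cb r s 0 1 0)))) := h119.add' h122 (by norm_num)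
  have h124 : In (219631360189302968494064373/100000000000000000000000000) (109815680094651484283953433/50000000000000000000000000) ((((dK (jet r s y t) (cb r s 0 1 0)) + ((dP (jet r s y t) (cb r s 0 1 0)) * (fG (jet r s y t)))) + (((jet r s y t).x * ((1 + (fD (jet r s y t))) ^ 2)) * (dG (jet r s y t) (cb r s 0 1 0)))) + ((((9 * ((jet r s y t).x ^ 5)) * ((fD (jet r s y t)) ^ 11)) * (cb r s 0 1 0).x) + ((((33 / 2) * ((jet r s y t).x ^ 6)) * ((fD (jet r s y t)) ^ 10)) * (dD (jet r s y t) (cb r s 0 1 0))))) := h116.add' h123 (by norm_num)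
  have h125 : In (2640245783491051054483/25000000000000000000000000) (10560983133964204219307/100000000000000000000000000) (((jet r s y t).x ^ 3) * ((fD (jet r s y t)) ^ 8)) := h.px3.mul' h.pP8 (by norm_num)
  have h126 : In (0) (0) ((((jet r s y t).x ^ 3) * ((fD (jet r s y t)) ^ 8)) * (cb r s 0 1 0).x) := h125.mul' h13 (by norm_num)
  have h127 : In (3905534167692860767/1000000000000000000000000) (195276708384643038351/50000000000000000000000000) (2 * ((jet r s y t).x ^ 4)) := (In.const (c := 2) (le_refl _) (le_refl _)).mul' h.px4 (by norm_num)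
  have h128 : In (144614682202323707083/20000000000000000000000000) (361536705505809267751/50000000000000000000000000) ((2 * ((jet r s y t).x ^ 4)) * ((fD (jet r s y t)) ^ 7)) := h127.mul' h.pP7 (by norm_num)
  have h129 : In (7206319692398938127311/10000000000000000000000000) (72063196923989381282261/100000000000000000000000000) (((2 * ((jet r s y t).x ^ 4)) * ((fD (jet r s y t)) ^ 7)) * (dD (jet r s y t) (cb r s 0 1 0))) := h128.mul' h48 (by norm_num)
  have h130 : In (7206319692398938127311/10000000000000000000000000) (72063196923989381282261/100000000000000000000000000) (((((jet r s y t).x ^ 3) * ((fD (jet r s y t)) ^ 8)) * (cb r s 0 1 0).x) + (((2 * ((jet r s y t).x ^ 4)) * ((fD (jet r s y t)) ^ 7)) * (dD (jet r s y t) (cb r s 0 1 0)))) := h126.add' h129 (by norm_num)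
  have h131 : In (6861228031011843097274441/3125000000000000000000000) (54889824248094744796658439/25000000000000000000000000) (((((dK (jet r s y t) (cb r s 0 1 0)) + ((dP (jet r s y t) (cb r s 0 1 0)) * (fG (jet r s y t)))) + (((jet r s y t).x * ((1 + (fD (jet r s y t))) ^ 2)) * (dG (jet r s y t) (cb r s 0 1 0)))) + ((((9 * ((jet r s y t).x ^ 5)) * ((fD (jet r s y t)) ^ 11)) * (cb r s 0 1 0).x) + ((((33 / 2) * ((jet r s y t).x ^ 6)) * ((fD (jet r s y t)) ^ 10)) * (dD (jet r s y t) (cb r s 0 1 0))))) - (((((jet r s y t).x ^ 3) * ((fD (jet r s y t)) ^ 8)) * (cb r s 0 1 0).x) + (((2 * ((jet r s y t).x ^ 4)) * ((fD (jet r s y t)) ^ 7)) * (dD (jet r s y t) (cb r s 0 1 0))))) := h124.sub' h130 (by norm_num)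
  have h132 : In (6861228031011843097274441/3125000000000000000000000) (54889824248094744796658439/25000000000000000000000000) (dT0 (jet r s y t) (cb r s 0 1 0)) := In.congr h131 (by unfold dT0; with_reducible rfl)
  have h133 : In (2382010499980491823439731369/50000000000000000000000000) (4764020999960983646951408853/100000000000000000000000000) ((dD (jet r s y t) (cb r s 0 1 0)) / (1 + (fD (jet r s y t)))) := h48.div' h.pD1 (by norm_num)
  have h134 : In (999402597381603116206102203/25000000000000000000000000) (3997610389526412464915419727/100000000000000000000000000) (((dD (jet r s y t) (cb r s 0 1 0)) / (1 + (fD (jet r s y t)))) - (dS (jet r s y t) (cb r s 0 1 0))) := h133.sub' h86 (by norm_num)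
  have h135 : In (236128193283377092852360941/6250000000000000000000000) (755610218506806697160527523/20000000000000000000000000) ((((dD (jet r s y t) (cb r s 0 1 0)) / (1 + (fD (jet r s y t)))) - (dS (jet r s y t) (cb r s 0 1 0))) - (dT0 (jet r s y t) (cb r s 0 1 0))) := h134.sub' h132 (by norm_num)
  have h136 : In (236128193283377092852360941/6250000000000000000000000) (755610218506806697160527523/20000000000000000000000000) (dNet (jet r s y t) (cb r s 0 1 0)) := In.congr h135 (by unfold dNet; with_reducible rfl)
  have h137 : In (0) (0) ((2 * (jet r s y t).x) * (cb r s 0 1 0).x) := h75.mul' h13 (by norm_num)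
  have h138 : In (0) (0) (((2 * (jet r s y t).x) * (cb r s 0 1 0).x) * ((1 + (fD (jet r s y t))) ^ 3)) := h137.mul' h.pD13 (by norm_num)
  have h139 : In (14333473219952403305903/781250000000000000000000) (91734228607695381159351/5000000000000000000000000) ((3 * ((jet r s y t).x ^ 2)) * ((1 + (fD (jet r s y t))) ^ 2)) := h54.mul' h.pD12 (by norm_num)
  have h140 : In (36569795985599534794752833/20000000000000000000000000) (91424489963998836989056509/50000000000000000000000000) (((3 * ((jet r s y t).x ^ 2)) * ((1 + (fD (jet r s y t))) ^ 2)) * (dD (jet r s y t) (cb r s 0 1 0))) := h139.mul' h48 (by norm_num)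
  have h141 : In (36569795985599534794752833/20000000000000000000000000) (91424489963998836989056509/50000000000000000000000000) ((((2 * (jet r s y t).x) * (cb r s 0 1 0).x) * ((1 + (fD (jet r s y t))) ^ 3)) + (((3 * ((jet r s y t).x ^ 2)) * ((1 + (fD (jet r s y t))) ^ 2)) * (dD (jet r s y t) (cb r s 0 1 0)))) := h138.add' h140 (by norm_num)
  have h142 : In (36569795985599534794752833/20000000000000000000000000) (91424489963998836989056509/50000000000000000000000000) (dQ (jet r s y t) (cb r s 0 1 0)) := In.congr h141 (by unfold dQ; with_reducible rfl)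
  have h143 : In (186278936016190691469591857/50000000000000000000000000) (186278936016190691470851161/50000000000000000000000000) (dU (jet r s y t) (cb r s 0 1 0)) := In.congr h82 (by unfold dU; with_reducible rfl)
  have h144 : In (8293013231483583759371777/12500000000000000000000000) (66344105851868670074986969/100000000000000000000000000) (1 / (fk (jet r s y t))) := (In.const (c := 1) (le_refl _) (le_refl _)).div' h.hk (by norm_num)
  have h145 : In (33655894148131329925013031/100000000000000000000000000) (4206986768516416240628223/12500000000000000000000000) (1 - (1 / (fk (jet r s y t)))) := (In.const (c := 1) (le_refl _) (le_refl _)).sub' h144 (by norm_num)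
  have h146 : In (17618403501273756515788229/4000000000000000000000000) (440460087531843912894925081/100000000000000000000000000) ((1 - (1 / (fk (jet r s y t)))) * (dk (jet r s y t) (cb r s 0 1 0))) := h145.mul' h22 (by norm_num)
  have h147 : In (110115021882960978223676431/50000000000000000000000000) (220230043765921956447462541/100000000000000000000000000) (((1 - (1 / (fk (jet r s y t)))) * (dk (jet r s y t) (cb r s 0 1 0))) / 2) := h146.div' (In.const (c := 2) (le_refl _) (le_refl _)) (by norm_num)
  have h148 : In (132002091298829134665055329/50000000000000000000000000) (264004182597658269330203371/100000000000000000000000000) ((dY (jet r s y t) (cb r s 0 1 0)) / 4) := h36.div' (In.const (c := 4) (le_refl _) (le_refl _)) (by norm_num)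
  have h149 : In (-43774138831736312882850509/100000000000000000000000000) (-43774138831736312882648117/100000000000000000000000000) ((((1 - (1 / (fk (jet r s y t)))) * (dk (jet r s y t) (cb r s 0 1 0))) / 2) - ((dY (jet r s y t) (cb r s 0 1 0)) / 4)) := h147.sub' h148 (by norm_num)
  have h150 : In (800533059987749364854781/25000000000000000000000000) (3202132239950997459423711/100000000000000000000000000) ((dT (jet r s y t) (cb r s 0 1 0)) / 3) := h28.div' (In.const (c := 3) (le_refl _) (le_refl _)) (by norm_num)
  have h151 : In (-8114401318357063084686277/20000000000000000000000000) (-20286003295892657711612203/50000000000000000000000000) (((((1 - (1 / (fk (jet r s y t)))) * (dk (jet r s y t) (cb r s 0 1 0))) / 2) - ((dY (jet r s y t) (cb r s 0 1 0)) / 4)) + ((dT (jet r s y t) (cb r s 0 1 0)) / 3)) := h149.add' h150 (by norm_num)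
  have h152 : In (186278936016190691469591857/50000000000000000000000000) (186278936016190691470851161/50000000000000000000000000) ((cb r s 0 1 0).x + (dU (jet r s y t) (cb r s 0 1 0))) := h13.add' h143 (by norm_num)
  have h153 : In (88222479778463505650339157/50000000000000000000000000) (44111239889231752825485727/25000000000000000000000000) (((cb r s 0 1 0).x + (dU (jet r s y t) (cb r s 0 1 0))) * (fY (jet r s y t))) := h152.mul' h.hY (by norm_num)
  have h154 : In (88222479778463505650339157/100000000000000000000000000) (44111239889231752825485727/50000000000000000000000000) ((((cb r s 0 1 0).x + (dU (jet r s y t) (cb r s 0 1 0))) * (fY (jet r s y t))) / 2) := h153.div' (In.const (c := 2) (le_refl _) (le_refl _)) (by norm_num)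
  have h155 : In (-128794486370248821074402839/100000000000000000000000000) (-128794486370248821073563563/100000000000000000000000000) ((((((1 - (1 / (fk (jet r s y t)))) * (dk (jet r s y t) (cb r s 0 1 0))) / 2) - ((dY (jet r s y t) (cb r s 0 1 0)) / 4)) + ((dT (jet r s y t) (cb r s 0 1 0)) / 3)) - ((((cb r s 0 1 0).x + (dU (jet r s y t) (cb r s 0 1 0))) * (fY (jet r s y t))) / 2)) := h151.sub' h154 (by norm_num)
  have h156 : In (977529989990158931284267/12500000000000000000000000) (7820239919921271450341103/100000000000000000000000000) ((jet r s y t).x * (1 + (fD (jet r s y t)))) := h.hbx.mul' h.pD1 (by norm_num)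
  have h157 : In (2580720059720489787394959/3125000000000000000000000) (82583041911055673197374873/100000000000000000000000000) (((jet r s y t).x * (1 + (fD (jet r s y t)))) * (dY (jet r s y t) (cb r s 0 1 0))) := h156.mul' h36 (by norm_num)
  have h158 : In (2580720059720489787394959/6250000000000000000000000) (41291520955527836598687437/100000000000000000000000000) ((((jet r s y t).x * (1 + (fD (jet r s y t)))) * (dY (jet r s y t) (cb r s 0 1 0))) / 2) := h157.div' (In.const (c := 2) (le_refl _) (le_refl _)) (by norm_num)
  have h159 : In (-42521501831444164418272569/25000000000000000000000000) (-170086007325776657671882907/100000000000000000000000000) (((((((1 - (1 / (fk (jet r s y t)))) * (dk (jet r s y t) (cb r s 0 1 0))) / 2) - ((dY (jet r s y t) (cb r s 0 1 0)) / 4)) + ((dT (jet r s y t) (cb r s 0 1 0)) / 3)) - ((((cb r s 0 1 0).x + (dU (jet r s y t) (cb r s 0 1 0))) * (fY (jet r s y t))) / 2)) - ((((jet r s y t).x * (1 + (fD (jet r s y t)))) * (dY (jet r s y t) (cb r s 0 1 0))) / 2)) := h155.sub' h158 (by norm_num)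
  have h160 : In (-10445924256533037738309/100000000000000000000000000) (-10445924256533036559547/100000000000000000000000000) ((fG (jet r s y t)) / 2) := h.hG.divN' (In.const (c := 2) (le_refl _) (le_refl _)) (by norm_num)
  have h161 : In (2886566873011694788877/1562500000000000000000000) (23092534984093558311051/12500000000000000000000000) (((2 * (fT (jet r s y t))) + ((fT (jet r s y t)) ^ 2)) / 4) := h.pTT.div' (In.const (c := 4) (le_refl _) (le_refl _)) (by norm_num)
  have h162 : In (-195186204129281504226717/100000000000000000000000000) (-7807448165171260121907/4000000000000000000000000) (((fG (jet r s y t)) / 2) - (((2 * (fT (jet r s y t))) + ((fT (jet r s y t)) ^ 2)) / 4)) := h160.sub' h161 (by norm_num)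
  have h163 : In (-178447991605285252380149/50000000000000000000000000) (-356895983210570502595943/100000000000000000000000000) ((dQ (jet r s y t) (cb r s 0 1 0)) * (((fG (jet r s y t)) / 2) - (((2 * (fT (jet r s y t))) + ((fT (jet r s y t)) ^ 2)) / 4))) := h142.mulN' h162 (by norm_num)
  have h164 : In (-85221451654493614088925287/50000000000000000000000000) (-3408858066179744563489577/2000000000000000000000000) ((((((((1 - (1 / (fk (jet r s y t)))) * (dk (jet r s y t) (cb r s 0 1 0))) / 2) - ((dY (jet r s y t) (cb r s 0 1 0)) / 4)) + ((dT (jet r s y t) (cb r s 0 1 0)) / 3)) - ((((cb r s 0 1 0).x + (dU (jet r s y t) (cb r s 0 1 0))) * (fY (jet r s y t))) / 2)) - ((((jet r s y t).x * (1 + (fD (jet r s y t)))) * (dY (jet r s y t) (cb r s 0 1 0))) / 2)) + ((dQ (jet r s y t) (cb r s 0 1 0)) * (((fG (jet r s y t)) / 2) - (((2 * (fT (jet r s y t))) + ((fT (jet r s y t)) ^ 2)) / 4)))) := h159.add' h163 (by norm_num)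
  have h165 : In (319843573194253288604361/25000000000000000000000000) (1279374292777013154450179/100000000000000000000000000) (((jet r s y t).x ^ 2) * ((1 + (fD (jet r s y t))) ^ 3)) := h.px2.mul' h.pD13 (by norm_num)
  have h166 : In (-406695261772563703724329/100000000000000000000000000) (-50836907721570462805317/12500000000000000000000000) ((dG (jet r s y t) (cb r s 0 1 0)) / 2) := h112.divN' (In.const (c := 2) (le_refl _) (le_refl _)) (by norm_num)
  have h167 : In (50184400245367831302590449/50000000000000000000000000) (50184400245367831302590727/50000000000000000000000000) (1 + (fT (jet r s y t))) := (In.const (c := 1) (le_refl _) (le_refl _)).add' h.hT (by norm_num)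
  have h168 : In (964182515809782480980133/10000000000000000000000000) (2410456289524456202453799/25000000000000000000000000) ((1 + (fT (jet r s y t))) * (dT (jet r s y t) (cb r s 0 1 0))) := h167.mul' h28 (by norm_num)
  have h169 : In (964182515809782480980133/20000000000000000000000000) (2410456289524456202453799/50000000000000000000000000) (((1 + (fT (jet r s y t))) * (dT (jet r s y t) (cb r s 0 1 0))) / 2) := h168.div' (In.const (c := 2) (le_refl _) (le_refl _)) (by norm_num)
  have h170 : In (-5227607840821476108631927/100000000000000000000000000) (-5227607840821476107343201/100000000000000000000000000) (((dG (jet r s y t) (cb r s 0 1 0)) / 2) - (((1 + (fT (jet r s y t))) * (dT (jet r s y t) (cb r s 0 1 0))) / 2)) := h166.sub' h169 (by norm_num)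
  have h171 : In (-66880670842665447535011/100000000000000000000000000) (-66880670842665447516811/100000000000000000000000000) ((((jet r s y t).x ^ 2) * ((1 + (fD (jet r s y t))) ^ 3)) * (((dG (jet r s y t) (cb r s 0 1 0)) / 2) - (((1 + (fT (jet r s y t))) * (dT (jet r s y t) (cb r s 0 1 0))) / 2))) := h165.mulN' h170 (by norm_num)
  have h172 : In (-34101956795965978725077117/20000000000000000000000000) (-170509783979829893621995661/100000000000000000000000000) (((((((((1 - (1 / (fk (jet r s y t)))) * (dk (jet r s y t) (cb r s 0 1 0))) / 2) - ((dY (jet r s y t) (cb r s 0 1 0)) / 4)) + ((dT (jet r s y t) (cb r s 0 1 0)) / 3)) - ((((cb r s 0 1 0).x + (dU (jet r s y t) (cb r s 0 1 0))) * (fY (jet r s y t))) / 2)) - ((((jet r s y t).x * (1 + (fD (jet r s y t)))) * (dY (jet r s y t) (cb r s 0 1 0))) / 2)) + ((dQ (jet r s y t) (cb r s 0 1 0)) * (((fG (jet r s y t)) / 2) - (((2 * (fT (jet r s y t))) + ((fT (jet r s y t)) ^ 2)) / 4)))) + ((((jet r s y t).x ^ 2) * ((1 + (fD (jet r s y t))) ^ 3)) * (((dG (jet r s y t) (cb r s 0 1 0)) / 2) - (((1 + (fT (jet r s y t))) * (dT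 (jet r s y t) (cb r s 0 1 0))) / 2)))) := h164.add' h171 (by norm_num)
  have h173 : In (558836808048572074408775571/100000000000000000000000000) (558836808048572074412553483/100000000000000000000000000) ((3 / 2) * (dU (jet r s y t) (cb r s 0 1 0))) := (In.const (c := (3 / 2)) (le_refl _) (le_refl _)).mul' h143 (by norm_num)
  have h174 : In (194163512034371090391694993/50000000000000000000000000) (194163512034371090395278911/50000000000000000000000000) ((((((((((1 - (1 / (fk (jet r s y t)))) * (dk (jet r s y t) (cb r s 0 1 0))) / 2) - ((dY (jet r s y t) (cb r s 0 1 0)) / 4)) + ((dT (jet r s y t) (cb r s 0 1 0)) / 3)) - ((((cb r s 0 1 0).x + (dU (jet r s y t) (cb r s 0 1 0))) * (fY (jet r s y t))) / 2)) - ((((jet r s y t).x * (1 + (fD (jet r s y t)))) * (dY (jet r s y t) (cb r s 0 1 0))) / 2)) + ((dQ (jet r s y t) (cb r s 0 1 0)) * (((fG (jet r s y t)) / 2) - (((2 * (fT (jet r s y t))) + ((fT (jet r s y t)) ^ 2)) / 4)))) + ((((jet r s y t).x ^ 2) * ((1 + (fD (jet r s y t))) ^ 3)) * (((dG (jet r s y t) (cb r s 0 1 0)) / 2) - (((1 + (fT (jet r s y t))) * (dT (jet r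 s y t) (cb r s 0 1 0))) / 2)))) + ((3 / 2) * (dU (jet r s y t) (cb r s 0 1 0)))) := h172.add' h173 (by norm_num)
  have h175 : In (6084379823091326105061/62500000000000000000000) (1216875964618265221071449/12500000000000000000000000) ((2 * (jet r s y t).x) * ((fD (jet r s y t)) ^ 3)) := h75.mul' h.pP3 (by norm_num)
  have h176 : In (0) (0) (((2 * (jet r s y t).x) * ((fD (jet r s y t)) ^ 3)) * (cb r s 0 1 0).x) := h175.mul' h13 (by norm_num)
  have h177 : In (499891332096638303153673/100000000000000000000000000) (249945666048319151584989/50000000000000000000000000) ((3 * ((jet r s y t).x ^ 2)) * ((fD (jet r s y t)) ^ 2)) := h54.mul' h.pP2 (by norm_num)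
  have h178 : In (12455086494978509234271659/25000000000000000000000000) (9964069195982807387808583/20000000000000000000000000) (((3 * ((jet r s y t).x ^ 2)) * ((fD (jet r s y t)) ^ 2)) * (dD (jet r s y t) (cb r s 0 1 0))) := h177.mul' h48 (by norm_num)
  have h179 : In (12455086494978509234271659/25000000000000000000000000) (9964069195982807387808583/20000000000000000000000000) ((((2 * (jet r s y t).x) * ((fD (jet r s y t)) ^ 3)) * (cb r s 0 1 0).x) + (((3 * ((jet r s y t).x ^ 2)) * ((fD (jet r s y t)) ^ 2)) * (dD (jet r s y t) (cb r s 0 1 0)))) := h176.add' h178 (by norm_num)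
  have h180 : In (52041019622836909226991959/12500000000000000000000000) (104082039245673818454050471/25000000000000000000000000) (4 * (1 + ((jet r s y t).x * (fD (jet r s y t))))) := (In.const (c := 4) (le_refl _) (le_refl _)).mul' h.pxD1 (by norm_num)
  have h181 : In (2991651245797484288513087/25000000000000000000000000) (1196660498318993715452989/10000000000000000000000000) (((((2 * (jet r s y t).x) * ((fD (jet r s y t)) ^ 3)) * (cb r s 0 1 0).x) + (((3 * ((jet r s y t).x ^ 2)) * ((fD (jet r s y t)) ^ 2)) * (dD (jet r s y t) (cb r s 0 1 0)))) / (4 * (1 + ((jet r s y t).x * (fD (jet r s y t)))))) := h179.div' h180 (by norm_num)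
  have h182 : In (200146814525966058968721167/50000000000000000000000000) (12509175907872878685783991/3125000000000000000000000) (((((((((((1 - (1 / (fk (jet r s y t)))) * (dk (jet r s y t) (cb r s 0 1 0))) / 2) - ((dY (jet r s y t) (cb r s 0 1 0)) / 4)) + ((dT (jet r s y t) (cb r s 0 1 0)) / 3)) - ((((cb r s 0 1 0).x + (dU (jet r s y t) (cb r s 0 1 0))) * (fY (jet r s y t))) / 2)) - ((((jet r s y t).x * (1 + (fD (jet r s y t)))) * (dY (jet r s y t) (cb r s 0 1 0))) / 2)) + ((dQ (jet r s y t) (cb r s 0 1 0)) * (((fG (jet r s y t)) / 2) - (((2 * (fT (jet r s y t))) + ((fT (jet r s y t)) ^ 2)) / 4)))) + ((((jet r s y t).x ^ 2) * ((1 + (fD (jet r s y t))) ^ 3)) * (((dG (jet r s y t) (cb r s 0 1 0)) / 2) - (((1 + (fT (jet r s y t))) * (dT (jet r s y t) (cb r s 0 1 0))) / 2)))) + ((3 / 2) * (dU (jet r s y t) (cb r s 0 1 0)))) + (((((2 * (jet r s y t).x) * ((fD (jet r s y t)) ^ 3)) * (cb r s 0 1 0).x) + (((3 * ((jet r s y t).x ^ 2)) * ((fD (jet r s y t)) ^ 2)) * (dD (jet r s y t) (cb r s 0 1 0)))) / (4 * (1 + ((jet r s y t).x * (fD (jet r s y t))))))) := h174.add' h181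 (by norm_num)
  have h183 : In (7278282482258430088731/4000000000000000000000000) (181957062056460752227157/100000000000000000000000000) (((jet r s y t).x ^ 2) * ((fD (jet r s y t)) ^ 3)) := h.px2.mul' h.pP3 (by norm_num)
  have h184 : In (169473839602547457507247/25000000000000000000000000) (677895358410189830066663/100000000000000000000000000) ((((jet r s y t).x ^ 2) * ((fD (jet r s y t)) ^ 3)) * (dU (jet r s y t) (cb r s 0 1 0))) := h183.mul' h143 (by norm_num)
  have h185 : In (108330708935379849675685727/25000000000000000000000000) (27082677233844962418956067/6250000000000000000000000) (4 * ((1 + ((jet r s y t).x * (fD (jet r s y t)))) ^ 2)) := (In.const (c := 4) (le_refl _) (le_refl _)).mul' h.pxD2 (by norm_num)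
  have h186 : In (78220590111544448276583/50000000000000000000000000) (156441180223088896562061/100000000000000000000000000) (((((jet r s y t).x ^ 2) * ((fD (jet r s y t)) ^ 3)) * (dU (jet r s y t) (cb r s 0 1 0))) / (4 * ((1 + ((jet r s y t).x * (fD (jet r s y t)))) ^ 2))) := h184.div' h185 (by norm_num)
  have h187 : In (400137187871709029040880273/100000000000000000000000000) (200068593935854514524267273/50000000000000000000000000) ((((((((((((1 - (1 / (fk (jet r s y t)))) * (dk (jet r s y t) (cb r s 0 1 0))) / 2) - ((dY (jet r s y t) (cb r s 0 1 0)) / 4)) + ((dT (jet r s y t) (cb r s 0 1 0)) / 3)) - ((((cb r s 0 1 0).x + (dU (jet r s y t) (cb r s 0 1 0))) * (fY (jet r s y t))) / 2)) - ((((jet r s y t).x * (1 + (fD (jet r s y t)))) * (dY (jet r s y t) (cb r s 0 1 0))) / 2)) + ((dQ (jet r s y t) (cb r s 0 1 0)) * (((fG (jet r s y t)) / 2) - (((2 * (fT (jet r s y t))) + ((fT (jet r s y t)) ^ 2)) / 4)))) + ((((jet r s y t).x ^ 2) * ((1 + (fD (jet r s y t))) ^ 3)) * (((dG (jet r s y t) (cb r s 0 1 0)) / 2) - (((1 + (fT (jet r s y t))) * (dT (jet r s y t) (cb r s 0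 1 0))) / 2)))) + ((3 / 2) * (dU (jet r s y t) (cb r s 0 1 0)))) + (((((2 * (jet r s y t).x) * ((fD (jet r s y t)) ^ 3)) * (cb r s 0 1 0).x) + (((3 * ((jet r s y t).x ^ 2)) * ((fD (jet r s y t)) ^ 2)) * (dD (jet r s y t) (cb r s 0 1 0)))) / (4 * (1 + ((jet r s y t).x * (fD (jet r s y t))))))) - (((((jet r s y t).x ^ 2) * ((fD (jet r s y t)) ^ 3)) * (dU (jet r s y t) (cb r s 0 1 0))) / (4 * ((1 + ((jet r s y t).x * (fD (jet r s y t)))) ^ 2)))) := h182.sub' h186 (by norm_num)
  have h188 : In (0) (0) ((cb r s 0 1 0).x / 2) := h13.div' (In.const (c := 2) (le_refl _) (le_refl _)) (by norm_num)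
  have h189 : In (0) (0) (((cb r s 0 1 0).x / 2) * (Real.log (1 + fD (jet r s y t)))) := h188.mul' k.LD (by norm_num)
  have h190 : In (400137187871709029040880273/100000000000000000000000000) (200068593935854514524267273/50000000000000000000000000) (((((((((((((1 - (1 / (fk (jet r s y t)))) * (dk (jet r s y t) (cb r s 0 1 0))) / 2) - ((dY (jet r s y t) (cb r s 0 1 0)) / 4)) + ((dT (jet r s y t) (cb r s 0 1 0)) / 3)) - ((((cb r s 0 1 0).x + (dU (jet r s y t) (cb r s 0 1 0))) * (fY (jet r s y t))) / 2)) - ((((jet r s y t).x * (1 + (fD (jet r s y t)))) * (dY (jet r s y t) (cb r s 0 1 0))) / 2)) + ((dQ (jet r s y t) (cb r s 0 1 0)) * (((fG (jet r s y t)) / 2) - (((2 * (fT (jet r s y t))) + ((fT (jet r s y t)) ^ 2)) / 4)))) + ((((jet r s y t).x ^ 2) * ((1 + (fD (jet r s y t))) ^ 3)) * (((dG (jet r s y t) (cb r s 0 1 0)) / 2) - (((1 + (fT (jet r s y t))) * (dT (jet r s y t) (cb r s 0 1 0))) / 2)))) + ((3 / 2) * (dU (jet r s y t) (cb r s 0 1 0)))) + (((((2 * (jet r s y t).x) * ((fD (jet r s y t)) ^ 3)) * (cb r s 0 1 0).x) + (((3 * ((jet r s y t).x ^ 2)) * ((fD (jet r s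 y t)) ^ 2)) * (dD (jet r s y t) (cb r s 0 1 0)))) / (4 * (1 + ((jet r s y t).x * (fD (jet r s y t))))))) - (((((jet r s y t).x ^ 2) * ((fD (jet r s y t)) ^ 3)) * (dU (jet r s y t) (cb r s 0 1 0))) / (4 * ((1 + ((jet r s y t).x * (fD (jet r s y t)))) ^ 2)))) - (((cb r s 0 1 0).x / 2) * (Real.log (1 + fD (jet r s y t))))) := h187.sub' h189 (by norm_num)
  have h191 : In (209197969862749128744886001/50000000000000000000000000) (52299492465687282186663557/12500000000000000000000000) (2 * (1 + (fD (jet r s y t)))) := (In.const (c := 2) (le_refl _) (le_refl _)).mul' h.pD1 (by norm_num)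
  have h192 : In (89044332570915871566488257/100000000000000000000000000) (17808866514183174313568573/20000000000000000000000000) (((jet r s y t).x * (dD (jet r s y t) (cb r s 0 1 0))) / (2 * (1 + (fD (jet r s y t))))) := h81.div' h191 (by norm_num)
  have h193 : In (9721651728149786171032419/3125000000000000000000000) (311092855300793157482046289/100000000000000000000000000) ((((((((((((((1 - (1 / (fk (jet r s y t)))) * (dk (jet r s y t) (cb r s 0 1 0))) / 2) - ((dY (jet r s y t) (cb r s 0 1 0)) / 4)) + ((dT (jet r s y t) (cb r s 0 1 0)) / 3)) - ((((cb r s 0 1 0).x + (dU (jet r s y t) (cb r s 0 1 0))) * (fY (jet r s y t))) / 2)) - ((((jet r s y t).x * (1 + (fD (jet r s y t)))) * (dY (jet r s y t) (cb r s 0 1 0))) / 2)) + ((dQ (jet r s y t) (cb r s 0 1 0)) * (((fG (jet r s y t)) / 2) - (((2 * (fT (jet r s y t))) + ((fT (jet r s y t)) ^ 2)) / 4)))) + ((((jet r s y t).x ^ 2) * ((1 + (fD (jet r s y t))) ^ 3)) * (((dG (jet r s y t) (cb r s 0 1 0)) / 2) - (((1 + (fT (jet r s y t))) * (dT (jet r s y t) (cb r s 0 1 0))) / 2)))) + ((3 / 2) * (dU (jet r s y t) (cb r s 0 1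 0)))) + (((((2 * (jet r s y t).x) * ((fD (jet r s y t)) ^ 3)) * (cb r s 0 1 0).x) + (((3 * ((jet r s y t).x ^ 2)) * ((fD (jet r s y t)) ^ 2)) * (dD (jet r s y t) (cb r s 0 1 0)))) / (4 * (1 + ((jet r s y t).x * (fD (jet r s y t))))))) - (((((jet r s y t).x ^ 2) * ((fD (jet r s y t)) ^ 3)) * (dU (jet r s y t) (cb r s 0 1 0))) / (4 * ((1 + ((jet r s y t).x * (fD (jet r s y t)))) ^ 2)))) - (((cb r s 0 1 0).x / 2) * (Real.log (1 + fD (jet r s y t))))) - (((jet r s y t).x * (dD (jet r s y t) (cb r s 0 1 0))) / (2 * (1 + (fD (jet r s y t)))))) := h190.sub' h192 (by norm_num)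
  have h194 : In (-8375782987601131987702341/50000000000000000000000000) (-4187891493800546434534577/25000000000000000000000000) (((cb r s 0 1 0).x + (dU (jet r s y t) (cb r s 0 1 0))) * (Real.log ((1 + 1) / (1 + fD (jet r s y t))))) := h152.mulN' k.L2 (by norm_num)
  have h195 : In (147170644662795446748816363/50000000000000000000000000) (294341289325590971743907981/100000000000000000000000000) (((((((((((((((1 - (1 / (fk (jet r s y t)))) * (dk (jet r s y t) (cb r s 0 1 0))) / 2) - ((dY (jet r s y t) (cb r s 0 1 0)) / 4)) + ((dT (jet r s y t) (cb r s 0 1 0)) / 3)) - ((((cb r s 0 1 0).x + (dU (jet r s y t) (cb r s 0 1 0))) * (fY (jet r s y t))) / 2)) - ((((jet r s y t).x * (1 + (fD (jet r s y t)))) * (dY (jet r s y t) (cb r s 0 1 0))) / 2)) + ((dQ (jet r s y t) (cb r s 0 1 0)) * (((fG (jet r s y t)) / 2) - (((2 * (fT (jet r s y t))) + ((fT (jet r s y t)) ^ 2)) / 4)))) + ((((jet r s y t).x ^ 2) * ((1 + (fD (jet r s y t))) ^ 3)) * (((dG (jet r s y t) (cb r s 0 1 0)) / 2) - (((1 + (fT (jet r s y t))) * (dT (jet r s y t) (cb r s 0 1 0))) / 2)))) + ((3 / 2) * (dU (jet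 r s y t) (cb r s 0 1 0)))) + (((((2 * (jet r s y t).x) * ((fD (jet r s y t)) ^ 3)) * (cb r s 0 1 0).x) + (((3 * ((jet r s y t).x ^ 2)) * ((fD (jet r s y t)) ^ 2)) * (dD (jet r s y t) (cb r s 0 1 0)))) / (4 * (1 + ((jet r s y t).x * (fD (jet r s y t))))))) - (((((jet r s y t).x ^ 2) * ((fD (jet r s y t)) ^ 3)) * (dU (jet r s y t) (cb r s 0 1 0))) / (4 * ((1 + ((jet r s y t).x * (fD (jet r s y t)))) ^ 2)))) - (((cb r s 0 1 0).x / 2) * (Real.log (1 + fD (jet r s y t))))) - (((jet r s y t).x * (dD (jet r s y t) (cb r s 0 1 0))) / (2 * (1 + (fD (jet r s y t)))))) + (((cb r s 0 1 0).x + (dU (jet r s y t) (cb r s 0 1 0))) * (Real.log ((1 + 1) / (1 + fD (jet r s y t)))))) := h193.add' h194 (by norm_num)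
  have h196 : In (-19554145676697622361017399/25000000000000000000000000) (-78216582706790411195275733/100000000000000000000000000) ((((((((((((((((1 - (1 / (fk (jet r s y t)))) * (dk (jet r s y t) (cb r s 0 1 0))) / 2) - ((dY (jet r s y t) (cb r s 0 1 0)) / 4)) + ((dT (jet r s y t) (cb r s 0 1 0)) / 3)) - ((((cb r s 0 1 0).x + (dU (jet r s y t) (cb r s 0 1 0))) * (fY (jet r s y t))) / 2)) - ((((jet r s y t).x * (1 + (fD (jet r s y t)))) * (dY (jet r s y t) (cb r s 0 1 0))) / 2)) + ((dQ (jet r s y t) (cb r s 0 1 0)) * (((fG (jet r s y t)) / 2) - (((2 * (fT (jet r s y t))) + ((fT (jet r s y t)) ^ 2)) / 4)))) + ((((jet r s y t).x ^ 2) * ((1 + (fD (jet r s y t))) ^ 3)) * (((dG (jet r s y t) (cb r s 0 1 0)) / 2) - (((1 + (fT (jet r s y t))) * (dT (jet r s y t) (cb r s 0 1 0))) / 2)))) + ((3 / 2) * (dU (jet r s y t) (cb r s 0 1 0)))) + (((((2 * (jet r s y t).x) * ((fD (jet r s y t)) ^ 3)) * (cb r s 0 1 0).x) + (((3 * ((jet r s y t).x ^ 2)) * ((fD (jet r s y t)) ^ 2)) * (dD (jet r s y t) (cb r s 0 1 0)))) / (4 * (1 + ((jet r s y t).x * (fD (jet r s y t))))))) - (((((jet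 r s y t).x ^ 2) * ((fD (jet r s y t)) ^ 3)) * (dU (jet r s y t) (cb r s 0 1 0))) / (4 * ((1 + ((jet r s y t).x * (fD (jet r s y t)))) ^ 2)))) - (((cb r s 0 1 0).x / 2) * (Real.log (1 + fD (jet r s y t))))) - (((jet r s y t).x * (dD (jet r s y t) (cb r s 0 1 0))) / (2 * (1 + (fD (jet r s y t)))))) + (((cb r s 0 1 0).x + (dU (jet r s y t) (cb r s 0 1 0))) * (Real.log ((1 + 1) / (1 + fD (jet r s y t)))))) - ((jet r s y t).x * (dD (jet r s y t) (cb r s 0 1 0)))) := h195.sub' h81 (by norm_num)
  have h197 : In (477544357093098867/50000000000000000000000000) (477544357093098869/50000000000000000000000000) ((7 / 2) * ((jet r s y t).x ^ 6)) := (In.const (c := (7 / 2)) (le_refl _) (le_refl _)).mul' h.px6 (by norm_num)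
  have h198 : In (85796289667950089/3125000000000000000000000) (2745481269374402861/100000000000000000000000000) (((7 / 2) * ((jet r s y t).x ^ 6)) * ((fD (jet r s y t)) ^ 12)) := h197.mul' h.pP12 (by norm_num)
  have h199 : In (0) (0) ((((7 / 2) * ((jet r s y t).x ^ 6)) * ((fD (jet r s y t)) ^ 12)) * (cb r s 0 1 0).x) := h198.mul' h13 (by norm_num)
  have h200 : In (30602685217174089/50000000000000000000000000) (7650671304293523/12500000000000000000000000) (6 * ((jet r s y t).x ^ 7)) := (In.const (c := 6) (le_refl _) (le_refl _)).mul' h.px7 (by norm_num)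
  have h201 : In (80560052890639729/50000000000000000000000000) (6444804231251179/4000000000000000000000000) ((6 * ((jet r s y t).x ^ 7)) * ((fD (jet r s y t)) ^ 11)) := h200.mul' h.pP11 (by norm_num)
  have h202 : In (3211521744406606501/20000000000000000000000000) (80288043610165171/500000000000000000000000) (((6 * ((jet r s y t).x ^ 7)) * ((fD (jet r s y t)) ^ 11)) * (dD (jet r s y t) (cb r s 0 1 0))) := h201.mul' h48 (by norm_num)
  have h203 : In (3211521744406606501/20000000000000000000000000) (80288043610165171/500000000000000000000000) (((((7 / 2) * ((jet r s y t).x ^ 6)) * ((fD (jet r s y t)) ^ 12)) * (cb r s 0 1 0).x) + (((6 * ((jet r s y t).x ^ 7)) * ((fD (jet r s y t)) ^ 11)) * (dD (jet r s y t) (cb r s 0 1 0)))) := h199.add' h202 (by norm_num)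
  have h204 : In (-78216566649181767411037091/100000000000000000000000000) (-78216566649181689162241533/100000000000000000000000000) (((((((((((((((((1 - (1 / (fk (jet r s y t)))) * (dk (jet r s y t) (cb r s 0 1 0))) / 2) - ((dY (jet r s y t) (cb r s 0 1 0)) / 4)) + ((dT (jet r s y t) (cb r s 0 1 0)) / 3)) - ((((cb r s 0 1 0).x + (dU (jet r s y t) (cb r s 0 1 0))) * (fY (jet r s y t))) / 2)) - ((((jet r s y t).x * (1 + (fD (jet r s y t)))) * (dY (jet r s y t) (cb r s 0 1 0))) / 2)) + ((dQ (jet r s y t) (cb r s 0 1 0)) * (((fG (jet r s y t)) / 2) - (((2 * (fT (jet r s y t))) + ((fT (jet r s y t)) ^ 2)) / 4)))) + ((((jet r s y t).x ^ 2) * ((1 + (fD (jet r s y t))) ^ 3)) * (((dG (jet r s y t) (cb r s 0 1 0)) / 2) - (((1 + (fT (jet r s y t))) * (dT (jet r s y t) (cb r s 0 1 0))) / 2)))) + ((3 / 2) * (dU (jet r s y t) (cb r s 0 1 0)))) + (((((2 * (jet r s y t).x) * ((fD (jet r s y t)) ^ 3)) * (cb r s 0 1 0).x) + (((3 * ((jet r s y t).x ^ 2)) * ((fD (jet r s y t)) ^ 2)) * (dD (jet r s y t) (cb r s 0 1 0)))) / (4 * (1 + ((jet r s y t).x * (fD (jet r s y t))))))) - (((((jet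 r s y t).x ^ 2) * ((fD (jet r s y t)) ^ 3)) * (dU (jet r s y t) (cb r s 0 1 0))) / (4 * ((1 + ((jet r s y t).x * (fD (jet r s y t)))) ^ 2)))) - (((cb r s 0 1 0).x / 2) * (Real.log (1 + fD (jet r s y t))))) - (((jet r s y t).x * (dD (jet r s y t) (cb r s 0 1 0))) / (2 * (1 + (fD (jet r s y t)))))) + (((cb r s 0 1 0).x + (dU (jet r s y t) (cb r s 0 1 0))) * (Real.log ((1 + 1) / (1 + fD (jet r s y t)))))) - ((jet r s y t).x * (dD (jet r s y t) (cb r s 0 1 0)))) + (((((7 / 2) * ((jet r s y t).x ^ 6)) * ((fD (jet r s y t)) ^ 12)) * (cb r s 0 1 0).x) + (((6 * ((jet r s y t).x ^ 7)) * ((fD (jet r s y t)) ^ 11)) * (dD (jet r s y t) (cb r s 0 1 0))))) := h196.add' h203 (by norm_num)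
  have h205 : In (16273059032053586529/20000000000000000000000000) (81365295160267932647/100000000000000000000000000) ((5 / 12) * ((jet r s y t).x ^ 4)) := (In.const (c := (5 / 12)) (le_refl _) (le_refl _)).mul' h.px4 (by norm_num)
  have h206 : In (89813224220294082021/50000000000000000000000000) (179626448440588164073/100000000000000000000000000) (((5 / 12) * ((jet r s y t).x ^ 4)) * ((fD (jet r s y t)) ^ 9)) := h205.mul' h.pP9 (by norm_num)
  have h207 : In (0) (0) ((((5 / 12) * ((jet r s y t).x ^ 4)) * ((fD (jet r s y t)) ^ 9)) * (cb r s 0 1 0).x) := h206.mul' h13 (by norm_num)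
  have h208 : In (2737438211056109489/50000000000000000000000000) (273743821105610949/5000000000000000000000000) ((3 / 4) * ((jet r s y t).x ^ 5)) := (In.const (c := (3 / 4)) (le_refl _) (le_refl _)).mul' h.px5 (by norm_num)
  have h209 : In (442742106187899333/4000000000000000000000000) (2767138163674370833/25000000000000000000000000) (((3 / 4) * ((jet r s y t).x ^ 5)) * ((fD (jet r s y t)) ^ 8)) := h208.mul' h.pP8 (by norm_num)
  have h210 : In (220623598509334086161/20000000000000000000000000) (1103117992546670431511/100000000000000000000000000) ((((3 / 4) * ((jet r s y t).x ^ 5)) * ((fD (jet r s y t)) ^ 8)) * (dD (jet r s y t) (cb r s 0 1 0))) := h209.mul' h48 (by norm_num)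
  have h211 : In (220623598509334086161/20000000000000000000000000) (1103117992546670431511/100000000000000000000000000) (((((5 / 12) * ((jet r s y t).x ^ 4)) * ((fD (jet r s y t)) ^ 9)) * (cb r s 0 1 0).x) + ((((3 / 4) * ((jet r s y t).x ^ 5)) * ((fD (jet r s y t)) ^ 8)) * (dD (jet r s y t) (cb r s 0 1 0)))) := h207.add' h210 (by norm_num)
  have h212 : In (-39108834883587157040734301/50000000000000000000000000) (-39108834883587117916336169/50000000000000000000000000) ((((((((((((((((((1 - (1 / (fk (jet r s y t)))) * (dk (jet r s y t) (cb r s 0 1 0))) / 2) - ((dY (jet r s y t) (cb r s 0 1 0)) / 4)) + ((dT (jet r s y t) (cb r s 0 1 0)) / 3)) - ((((cb r s 0 1 0).x + (dU (jet r s y t) (cb r s 0 1 0))) * (fY (jet r s y t))) / 2)) - ((((jet r s y t).x * (1 + (fD (jet r s y t)))) * (dY (jet r s y t) (cb r s 0 1 0))) / 2)) + ((dQ (jet r s y t) (cb r s 0 1 0)) * (((fG (jet r s y t)) / 2) - (((2 * (fT (jet r s y t))) + ((fT (jet r s y t)) ^ 2)) / 4)))) + ((((jet r s y t).x ^ 2) * ((1 + (fD (jet r s y t))) ^ 3)) * (((dG (jet r s y t) (cb r s 0 1 0)) / 2) - (((1 + (fT (jet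 r s y t))) * (dT (jet r s y t) (cb r s 0 1 0))) / 2)))) + ((3 / 2) * (dU (jet r s y t) (cb r s 0 1 0)))) + (((((2 * (jet r s y t).x) * ((fD (jet r s y t)) ^ 3)) * (cb r s 0 1 0).x) + (((3 * ((jet r s y t).x ^ 2)) * ((fD (jet r s y t)) ^ 2)) * (dD (jet r s y t) (cb r s 0 1 0)))) / (4 * (1 + ((jet r s y t).x * (fD (jet r s y t))))))) - (((((jet r s y t).x ^ 2) * ((fD (jet r s y t)) ^ 3)) * (dU (jet r s y t) (cb r s 0 1 0))) / (4 * ((1 + ((jet r s y t).x * (fD (jet r s y t)))) ^ 2)))) - (((cb r s 0 1 0).x / 2) * (Real.log (1 + fD (jet r s y t))))) - (((jet r s y t).x * (dD (jet r s y t) (cb r s 0 1 0))) / (2 * (1 + (fD (jet r s y t)))))) + (((cb r s 0 1 0).x + (dU (jet r s y t) (cb r s 0 1 0))) * (Real.log ((1 + 1) / (1 + fD (jet r s y t)))))) - ((jet r s y t).x * (dD (jet r s y t) (cb r s 0 1 0)))) + (((((7 / 2) * ((jet r s y t).x ^ 6)) * ((fD (jet r s y t)) ^ 12)) * (cb r s 0 1 0).x) + (((6 * ((jet r s y t).x ^ 7)) * ((fD (jet r s y t)) ^ 11)) * (dD (jet r s y t) (cb r s 0 1 0))))) - (((((5 / 12) * ((jet r s y t).x ^ 4)) * ((fD (jet r s y t)) ^ 9)) * (cb r s 0 1 0).x)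 + ((((3 / 4) * ((jet r s y t).x ^ 5)) * ((fD (jet r s y t)) ^ 8)) * (dD (jet r s y t) (cb r s 0 1 0))))) := h204.sub' h211 (by norm_num)
  have h213 : In (-39108834883587157040734301/50000000000000000000000000) (-39108834883587117916336169/50000000000000000000000000) (dJ (jet r s y t) (cb r s 0 1 0)) := In.congr h212 (by unfold dJ; with_reducible rfl)
  exact ⟨h108, h136, h213⟩

end K5X
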