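import Pool.Agent.Lib.K5X.NumV
import Pool.Agent.Lib.K5X.Fun

/-!
# K5X.NumZ: the differentials at the critical point in the direction of the curve

Generated file.
-/

set_option autoImplicit false

namespace K5X

open K5N K5C K5L K5S

theorem num_z {r s y t : ℝ} (h : NB r s y t) (k : NG r s y t) (v : NV r s y t) :
    In (6878600639432939882821417311/100000000000000000000000000) (6878600639433182577167963147/100000000000000000000000000) (dM (jet r s y t) (K5L.del r s y t)) ∧
    In (525986607817391496955299649/3125000000000000000000000) (4207892862539161411582208523/25000000000000000000000000) (dNet (jet r s y t) (K5L.del r s y t)) ∧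
    In (-1942608983746524813960753/12500000000000000000000000) (-15540871869952428590642859/100000000000000000000000000) (dJ (jet r s y t) (K5L.del r s y t)) := by
  have h1 : In (0) (0) ((K5L.del r s y t).x) := In.congr (In.const (c := 0) (le_refl _) (le_refl _)) (by first | rfl | (simp only [K5L.del, dcb]; ring))
  have h2 : In (0) (0) ((K5L.del r s y t).y) := In.congr (In.const (c := 0) (le_refl _) (le_refl _)) (by first | rfl | (simp only [K5L.del, dcb]; ring))
  have h3 : In (0) (0) ((K5L.del r s y t).t) := In.congr (In.const (c := 0) (le_refl _) (le_refl _)) (by first | rfl | (simp only [K5L.del, dcb]; ring))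
  have h4 : In (101736657930974327955163731/100000000000000000000000000) (50868328965487196479118181/50000000000000000000000000) ((K5L.del r s y t).u) := In.congr v.hdu (by first | rfl | (simp only [K5L.del, dcb]; ring))
  have h5 : In (48620066051661123221418923/10000000000000000000000000) (121550165129152885716156229/25000000000000000000000000) ((K5L.del r s y t).v) := In.congr v.hdv (by first | rfl | (simp only [K5L.del, dcb]; ring))
  have h6 : In (22776532400798951932204397/1250000000000000000000000) (364424518412783463758718313/20000000000000000000000000) ((K5L.del r s y t).w) := In.congr v.hdw (by first | rfl | (simp only [K5L.del, dcb]; ring))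
  have h7 : In (0) (0) ((fk (jet r s y t)) * (K5L.del r s y t).x) := h.hk.mul' h1 (by norm_num)
  have h8 : In (101736657930974327955163731/100000000000000000000000000) (50868328965487196479118181/50000000000000000000000000) ((K5L.del r s y t).u - ((fk (jet r s y t)) * (K5L.del r s y t).x)) := h4.sub' h7 (by norm_num)
  have h9 : In (2721540837329585094604755767/100000000000000000000000000) (544308167465917366698342271/20000000000000000000000000) (((K5L.del r s y t).u - ((fk (jet r s y t)) * (K5L.del r s y t).x)) / (jet r s y t).x) := h8.div' h.hbx (by norm_num)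
  have h10 : In (2721540837329585094604755767/100000000000000000000000000) (544308167465917366698342271/20000000000000000000000000) (dk (jet r s y t) (K5L.del r s y t)) := In.congr h9 (by unfold dk; with_reducible rfl)
  have h11 : In (0) (0) ((K5L.del r s y t).t * ((fk (jet r s y t)) ^ 3)) := h3.mul' h.pk3 (by norm_num)
  have h12 : In (1615436105212323349191/500000000000000000000000) (646174442084929339677/200000000000000000000000) (3 * (jet r s y t).t) := (In.const (c := 3) (le_refl _) (le_refl _)).mul' h.hbt (by norm_num)
  have h13 : In (146806432773527464132119/20000000000000000000000000) (734032163867637320661559/100000000000000000000000000) ((3 * (jet r s y t).t) * ((fk (jet r s y t)) ^ 2)) := h12.mul' h.pk2 (by norm_num)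
  have h14 : In (19976985098791768910543219/100000000000000000000000000) (19976985098791781674559003/100000000000000000000000000) (((3 * (jet r s y t).t) * ((fk (jet r s y t)) ^ 2)) * (dk (jet r s y t) (K5L.del r s y t))) := h13.mul' h10 (by norm_num)
  have h15 : In (19976985098791768910543219/100000000000000000000000000) (19976985098791781674559003/100000000000000000000000000) (((K5L.del r s y t).t * ((fk (jet r s y t)) ^ 3)) + (((3 * (jet r s y t).t) * ((fk (jet r s y t)) ^ 2)) * (dk (jet r s y t) (K5L.del r s y t)))) := h11.add' h14 (by norm_num)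
  have h16 : In (19976985098791768910543219/100000000000000000000000000) (19976985098791781674559003/100000000000000000000000000) (dT (jet r s y t) (K5L.del r s y t)) := In.congr h15 (by unfold dT; with_reducible rfl)
  have h17 : In (0) (0) ((K5L.del r s y t).y * ((fk (jet r s y t)) ^ 2)) := h2.mul' h.pk2 (by norm_num)
  have h18 : In (205212204790913531001689/500000000000000000000000) (20521220479091353100169/50000000000000000000000) (2 * (jet r s y t).y) := (In.const (c := 2) (le_refl _) (le_refl _)).mul' h.hby (by norm_num)
  have h19 : In (61862980035967567727661991/100000000000000000000000000) (7732872504495945965959273/12500000000000000000000000) ((2 * (jet r s y t).y) * (fk (jet r s y t))) := h18.mul' h.hk (by norm_num)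
  have h20 : In (1683626264867905805060818911/100000000000000000000000000) (1683626264867906880788440933/100000000000000000000000000) (((2 * (jet r s y t).y) * (fk (jet r s y t))) * (dk (jet r s y t) (K5L.del r s y t))) := h19.mul' h10 (by norm_num)
  have h21 : In (1683626264867905805060818911/100000000000000000000000000) (1683626264867906880788440933/100000000000000000000000000) (((K5L.del r s y t).y * ((fk (jet r s y t)) ^ 2)) + (((2 * (jet r s y t).y) * (fk (jet r s y t))) * (dk (jet r s y t) (K5L.del r s y t)))) := h17.add' h20 (by norm_num)
  have h22 : In (19976985098791768910543219/50000000000000000000000000) (19976985098791781674559003/50000000000000000000000000) (2 * (dT (jet r s y t) (K5L.del r s y t))) := (In.const (c := 2) (le_refl _) (le_refl _)).mul' h16 (by norm_num)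
  have h23 : In (1723580235065489342881905349/100000000000000000000000000) (1723580235065490444137558939/100000000000000000000000000) ((((K5L.del r s y t).y * ((fk (jet r s y t)) ^ 2)) + (((2 * (jet r s y t).y) * (fk (jet r s y t))) * (dk (jet r s y t) (K5L.del r s y t)))) + (2 * (dT (jet r s y t) (K5L.del r s y t)))) := h21.add' h22 (by norm_num)
  have h24 : In (1723580235065489342881905349/100000000000000000000000000) (1723580235065490444137558939/100000000000000000000000000) (dY (jet r s y t) (K5L.del r s y t)) := In.congr h23 (by unfold dY; with_reducible rfl)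
  have h25 : In (5350079601676989072226909/2500000000000000000000000) (26750398008384962452900293/12500000000000000000000000) ((K5L.del r s y t).v / ((fk (jet r s y t)) ^ 2)) := h5.div' h.pk2 (by norm_num)
  have h26 : In (1144638179624625974571249/6250000000000000000000000) (572319089812312987285687/3125000000000000000000000) (2 * (jet r s y t).v) := (In.const (c := 2) (le_refl _) (le_refl _)).mul' h.hbv (by norm_num)
  have h27 : In (1069609476397629727974481/20000000000000000000000000) (2674023690994074319938037/50000000000000000000000000) ((2 * (jet r s y t).v) / ((fk (jet r s y t)) ^ 3)) := h26.div' h.pk3 (by norm_num)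
  have h28 : In (14554929350054321475782037/10000000000000000000000000) (4548415421891978367325579/3125000000000000000000000) (((2 * (jet r s y t).v) / ((fk (jet r s y t)) ^ 3)) * (dk (jet r s y t) (K5L.del r s y t))) := h27.mul' h10 (by norm_num)
  have h29 : In (8556736320817031891832229/12500000000000000000000000) (34226945283268242432690987/50000000000000000000000000) (((K5L.del r s y t).v / ((fk (jet r s y t)) ^ 2)) - (((2 * (jet r s y t).v) / ((fk (jet r s y t)) ^ 3)) * (dk (jet r s y t) (K5L.del r s y t)))) := h25.sub' h28 (by norm_num)
  have h30 : In (8556736320817031891832229/12500000000000000000000000) (34226945283268242432690987/50000000000000000000000000) ((((K5L.del r s y t).v / ((fk (jet r s y t)) ^ 2)) - (((2 * (jet r s y t).v) / ((fk (jet r s y t)) ^ 3)) * (dk (jet r s y t) (K5L.del r s y t)))) - (K5L.del r s y t).x) := h29.sub' h1 (by norm_num)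
  have h31 : In (12246526368681413313231057307/25000000000000000000000000) (6123263184340727206240535999/12500000000000000000000000) (((((K5L.del r s y t).v / ((fk (jet r s y t)) ^ 2)) - (((2 * (jet r s y t).v) / ((fk (jet r s y t)) ^ 3)) * (dk (jet r s y t) (K5L.del r s y t)))) - (K5L.del r s y t).x) / ((jet r s y t).x ^ 2)) := h30.div' h.px2 (by norm_num)
  have h32 : In (209197969862749128744886001/50000000000000000000000000) (52299492465687282186663557/12500000000000000000000000) (2 * ((fD (jet r s y t)) + 1)) := (In.const (c := 2) (le_refl _) (le_refl _)).mul' h.pDp (by norm_num)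
  have h33 : In (0) (0) ((2 * ((fD (jet r s y t)) + 1)) * (K5L.del r s y t).x) := h32.mul' h1 (by norm_num)
  have h34 : In (0) (0) (((2 * ((fD (jet r s y t)) + 1)) * (K5L.del r s y t).x) / (jet r s y t).x) := h33.div' h.hbx (by norm_num)
  have h35 : In (12246526368681413313231057307/25000000000000000000000000) (6123263184340727206240535999/12500000000000000000000000) ((((((K5L.del r s y t).v / ((fk (jet r s y t)) ^ 2)) - (((2 * (jet r s y t).v) / ((fk (jet r s y t)) ^ 3)) * (dk (jet r s y t) (K5L.del r s y t)))) - (K5L.del r s y t).x) / ((jet r s y t).x ^ 2)) - (((2 * ((fD (jet r s y t)) + 1)) * (K5L.del r s y t).x) / (jet r s y t).x)) := h31.sub' h34 (by norm_num)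
  have h36 : In (12246526368681413313231057307/25000000000000000000000000) (6123263184340727206240535999/12500000000000000000000000) (dD (jet r s y t) (K5L.del r s y t)) := In.congr h35 (by unfold dD; with_reducible rfl)
  have h37 : In (106417885271665135854082557/20000000000000000000000000) (532089426358326019241084931/100000000000000000000000000) ((K5L.del r s y t).w / ((fk (jet r s y t)) ^ 3)) := h6.div' h.pk3 (by norm_num)
  have h38 : In (47948640377437273992355533/100000000000000000000000000) (47948640377437273992362583/100000000000000000000000000) (3 * (jet r s y t).w) := (In.const (c := 3) (le_refl _) (le_refl _)).mul' h.hbw (by norm_num)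
  have h39 : In (9289357523349074404135727/100000000000000000000000000) (2322339380837268601036059/25000000000000000000000000) ((3 * (jet r s y t).w) / ((fk (jet r s y t)) ^ 4)) := h38.div' h.pk4 (by norm_num)
  have h40 : In (252813658523493207751572271/100000000000000000000000000) (252813658523493369283230079/100000000000000000000000000) (((3 * (jet r s y t).w) / ((fk (jet r s y t)) ^ 4)) * (dk (jet r s y t) (K5L.del r s y t))) := h39.mul' h10 (by norm_num)
  have h41 : In (139637883917416154993591353/50000000000000000000000000) (13963788391741640574475633/5000000000000000000000000) (((K5L.del r s y t).w / ((fk (jet r s y t)) ^ 3)) - (((3 * (jet r s y t).w) / ((fk (jet r s y t)) ^ 4)) * (dk (jet r s y t) (K5L.del r s y t)))) := h37.sub' h40 (by norm_num)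
  have h42 : In (10480608210708084143319/2500000000000000000000000) (52403041053540420716607/12500000000000000000000000) (3 * ((jet r s y t).x ^ 2)) := (In.const (c := 3) (le_refl _) (le_refl _)).mul' h.px2 (by norm_num)
  have h43 : In (205361671699608765403926469/100000000000000000000000000) (205361671699609454596192949/100000000000000000000000000) ((3 * ((jet r s y t).x ^ 2)) * (dD (jet r s y t) (K5L.del r s y t))) := h42.mul' h36 (by norm_num)
  have h44 : In (73914096135222855390989757/100000000000000000000000000) (73914096135224046085586191/100000000000000000000000000) ((((K5L.del r s y t).w / ((fk (jet r s y t)) ^ 3)) - (((3 * (jet r s y t).w) / ((fk (jet r s y t)) ^ 4)) * (dk (jet r s y t) (K5L.del r s y t)))) - ((3 * ((jet r s y t).x ^ 2)) * (dD (jet r s y t) (K5L.del r s y t)))) := h41.sub' h43 (by norm_num)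
  have h45 : In (5607301011371179494435327/25000000000000000000000000) (1401825252842794873608987/6250000000000000000000000) (6 * (jet r s y t).x) := (In.const (c := 6) (le_refl _) (le_refl _)).mul' h.hbx (by norm_num)
  have h46 : In (46921439519527628701644817/100000000000000000000000000) (46921439519527628702046613/100000000000000000000000000) ((6 * (jet r s y t).x) * (1 + (fD (jet r s y t)))) := h45.mul' h.pD1 (by norm_num)
  have h47 : In (0) (0) (((6 * (jet r s y t).x) * (1 + (fD (jet r s y t)))) * (K5L.del r s y t).x) := h46.mul' h1 (by norm_num)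
  have h48 : In (73914096135222855390989757/100000000000000000000000000) (73914096135224046085586191/100000000000000000000000000) (((((K5L.del r s y t).w / ((fk (jet r s y t)) ^ 3)) - (((3 * (jet r s y t).w) / ((fk (jet r s y t)) ^ 4)) * (dk (jet r s y t) (K5L.del r s y t)))) - ((3 * ((jet r s y t).x ^ 2)) * (dD (jet r s y t) (K5L.del r s y t)))) - (((6 * (jet r s y t).x) * (1 + (fD (jet r s y t)))) * (K5L.del r s y t).x)) := h44.sub' h47 (by norm_num)
  have h49 : In (73914096135222855390989757/100000000000000000000000000) (73914096135224046085586191/100000000000000000000000000) ((((((K5L.del r s y t).w / ((fk (jet r s y t)) ^ 3)) - (((3 * (jet r s y t).w) / ((fk (jet r s y t)) ^ 4)) * (dk (jet r s y t) (K5L.del r s y t)))) - ((3 * ((jet r s y t).x ^ 2)) * (dD (jet r s y t) (K5L.del r s y t)))) - (((6 * (jet r s y t).x) * (1 + (fD (jet r s y t)))) * (K5L.del r s y t).x)) - (K5L.del r s y t).x) := h48.sub' h1 (by norm_num)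
  have h50 : In (14149445998691894566761290569/1000000000000000000000000) (1414944599869212250257292486751/100000000000000000000000000) (((((((K5L.del r s y t).w / ((fk (jet r s y t)) ^ 3)) - (((3 * (jet r s y t).w) / ((fk (jet r s y t)) ^ 4)) * (dk (jet r s y t) (K5L.del r s y t)))) - ((3 * ((jet r s y t).x ^ 2)) * (dD (jet r s y t) (K5L.del r s y t)))) - (((6 * (jet r s y t).x) * (1 + (fD (jet r s y t)))) * (K5L.del r s y t).x)) - (K5L.del r s y t).x) / ((jet r s y t).x ^ 3)) := h49.div' h.px3 (by norm_num)
  have h51 : In (373659598753235470248939531/12500000000000000000000000) (747319197506470940662082211/25000000000000000000000000) (3 * (fN (jet r s y t))) := (In.const (c := 3) (le_refl _) (le_refl _)).mul' h.hN (by norm_num)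
  have h52 : In (0) (0) ((3 * (fN (jet r s y t))) * (K5L.del r s y t).x) := h51.mul' h1 (by norm_num)
  have h53 : In (0) (0) (((3 * (fN (jet r s y t))) * (K5L.del r s y t).x) / (jet r s y t).x) := h52.div' h.hbx (by norm_num)
  have h54 : In (14149445998691894566761290569/1000000000000000000000000) (1414944599869212250257292486751/100000000000000000000000000) ((((((((K5L.del r s y t).w / ((fk (jet r s y t)) ^ 3)) - (((3 * (jet r s y t).w) / ((fk (jet r s y t)) ^ 4)) * (dk (jet r s y t) (K5L.del r s y t)))) - ((3 * ((jet r s y t).x ^ 2)) * (dD (jet r s y t) (K5L.del r s y t)))) - (((6 * (jet r s y t).x) * (1 + (fD (jet r s y t)))) * (K5L.del r s y t).x)) - (K5L.del r s y t).x) / ((jet r s y t).x ^ 3)) - (((3 * (fN (jet r s y t))) * (K5L.del r s y t).x) / (jet r s y t).x)) := h50.sub' h53 (by norm_num)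
  have h55 : In (14149445998691894566761290569/1000000000000000000000000) (1414944599869212250257292486751/100000000000000000000000000) (dN (jet r s y t) (K5L.del r s y t)) := In.congr h54 (by unfold dN; with_reducible rfl)
  have h56 : In (154549298823225886901267006683/100000000000000000000000000) (154549298823228376565902562217/100000000000000000000000000) ((dN (jet r s y t) (K5L.del r s y t)) / ((1 + (fD (jet r s y t))) ^ 3)) := h55.div' h.pD13 (by norm_num)
  have h57 : In (45760321290424147369235471223/3125000000000000000000000) (183041285161697203802331030707/12500000000000000000000000) ((3 * (fN (jet r s y t))) * (dD (jet r s y t) (K5L.del r s y t))) := h51.mul' h36 (by norm_num)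
  have h58 : In (3058223154107683953383368339/4000000000000000000000000) (76455578852692355438313468199/100000000000000000000000000) (((3 * (fN (jet r s y t))) * (dD (jet r s y t) (K5L.del r s y t))) / ((1 + (fD (jet r s y t))) ^ 4)) := h57.div' h.pD14 (by norm_num)
  have h59 : In (19523429992633382865738384621/25000000000000000000000000) (39046859985268138865659176871/50000000000000000000000000) (((dN (jet r s y t) (K5L.del r s y t)) / ((1 + (fD (jet r s y t))) ^ 3)) - (((3 * (fN (jet r s y t))) * (dD (jet r s y t) (K5L.del r s y t))) / ((1 + (fD (jet r s y t))) ^ 4))) := h56.sub' h58 (by norm_num)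
  have h60 : In (78073742985434739681278979481/100000000000000000000000000) (78073742985437485962407810523/100000000000000000000000000) ((((dN (jet r s y t) (K5L.del r s y t)) / ((1 + (fD (jet r s y t))) ^ 3)) - (((3 * (fN (jet r s y t))) * (dD (jet r s y t) (K5L.del r s y t))) / ((1 + (fD (jet r s y t))) ^ 4))) - (dT (jet r s y t) (K5L.del r s y t))) := h59.sub' h16 (by norm_num)
  have h61 : In (78073742985434739681278979481/100000000000000000000000000) (78073742985437485962407810523/100000000000000000000000000) (dA (jet r s y t) (K5L.del r s y t)) := In.congr h60 (by unfold dA; with_reducible rfl)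
  have h62 : In (0) (0) ((K5L.del r s y t).x * ((fD (jet r s y t)) ^ 2)) := h1.mul' h.pP2 (by norm_num)
  have h63 : In (1869100337123726498145109/25000000000000000000000000) (467275084280931624536329/6250000000000000000000000) (2 * (jet r s y t).x) := (In.const (c := 2) (le_refl _) (le_refl _)).mul' h.hbx (by norm_num)
  have h64 : In (2041019622836909226991959/25000000000000000000000000) (8164078491347636908100941/100000000000000000000000000) ((2 * (jet r s y t).x) * (fD (jet r s y t))) := h63.mul' h.hD (by norm_num)
  have h65 : In (1999632050405472140443713959/50000000000000000000000000) (3999264100810957702452753093/100000000000000000000000000) (((2 * (jet r s y t).x) * (fD (jet r s y t))) * (dD (jet r s y t) (K5L.del r s y t))) := h64.mul' h36 (by norm_num)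
  have h66 : In (1999632050405472140443713959/50000000000000000000000000) (3999264100810957702452753093/100000000000000000000000000) (((K5L.del r s y t).x * ((fD (jet r s y t)) ^ 2)) + (((2 * (jet r s y t).x) * (fD (jet r s y t))) * (dD (jet r s y t) (K5L.del r s y t)))) := h62.add' h65 (by norm_num)
  have h67 : In (3842415204194007121521716309/100000000000000000000000000) (768483040838804003340645719/20000000000000000000000000) ((((K5L.del r s y t).x * ((fD (jet r s y t)) ^ 2)) + (((2 * (jet r s y t).x) * (fD (jet r s y t))) * (dD (jet r s y t) (K5L.del r s y t)))) / (1 + ((jet r s y t).x * (fD (jet r s y t))))) := h66.div' h.pxD1 (by norm_num)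
  have h68 : In (0) (0) ((K5L.del r s y t).x * (fD (jet r s y t))) := h1.mul' h.hD (by norm_num)
  have h69 : In (1831198925143762855314811609/100000000000000000000000000) (1831198925143769000804779051/100000000000000000000000000) ((jet r s y t).x * (dD (jet r s y t) (K5L.del r s y t))) := h.hbx.mul' h36 (by norm_num)
  have h70 : In (1831198925143762855314811609/100000000000000000000000000) (1831198925143769000804779051/100000000000000000000000000) (((K5L.del r s y t).x * (fD (jet r s y t))) + ((jet r s y t).x * (dD (jet r s y t) (K5L.del r s y t)))) := h68.add' h69 (by norm_num)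
  have h71 : In (39212224154234289840788583/50000000000000000000000000) (78424448308468842876040869/100000000000000000000000000) ((fS (jet r s y t)) * (((K5L.del r s y t).x * (fD (jet r s y t))) + ((jet r s y t).x * (dD (jet r s y t) (K5L.del r s y t))))) := h.hS.mul' h70 (by norm_num)
  have h72 : In (18837171349841778922591621/25000000000000000000000000) (75348685399367368562539011/100000000000000000000000000) (((fS (jet r s y t)) * (((K5L.del r s y t).x * (fD (jet r s y t))) + ((jet r s y t).x * (dD (jet r s y t) (K5L.del r s y t))))) / (1 + ((jet r s y t).x * (fD (jet r s y t))))) := h71.div' h.pxD1 (by norm_num)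
  have h73 : In (1883533259397319876479588649/50000000000000000000000000) (3767066518794652901012862111/100000000000000000000000000) (((((K5L.del r s y t).x * ((fD (jet r s y t)) ^ 2)) + (((2 * (jet r s y t).x) * (fD (jet r s y t))) * (dD (jet r s y t) (K5L.del r s y t)))) / (1 + ((jet r s y t).x * (fD (jet r s y t))))) - (((fS (jet r s y t)) * (((K5L.del r s y t).x * (fD (jet r s y t))) + ((jet r s y t).x * (dD (jet r s y t) (K5L.del r s y t))))) / (1 + ((jet r s y t).x * (fD (jet r s y t)))))) := h67.sub' h72 (by norm_num)
  have h74 : In (1883533259397319876479588649/50000000000000000000000000) (3767066518794652901012862111/100000000000000000000000000) (dS (jet r s y t) (K5L.del r s y t)) := In.congr h73 (by unfold dS; with_reducible rfl)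
  have h75 : In (0) (0) ((K5L.del r s y t).x * ((1 + (fD (jet r s y t))) ^ 2)) := h1.mul' h.pD12 (by norm_num)
  have h76 : In (977529989990158931284267/6250000000000000000000000) (3128095967968508580136441/20000000000000000000000000) ((2 * (jet r s y t).x) * (1 + (fD (jet r s y t)))) := h63.mul' h.pD1 (by norm_num)
  have h77 : In (29928366996478398404363481/390625000000000000000000) (1532332390219699140812462239/20000000000000000000000000) (((2 * (jet r s y t).x) * (1 + (fD (jet r s y t)))) * (dD (jet r s y t) (K5L.del r s y t))) := h76.mul' h36 (by norm_num)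
  have h78 : In (29928366996478398404363481/390625000000000000000000) (1532332390219699140812462239/20000000000000000000000000) (((K5L.del r s y t).x * ((1 + (fD (jet r s y t))) ^ 2)) + (((2 * (jet r s y t).x) * (1 + (fD (jet r s y t)))) * (dD (jet r s y t) (K5L.del r s y t)))) := h75.add' h77 (by norm_num)
  have h79 : In (29928366996478398404363481/390625000000000000000000) (1532332390219699140812462239/20000000000000000000000000) (dP (jet r s y t) (K5L.del r s y t)) := In.congr h78 (by unfold dP; with_reducible rfl)
  have h80 : In (2798323957378072804719690323/25000000000000000000000000) (1119329582951232878368426059/10000000000000000000000000) ((dD (jet r s y t) (K5L.del r s y t)) / ((1 + (fD (jet r s y t))) ^ 2)) := h36.div' h.pD12 (by norm_num)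
  have h81 : In (9469715594446800774741202353/100000000000000000000000000) (9469715594446839440802355241/100000000000000000000000000) (((dD (jet r s y t) (K5L.del r s y t)) / ((1 + (fD (jet r s y t))) ^ 2)) - (dY (jet r s y t) (K5L.del r s y t))) := h80.sub' h24 (by norm_num)
  have h82 : In (2851324537826073936864170121/50000000000000000000000000) (5702649075652199687843177943/100000000000000000000000000) ((((dD (jet r s y t) (K5L.del r s y t)) / ((1 + (fD (jet r s y t))) ^ 2)) - (dY (jet r s y t) (K5L.del r s y t))) - (dS (jet r s y t) (K5L.del r s y t))) := h81.sub' h74 (by norm_num)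
  have h83 : In (184400245367831302590449/25000000000000000000000000) (184400245367831302590727/25000000000000000000000000) (2 * (fT (jet r s y t))) := (In.const (c := 2) (le_refl _) (le_refl _)).mul' h.hT (by norm_num)
  have h84 : In (1360138019668655590719/100000000000000000000000000) (340034504917163897681/25000000000000000000000000) ((fT (jet r s y t)) ^ 2) := h.hT.pow' 2 (by norm_num)
  have h85 : In (56616702925452776851104873/100000000000000000000000000) (28308351462726483428451379/50000000000000000000000000) ((dP (jet r s y t) (K5L.del r s y t)) * ((2 * (fT (jet r s y t))) + ((fT (jet r s y t)) ^ 2))) := h79.mul' h.pTT (by norm_num)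
  have h86 : In (1411508093181673726717859371/25000000000000000000000000) (564603237272674691099207307/10000000000000000000000000) (((((dD (jet r s y t) (K5L.del r s y t)) / ((1 + (fD (jet r s y t))) ^ 2)) - (dY (jet r s y t) (K5L.del r s y t))) - (dS (jet r s y t) (K5L.del r s y t))) - ((dP (jet r s y t) (K5L.del r s y t)) * ((2 * (fT (jet r s y t))) + ((fT (jet r s y t)) ^ 2)))) := h82.sub' h85 (by norm_num)
  have h87 : In (50184400245367831302590449/25000000000000000000000000) (50184400245367831302590727/25000000000000000000000000) (2 + (2 * (fT (jet r s y t)))) := (In.const (c := 2) (le_refl _) (le_refl _)).add' h83 (by norm_num)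
  have h88 : In (20050660317870303147379341/50000000000000000000000000) (40101320635740631916937979/100000000000000000000000000) ((2 + (2 * (fT (jet r s y t)))) * (dT (jet r s y t) (K5L.del r s y t))) := h87.mul' h16 (by norm_num)
  have h89 : In (3280244548321439446934579/50000000000000000000000000) (3280244548321441542856881/50000000000000000000000000) (((jet r s y t).x * ((1 + (fD (jet r s y t))) ^ 2)) * ((2 + (2 * (fT (jet r s y t)))) * (dT (jet r s y t) (K5L.del r s y t)))) := h.pxD12.mul' h88 (by norm_num)
  have h90 : In (2819735941815026011892861861/50000000000000000000000000) (704933985453763004012275489/12500000000000000000000000) ((((((dD (jet r s y t) (K5L.del r s y t)) / ((1 + (fD (jet r s y t))) ^ 2)) - (dY (jet r s y t) (K5L.del r s y t))) - (dS (jet r s y t) (K5L.del r s y t))) - ((dP (jet r s y t) (K5L.del r s y t)) * ((2 * (fT (jet r s y t))) + ((fT (jet r s y t)) ^ 2)))) - (((jet r s y t).x * ((1 + (fD (jet r s y t))) ^ 2)) * ((2 + (2 * (fT (jet r s y t)))) * (dT (jet r s y t) (K5L.del r s y t))))) := h86.sub' h89 (by norm_num)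
  have h91 : In (2819735941815026011892861861/100000000000000000000000000) (704933985453763004012275489/25000000000000000000000000) (((((((dD (jet r s y t) (K5L.del r s y t)) / ((1 + (fD (jet r s y t))) ^ 2)) - (dY (jet r s y t) (K5L.del r s y t))) - (dS (jet r s y t) (K5L.del r s y t))) - ((dP (jet r s y t) (K5L.del r s y t)) * ((2 * (fT (jet r s y t))) + ((fT (jet r s y t)) ^ 2)))) - (((jet r s y t).x * ((1 + (fD (jet r s y t))) ^ 2)) * ((2 + (2 * (fT (jet r s y t)))) * (dT (jet r s y t) (K5L.del r s y t))))) / 2) := h90.div' (In.const (c := 2) (le_refl _) (le_refl _)) (by norm_num)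
  have h92 : In (2819735941815026011892861861/100000000000000000000000000) (704933985453763004012275489/25000000000000000000000000) (dK (jet r s y t) (K5L.del r s y t)) := In.congr h91 (by unfold dK; with_reducible rfl)
  have h93 : In (4417988276685232480269031/50000000000000000000000000) (8835976553370464987212711/100000000000000000000000000) ((Real.exp (fA (jet r s y t))) - 1) := h.hE.sub' (In.const (c := 1) (le_refl _) (le_refl _)) (by norm_num)
  have h94 : In (3449288812265865832247988157/50000000000000000000000000) (3449288812265987173039253183/50000000000000000000000000) (((Real.exp (fA (jet r s y t))) - 1) * (dA (jet r s y t) (K5L.del r s y t))) := h93.mul' h61 (by norm_num)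
  have h95 : In (6878600639432939882821417311/100000000000000000000000000) (6878600639433182577167963147/100000000000000000000000000) ((((Real.exp (fA (jet r s y t))) - 1) * (dA (jet r s y t) (K5L.del r s y t))) - (dT (jet r s y t) (K5L.del r s y t))) := h94.sub' h16 (by norm_num)
  have h96 : In (6878600639432939882821417311/100000000000000000000000000) (6878600639433182577167963147/100000000000000000000000000) (dM (jet r s y t) (K5L.del r s y t)) := In.congr h95 (by unfold dM; with_reducible rfl)
  have h97 : In (0) (0) ((fM (jet r s y t)) * (dA (jet r s y t) (K5L.del r s y t))) := h.hM.mul' h61 (by norm_num)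
  have h98 : In (1691486500321018080356353/100000000000000000000000000) (1691486500321019166436723/100000000000000000000000000) ((fA (jet r s y t)) * (dT (jet r s y t) (K5L.del r s y t))) := h.hA.mul' h16 (by norm_num)
  have h99 : In (-1691486500321019166436723/100000000000000000000000000) (-1691486500321018080356353/100000000000000000000000000) (((fM (jet r s y t)) * (dA (jet r s y t) (K5L.del r s y t))) - ((fA (jet r s y t)) * (dT (jet r s y t) (K5L.del r s y t)))) := h97.sub' h98 (by norm_num)
  have h100 : In (-1691486500321019166436723/100000000000000000000000000) (-1691486500321018080356353/100000000000000000000000000) (dG (jet r s y t) (K5L.del r s y t)) := In.congr h99 (by unfold dG; with_reducible rfl)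
  have h101 : In (-1600662808406720341565483/100000000000000000000000000) (-1600662808406714789114111/100000000000000000000000000) ((dP (jet r s y t) (K5L.del r s y t)) * (fG (jet r s y t))) := h79.mulN' h.hG (by norm_num)
  have h102 : In (1409067639503309645775648189/50000000000000000000000000) (563627055801329060251997569/20000000000000000000000000) ((dK (jet r s y t) (K5L.del r s y t)) + ((dP (jet r s y t) (K5L.del r s y t)) * (fG (jet r s y t)))) := h92.add' h101 (by norm_num)
  have h103 : In (-55344704695757082904503/20000000000000000000000000) (-69180880869696309209353/25000000000000000000000000) (((jet r s y t).x * ((1 + (fD (jet r s y t))) ^ 2)) * (dG (jet r s y t) (K5L.del r s y t))) := h.pxD12.mulN' h100 (by norm_num)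
  have h104 : In (2817858555483140506136773863/100000000000000000000000000) (2817858555483166516023150433/100000000000000000000000000) (((dK (jet r s y t) (K5L.del r s y t)) + ((dP (jet r s y t) (K5L.del r s y t)) * (fG (jet r s y t)))) + (((jet r s y t).x * ((1 + (fD (jet r s y t))) ^ 2)) * (dG (jet r s y t) (K5L.del r s y t)))) := h102.add' h103 (by norm_num)
  have h105 : In (32849258532673313871/50000000000000000000000000) (65698517065346627751/100000000000000000000000000) (9 * ((jet r s y t).x ^ 5)) := (In.const (c := 9) (le_refl _) (le_refl _)).mul' h.px5 (by norm_num)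
  have h106 : In (172948091713556405809/100000000000000000000000000) (34589618342711281173/20000000000000000000000000) ((9 * ((jet r s y t).x ^ 5)) * ((fD (jet r s y t)) ^ 11)) := h105.mul' h.pP11 (by norm_num)
  have h107 : In (0) (0) (((9 * ((jet r s y t).x ^ 5)) * ((fD (jet r s y t)) ^ 11)) * (K5L.del r s y t).x) := h106.mul' h1 (by norm_num)
  have h108 : In (900512216232700721/20000000000000000000000000) (2251280540581751811/50000000000000000000000000) ((33 / 2) * ((jet r s y t).x ^ 6)) := (In.const (c := (33 / 2)) (le_refl _) (le_refl _)).mul' h.px6 (by norm_num)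
  have h109 : In (5427192932651235281/50000000000000000000000000) (5427192932651235303/50000000000000000000000000) (((33 / 2) * ((jet r s y t).x ^ 6)) * ((fD (jet r s y t)) ^ 10)) := h108.mul' h.pP10 (by norm_num)
  have h110 : In (1063428181722156200549/20000000000000000000000000) (1063428181722159773717/20000000000000000000000000) ((((33 / 2) * ((jet r s y t).x ^ 6)) * ((fD (jet r s y t)) ^ 10)) * (dD (jet r s y t) (K5L.del r s y t))) := h109.mul' h36 (by norm_num)
  have h111 : In (1063428181722156200549/20000000000000000000000000) (1063428181722159773717/20000000000000000000000000) ((((9 * ((jet r s y t).x ^ 5)) * ((fD (jet r s y t)) ^ 11)) * (K5L.del r s y t).x) + ((((33 / 2) * ((jet r s y t).x ^ 6)) * ((fD (jet r s y t)) ^ 10)) * (dD (jet r s y t) (K5L.del r s y t)))) := h107.add' h110 (by norm_num)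
  have h112 : In (88058246019501534903680519/3125000000000000000000000) (1408931936312037563411009509/50000000000000000000000000) ((((dK (jet r s y t) (K5L.del r s y t)) + ((dP (jet r s y t) (K5L.del r s y t)) * (fG (jet r s y t)))) + (((jet r s y t).x * ((1 + (fD (jet r s y t))) ^ 2)) * (dG (jet r s y t) (K5L.del r s y t)))) + ((((9 * ((jet r s y t).x ^ 5)) * ((fD (jet r s y t)) ^ 11)) * (K5L.del r s y t).x) + ((((33 / 2) * ((jet r s y t).x ^ 6)) * ((fD (jet r s y t)) ^ 10)) * (dD (jet r s y t) (K5L.del r s y t))))) := h104.add' h111 (by norm_num)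
  have h113 : In (2640245783491051054483/25000000000000000000000000) (10560983133964204219307/100000000000000000000000000) (((jet r s y t).x ^ 3) * ((fD (jet r s y t)) ^ 8)) := h.px3.mul' h.pP8 (by norm_num)
  have h114 : In (0) (0) ((((jet r s y t).x ^ 3) * ((fD (jet r s y t)) ^ 8)) * (K5L.del r s y t).x) := h113.mul' h1 (by norm_num)
  have h115 : In (3905534167692860767/1000000000000000000000000) (195276708384643038351/50000000000000000000000000) (2 * ((jet r s y t).x ^ 4)) := (In.const (c := 2) (le_refl _) (le_refl _)).mul' h.px4 (by norm_num)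
  have h116 : In (144614682202323707083/20000000000000000000000000) (361536705505809267751/50000000000000000000000000) ((2 * ((jet r s y t).x ^ 4)) * ((fD (jet r s y t)) ^ 7)) := h115.mul' h.pP7 (by norm_num)
  have h117 : In (354205503777847991880961/100000000000000000000000000) (22137843986115573789661/6250000000000000000000000) (((2 * ((jet r s y t).x ^ 4)) * ((fD (jet r s y t)) ^ 7)) * (dD (jet r s y t) (K5L.del r s y t))) := h116.mul' h36 (by norm_num)
  have h118 : In (354205503777847991880961/100000000000000000000000000) (22137843986115573789661/6250000000000000000000000) (((((jet r s y t).x ^ 3) * ((fD (jet r s y t)) ^ 8)) * (K5L.del r s y t).x) + (((2 * ((jet r s y t).x ^ 4)) * ((fD (jet r s y t)) ^ 7)) * (dD (jet r s y t) (K5L.del r s y t)))) := h114.add' h117 (by norm_num)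
  have h119 : In (176094354195016954233571377/6250000000000000000000000) (2817509667120297278830138057/100000000000000000000000000) (((((dK (jet r s y t) (K5L.del r s y t)) + ((dP (jet r s y t) (K5L.del r s y t)) * (fG (jet r s y t)))) + (((jet r s y t).x * ((1 + (fD (jet r s y t))) ^ 2)) * (dG (jet r s y t) (K5L.del r s y t)))) + ((((9 * ((jet r s y t).x ^ 5)) * ((fD (jet r s y t)) ^ 11)) * (K5L.del r s y t).x) + ((((33 / 2) * ((jet r s y t).x ^ 6)) * ((fD (jet r s y t)) ^ 10)) * (dD (jet r s y t) (K5L.del r s y t))))) - (((((jet r s y t).x ^ 3) * ((fD (jet r s y t)) ^ 8)) * (K5L.del r s y t).x) + (((2 * ((jet r s y t).x ^ 4)) * ((fD (jet r s y t)) ^ 7)) * (dD (jet r s y t) (K5L.del r s y t))))) := h112.sub' h118 (by norm_num)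
  have h120 : In (176094354195016954233571377/6250000000000000000000000) (2817509667120297278830138057/100000000000000000000000000) (dT0 (jet r s y t) (K5L.del r s y t)) := In.congr h119 (by unfold dT0; with_reducible rfl)
  have h121 : In (2927018454508934760301573617/12500000000000000000000000) (11708073818035778333512576711/50000000000000000000000000) ((dD (jet r s y t) (K5L.del r s y t)) / (1 + (fD (jet r s y t)))) := h36.div' h.pD1 (by norm_num)
  have h122 : In (785963244691073007255989073/4000000000000000000000000) (4912270279319229228516494031/25000000000000000000000000) (((dD (jet r s y t) (K5L.del r s y t)) / (1 + (fD (jet r s y t)))) - (dS (jet r s y t) (K5L.del r s y t))) := h121.sub' h74 (by norm_num)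
  have h123 : In (525986607817391496955299649/3125000000000000000000000) (4207892862539161411582208523/25000000000000000000000000) ((((dD (jet r s y t) (K5L.del r s y t)) / (1 + (fD (jet r s y t)))) - (dS (jet r s y t) (K5L.del r s y t))) - (dT0 (jet r s y t) (K5L.del r s y t))) := h122.sub' h120 (by norm_num)
  have h124 : In (525986607817391496955299649/3125000000000000000000000) (4207892862539161411582208523/25000000000000000000000000) (dNet (jet r s y t) (K5L.del r s y t)) := In.congr h123 (by unfold dNet; with_reducible rfl)
  have h125 : In (0) (0) ((2 * (jet r s y t).x) * (K5L.del r s y t).x) := h63.mul' h1 (by norm_num)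
  have h126 : In (0) (0) (((2 * (jet r s y t).x) * (K5L.del r s y t).x) * ((1 + (fD (jet r s y t))) ^ 3)) := h125.mul' h.pD13 (by norm_num)
  have h127 : In (14333473219952403305903/781250000000000000000000) (91734228607695381159351/5000000000000000000000000) ((3 * ((jet r s y t).x ^ 2)) * ((1 + (fD (jet r s y t))) ^ 2)) := h42.mul' h.pD12 (by norm_num)
  have h128 : In (898740519643832270170254633/100000000000000000000000000) (224685129910958821588012767/25000000000000000000000000) (((3 * ((jet r s y t).x ^ 2)) * ((1 + (fD (jet r s y t))) ^ 2)) * (dD (jet r s y t) (K5L.del r s y t))) := h127.mul' h36 (by norm_num)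
  have h129 : In (898740519643832270170254633/100000000000000000000000000) (224685129910958821588012767/25000000000000000000000000) ((((2 * (jet r s y t).x) * (K5L.del r s y t).x) * ((1 + (fD (jet r s y t))) ^ 3)) + (((3 * ((jet r s y t).x ^ 2)) * ((1 + (fD (jet r s y t))) ^ 2)) * (dD (jet r s y t) (K5L.del r s y t)))) := h126.add' h128 (by norm_num)
  have h130 : In (898740519643832270170254633/100000000000000000000000000) (224685129910958821588012767/25000000000000000000000000) (dQ (jet r s y t) (K5L.del r s y t)) := In.congr h129 (by unfold dQ; with_reducible rfl)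
  have h131 : In (1831198925143762855314811609/100000000000000000000000000) (1831198925143769000804779051/100000000000000000000000000) (dU (jet r s y t) (K5L.del r s y t)) := In.congr h70 (by unfold dU; with_reducible rfl)
  have h132 : In (8293013231483583759371777/12500000000000000000000000) (66344105851868670074986969/100000000000000000000000000) (1 / (fk (jet r s y t))) := (In.const (c := 1) (le_refl _) (le_refl _)).div' h.hk (by norm_num)
  have h133 : In (33655894148131329925013031/100000000000000000000000000) (4206986768516416240628223/12500000000000000000000000) (1 - (1 / (fk (jet r s y t)))) := (In.const (c := 1) (le_refl _) (le_refl _)).sub' h132 (by norm_num)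
  have h134 : In (45797945170490611343431311/5000000000000000000000000) (915958903409812812106926427/100000000000000000000000000) ((1 - (1 / (fk (jet r s y t)))) * (dk (jet r s y t) (K5L.del r s y t))) := h133.mul' h10 (by norm_num)
  have h135 : In (45797945170490611343431311/10000000000000000000000000) (228989725852453203026731607/50000000000000000000000000) (((1 - (1 / (fk (jet r s y t)))) * (dk (jet r s y t) (K5L.del r s y t))) / 2) := h134.div' (In.const (c := 2) (le_refl _) (le_refl _)) (by norm_num)
  have h136 : In (430895058766372335720476337/100000000000000000000000000) (86179011753274522206877947/20000000000000000000000000) ((dY (jet r s y t) (K5L.del r s y t)) / 4) := h24.div' (In.const (c := 4) (le_refl _) (le_refl _)) (by norm_num)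
  have h137 : In (216675143508268019199387/800000000000000000000000) (27084392938534070332986877/100000000000000000000000000) ((((1 - (1 / (fk (jet r s y t)))) * (dk (jet r s y t) (K5L.del r s y t))) / 2) - ((dY (jet r s y t) (K5L.del r s y t)) / 4)) := h135.sub' h136 (by norm_num)
  have h138 : In (6658995032930589636847739/100000000000000000000000000) (1664748758232648472879917/25000000000000000000000000) ((dT (jet r s y t) (K5L.del r s y t)) / 3) := h16.div' (In.const (c := 3) (le_refl _) (le_refl _)) (by norm_num)
  have h139 : In (16871693985732046018385557/50000000000000000000000000) (6748677594292932844901309/20000000000000000000000000) (((((1 - (1 / (fk (jet r s y t)))) * (dk (jet r s y t) (K5L.del r s y t))) / 2) - ((dY (jet r s y t) (K5L.del r s y t)) / 4)) + ((dT (jet r s y t) (K5L.del r s y t)) / 3)) := h137.add' h138 (by norm_num)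
  have h140 : In (1831198925143762855314811609/100000000000000000000000000) (1831198925143769000804779051/100000000000000000000000000) ((K5L.del r s y t).x + (dU (jet r s y t) (K5L.del r s y t))) := h1.add' h131 (by norm_num)
  have h141 : In (867263436214807081440091721/100000000000000000000000000) (867263436214809991970083403/100000000000000000000000000) (((K5L.del r s y t).x + (dU (jet r s y t) (K5L.del r s y t))) * (fY (jet r s y t))) := h140.mul' h.hY (by norm_num)
  have h142 : In (21681585905370177036002293/5000000000000000000000000) (216815859053702497992520851/50000000000000000000000000) ((((K5L.del r s y t).x + (dU (jet r s y t) (K5L.del r s y t))) * (fY (jet r s y t))) / 2) := h141.div' (In.const (c := 2) (le_refl _) (le_refl _)) (by norm_num)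
  have h143 : In (-99972082533985225987067647/25000000000000000000000000) (-79977666027187775299107863/20000000000000000000000000) ((((((1 - (1 / (fk (jet r s y t)))) * (dk (jet r s y t) (K5L.del r s y t))) / 2) - ((dY (jet r s y t) (K5L.del r s y t)) / 4)) + ((dT (jet r s y t) (K5L.del r s y t)) / 3)) - ((((K5L.del r s y t).x + (dU (jet r s y t) (K5L.del r s y t))) * (fY (jet r s y t))) / 2)) := h139.sub' h142 (by norm_num)
  have h144 : In (977529989990158931284267/12500000000000000000000000) (7820239919921271450341103/100000000000000000000000000) ((jet r s y t).x * (1 + (fD (jet r s y t)))) := h.hbx.mul' h.pD1 (by norm_num)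
  have h145 : In (134788109594464286012967743/100000000000000000000000000) (16848513699308046516869527/12500000000000000000000000) (((jet r s y t).x * (1 + (fD (jet r s y t)))) * (dY (jet r s y t) (K5L.del r s y t))) := h144.mul' h24 (by norm_num)
  have h146 : In (67394054797232143006483871/100000000000000000000000000) (16848513699308046516869527/25000000000000000000000000) ((((jet r s y t).x * (1 + (fD (jet r s y t)))) * (dY (jet r s y t) (K5L.del r s y t))) / 2) := h145.div' (In.const (c := 2) (le_refl _) (le_refl _)) (by norm_num)
  have h147 : In (-58410298116646636251968587/12500000000000000000000000) (-233641192466585509751011593/50000000000000000000000000) (((((((1 - (1 / (fk (jet r s y t)))) * (dk (jet r s y t) (K5L.del r s y t))) / 2) - ((dY (jet r s y t) (K5L.del r s y t)) / 4)) + ((dT (jet r s y t) (K5L.del r s y t)) / 3)) - ((((K5L.del r s y t).x + (dU (jet r s y t) (K5L.del r s y t))) * (fY (jet r s y t))) / 2)) - ((((jet r s y t).x * (1 + (fD (jet r s y t)))) * (dY (jet r s y t) (K5L.del r s y t))) / 2)) := h143.sub' h146 (by norm_num)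
  have h148 : In (-10445924256533037738309/100000000000000000000000000) (-10445924256533036559547/100000000000000000000000000) ((fG (jet r s y t)) / 2) := h.hG.divN' (In.const (c := 2) (le_refl _) (le_refl _)) (by norm_num)
  have h149 : In (2886566873011694788877/1562500000000000000000000) (23092534984093558311051/12500000000000000000000000) (((2 * (fT (jet r s y t))) + ((fT (jet r s y t)) ^ 2)) / 4) := h.pTT.div' (In.const (c := 4) (le_refl _) (le_refl _)) (by norm_num)
  have h150 : In (-195186204129281504226717/100000000000000000000000000) (-7807448165171260121907/4000000000000000000000000) (((fG (jet r s y t)) / 2) - (((2 * (fT (jet r s y t))) + ((fT (jet r s y t)) ^ 2)) / 4)) := h148.sub' h149 (by norm_num)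
  have h151 : In (-877108752632290839166831/50000000000000000000000000) (-14033740042116606244531/800000000000000000000000) ((dQ (jet r s y t) (K5L.del r s y t)) * (((fG (jet r s y t)) / 2) - (((2 * (fT (jet r s y t))) + ((fT (jet r s y t)) ^ 2)) / 4))) := h130.mulN' h150 (by norm_num)
  have h152 : In (-234518301219218835847041179/50000000000000000000000000) (-469036602438435595282589561/100000000000000000000000000) ((((((((1 - (1 / (fk (jet r s y t)))) * (dk (jet r s y t) (K5L.del r s y t))) / 2) - ((dY (jet r s y t) (K5L.del r s y t)) / 4)) + ((dT (jet r s y t) (K5L.del r s y t)) / 3)) - ((((K5L.del r s y t).x + (dU (jet r s y t) (K5L.del r s y t))) * (fY (jet r s y t))) / 2)) - ((((jet r s y t).x * (1 + (fD (jet r s y t)))) * (dY (jet r s y t) (K5L.del r s y t))) / 2)) + ((dQ (jet r s y t) (K5L.del r s y t)) * (((fG (jet r s y t)) / 2) - (((2 * (fT (jet r s y t))) + ((fT (jet r s y t)) ^ 2)) / 4)))) := h147.add' h151 (by norm_num)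
  have h153 : In (319843573194253288604361/25000000000000000000000000) (1279374292777013154450179/100000000000000000000000000) (((jet r s y t).x ^ 2) * ((1 + (fD (jet r s y t))) ^ 3)) := h.px2.mul' h.pD13 (by norm_num)
  have h154 : In (-422871625080254791609181/50000000000000000000000000) (-825921142734872109549/97656250000000000000000) ((dG (jet r s y t) (K5L.del r s y t)) / 2) := h100.divN' (In.const (c := 2) (le_refl _) (le_refl _)) (by norm_num)
  have h155 : In (50184400245367831302590449/50000000000000000000000000) (50184400245367831302590727/50000000000000000000000000) (1 + (fT (jet r s y t))) := (In.const (c := 1) (le_refl _) (le_refl _)).add' h.hT (by norm_num)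
  have h156 : In (20050660317870303147379341/100000000000000000000000000) (2005066031787031595846899/10000000000000000000000000) ((1 + (fT (jet r s y t))) * (dT (jet r s y t) (K5L.del r s y t))) := h155.mul' h16 (by norm_num)
  have h157 : In (1002533015893515157368967/10000000000000000000000000) (2005066031787031595846899/20000000000000000000000000) (((1 + (fT (jet r s y t))) * (dT (jet r s y t) (K5L.del r s y t))) / 2) := h156.div' (In.const (c := 2) (le_refl _) (le_refl _)) (by norm_num)
  have h158 : In (-10871073409095667562452857/100000000000000000000000000) (-5435536704547830306933923/50000000000000000000000000) (((dG (jet r s y t) (K5L.del r s y t)) / 2) - (((1 + (fT (jet r s y t))) * (dT (jet r s y t) (K5L.del r s y t))) / 2)) := h154.sub' h157 (by norm_num)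
  have h159 : In (-69540859272443815449207/50000000000000000000000000) (-34770429636221885499111/25000000000000000000000000) ((((jet r s y t).x ^ 2) * ((1 + (fD (jet r s y t))) ^ 3)) * (((dG (jet r s y t) (K5L.del r s y t)) / 2) - (((1 + (fT (jet r s y t))) * (dT (jet r s y t) (K5L.del r s y t))) / 2))) := h153.mulN' h158 (by norm_num)
  have h160 : In (-117293921039245639831245193/25000000000000000000000000) (-93835136831396096564917201/20000000000000000000000000) (((((((((1 - (1 / (fk (jet r s y t)))) * (dk (jet r s y t) (K5L.del r s y t))) / 2) - ((dY (jet r s y t) (K5L.del r s y t)) / 4)) + ((dT (jet r s y t) (K5L.del r s y t)) / 3)) - ((((K5L.del r s y t).x + (dU (jet r s y t) (K5L.del r s y t))) * (fY (jet r s y t))) / 2)) - ((((jet r s y t).x * (1 + (fD (jet r s y t)))) * (dY (jet r s y t) (K5L.del r s y t))) / 2)) + ((dQ (jet r s y t) (K5L.del r s y t)) * (((fG (jet r s y t)) / 2) - (((2 * (fT (jet r s y t))) + ((fT (jet r s y t)) ^ 2)) / 4)))) + ((((jet r s y t).x ^ 2) * ((1 + (fD (jet r s y t))) ^ 3)) * (((dG (jet r s y t) (K5L.del r s y t)) / 2) - (((1 + (fT (jet r s y t))) * (dT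 (jet r s y t) (K5L.del r s y t))) / 2)))) := h152.add' h159 (by norm_num)
  have h161 : In (2746798387715644282972217413/100000000000000000000000000) (2746798387715653501207168577/100000000000000000000000000) ((3 / 2) * (dU (jet r s y t) (K5L.del r s y t))) := (In.const (c := (3 / 2)) (le_refl _) (le_refl _)).mul' h131 (by norm_num)
  have h162 : In (2277622703558661723647236641/100000000000000000000000000) (569405675889668254595645643/25000000000000000000000000) ((((((((((1 - (1 / (fk (jet r s y t)))) * (dk (jet r s y t) (K5L.del r s y t))) / 2) - ((dY (jet r s y t) (K5L.del r s y t)) / 4)) + ((dT (jet r s y t) (K5L.del r s y t)) / 3)) - ((((K5L.del r s y t).x + (dU (jet r s y t) (K5L.del r s y t))) * (fY (jet r s y t))) / 2)) - ((((jet r s y t).x * (1 + (fD (jet r s y t)))) * (dY (jet r s y t) (K5L.del r s y t))) / 2)) + ((dQ (jet r s y t) (K5L.del r s y t)) * (((fG (jet r s y t)) / 2) - (((2 * (fT (jet r s y t))) + ((fT (jet r s y t)) ^ 2)) / 4)))) + ((((jet r s y t).x ^ 2) * ((1 + (fD (jet r s y t))) ^ 3)) * (((dG (jet r s y t) (K5L.del r s y t)) / 2) - (((1 + (fT (jet r s y t))) * (dT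 (jet r s y t) (K5L.del r s y t))) / 2)))) + ((3 / 2) * (dU (jet r s y t) (K5L.del r s y t)))) := h160.add' h161 (by norm_num)
  have h163 : In (6084379823091326105061/62500000000000000000000) (1216875964618265221071449/12500000000000000000000000) ((2 * (jet r s y t).x) * ((fD (jet r s y t)) ^ 3)) := h63.mul' h.pP3 (by norm_num)
  have h164 : In (0) (0) (((2 * (jet r s y t).x) * ((fD (jet r s y t)) ^ 3)) * (K5L.del r s y t).x) := h163.mul' h1 (by norm_num)
  have h165 : In (499891332096638303153673/100000000000000000000000000) (249945666048319151584989/50000000000000000000000000) ((3 * ((jet r s y t).x ^ 2)) * ((fD (jet r s y t)) ^ 2)) := h42.mul' h.pP2 (by norm_num)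
  have h166 : In (244877295199870332503587641/100000000000000000000000000) (244877295199871154317928347/100000000000000000000000000) (((3 * ((jet r s y t).x ^ 2)) * ((fD (jet r s y t)) ^ 2)) * (dD (jet r s y t) (K5L.del r s y t))) := h165.mul' h36 (by norm_num)
  have h167 : In (244877295199870332503587641/100000000000000000000000000) (244877295199871154317928347/100000000000000000000000000) ((((2 * (jet r s y t).x) * ((fD (jet r s y t)) ^ 3)) * (K5L.del r s y t).x) + (((3 * ((jet r s y t).x ^ 2)) * ((fD (jet r s y t)) ^ 2)) * (dD (jet r s y t) (K5L.del r s y t)))) := h164.add' h166 (by norm_num)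
  have h168 : In (52041019622836909226991959/12500000000000000000000000) (104082039245673818454050471/25000000000000000000000000) (4 * (1 + ((jet r s y t).x * (fD (jet r s y t))))) := (In.const (c := 4) (le_refl _) (le_refl _)).mul' h.pxD1 (by norm_num)
  have h169 : In (11763667246270286952236513/20000000000000000000000000) (5881833623135163215703089/10000000000000000000000000) (((((2 * (jet r s y t).x) * ((fD (jet r s y t)) ^ 3)) * (K5L.del r s y t).x) + (((3 * ((jet r s y t).x ^ 2)) * ((fD (jet r s y t)) ^ 2)) * (dD (jet r s y t) (K5L.del r s y t)))) / (4 * (1 + ((jet r s y t).x * (fD (jet r s y t)))))) := h167.div' h168 (by norm_num)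
  have h170 : In (1168220519895006579204209603/50000000000000000000000000) (1168220519895012325269806731/50000000000000000000000000) (((((((((((1 - (1 / (fk (jet r s y t)))) * (dk (jet r s y t) (K5L.del r s y t))) / 2) - ((dY (jet r s y t) (K5L.del r s y t)) / 4)) + ((dT (jet r s y t) (K5L.del r s y t)) / 3)) - ((((K5L.del r s y t).x + (dU (jet r s y t) (K5L.del r s y t))) * (fY (jet r s y t))) / 2)) - ((((jet r s y t).x * (1 + (fD (jet r s y t)))) * (dY (jet r s y t) (K5L.del r s y t))) / 2)) + ((dQ (jet r s y t) (K5L.del r s y t)) * (((fG (jet r s y t)) / 2) - (((2 * (fT (jet r s y t))) + ((fT (jet r s y t)) ^ 2)) / 4)))) + ((((jet r s y t).x ^ 2) * ((1 + (fD (jet r s y t))) ^ 3)) * (((dG (jet r s y t) (K5L.del r s y t)) / 2) - (((1 + (fT (jet r s y t))) * (dT (jet r s y t) (K5L.del r s y t))) / 2)))) + ((3 / 2) * (dU (jet r s y t) (K5L.del r s y t)))) + (((((2 * (jet r s y t).x) * ((fD (jet r s y t)) ^ 3)) * (K5L.del r s y t).x) + (((3 * ((jet r s y t).x ^ 2)) * ((fD (jet r s y t)) ^ 2)) * (dD (jet r s y t) (K5L.del r s y t)))) / (4 * (1 + ((jet r s y t).x * (fD (jet r s y t))))))) := h162.add'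 h169 (by norm_num)
  have h171 : In (7278282482258430088731/4000000000000000000000000) (181957062056460752227157/100000000000000000000000000) (((jet r s y t).x ^ 2) * ((fD (jet r s y t)) ^ 3)) := h.px2.mul' h.pP3 (by norm_num)
  have h172 : In (3331995764601078855527277/100000000000000000000000000) (1665997882300545018921459/50000000000000000000000000) ((((jet r s y t).x ^ 2) * ((fD (jet r s y t)) ^ 3)) * (dU (jet r s y t) (K5L.del r s y t))) := h171.mul' h131 (by norm_num)
  have h173 : In (108330708935379849675685727/25000000000000000000000000) (27082677233844962418956067/6250000000000000000000000) (4 * ((1 + ((jet r s y t).x * (fD (jet r s y t)))) ^ 2)) := (In.const (c := 4) (le_refl _) (le_refl _)).mul' h.pxD2 (by norm_num)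
  have h174 : In (48058795454710374861883/6250000000000000000000000) (768940727275368578388007/100000000000000000000000000) (((((jet r s y t).x ^ 2) * ((fD (jet r s y t)) ^ 3)) * (dU (jet r s y t) (K5L.del r s y t))) / (4 * ((1 + ((jet r s y t).x * (fD (jet r s y t)))) ^ 2))) := h172.div' h173 (by norm_num)
  have h175 : In (2335672099062737789830031199/100000000000000000000000000) (1167836049531374642270911667/50000000000000000000000000) ((((((((((((1 - (1 / (fk (jet r s y t)))) * (dk (jet r s y t) (K5L.del r s y t))) / 2) - ((dY (jet r s y t) (K5L.del r s y t)) / 4)) + ((dT (jet r s y t) (K5L.del r s y t)) / 3)) - ((((K5L.del r s y t).x + (dU (jet r s y t) (K5L.del r s y t))) * (fY (jet r s y t))) / 2)) - ((((jet r s y t).x * (1 + (fD (jet r s y t)))) * (dY (jet r s y t) (K5L.del r s y t))) / 2)) + ((dQ (jet r s y t) (K5L.del r s y t)) * (((fG (jet r s y t)) / 2) - (((2 * (fT (jet r s y t))) + ((fT (jet r s y t)) ^ 2)) / 4)))) + ((((jet r s y t).x ^ 2) * ((1 + (fD (jet r s y t))) ^ 3)) * (((dG (jet r s y t) (K5L.del r s y t)) / 2) - (((1 + (fT (jet r s y t))) * (dT (jet r s y t) (K5L.del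 r s y t))) / 2)))) + ((3 / 2) * (dU (jet r s y t) (K5L.del r s y t)))) + (((((2 * (jet r s y t).x) * ((fD (jet r s y t)) ^ 3)) * (K5L.del r s y t).x) + (((3 * ((jet r s y t).x ^ 2)) * ((fD (jet r s y t)) ^ 2)) * (dD (jet r s y t) (K5L.del r s y t)))) / (4 * (1 + ((jet r s y t).x * (fD (jet r s y t))))))) - (((((jet r s y t).x ^ 2) * ((fD (jet r s y t)) ^ 3)) * (dU (jet r s y t) (K5L.del r s y t))) / (4 * ((1 + ((jet r s y t).x * (fD (jet r s y t)))) ^ 2)))) := h170.sub' h174 (by norm_num)
  have h176 : In (0) (0) ((K5L.del r s y t).x / 2) := h1.div' (In.const (c := 2) (le_refl _) (le_refl _)) (by norm_num)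
  have h177 : In (0) (0) (((K5L.del r s y t).x / 2) * (Real.log (1 + fD (jet r s y t)))) := h176.mul' k.LD (by norm_num)
  have h178 : In (2335672099062737789830031199/100000000000000000000000000) (1167836049531374642270911667/50000000000000000000000000) (((((((((((((1 - (1 / (fk (jet r s y t)))) * (dk (jet r s y t) (K5L.del r s y t))) / 2) - ((dY (jet r s y t) (K5L.del r s y t)) / 4)) + ((dT (jet r s y t) (K5L.del r s y t)) / 3)) - ((((K5L.del r s y t).x + (dU (jet r s y t) (K5L.del r s y t))) * (fY (jet r s y t))) / 2)) - ((((jet r s y t).x * (1 + (fD (jet r s y t)))) * (dY (jet r s y t) (K5L.del r s y t))) / 2)) + ((dQ (jet r s y t) (K5L.del r s y t)) * (((fG (jet r s y t)) / 2) - (((2 * (fT (jet r s y t))) + ((fT (jet r s y t)) ^ 2)) / 4)))) + ((((jet r s y t).x ^ 2) * ((1 + (fD (jet r s y t))) ^ 3)) * (((dG (jet r s y t) (K5L.del r s y t)) / 2) - (((1 + (fT (jet r s y t))) * (dT (jet r s y t) (K5L.del r s y t))) / 2)))) + ((3 / 2) * (dU (jet r s y t) (K5L.del r s y t)))) + (((((2 * (jet r s y t).x) * ((fD (jet r s y t)) ^ 3)) * (K5L.del r s y t).x) + (((3 * ((jet r s y t).x ^ 2)) * ((fD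 (jet r s y t)) ^ 2)) * (dD (jet r s y t) (K5L.del r s y t)))) / (4 * (1 + ((jet r s y t).x * (fD (jet r s y t))))))) - (((((jet r s y t).x ^ 2) * ((fD (jet r s y t)) ^ 3)) * (dU (jet r s y t) (K5L.del r s y t))) / (4 * ((1 + ((jet r s y t).x * (fD (jet r s y t)))) ^ 2)))) - (((K5L.del r s y t).x / 2) * (Real.log (1 + fD (jet r s y t))))) := h175.sub' h177 (by norm_num)
  have h179 : In (209197969862749128744886001/50000000000000000000000000) (52299492465687282186663557/12500000000000000000000000) (2 * (1 + (fD (jet r s y t)))) := (In.const (c := 2) (le_refl _) (le_refl _)).mul' h.pD1 (by norm_num)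
  have h180 : In (437671294407201509869854799/100000000000000000000000000) (218835647203601489347580821/50000000000000000000000000) (((jet r s y t).x * (dD (jet r s y t) (K5L.del r s y t))) / (2 * (1 + (fD (jet r s y t))))) := h69.div' h179 (by norm_num)
  have h181 : In (1898000804655534811134869557/100000000000000000000000000) (379600160931109554934393707/20000000000000000000000000) ((((((((((((((1 - (1 / (fk (jet r s y t)))) * (dk (jet r s y t) (K5L.del r s y t))) / 2) - ((dY (jet r s y t) (K5L.del r s y t)) / 4)) + ((dT (jet r s y t) (K5L.del r s y t)) / 3)) - ((((K5L.del r s y t).x + (dU (jet r s y t) (K5L.del r s y t))) * (fY (jet r s y t))) / 2)) - ((((jet r s y t).x * (1 + (fD (jet r s y t)))) * (dY (jet r s y t) (K5L.del r s y t))) / 2)) + ((dQ (jet r s y t) (K5L.del r s y t)) * (((fG (jet r s y t)) / 2) - (((2 * (fT (jet r s y t))) + ((fT (jet r s y t)) ^ 2)) / 4)))) + ((((jet r s y t).x ^ 2) * ((1 + (fD (jet r s y t))) ^ 3)) * (((dG (jet r s y t) (K5L.del r s y t)) / 2) - (((1 + (fT (jet r s y t))) * (dT (jet r s y t) (K5L.del r s y t))) / 2)))) + ((3 / 2) * (dU (jet r s y t) (K5L.del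 r s y t)))) + (((((2 * (jet r s y t).x) * ((fD (jet r s y t)) ^ 3)) * (K5L.del r s y t).x) + (((3 * ((jet r s y t).x ^ 2)) * ((fD (jet r s y t)) ^ 2)) * (dD (jet r s y t) (K5L.del r s y t)))) / (4 * (1 + ((jet r s y t).x * (fD (jet r s y t))))))) - (((((jet r s y t).x ^ 2) * ((fD (jet r s y t)) ^ 3)) * (dU (jet r s y t) (K5L.del r s y t))) / (4 * ((1 + ((jet r s y t).x * (fD (jet r s y t)))) ^ 2)))) - (((K5L.del r s y t).x / 2) * (Real.log (1 + fD (jet r s y t))))) - (((jet r s y t).x * (dD (jet r s y t) (K5L.del r s y t))) / (2 * (1 + (fD (jet r s y t)))))) := h178.sub' h180 (by norm_num)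
  have h182 : In (-10292176031915626521895933/12500000000000000000000000) (-82337408255324351299663723/100000000000000000000000000) (((K5L.del r s y t).x + (dU (jet r s y t) (K5L.del r s y t))) * (Real.log ((1 + 1) / (1 + fD (jet r s y t))))) := h140.mulN' k.L2 (by norm_num)
  have h183 : In (1815663396400209798959702093/100000000000000000000000000) (453915849100055855843076203/25000000000000000000000000) (((((((((((((((1 - (1 / (fk (jet r s y t)))) * (dk (jet r s y t) (K5L.del r s y t))) / 2) - ((dY (jet r s y t) (K5L.del r s y t)) / 4)) + ((dT (jet r s y t) (K5L.del r s y t)) / 3)) - ((((K5L.del r s y t).x + (dU (jet r s y t) (K5L.del r s y t))) * (fY (jet r s y t))) / 2)) - ((((jet r s y t).x * (1 + (fD (jet r s y t)))) * (dY (jet r s y t) (K5L.del r s y t))) / 2)) + ((dQ (jet r s y t) (K5L.del r s y t)) * (((fG (jet r s y t)) / 2) - (((2 * (fT (jet r s y t))) + ((fT (jet r s y t)) ^ 2)) / 4)))) + ((((jet r s y t).x ^ 2) * ((1 + (fD (jet r s y t))) ^ 3)) * (((dG (jet r s y t) (K5L.del r s y t)) / 2) - (((1 + (fT (jet r s y t))) * (dT (jet r s y t) (K5L.del r s y t))) / 2)))) + ((3 / 2) *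 (dU (jet r s y t) (K5L.del r s y t)))) + (((((2 * (jet r s y t).x) * ((fD (jet r s y t)) ^ 3)) * (K5L.del r s y t).x) + (((3 * ((jet r s y t).x ^ 2)) * ((fD (jet r s y t)) ^ 2)) * (dD (jet r s y t) (K5L.del r s y t)))) / (4 * (1 + ((jet r s y t).x * (fD (jet r s y t))))))) - (((((jet r s y t).x ^ 2) * ((fD (jet r s y t)) ^ 3)) * (dU (jet r s y t) (K5L.del r s y t))) / (4 * ((1 + ((jet r s y t).x * (fD (jet r s y t)))) ^ 2)))) - (((K5L.del r s y t).x / 2) * (Real.log (1 + fD (jet r s y t))))) - (((jet r s y t).x * (dD (jet r s y t) (K5L.del r s y t))) / (2 * (1 + (fD (jet r s y t)))))) + (((K5L.del r s y t).x + (dU (jet r s y t) (K5L.del r s y t))) * (Real.log ((1 + 1) / (1 + fD (jet r s y t)))))) := h181.add' h182 (by norm_num)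
  have h184 : In (-7767764371779600922538479/50000000000000000000000000) (-15535528743539431942506797/100000000000000000000000000) ((((((((((((((((1 - (1 / (fk (jet r s y t)))) * (dk (jet r s y t) (K5L.del r s y t))) / 2) - ((dY (jet r s y t) (K5L.del r s y t)) / 4)) + ((dT (jet r s y t) (K5L.del r s y t)) / 3)) - ((((K5L.del r s y t).x + (dU (jet r s y t) (K5L.del r s y t))) * (fY (jet r s y t))) / 2)) - ((((jet r s y t).x * (1 + (fD (jet r s y t)))) * (dY (jet r s y t) (K5L.del r s y t))) / 2)) + ((dQ (jet r s y t) (K5L.del r s y t)) * (((fG (jet r s y t)) / 2) - (((2 * (fT (jet r s y t))) + ((fT (jet r s y t)) ^ 2)) / 4)))) + ((((jet r s y t).x ^ 2) * ((1 + (fD (jet r s y t))) ^ 3)) * (((dG (jet r s y t) (K5L.del r s y t)) / 2) - (((1 + (fT (jet r s y t))) * (dT (jet r s y t) (K5L.del r s y t))) / 2)))) + ((3 / 2) * (dU (jet r s y t) (K5L.del r s y t)))) + (((((2 * (jet r s y t).x) * ((fD (jet r s y t)) ^ 3)) * (K5L.del r s y t).x) + (((3 * ((jet r s y t).x ^ 2)) * ((fD (jet r s y t)) ^ 2)) * (dD (jet r s y t) (K5L.del r s y t)))) / (4 * (1 + ((jet r s y t).x * (fD (jet r s y t))))))) -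 (((((jet r s y t).x ^ 2) * ((fD (jet r s y t)) ^ 3)) * (dU (jet r s y t) (K5L.del r s y t))) / (4 * ((1 + ((jet r s y t).x * (fD (jet r s y t)))) ^ 2)))) - (((K5L.del r s y t).x / 2) * (Real.log (1 + fD (jet r s y t))))) - (((jet r s y t).x * (dD (jet r s y t) (K5L.del r s y t))) / (2 * (1 + (fD (jet r s y t)))))) + (((K5L.del r s y t).x + (dU (jet r s y t) (K5L.del r s y t))) * (Real.log ((1 + 1) / (1 + fD (jet r s y t)))))) - ((jet r s y t).x * (dD (jet r s y t) (K5L.del r s y t)))) := h183.sub' h69 (by norm_num)
  have h185 : In (477544357093098867/50000000000000000000000000) (477544357093098869/50000000000000000000000000) ((7 / 2) * ((jet r s y t).x ^ 6)) := (In.const (c := (7 / 2)) (le_refl _) (le_refl _)).mul' h.px6 (by norm_num)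
  have h186 : In (85796289667950089/3125000000000000000000000) (2745481269374402861/100000000000000000000000000) (((7 / 2) * ((jet r s y t).x ^ 6)) * ((fD (jet r s y t)) ^ 12)) := h185.mul' h.pP12 (by norm_num)
  have h187 : In (0) (0) ((((7 / 2) * ((jet r s y t).x ^ 6)) * ((fD (jet r s y t)) ^ 12)) * (K5L.del r s y t).x) := h186.mul' h1 (by norm_num)
  have h188 : In (30602685217174089/50000000000000000000000000) (7650671304293523/12500000000000000000000000) (6 * ((jet r s y t).x ^ 7)) := (In.const (c := 6) (le_refl _) (le_refl _)).mul' h.px7 (by norm_num)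
  have h189 : In (80560052890639729/50000000000000000000000000) (6444804231251179/4000000000000000000000000) ((6 * ((jet r s y t).x ^ 7)) * ((fD (jet r s y t)) ^ 11)) := h188.mul' h.pP11 (by norm_num)
  have h190 : In (78926464959007100331/100000000000000000000000000) (2466452029968980423/3125000000000000000000000) (((6 * ((jet r s y t).x ^ 7)) * ((fD (jet r s y t)) ^ 11)) * (dD (jet r s y t) (K5L.del r s y t))) := h189.mul' h36 (by norm_num)
  have h191 : In (78926464959007100331/100000000000000000000000000) (2466452029968980423/3125000000000000000000000) (((((7 / 2) * ((jet r s y t).x ^ 6)) * ((fD (jet r s y t)) ^ 12)) * (K5L.del r s y t).x) + (((6 * ((jet r s y t).x ^ 7)) * ((fD (jet r s y t)) ^ 11)) * (dD (jet r s y t) (K5L.del r s y t)))) := h187.add' h190 (by norm_num)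
  have h192 : In (-15535449817094242837976627/100000000000000000000000000) (-15535449817074472935133261/100000000000000000000000000) (((((((((((((((((1 - (1 / (fk (jet r s y t)))) * (dk (jet r s y t) (K5L.del r s y t))) / 2) - ((dY (jet r s y t) (K5L.del r s y t)) / 4)) + ((dT (jet r s y t) (K5L.del r s y t)) / 3)) - ((((K5L.del r s y t).x + (dU (jet r s y t) (K5L.del r s y t))) * (fY (jet r s y t))) / 2)) - ((((jet r s y t).x * (1 + (fD (jet r s y t)))) * (dY (jet r s y t) (K5L.del r s y t))) / 2)) + ((dQ (jet r s y t) (K5L.del r s y t)) * (((fG (jet r s y t)) / 2) - (((2 * (fT (jet r s y t))) + ((fT (jet r s y t)) ^ 2)) / 4)))) + ((((jet r s y t).x ^ 2) * ((1 + (fD (jet r s y t))) ^ 3)) * (((dG (jet r s y t) (K5L.del r s y t)) / 2) - (((1 + (fT (jet r s y t))) * (dT (jet r s y t) (K5L.del r s y t))) / 2)))) + ((3 / 2) * (dU (jet r s y t) (K5L.del r s y t)))) + (((((2 * (jet r s y t).x) * ((fD (jet r s y t)) ^ 3)) * (K5L.del r s y t).x) + (((3 * ((jet r s y t).x ^ 2)) * ((fD (jet r s y t)) ^ 2)) * (dD (jet r s y t) (K5L.del r s y t)))) / (4 * (1 + ((jet r s y t).x * (fD (jet r s y t)))))))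 - (((((jet r s y t).x ^ 2) * ((fD (jet r s y t)) ^ 3)) * (dU (jet r s y t) (K5L.del r s y t))) / (4 * ((1 + ((jet r s y t).x * (fD (jet r s y t)))) ^ 2)))) - (((K5L.del r s y t).x / 2) * (Real.log (1 + fD (jet r s y t))))) - (((jet r s y t).x * (dD (jet r s y t) (K5L.del r s y t))) / (2 * (1 + (fD (jet r s y t)))))) + (((K5L.del r s y t).x + (dU (jet r s y t) (K5L.del r s y t))) * (Real.log ((1 + 1) / (1 + fD (jet r s y t)))))) - ((jet r s y t).x * (dD (jet r s y t) (K5L.del r s y t)))) + (((((7 / 2) * ((jet r s y t).x ^ 6)) * ((fD (jet r s y t)) ^ 12)) * (K5L.del r s y t).x) + (((6 * ((jet r s y t).x ^ 7)) * ((fD (jet r s y t)) ^ 11)) * (dD (jet r s y t) (K5L.del r s y t))))) := h184.add' h191 (by norm_num)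
  have h193 : In (16273059032053586529/20000000000000000000000000) (81365295160267932647/100000000000000000000000000) ((5 / 12) * ((jet r s y t).x ^ 4)) := (In.const (c := (5 / 12)) (le_refl _) (le_refl _)).mul' h.px4 (by norm_num)
  have h194 : In (89813224220294082021/50000000000000000000000000) (179626448440588164073/100000000000000000000000000) (((5 / 12) * ((jet r s y t).x ^ 4)) * ((fD (jet r s y t)) ^ 9)) := h193.mul' h.pP9 (by norm_num)
  have h195 : In (0) (0) ((((5 / 12) * ((jet r s y t).x ^ 4)) * ((fD (jet r s y t)) ^ 9)) * (K5L.del r s y t).x) := h194.mul' h1 (by norm_num)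
  have h196 : In (2737438211056109489/50000000000000000000000000) (273743821105610949/5000000000000000000000000) ((3 / 4) * ((jet r s y t).x ^ 5)) := (In.const (c := (3 / 4)) (le_refl _) (le_refl _)).mul' h.px5 (by norm_num)
  have h197 : In (442742106187899333/4000000000000000000000000) (2767138163674370833/25000000000000000000000000) (((3 / 4) * ((jet r s y t).x ^ 5)) * ((fD (jet r s y t)) ^ 8)) := h196.mul' h.pP8 (by norm_num)
  have h198 : In (2711026438977827754799/50000000000000000000000000) (5422052877955673709397/100000000000000000000000000) ((((3 / 4) * ((jet r s y t).x ^ 5)) * ((fD (jet r s y t)) ^ 8)) * (dD (jet r s y t) (K5L.del r s y t))) := h197.mul' h36 (by norm_num)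
  have h199 : In (2711026438977827754799/50000000000000000000000000) (5422052877955673709397/100000000000000000000000000) (((((5 / 12) * ((jet r s y t).x ^ 4)) * ((fD (jet r s y t)) ^ 9)) * (K5L.del r s y t).x) + ((((3 / 4) * ((jet r s y t).x ^ 5)) * ((fD (jet r s y t)) ^ 8)) * (dD (jet r s y t) (K5L.del r s y t)))) := h195.add' h198 (by norm_num)
  have h200 : In (-1942608983746524813960753/12500000000000000000000000) (-15540871869952428590642859/100000000000000000000000000) ((((((((((((((((((1 - (1 / (fk (jet r s y t)))) * (dk (jet r s y t) (K5L.del r s y t))) / 2) - ((dY (jet r s y t) (K5L.del r s y t)) / 4)) + ((dT (jet r s y t) (K5L.del r s y t)) / 3)) - ((((K5L.del r s y t).x + (dU (jet r s y t) (K5L.del r s y t))) * (fY (jet r s y t))) / 2)) - ((((jet r s y t).x * (1 + (fD (jet r s y t)))) * (dY (jet r s y t) (K5L.del r s y t))) / 2)) + ((dQ (jet r s y t) (K5L.del r s y t)) * (((fG (jet r s y t)) / 2) - (((2 * (fT (jet r s y t))) + ((fT (jet r s y t)) ^ 2)) / 4)))) + ((((jet r s y t).x ^ 2) * ((1 + (fD (jet r s y t))) ^ 3)) * (((dG (jet r s y t) (K5L.del r s y t)) / 2) - (((1 + (fT (jet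 r s y t))) * (dT (jet r s y t) (K5L.del r s y t))) / 2)))) + ((3 / 2) * (dU (jet r s y t) (K5L.del r s y t)))) + (((((2 * (jet r s y t).x) * ((fD (jet r s y t)) ^ 3)) * (K5L.del r s y t).x) + (((3 * ((jet r s y t).x ^ 2)) * ((fD (jet r s y t)) ^ 2)) * (dD (jet r s y t) (K5L.del r s y t)))) / (4 * (1 + ((jet r s y t).x * (fD (jet r s y t))))))) - (((((jet r s y t).x ^ 2) * ((fD (jet r s y t)) ^ 3)) * (dU (jet r s y t) (K5L.del r s y t))) / (4 * ((1 + ((jet r s y t).x * (fD (jet r s y t)))) ^ 2)))) - (((K5L.del r s y t).x / 2) * (Real.log (1 + fD (jet r s y t))))) - (((jet r s y t).x * (dD (jet r s y t) (K5L.del r s y t))) / (2 * (1 + (fD (jet r s y t)))))) + (((K5L.del r s y t).x + (dU (jet r s y t) (K5L.del r s y t))) * (Real.log ((1 + 1) / (1 + fD (jet r s y t)))))) - ((jet r s y t).x * (dD (jet r s y t) (K5L.del r s y t)))) + (((((7 / 2) * ((jet r s y t).x ^ 6)) * ((fD (jet r s y t)) ^ 12)) * (K5L.del r s y t).x) + (((6 * ((jet r s y t).x ^ 7)) * ((fD (jet r s y t)) ^ 11)) * (dD (jet r s y t) (K5L.del r s y t))))) - (((((5 / 12) * ((jet r s y t).x ^ 4)) * ((fD (jet r s y t)) ^ 9)) * (K5L.del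 r s y t).x) + ((((3 / 4) * ((jet r s y t).x ^ 5)) * ((fD (jet r s y t)) ^ 8)) * (dD (jet r s y t) (K5L.del r s y t))))) := h192.sub' h199 (by norm_num)
  have h201 : In (-1942608983746524813960753/12500000000000000000000000) (-15540871869952428590642859/100000000000000000000000000) (dJ (jet r s y t) (K5L.del r s y t)) := In.congr h200 (by unfold dJ; with_reducible rfl)
  exact ⟨h96, h124, h201⟩

end K5X
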