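import Pool.Agent.Lib.K5X.Fun

/-!
# K5X.Stat: the differential `dJ` at a stationary point of the jet; linearity and smoothness
-/

set_option autoImplicit false

namespace K5X

open K5N K5C K5L Filter Topology
open scoped ContDiff

noncomputable section

variable {β δ : ℝ → J} {d : J} {q : ℝ}

section
variable (h : HasJ β J0 q) (hb : Reg (β q))
include h hb

theorem stat_Y : HasDerivAt (fun w => fY (β w)) 0 q := (h.Y hb).congr_deriv (Stat.z0 _).2.2.1

variable (hd : HasJ δ d q)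
include hd

theorem stat_U' : HasDerivAt (fun w => dU (β w) (δ w)) (dU (β q) d) q := by
  unfold dU
  refine ((hd.x.mul (Stat.D h hb)).add (h.x.mul (Stat.dD' h hb hd))).congr_deriv ?_
  simp only [J0]
  ring

theorem stat_Q' : HasDerivAt (fun w => dQ (β w) (δ w)) (dQ (β q) d) q := by
  unfold dQ
  refine ((((h.x.const_mul 2).mul hd.x).mul (((Stat.D h hb).const_add 1).pow 3)).add
    ((((h.x.pow 2).const_mul 3).mul (((Stat.D h hb).const_add 1).pow 2)).mul
      (Stat.dD' h hb hd))).congr_deriv ?_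
  push_cast
  simp only [Pi.pow_apply, Pi.mul_apply, J0]
  ring

theorem stat_J' : HasDerivAt (fun w => dJ (β w) (δ w)) (dJ (β q) d) q := by
  have hx := hb.x
  have hk := hb.k
  have hD := hb.D
  have h1 : (1 : ℝ) + (β q).x * fD (β q) ≠ 0 := by positivity
  have h2 : (1 : ℝ) + fD (β q) ≠ 0 := by positivity
  have sx : HasDerivAt (fun w => (β w).x) 0 q := h.x
  have sk := Stat.k h hb
  have sT := Stat.T h hb
  have sD := Stat.D h hb
  have sG := Stat.G h hb
  have sY := stat_Y h hb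
  have dk' := Stat.dk' h hb hd
  have dT' := Stat.dT' h hb hd
  have dY' := Stat.dY' h hb hd
  have dD' := Stat.dD' h hb hd
  have dG' := Stat.dG' h hb hd
  have dU' := stat_U' h hb hd
  have dQ' := stat_Q' h hb hd
  have sE := sD.const_add 1
  have sl1 := sE.log h2
  have sl2 := ((hasDerivAt_const q ((1 : ℝ) + 1)).div sE h2).log
    (show ((1 : ℝ) + 1) / (1 + fD (β q)) ≠ 0 by positivity)
  have su := (sx.mul sD).const_add 1
  have p1 : HasDerivAt (fun w => (1 - 1 / fk (β w)) * dk (β w) (δ w) / 2)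
      ((1 - 1 / fk (β q)) * dk (β q) d / 2) q := by
    refine (((((hasDerivAt_const q (1 : ℝ)).div sk hk.ne').const_sub 1).mul dk').div_const
      2).congr_deriv ?_
    simp only [Pi.div_apply]
    ring
  have p2 : HasDerivAt (fun w => ((δ w).x + dU (β w) (δ w)) * fY (β w) / 2)
      ((d.x + dU (β q) d) * fY (β q) / 2) q := by
    refine (((hd.x.add dU').mul sY).div_const 2).congr_deriv ?_
    simp only [Pi.add_apply]
    ring
  have p3 : HasDerivAt (fun w => (β w).x * (1 + fD (β w)) * dY (β w) (δ w) / 2)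
      ((β q).x * (1 + fD (β q)) * dY (β q) d / 2) q := by
    refine (((sx.mul sE).mul dY').div_const 2).congr_deriv ?_
    simp only [Pi.mul_apply]
    ring
  have p4 : HasDerivAt (fun w => dQ (β w) (δ w) * (fG (β w) / 2 - (2 * fT (β w) + fT (β w) ^ 2) / 4))
      (dQ (β q) d * (fG (β q) / 2 - (2 * fT (β q) + fT (β q) ^ 2) / 4)) q := by
    refine (dQ'.mul ((sG.div_const 2).sub (((sT.const_mul 2).add
      (sT.pow 2)).div_const 4))).congr_deriv ?_
    push_cast
    simp only [Pi.sub_apply, Pi.add_apply, Pi.pow_apply]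
    ring
  have p5 : HasDerivAt (fun w => (β w).x ^ 2 * (1 + fD (β w)) ^ 3 *
      (dG (β w) (δ w) / 2 - (1 + fT (β w)) * dT (β w) (δ w) / 2))
      ((β q).x ^ 2 * (1 + fD (β q)) ^ 3 *
        (dG (β q) d / 2 - (1 + fT (β q)) * dT (β q) d / 2)) q := by
    refine (((sx.pow 2).mul (sE.pow 3)).mul ((dG'.div_const 2).sub
      (((sT.const_add 1).mul dT').div_const 2))).congr_deriv ?_
    push_cast
    simp only [Pi.sub_apply, Pi.mul_apply, Pi.pow_apply]
    ring
  have p6 : HasDerivAt (fun w => (2 * (β w).x * fD (β w) ^ 3 * (δ w).x +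
      3 * (β w).x ^ 2 * fD (β w) ^ 2 * dD (β w) (δ w)) / (4 * (1 + (β w).x * fD (β w))))
      ((2 * (β q).x * fD (β q) ^ 3 * d.x +
        3 * (β q).x ^ 2 * fD (β q) ^ 2 * dD (β q) d) / (4 * (1 + (β q).x * fD (β q)))) q := by
    refine (((((sx.const_mul 2).mul (sD.pow 3)).mul hd.x).add
      ((((sx.pow 2).const_mul 3).mul (sD.pow 2)).mul dD')).div (su.const_mul 4)
      (show (4 : ℝ) * (1 + (β q).x * fD (β q)) ≠ 0 by positivity)).congr_deriv ?_
    push_cast
    simp only [Pi.add_apply, Pi.mul_apply, Pi.pow_apply]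
    field_simp
    ring
  have p7 : HasDerivAt (fun w => (β w).x ^ 2 * fD (β w) ^ 3 * dU (β w) (δ w) /
      (4 * (1 + (β w).x * fD (β w)) ^ 2))
      ((β q).x ^ 2 * fD (β q) ^ 3 * dU (β q) d / (4 * (1 + (β q).x * fD (β q)) ^ 2)) q := by
    refine ((((sx.pow 2).mul (sD.pow 3)).mul dU').div ((su.pow 2).const_mul 4)
      (show (4 : ℝ) * (1 + (β q).x * fD (β q)) ^ 2 ≠ 0 by positivity)).congr_deriv ?_
    push_cast
    simp only [Pi.mul_apply, Pi.pow_apply]
    field_simp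
    ring
  have p8 : HasDerivAt (fun w => (δ w).x / 2 * Real.log (1 + fD (β w)))
      (d.x / 2 * Real.log (1 + fD (β q))) q := by
    refine ((hd.x.div_const 2).mul sl1).congr_deriv ?_
    ring
  have p9 : HasDerivAt (fun w => (β w).x * dD (β w) (δ w) / (2 * (1 + fD (β w))))
      ((β q).x * dD (β q) d / (2 * (1 + fD (β q)))) q := by
    refine ((sx.mul dD').div (sE.const_mul 2)
      (show (2 : ℝ) * (1 + fD (β q)) ≠ 0 by positivity)).congr_deriv ?_
    simp only [Pi.mul_apply]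
    field_simp
    ring
  have p10 : HasDerivAt (fun w => ((δ w).x + dU (β w) (δ w)) *
      Real.log ((1 + 1) / (1 + fD (β w))))
      ((d.x + dU (β q) d) * Real.log ((1 + 1) / (1 + fD (β q)))) q := by
    refine ((hd.x.add dU').mul sl2).congr_deriv ?_
    simp only [Pi.add_apply, Pi.div_apply]
    ring
  have p11 : HasDerivAt (fun w => (β w).x * dD (β w) (δ w)) ((β q).x * dD (β q) d) q := by
    refine (sx.mul dD').congr_deriv ?_
    ring
  have p12 : HasDerivAt (fun w => 7 / 2 * (β w).x ^ 6 * fD (β w) ^ 12 * (δ w).x +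
      6 * (β w).x ^ 7 * fD (β w) ^ 11 * dD (β w) (δ w))
      (7 / 2 * (β q).x ^ 6 * fD (β q) ^ 12 * d.x +
      6 * (β q).x ^ 7 * fD (β q) ^ 11 * dD (β q) d) q := by
    refine (((((sx.pow 6).const_mul (7 / 2)).mul (sD.pow 12)).mul hd.x).add
      ((((sx.pow 7).const_mul 6).mul (sD.pow 11)).mul dD')).congr_deriv ?_
    push_cast
    simp only [Pi.mul_apply, Pi.pow_apply]
    ring
  have p13 : HasDerivAt (fun w => 5 / 12 * (β w).x ^ 4 * fD (β w) ^ 9 * (δ w).x +
      3 / 4 * (β w).x ^ 5 * fD (β w) ^ 8 * dD (β w) (δ w))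
      (5 / 12 * (β q).x ^ 4 * fD (β q) ^ 9 * d.x +
      3 / 4 * (β q).x ^ 5 * fD (β q) ^ 8 * dD (β q) d) q := by
    refine (((((sx.pow 4).const_mul (5 / 12)).mul (sD.pow 9)).mul hd.x).add
      ((((sx.pow 5).const_mul (3 / 4)).mul (sD.pow 8)).mul dD')).congr_deriv ?_
    push_cast
    simp only [Pi.mul_apply, Pi.pow_apply]
    ring
  unfold dJ
  exact ((((((((((((((p1.sub (dY'.div_const 4)).add (dT'.div_const 3)).sub p2).sub p3).add
    p4).add p5).add (dU'.const_mul (3 / 2))).add p6).sub p7).sub p8).sub p9).add p10).sub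
    p11).add p12).sub p13

end

/-! ### linearity -/

theorem dQ_cb (b : J) (r s x y t : ℝ) : dQ b (cb r s x y t) =
    x * dQ b (cb r s 1 0 0) + y * dQ b (cb r s 0 1 0) + t * dQ b (cb r s 0 0 1) := by
  unfold dQ
  rw [dD_cb]
  simp only [cb]
  ring

theorem dU_cb (b : J) (r s x y t : ℝ) : dU b (cb r s x y t) =
    x * dU b (cb r s 1 0 0) + y * dU b (cb r s 0 1 0) + t * dU b (cb r s 0 0 1) := by
  unfold dU
  rw [dD_cb]
  simp only [cb]
  ring

theorem dJ_cb (b : J) (r s x y t : ℝ) : dJ b (cb r s x y t) =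
    x * dJ b (cb r s 1 0 0) + y * dJ b (cb r s 0 1 0) + t * dJ b (cb r s 0 0 1) := by
  have e : ∀ x y t : ℝ, (cb r s x y t).x = x := fun _ _ _ => rfl
  unfold dJ
  simp only [e]
  rw [dk_cb, dY_cb, dT_cb, dG_cb, dQ_cb, dU_cb, dD_cb]
  ring

theorem dQ_gn (b : J) (c : C9) (x y t : ℝ) : dQ b (gn c x y t) =
    x * dQ b (gn c 1 0 0) + y * dQ b (gn c 0 1 0) + t * dQ b (gn c 0 0 1) := by
  unfold dQ
  rw [dD_gn]
  simp only [gn]
  ring

theorem dU_gn (b : J) (c : C9) (x y t : ℝ) : dU b (gn c x y t) =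
    x * dU b (gn c 1 0 0) + y * dU b (gn c 0 1 0) + t * dU b (gn c 0 0 1) := by
  unfold dU
  rw [dD_gn]
  simp only [gn]
  ring

theorem dJ_gn (b : J) (c : C9) (x y t : ℝ) : dJ b (gn c x y t) =
    x * dJ b (gn c 1 0 0) + y * dJ b (gn c 0 1 0) + t * dJ b (gn c 0 0 1) := by
  have e : ∀ x y t : ℝ, (gn c x y t).x = 0 := fun _ _ _ => rfl
  unfold dJ
  simp only [e]
  rw [dk_gn, dY_gn, dT_gn, dG_gn, dQ_gn, dU_gn, dD_gn]
  ring

/-! ### smoothness -/

section
variable {E : Type} [NormedAddCommGroup E] [NormedSpace ℝ E] {β δ : E → J} {p : E} {n : WithTop ℕ∞}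
variable (h : SmJ n β p) (hd : SmJ n δ p) (hb : Reg (β p))
include h hd hb

theorem sm_dU : ContDiffAt ℝ n (fun e => dU (β e) (δ e)) p := by
  unfold dU
  exact (hd.x.mul (h.D hb)).add (h.x.mul (SmJ.dD h hd hb))

theorem sm_dQ : ContDiffAt ℝ n (fun e => dQ (β e) (δ e)) p := by
  unfold dQ
  exact (((contDiffAt_const.mul h.x).mul hd.x).mul ((contDiffAt_const.add (h.D hb)).pow 3)).add
    (((contDiffAt_const.mul (h.x.pow 2)).mul ((contDiffAt_const.add (h.D hb)).pow 2)).mul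
      (SmJ.dD h hd hb))

theorem sm_dJ : ContDiffAt ℝ n (fun e => dJ (β e) (δ e)) p := by
  have hx := hb.x
  have hk := hb.k
  have hD := hb.D
  have h1 : (1 : ℝ) + (β p).x * fD (β p) ≠ 0 := by positivity
  have h2 : (1 : ℝ) + fD (β p) ≠ 0 := by positivity
  have h3 : (4 : ℝ) * (1 + (β p).x * fD (β p)) ≠ 0 := by positivity
  have h4 : (4 : ℝ) * (1 + (β p).x * fD (β p)) ^ 2 ≠ 0 := by positivity
  have h5 : (2 : ℝ) * (1 + fD (β p)) ≠ 0 := by positivity
  have h6 : ((1 : ℝ) + 1) / (1 + fD (β p)) ≠ 0 := by positivity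
  have ck := h.k hb
  have cT := h.T hb
  have cY := h.Y hb
  have cD := h.D hb
  have cG := h.G hb
  have cdk := SmJ.dk h hd hb
  have cdT := SmJ.dT h hd hb
  have cdY := SmJ.dY h hd hb
  have cdD := SmJ.dD h hd hb
  have cdG := SmJ.dG h hd hb
  have cdU := sm_dU h hd hb
  have cdQ := sm_dQ h hd hb
  have cE : ContDiffAt ℝ n (fun e => 1 + fD (β e)) p := contDiffAt_const.add cD
  have cu : ContDiffAt ℝ n (fun e => 1 + (β e).x * fD (β e)) p :=
    contDiffAt_const.add (h.x.mul cD)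
  have c1 : ContDiffAt ℝ n (fun e => 1 / fk (β e)) p := contDiffAt_const.div ck hk.ne'
  have c2 : ContDiffAt ℝ n (fun e => Real.log (1 + fD (β e))) p := cE.log h2
  have c3 : ContDiffAt ℝ n (fun e => Real.log ((1 + 1) / (1 + fD (β e)))) p :=
    (contDiffAt_const.div cE h2).log h6
  have c4 : ContDiffAt ℝ n (fun e => (2 * (β e).x * fD (β e) ^ 3 * (δ e).x +
      3 * (β e).x ^ 2 * fD (β e) ^ 2 * dD (β e) (δ e)) / (4 * (1 + (β e).x * fD (β e)))) p :=
    ((((contDiffAt_const.mul h.x).mul (cD.pow 3)).mul hd.x).add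
      (((contDiffAt_const.mul (h.x.pow 2)).mul (cD.pow 2)).mul cdD)).div
      (contDiffAt_const.mul cu) h3
  have c5 : ContDiffAt ℝ n (fun e => (β e).x ^ 2 * fD (β e) ^ 3 * dU (β e) (δ e) /
      (4 * (1 + (β e).x * fD (β e)) ^ 2)) p :=
    (((h.x.pow 2).mul (cD.pow 3)).mul cdU).div (contDiffAt_const.mul (cu.pow 2)) h4
  have c6 : ContDiffAt ℝ n (fun e => (β e).x * dD (β e) (δ e) / (2 * (1 + fD (β e)))) p :=
    (h.x.mul cdD).div (contDiffAt_const.mul cE) h5
  have hx' := h.x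
  have hdx := hd.x
  have q1 : ContDiffAt ℝ n (fun e => (1 - 1 / fk (β e)) * dk (β e) (δ e) / 2) p :=
    ((contDiffAt_const.sub c1).mul cdk).div_const 2
  have q2 : ContDiffAt ℝ n (fun e => ((δ e).x + dU (β e) (δ e)) * fY (β e) / 2) p :=
    ((hdx.add cdU).mul cY).div_const 2
  have q3 : ContDiffAt ℝ n (fun e => (β e).x * (1 + fD (β e)) * dY (β e) (δ e) / 2) p :=
    ((hx'.mul cE).mul cdY).div_const 2
  have q4 : ContDiffAt ℝ n (fun e => dQ (β e) (δ e) *
      (fG (β e) / 2 - (2 * fT (β e) + fT (β e) ^ 2) / 4)) p :=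
    cdQ.mul ((cG.div_const 2).sub (((contDiffAt_const.mul cT).add (cT.pow 2)).div_const 4))
  have q5 : ContDiffAt ℝ n (fun e => (β e).x ^ 2 * (1 + fD (β e)) ^ 3 *
      (dG (β e) (δ e) / 2 - (1 + fT (β e)) * dT (β e) (δ e) / 2)) p :=
    ((hx'.pow 2).mul (cE.pow 3)).mul ((cdG.div_const 2).sub
      (((contDiffAt_const.add cT).mul cdT).div_const 2))
  have q6 : ContDiffAt ℝ n (fun e => 7 / 2 * (β e).x ^ 6 * fD (β e) ^ 12 * (δ e).x +
      6 * (β e).x ^ 7 * fD (β e) ^ 11 * dD (β e) (δ e)) p :=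
    (((contDiffAt_const.mul (hx'.pow 6)).mul (cD.pow 12)).mul hdx).add
      (((contDiffAt_const.mul (hx'.pow 7)).mul (cD.pow 11)).mul cdD)
  have q7 : ContDiffAt ℝ n (fun e => 5 / 12 * (β e).x ^ 4 * fD (β e) ^ 9 * (δ e).x +
      3 / 4 * (β e).x ^ 5 * fD (β e) ^ 8 * dD (β e) (δ e)) p :=
    (((contDiffAt_const.mul (hx'.pow 4)).mul (cD.pow 9)).mul hdx).add
      (((contDiffAt_const.mul (hx'.pow 5)).mul (cD.pow 8)).mul cdD)
  unfold dJ
  exact ((((((((((((q1.sub (cdY.div_const 4)).add (cdT.div_const 3)).sub q2).sub q3).add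
    q4).add q5).add (contDiffAt_const.mul cdU)).add c4).sub c5).sub ((hdx.div_const 2).mul
    c2)).sub c6).add ((hdx.add cdU).mul c3)).sub (hx'.mul cdD) |>.add q6 |>.sub q7

end

end

end K5X
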