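import Pool.Agent.Lib.K5X.Der
import Pool.Agent.Lib.K5X.Conn
import Pool.Agent.Lib.K5F.Exact
import Pool.Agent.Lib.K5F.F1

/-!
# K5X.Sum: the value of `∑ g_n / n! ρ^n`

`∑ g_n / n! ρ^n = exp (R - R B'(R) + B(R))`, where `ρ = R exp (-B'(R))`.
-/

set_option autoImplicit false

namespace K5X

open Filter Topology Metric K5T K5F
open K5 (bC rC bE rE egf eexp trc)

namespace SumAux

/-- `c_n / n!`, with the value `0` at `0`. -/
noncomputable def cc (n : ℕ) : ℝ := if n = 0 then 0 else (P512.c n : ℝ) / n.factorial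

/-- `g_n / n!`. -/
noncomputable def gg (n : ℕ) : ℝ := (P512.g n : ℝ) / n.factorial

theorem cc_nonneg (n : ℕ) : 0 ≤ cc n := by
  unfold cc
  split_ifs
  · exact le_rfl
  · positivity

theorem gg_nonneg (n : ℕ) : 0 ≤ gg n := by
  unfold gg
  positivity

theorem ca_one (n : ℕ) : K5T.MainAux.ca 1 n = cc n := by
  unfold K5T.MainAux.ca cc
  simp

theorem ga_one (n : ℕ) : K5T.MainAux.ga 1 n = gg n := by
  unfold K5T.MainAux.ga gg
  simp

theorem n_cc (n : ℕ) : (n : ℝ) * cc n = rr n := by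
  have h := K5T.MainAux.ca_eq 1 n
  rw [ca_one] at h
  simpa using h

theorem dS_cc (n : ℕ) : dS cc n = rr (n + 1) := by
  unfold dS
  rw [← n_cc (n + 1)]
  push_cast
  ring

theorem dS_gg : dS gg = fun n => ∑ k ∈ Finset.range (n + 1), dS cc k * gg (n - k) := by
  funext n
  have h := K5T.MainAux.ga_rec 1 n
  simp only [ca_one, ga_one] at h
  exact h

/-- The series of the connected graphs at `ρ`. -/
theorem conn_val (S : Data) (hb : S.b = bb) (hr : S.r = rr)
    (hB : Summable (fun n : ℕ => Bc n * S.x0 ^ n)) :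
    Summable (fun n : ℕ => cc n * S.rho ^ n) ∧
      fr cc S.rho = S.x0 - S.x0 * fr bb S.x0 + fr Bc S.x0 := by
  have hρ := S.rho_pos
  have hR := S.x0_pos
  have hbb : ∀ n, 0 ≤ bb n := fun n => by unfold bb; positivity
  have sb : Summable (fun n : ℕ => bb n * S.x0 ^ n) := by rw [← hb]; exact S.b_sum
  have sr : Summable (fun n : ℕ => rr n * S.rho ^ n) := by rw [← hr]; exact S.r_sum
  have rn : ∀ n, 0 ≤ rr n := BridgeAux.rr_nonneg
  have r1 : 0 < rr 1 := by rw [← hr]; exact S.r_one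
  have r0 : rr 0 = 0 := by rw [← hr]; exact S.r_zero
  have hlim : fr rr S.rho = S.x0 := by rw [← hr]; exact S.r_lim
  have heq : ∀ z : ℝ, 0 ≤ z → z ≤ S.rho → fr rr z = z * Real.exp (fr bb (fr rr z)) := by
    rw [← hr, ← hb]
    exact S.r_eq
  -- the series of the connected graphs is summable
  have sc : Summable (fun n : ℕ => cc n * S.rho ^ n) := by
    refine Summable.of_nonneg_of_le (fun n => mul_nonneg (cc_nonneg n) (pow_nonneg hρ.le n))
      (fun n => ?_) sr
    refine mul_le_mul_of_nonneg_right ?_ (pow_nonneg hρ.le n)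
    rw [← n_cc n]
    rcases n with _ | n
    · simp [cc]
    · have h1 := cc_nonneg (n + 1)
      have h2 : (1 : ℝ) ≤ ((n + 1 : ℕ) : ℝ) := by
        push_cast
        have : (0 : ℝ) ≤ n := Nat.cast_nonneg n
        linarith
      nlinarith
  refine ⟨sc, ?_⟩
  have fr0 : ∀ a : ℕ → ℝ, fr a 0 = a 0 := by
    intro a
    unfold fr
    rw [tsum_eq_single 0]
    · simp
    · intro n hn
      simp [hn]
  have hF0 : ∀ z ∈ Set.Ioo (0 : ℝ) S.rho, 0 < fr rr z ∧ fr rr z < S.x0 := by
    intro z hz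
    constructor
    · have h1 := fr_lt rn r1 sr le_rfl hz.1 hz.2.le
      rwa [fr0, r0] at h1
    · have h1 := fr_lt rn r1 sr hz.1.le hz.2 le_rfl
      rwa [hlim] at h1
  have hd : ∀ z ∈ Set.Ioo (0 : ℝ) S.rho,
      HasDerivAt (fun z => fr cc z - (fr rr z * (1 - fr bb (fr rr z)) + fr Bc (fr rr z))) 0 z := by
    intro z hz
    obtain ⟨f1, f2⟩ := hF0 z hz
    have dc := hasDerivAt_fr cc_nonneg sc hz.1 hz.2
    have dF := hasDerivAt_fr rn sr hz.1 hz.2
    have db := (hasDerivAt_fr hbb sb f1 f2).comp z dF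
    have dB := (hasDerivAt_fr Bc_nonneg hB f1 f2).comp z dF
    rw [dS_Bc] at dB
    set F' := fr (dS rr) z
    set b' := fr (dS bb) (fr rr z)
    -- the derivative of `F = z exp (β F)`
    have e1 : F' = fr rr z / z + fr rr z * (b' * F') := by
      have h1 : HasDerivAt (fun z => z * Real.exp (fr bb (fr rr z)))
          (1 * Real.exp (fr bb (fr rr z)) + z * (Real.exp (fr bb (fr rr z)) * (b' * F'))) z :=
        (hasDerivAt_id z).mul db.exp
      have h2 : (fun z => z * Real.exp (fr bb (fr rr z))) =ᶠ[𝓝 z] fr rr := by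
        filter_upwards [Ioo_mem_nhds hz.1 hz.2] with w hw
        exact (heq w hw.1.le hw.2.le).symm
      have h3 := (h1.congr_of_eventuallyEq h2.symm).unique dF
      have h4 := heq z hz.1.le hz.2.le
      have h5 : Real.exp (fr bb (fr rr z)) = fr rr z / z := by
        rw [eq_div_iff hz.1.ne']
        linarith
      rw [h5] at h3
      have h6 := hz.1.ne'
      have h7 : z * (fr rr z / z * (b' * F')) = fr rr z * (b' * F') := by
        field_simp
      rw [h7, one_mul] at h3
      exact h3.symm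
    have e2 : fr (dS cc) z = fr rr z / z := by
      have h1 : Summable (fun n : ℕ => rr n * z ^ n) := summable_fr rn sr hz.1.le hz.2.le
      have h6 := hz.1.ne'
      rw [eq_div_iff h6]
      unfold fr
      rw [h1.tsum_eq_zero_add, r0, zero_mul, zero_add, ← tsum_mul_right]
      refine tsum_congr fun n => ?_
      rw [dS_cc, pow_succ]
      ring
    have h7 := dc.sub ((dF.mul ((hasDerivAt_const z (1 : ℝ)).sub db)).add dB)
    refine h7.congr_deriv ?_
    rw [e2]
    show fr rr z / z - (F' * (1 - fr bb (fr rr z)) + fr rr z * (0 - b' * F') +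
      fr bb (fr rr z) * F') = 0
    linarith
  have hc : ContinuousOn
      (fun z => fr cc z - (fr rr z * (1 - fr bb (fr rr z)) + fr Bc (fr rr z)))
      (Set.Icc 0 S.rho) := by
    have c1 := continuousOn_fr cc_nonneg sc
    have c2 := continuousOn_fr rn sr
    have hm : Set.MapsTo (fr rr) (Set.Icc 0 S.rho) (Set.Icc 0 S.x0) := by
      intro z hz
      constructor
      · exact tsum_nonneg fun n => mul_nonneg (rn n) (pow_nonneg hz.1 n)
      · rw [← hlim]
        exact fr_mono rn sr hz.1 hz.2 le_rfl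
    have c3 := (continuousOn_fr hbb sb).comp c2 hm
    have c4 := (continuousOn_fr Bc_nonneg hB).comp c2 hm
    exact c1.sub ((c2.mul (continuousOn_const.sub c3)).add c4)
  have h := ends_eq hρ hc hd
  simp only [hlim, fr0, r0, Bc_zero] at h
  have h8 : cc 0 = 0 := by simp [cc]
  rw [h8] at h
  linarith

/-- The exponential formula at `ρ`. -/
theorem exp_val {ρ : ℝ} (hρ : 0 < ρ) (hc : Summable (fun n : ℕ => cc n * ρ ^ n))
    (hg : Summable (fun n : ℕ => gg n * ρ ^ n)) : fr gg ρ = Real.exp (fr cc ρ) := by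
  have h0 : ∀ z ∈ Set.Ioo (0 : ℝ) ρ, HasDerivAt (fun z => fr gg z * Real.exp (-fr cc z)) 0 z := by
    intro z hz
    have h1 := hasDerivAt_fr gg_nonneg hg hz.1 hz.2
    have h2 := hasDerivAt_fr cc_nonneg hc hz.1 hz.2
    have h3 : fr (dS gg) z = fr (dS cc) z * fr gg z := by
      rw [fr_mul (a := dS cc) (b := gg) ?_ gg_nonneg hz.1.le
        (summable_dS cc_nonneg hc hz.1 hz.2) (summable_fr gg_nonneg hg hz.1.le hz.2.le), dS_gg]
      intro n
      unfold dS
      exact mul_nonneg (by positivity) (cc_nonneg _)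
    have h4 : HasDerivAt (fun z => Real.exp (-fr cc z))
        (Real.exp (-fr cc z) * -fr (dS cc) z) z := h2.neg.exp
    have h5 := h1.mul h4
    rw [h3] at h5
    refine h5.congr_deriv ?_
    ring
  have h5 : ContinuousOn (fun z => fr gg z * Real.exp (-fr cc z)) (Set.Icc 0 ρ) :=
    (continuousOn_fr gg_nonneg hg).mul (Real.continuous_exp.comp_continuousOn
      (continuousOn_fr cc_nonneg hc).neg)
  have h6 := ends_eq hρ h5 h0
  have h7 : fr gg 0 = 1 := by
    unfold fr
    rw [tsum_eq_single 0]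
    · simp [gg, K5T.MainAux.g_zero]
    · intro n hn
      simp [hn]
  have h8 : fr cc 0 = 0 := by
    unfold fr
    rw [tsum_eq_single 0]
    · simp [cc]
    · intro n hn
      simp [hn]
  simp only [h7, h8, neg_zero, Real.exp_zero, mul_one] at h6
  rw [Real.exp_neg] at h6
  have h9 := (Real.exp_pos (fr cc ρ)).ne'
  field_simp at h6
  exact h6

theorem Bc_sum {x : ℝ} (hx : 0 < x) (hs : Summable (fun n : ℕ => bb n * x ^ n)) :
    Summable (fun n : ℕ => Bc n * x ^ n) := by
  rw [← summable_nat_add_iff 1]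
  refine Summable.of_nonneg_of_le (fun n => mul_nonneg (Bc_nonneg _) (pow_nonneg hx.le _))
    (fun n => ?_) (hs.mul_right x)
  rw [← dS_Bc, pow_succ, ← mul_assoc]
  refine mul_le_mul_of_nonneg_right (mul_le_mul_of_nonneg_right ?_ (pow_nonneg hx.le n)) hx.le
  unfold dS
  have h1 := Bc_nonneg (n + 1)
  have h2 : (0 : ℝ) ≤ n := Nat.cast_nonneg n
  nlinarith

end SumAux

open SumAux

/-- The value of the series of all graphs at `ρ = x0 exp (-B'(x0))`. -/
theorem tsum_val {x0 : ℝ} (hx0 : 0 < x0) (hfin : egf bE (.ofReal x0) ≠ ⊤)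
    {h : ℂ → ℂ} {a0 a2 a3 : ℝ}
    (loc : ∀ᶠ u in 𝓝[ball (0 : ℂ) x0] (x0 : ℂ), fn bb u = h (sq (u / x0)))
    (t3 : T3 h a0 a2 a3) (kap : 0 < 1 + a2) (ha3 : a3 ≠ 0) :
    ∑' n : ℕ, (P512.g n : ℝ) / n.factorial * (x0 * Real.exp (-fr bb x0)) ^ n =
      Real.exp (x0 - x0 * fr bb x0 + fr Bc x0) := by
  obtain ⟨K, K', -, -, -, -, -, hsum, -⟩ := asymp_val hx0 hfin loc t3 kap ha3
  let S := mkData hx0 hfin loc t3 kap
  have hBs : Summable (fun n : ℕ => Bc n * S.x0 ^ n) := Bc_sum hx0 S.b_sum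
  obtain ⟨h1, h2⟩ := conn_val S rfl rfl hBs
  have h3 := exp_val S.rho_pos h1 hsum
  rw [h2] at h3
  exact h3

end K5X
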