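import Pool.Agent.Lib.K5X.Cst
import Pool.Agent.Lib.K5L.ArcEx

/-!
# K5X.TB: the singular expansion of `pBx 1` on the arc through the critical point

`T3_B`: with `px (W v) = R (1 - v ^ 2)`, `pBx 1` at the point `W v` of the curve is
`pBx 1 - R HB v ^ 2 + aThree v ^ 3 + O(v ^ 4)`.
-/

set_option autoImplicit false

namespace K5X

open K5N K5C K5L Filter Topology
open scoped ContDiff

noncomputable section

variable {S Y T : ℝ → ℝ} {q : ℝ}

theorem sm_pBx (hL : ∀ᶠ w in 𝓝 q, Loc S Y T w) (hx1 : px q (S q) (Y q) (T q) < 1)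
    (hsr : S q - q ≠ 0) : ContDiffAt ℝ ω (fun w => pBx 1 w (S w) (Y w) (T w)) q := by
  have h := hL.self_of_nhds
  have hb := h.reg
  have hx := hb.x
  have hk := hb.k
  have hD := hb.D
  have hX := h.cX
  have hS := h.sS
  have hY := h.sY
  have hT := h.sT
  have h1 : 1 - px q (S q) (Y q) (T q) ≠ 0 := by linarith
  have l1 : ContDiffAt ℝ ω (fun w => Real.log (w / px w (S w) (Y w) (T w))) q :=
    (contDiffAt_id.div hX (ne_of_gt hx)).log (div_pos h.q0 hx).ne'
  have l2 : ContDiffAt ℝ ω (fun w => Real.log ((S w - w) / (1 - px w (S w) (Y w) (T w)))) q :=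
    ((hS.sub contDiffAt_id).div (contDiffAt_const.sub hX) h1).log (div_ne_zero hsr h1)
  have hcf : ContDiffAt ℝ ω (fun w => cf (px w (S w) (Y w) (T w)) w (S w) (Y w) (T w)) q := by
    unfold cf
    fun_prop
  have hj := sm_jet hS hY hT
  have sx := hj.x
  have g1 : (1 : ℝ) + (jet q (S q) (Y q) (T q)).x * fD (jet q (S q) (Y q) (T q)) ≠ 0 := by
    positivity
  have g2 : (1 : ℝ) + fD (jet q (S q) (Y q) (T q)) ≠ 0 := by positivity
  have g3 : ((1 : ℝ) + 1) / (1 + fD (jet q (S q) (Y q) (T q))) ≠ 0 := by positivity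
  have sk := hj.k hb
  have sT := hj.T hb
  have sY := hj.Y hb
  have sD := hj.D hb
  have sG := hj.G hb
  have lk := sk.log hk.ne'
  have sE : ContDiffAt ℝ ω (fun w => 1 + fD (jet w (S w) (Y w) (T w))) q :=
    contDiffAt_const.add sD
  have lE := sE.log g2
  have lE2 := ((contDiffAt_const (c := (1 : ℝ) + 1)).div sE g2).log g3
  have su : ContDiffAt ℝ ω (fun w => (jet w (S w) (Y w) (T w)).x ^ 2 *
      fD (jet w (S w) (Y w) (T w)) ^ 3 /
      (4 * (1 + (jet w (S w) (Y w) (T w)).x * fD (jet w (S w) (Y w) (T w))))) q :=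
    ((sx.pow 2).mul (sD.pow 3)).div (contDiffAt_const.mul (contDiffAt_const.add (sx.mul sD)))
      (mul_ne_zero four_ne_zero g1)
  have hfJ : ContDiffAt ℝ ω (fun w => fJ (jet w (S w) (Y w) (T w))) q := by
    have r1 := (((sk.sub (contDiffAt_const (c := (1 : ℝ)))).sub lk).div_const 2)
    have r2 := (((sx.mul sE).mul sY).div_const 2)
    have r3 := ((((sx.pow 2).mul (sE.pow 3)).mul
      (((contDiffAt_const (c := (2 : ℝ))).mul sT).add (sT.pow 2))).div_const 4)
    have r4 := ((((sx.pow 2).mul (sE.pow 3)).mul sG).div_const 2)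
    have r5 := (contDiffAt_const (c := (3 / 2 : ℝ))).mul (sx.mul sD)
    have r6 := (sx.div_const 2).mul lE
    have r7 := (sx.mul sE).mul lE2
    have r8 := ((sx.pow 7).mul (sD.pow 12)).div_const 2
    have r9 := ((sx.pow 5).mul (sD.pow 9)).div_const 12
    unfold fJ
    exact (((((((((((r1.sub (sY.div_const 4)).add (sT.div_const 3)).sub r2).sub r3).add r4).add
      r5).add su).sub r6).add r7).add r8).sub r9)
  refine ((hcf.div_const 2).add hfJ).congr_of_eventuallyEq ?_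
  filter_upwards [hL] with w hw
  exact pBx_eq hw.reg

/-- The singular expansion of `pBx 1` along the curve. -/
theorem T3_B {S Y T W : ℝ → ℝ} {r R : ℝ} (hL : ∀ᶠ q in 𝓝 r, Loc S Y T q)
    (hc : chi r (S r) (Y r) (T r) = 0) (hx1 : px r (S r) (Y r) (T r) < 1)
    (aW : AnalyticAt ℝ W 0) (W0 : W 0 = r) (dW : deriv W 0 < 0)
    (hR : px r (S r) (Y r) (T r) = R)
    (xW : ∀ᶠ v in 𝓝 (0 : ℝ), px (W v) (S (W v)) (Y (W v)) (T (W v)) = R * (1 - v ^ 2)) :
    ∃ β : ℂ → ℂ, K5T.T3 β ((pBx 1 r (S r) (Y r) (T r) : ℝ) : ℂ)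
      ((-(R * HB r (S r) (Y r) (T r)) : ℝ) : ℂ) ((aThree r (S r) (Y r) (T r) : ℝ) : ℂ) ∧
      ∀ᶠ v : ℝ in 𝓝 (0 : ℝ),
        β (v : ℂ) = ((pBx 1 (W v) (S (W v)) (Y (W v)) (T (W v)) : ℝ) : ℂ) := by
  have hr := hL.self_of_nhds
  have hR0 : 0 < R := by
    rw [← hR]
    exact hr.reg.x
  have hsr : ∀ q, Loc S Y T q → px q (S q) (Y q) (T q) < 1 → S q - q ≠ 0 := fun q h h1 =>
    (hasDerivAt_cf (hasDerivAt_id q) h.dS h.dY h.dT h.q0 h.reg.x h1 h.b.self_of_nhds).1
  have hLt : ∀ᶠ q in 𝓝 r, px q (S q) (Y q) (T q) < 1 :=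
    hr.cX.continuousAt.eventually (gt_mem_nhds hx1)
  have hall : ∀ᶠ q in 𝓝 r, (∀ᶠ w in 𝓝 q, Loc S Y T w) ∧ px q (S q) (Y q) (T q) < 1 :=
    hL.eventually_nhds.and hLt
  have hWt : Tendsto W (𝓝 0) (𝓝 r) := by
    have := aW.continuousAt.tendsto
    rwa [W0] at this
  have hallW := hWt.eventually hall
  have hWa : ∀ᶠ v in 𝓝 (0 : ℝ), AnalyticAt ℝ W v := aW.eventually_analyticAt
  set G : ℝ → ℝ := fun q => pBx 1 q (S q) (Y q) (T q) with hG
  set H : ℝ → ℝ := fun q => HB q (S q) (Y q) (T q) with hH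
  have aG : ContDiffAt ℝ ω G r := sm_pBx hL hx1 (hsr r hr hx1)
  have aH : ContDiffAt ℝ ω H r := sm_HB hr hx1 (hsr r hr hx1)
  have aGW : AnalyticAt ℝ (fun v => G (W v)) 0 := by
    have : ContDiffAt ℝ ω (fun v => G (W v)) 0 := by
      refine ContDiffAt.comp (g := G) (0 : ℝ) ?_ aW.contDiffAt
      rw [W0]
      exact aG
    exact this.analyticAt
  have aHW : AnalyticAt ℝ (fun v => H (W v)) 0 := by
    have : ContDiffAt ℝ ω (fun v => H (W v)) 0 := by
      refine ContDiffAt.comp (g := H) (0 : ℝ) ?_ aW.contDiffAt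
      rw [W0]
      exact aH
    exact this.analyticAt
  -- the derivative of `x` along the arc
  have hXW : ∀ᶠ v in 𝓝 (0 : ℝ), Xp S Y T (W v) * deriv W v = -(2 * R) * v := by
    filter_upwards [hallW, hWa, xW.eventually_nhds] with v hv hva hvx
    have h1 := (hv.1.self_of_nhds.X).comp v hva.differentiableAt.hasDerivAt
    have h2 : HasDerivAt (fun v : ℝ => R * (1 - v ^ 2)) (-(2 * R) * v) v := by
      have h3 := (((hasDerivAt_id v).pow 2).const_sub 1).const_mul R
      refine h3.congr_deriv ?_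
      simp only [id]
      push_cast
      ring
    have h3 : ((fun w => px w (S w) (Y w) (T w)) ∘ W) =ᶠ[𝓝 v] fun v => R * (1 - v ^ 2) := by
      filter_upwards [hvx] with z hz
      exact hz
    exact h1.unique (h2.congr_of_eventuallyEq h3)
  have hgK : ∀ᶠ v in 𝓝 (0 : ℝ), deriv (fun v => G (W v)) v = -(2 * R) * (v * H (W v)) := by
    filter_upwards [hallW, hWa, hXW] with v hv hva hvx
    have h1 := (loc_B hv.1 hv.2).comp v hva.differentiableAt.hasDerivAt
    have h2 : deriv (fun v => G (W v)) v = Xp S Y T (W v) * HB (W v) (S (W v)) (Y (W v)) (T (W v))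
        * deriv W v := h1.deriv
    rw [h2]
    show _ = -(2 * R) * (v * HB (W v) (S (W v)) (Y (W v)) (T (W v)))
    linear_combination HB (W v) (S (W v)) (Y (W v)) (T (W v)) * hvx
  obtain ⟨β, hβ, hβe⟩ := T3_of_real aGW aHW hgK
  -- the derivative of `W` at `0`
  have hom := ((sm_om hr.sS hr.sY hr.sT hr.reg hr.del).differentiableAt (by simp)).hasDerivAt
  have hX2 : HasDerivAt (Xp S Y T) (chid r (S r) (Y r) (T r) / om r (S r) (Y r) (T r)) r := by
    have h1 := (loc_chi' hr hc).div hom hr.om.ne'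
    have h2 : Xp S Y T = (fun w => chi w (S w) (Y w) (T w)) / fun w => om w (S w) (Y w) (T w) := rfl
    rw [h2]
    refine h1.congr_deriv ?_
    rw [hc]
    have := hr.om.ne'
    field_simp
    ring
  have hX0 : Xp S Y T r = 0 := (hr.slope hc).2.2.2
  have hW1 : chid r (S r) (Y r) (T r) / om r (S r) (Y r) (T r) * deriv W 0 ^ 2 = -(2 * R) := by
    have hX2' : HasDerivAt (Xp S Y T) (chid r (S r) (Y r) (T r) / om r (S r) (Y r) (T r)) (W 0) := by
      rw [W0]
      exact hX2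
    have h1 := (hX2'.comp (0 : ℝ) aW.differentiableAt.hasDerivAt).mul
      aW.deriv.differentiableAt.hasDerivAt
    have h2 : HasDerivAt (fun v : ℝ => -(2 * R) * v) (-(2 * R)) 0 := by
      simpa using (hasDerivAt_id (0 : ℝ)).const_mul (-(2 * R))
    have h3 : (Xp S Y T ∘ W) * deriv W =ᶠ[𝓝 0] fun v => -(2 * R) * v := hXW
    have h4 := h1.unique (h2.congr_of_eventuallyEq h3)
    simp only [Function.comp, W0, hX0] at h4
    linear_combination h4
  have hchi0 : chid r (S r) (Y r) (T r) < 0 := by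
    have h1 := hr.om
    by_contra h2
    push Not at h2
    have h3 : 0 ≤ chid r (S r) (Y r) (T r) / om r (S r) (Y r) (T r) * deriv W 0 ^ 2 := by
      positivity
    linarith
  have hW2 : deriv W 0 = -Real.sqrt (2 * R * om r (S r) (Y r) (T r) / -chid r (S r) (Y r) (T r)) := by
    have h1 := hr.om
    have h2 : (-deriv W 0) ^ 2 = 2 * R * om r (S r) (Y r) (T r) / -chid r (S r) (Y r) (T r) := by
      have h3 : -chid r (S r) (Y r) (T r) ≠ 0 := by linarith
      rw [eq_div_iff h3]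
      field_simp at hW1
      linear_combination -hW1
    rw [← h2, Real.sqrt_sq (by linarith)]
    ring
  have hKd : deriv (fun v => H (W v)) 0 = HBd r (S r) (Y r) (T r) * deriv W 0 := by
    have h1 : HasDerivAt H (HBd r (S r) (Y r) (T r)) (W 0) := by
      rw [W0]
      exact loc_HB' hr hc hx1 (hsr r hr hx1)
    exact (h1.comp (0 : ℝ) aW.differentiableAt.hasDerivAt).deriv
  refine ⟨β, ?_, hβe⟩
  have e0 : G (W 0) = pBx 1 r (S r) (Y r) (T r) := by rw [W0]
  have e1 : H (W 0) = HB r (S r) (Y r) (T r) := by rw [W0]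
  have e2 : -(2 / 3 * R * deriv (fun v => H (W v)) 0) = aThree r (S r) (Y r) (T r) := by
    rw [hKd, hW2]
    unfold aThree
    rw [hR]
    ring
  rw [e0, e1, e2] at hβ
  exact hβ

end

end K5X
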